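import Pool.Agent.H17Z.Stm

/-!
# Project Z17, piece BR: from `κ` to its algebraic closure in `Ω`
-/

set_option autoImplicit false
set_option linter.unusedSectionVars false

namespace Pool.Agent.H17Z

open Polynomial

namespace BR

/-- The algebraic closure of a perfect field in a separably closed field is algebraically closed. -/
theorem isAlgClosed (κ Ω : Type) [Field κ] [PerfectField κ] [Field Ω] [Algebra κ Ω]
    [IsSepClosed Ω] : IsAlgClosed (algebraicClosure κ Ω) := by
  have hperf : PerfectField (algebraicClosure κ Ω) := Algebra.IsAlgebraic.perfectField (K := κ)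
  apply IsAlgClosed.of_exists_root
  intro f _ hf
  have hsep : f.Separable := PerfectField.separable_of_irreducible hf
  have hdeg : (f.map (algebraMap (algebraicClosure κ Ω) Ω)).degree ≠ 0 := by
    rw [degree_map]
    exact (degree_pos_of_irreducible hf).ne'
  obtain ⟨x, hx⟩ := IsSepClosed.exists_root _ hdeg hsep.map
  have hx' : aeval x f = 0 := by
    rw [IsRoot.def, eval_map] at hx
    exact hx
  have halg : IsAlgebraic (algebraicClosure κ Ω) x := ⟨f, hf.ne_zero, hx'⟩
  have halg' : IsAlgebraic κ x := halg.restrictScalars κ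
  refine ⟨⟨x, mem_algebraicClosure_iff.mpr halg'⟩, ?_⟩
  apply (algebraMap (algebraicClosure κ Ω) Ω).injective
  rw [map_zero, ← aeval_algebraMap_apply_eq_algebraMap_eval]
  exact hx'

section

variable (κ Ω : Type) [Field κ] [Field Ω] [Algebra (RatFunc κ) Ω] [Algebra κ[X] Ω]
    [IsScalarTower κ[X] (RatFunc κ) Ω] [Algebra κ Ω] [IsScalarTower κ κ[X] Ω]

/-- the variable -/
noncomputable def xx : Ω := algebraMap κ[X] Ω X

theorem aeval_xx (p : κ[X]) : aeval (xx κ Ω) p = algebraMap κ[X] Ω p := by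
  rw [xx, aeval_algebraMap_apply, aeval_X_left_apply]

theorem trans_xx : Transcendental κ (xx κ Ω) := by
  rw [transcendental_iff_injective]
  intro p q h
  rw [aeval_xx, aeval_xx, IsScalarTower.algebraMap_apply κ[X] (RatFunc κ) Ω,
    IsScalarTower.algebraMap_apply κ[X] (RatFunc κ) Ω] at h
  exact IsFractionRing.injective κ[X] (RatFunc κ) ((algebraMap (RatFunc κ) Ω).injective h)

/-- the constants -/
abbrev CC : Type := algebraicClosure κ Ω

theorem trans_xxC : Transcendental (CC κ Ω) (xx κ Ω) := by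
  intro h
  exact trans_xx κ Ω (IsAlgebraic.restrictScalars κ h)

/-- `C[X] → Ω` -/
noncomputable def hX : (CC κ Ω)[X] →+* Ω := (aeval (R := CC κ Ω) (xx κ Ω)).toRingHom

theorem hX_inj : Function.Injective (hX κ Ω) :=
  transcendental_iff_injective.mp (trans_xxC κ Ω)

/-- `C(X) → Ω` -/
noncomputable def hR : RatFunc (CC κ Ω) →+* Ω := IsFractionRing.lift (hX_inj κ Ω)

theorem hR_alg (p : (CC κ Ω)[X]) : hR κ Ω (algebraMap _ _ p) = hX κ Ω p :=
  IsFractionRing.lift_algebraMap (hX_inj κ Ω) p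

theorem hX_C (c : CC κ Ω) : hX κ Ω (C c) = (c : Ω) := by
  show aeval (xx κ Ω) (C c) = _
  rw [aeval_C]
  rfl

theorem hX_X : hX κ Ω X = xx κ Ω := by
  show aeval (xx κ Ω) X = _
  rw [aeval_X]

/-- `κ[X] → C[X]` -/
noncomputable def mX : κ[X] →+* (CC κ Ω)[X] := mapRingHom (algebraMap κ (CC κ Ω))

theorem hX_mX (p : κ[X]) : hX κ Ω (mX κ Ω p) = algebraMap κ[X] Ω p := by
  have h : (hX κ Ω).comp (mX κ Ω) = algebraMap κ[X] Ω := by
    apply Polynomial.ringHom_ext
    · intro a
      rw [RingHom.comp_apply, mX, coe_mapRingHom, map_C, hX_C,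
        ← Polynomial.algebraMap_eq, ← IsScalarTower.algebraMap_apply]
      rfl
    · rw [RingHom.comp_apply, mX, coe_mapRingHom, map_X, hX_X]
      rfl
  exact RingHom.congr_fun h p

theorem mX_inj : Function.Injective (mX κ Ω) :=
  map_injective _ (algebraMap κ (CC κ Ω)).injective

/-- `κ(X) → C(X)` -/
noncomputable def mR : RatFunc κ →+* RatFunc (CC κ Ω) :=
  IsFractionRing.lift (g := (algebraMap (CC κ Ω)[X] (RatFunc (CC κ Ω))).comp (mX κ Ω))
    ((IsFractionRing.injective _ _).comp (mX_inj κ Ω))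

theorem mR_alg (p : κ[X]) : mR κ Ω (algebraMap _ _ p) = algebraMap _ _ (mX κ Ω p) :=
  IsFractionRing.lift_algebraMap (g := (algebraMap (CC κ Ω)[X] (RatFunc (CC κ Ω))).comp
    (mX κ Ω)) ((IsFractionRing.injective _ _).comp (mX_inj κ Ω)) p

theorem hR_mR (z : RatFunc κ) : hR κ Ω (mR κ Ω z) = algebraMap (RatFunc κ) Ω z := by
  have h : (hR κ Ω).comp (mR κ Ω) = algebraMap (RatFunc κ) Ω := by
    apply IsFractionRing.ringHom_ext (A := κ[X])
    intro p
    rw [RingHom.comp_apply, mR_alg, hR_alg, hX_mX, ← IsScalarTower.algebraMap_apply]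
  exact RingHom.congr_fun h z

/-- an automorphism over `κ(X)` which fixes the constants is the identity on `C(X)` -/
theorem fix_hR (σ : Ω ≃ₐ[RatFunc κ] Ω) (hσ : ∀ x : Ω, IsAlgebraic κ x → σ x = x)
    (z : RatFunc (CC κ Ω)) : σ (hR κ Ω z) = hR κ Ω z := by
  have h : ((σ : Ω ≃+* Ω) : Ω →+* Ω).comp (hR κ Ω) = hR κ Ω := by
    apply IsFractionRing.ringHom_ext (A := (CC κ Ω)[X])
    intro p
    have h1 : (((σ : Ω ≃+* Ω) : Ω →+* Ω).comp (hX κ Ω)) = hX κ Ω := by
      apply Polynomial.ringHom_ext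
      · intro a
        rw [RingHom.comp_apply, hX_C]
        exact hσ _ (mem_algebraicClosure_iff.mp a.2)
      · rw [RingHom.comp_apply, hX_X]
        show σ (algebraMap κ[X] Ω X) = algebraMap κ[X] Ω X
        rw [IsScalarTower.algebraMap_apply κ[X] (RatFunc κ) Ω]
        exact σ.commutes _
    rw [RingHom.comp_apply, hR_alg]
    exact RingHom.congr_fun h1 p
  exact RingHom.congr_fun h z

/-- `C[X]` is integral over `κ[X]` -/
theorem mX_int (f : (CC κ Ω)[X]) : (mX κ Ω).IsIntegralElem f := by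
  letI := (mX κ Ω).toAlgebra
  have hC : ∀ c : CC κ Ω, IsIntegral κ[X] (C c : (CC κ Ω)[X]) := by
    intro c
    have hc : IsIntegral κ c := by
      have h1 : IsAlgebraic κ c := Algebra.IsAlgebraic.isAlgebraic c
      exact h1.isIntegral
    obtain ⟨q, hq, hq0⟩ := hc
    refine ⟨q.map C, hq.map _, ?_⟩
    rw [eval₂_map]
    have e : (algebraMap κ[X] (CC κ Ω)[X]).comp C = C.comp (algebraMap κ (CC κ Ω)) := by
      apply RingHom.ext
      intro a
      show mX κ Ω (C a) = _
      rw [mX, coe_mapRingHom, map_C, RingHom.comp_apply]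
    rw [e, ← hom_eval₂, hq0, map_zero]
  have hXX : IsIntegral κ[X] (X : (CC κ Ω)[X]) := by
    have e : (X : (CC κ Ω)[X]) = algebraMap κ[X] (CC κ Ω)[X] X := by
      show _ = mX κ Ω X
      rw [mX, coe_mapRingHom, map_X]
    rw [e]
    exact isIntegral_algebraMap
  show IsIntegral κ[X] f
  induction f using Polynomial.induction_on' with
  | add p q hp hq => exact hp.add hq
  | monomial n a =>
    rw [← C_mul_X_pow_eq_monomial]
    exact (hC a).mul (hXX.pow n)

end

end BR

theorem t_BR : St_BR := by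
  intro κ Ω _ _ _ _ _ _ _ _ hsep p _
  have hsc : IsSepClosed Ω := hsep.sep_closed
  letI aR : Algebra (RatFunc (BR.CC κ Ω)) Ω := (BR.hR κ Ω).toAlgebra
  letI aX : Algebra (BR.CC κ Ω)[X] Ω := (BR.hX κ Ω).toAlgebra
  have hT : IsScalarTower (BR.CC κ Ω)[X] (RatFunc (BR.CC κ Ω)) Ω :=
    IsScalarTower.of_algebraMap_eq fun q => (BR.hR_alg κ Ω q).symm
  have hchar : CharP (BR.CC κ Ω) p := charP_of_injective_algebraMap
    (algebraMap κ (BR.CC κ Ω)).injective p
  letI aM : Algebra (RatFunc κ) (RatFunc (BR.CC κ Ω)) := (BR.mR κ Ω).toAlgebra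
  have hT2 : IsScalarTower (RatFunc κ) (RatFunc (BR.CC κ Ω)) Ω :=
    IsScalarTower.of_algebraMap_eq fun z => (BR.hR_mR κ Ω z).symm
  have hs1 : Algebra.IsSeparable (RatFunc κ) Ω := hsep.separable
  have hs2 : Algebra.IsSeparable (RatFunc (BR.CC κ Ω)) Ω :=
    Algebra.isSeparable_tower_top_of_isSeparable (RatFunc κ) (RatFunc (BR.CC κ Ω)) Ω
  have hs3 : IsSepClosure (RatFunc (BR.CC κ Ω)) Ω := ⟨hsc, hs2⟩
  let ε : Geo κ Ω ≃* (Ω ≃ₐ[RatFunc (BR.CC κ Ω)] Ω) :=
    { toFun := fun σ => AlgEquiv.ofRingEquiv (f := ((σ : Ω ≃ₐ[RatFunc κ] Ω) : Ω ≃+* Ω))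
        (fun z => BR.fix_hR κ Ω σ σ.2 z)
      invFun := fun τ => ⟨AlgEquiv.restrictScalars (RatFunc κ) τ, by
        intro x hx
        have h1 : BR.hR κ Ω (algebraMap _ _ (C (⟨x, mem_algebraicClosure_iff.mpr hx⟩ :
            BR.CC κ Ω))) = x := by
          rw [BR.hR_alg, BR.hX_C]
        have h2 := τ.commutes (algebraMap _ _ (C (⟨x, mem_algebraicClosure_iff.mpr hx⟩ :
            BR.CC κ Ω)))
        have h3 : τ (BR.hR κ Ω (algebraMap _ _ (C (⟨x, mem_algebraicClosure_iff.mpr hx⟩ :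
            BR.CC κ Ω)))) = BR.hR κ Ω (algebraMap _ _ (C (⟨x, mem_algebraicClosure_iff.mpr hx⟩ :
            BR.CC κ Ω))) := h2
        rw [h1] at h3
        exact h3⟩
      left_inv := fun σ => by
        apply Subtype.ext
        apply AlgEquiv.ext
        intro x
        rfl
      right_inv := fun τ => by
        apply AlgEquiv.ext
        intro x
        rfl
      map_mul' := fun σ τ => by
        apply AlgEquiv.ext
        intro x
        rfl }
  refine ⟨BR.CC κ Ω, inferInstance, BR.isAlgClosed κ Ω, hchar, aR, aX, hT, hs3, ε,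
    fun σ x => rfl, fun x => ?_⟩
  letI aXX : Algebra κ[X] (BR.CC κ Ω)[X] := (BR.mX κ Ω).toAlgebra
  have hT3 : IsScalarTower κ[X] (BR.CC κ Ω)[X] Ω :=
    IsScalarTower.of_algebraMap_eq fun q => (BR.hX_mX κ Ω q).symm
  have hint : Algebra.IsIntegral κ[X] (BR.CC κ Ω)[X] := ⟨fun f => BR.mX_int κ Ω f⟩
  constructor
  · intro h
    exact isIntegral_trans x h
  · intro h
    exact h.tower_top

end Pool.Agent.H17Z
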