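import Pool.Agent.H17Z.Stm2

/-!
# Project Z17, part 2, piece CNT: the counting argument
-/

set_option autoImplicit false

namespace Pool.Agent.H17Z

open Polynomial

namespace CNT

/-! ## Arithmetic -/

theorem sq_le_two_pow (k : ℕ) (hk : 4 ≤ k) : k * k ≤ 2 ^ k := by
  induction k, hk using Nat.le_induction with
  | base => norm_num
  | succ k hk ih =>
    rw [pow_succ]
    nlinarith

/-- `2 ^ (2 ^ k)` is not bounded by `τ ^ k * A`. -/
theorem growth (τ A : ℕ) : ∃ k : ℕ, τ ^ k * A < 2 ^ 2 ^ k := by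
  refine ⟨τ + A + 4, ?_⟩
  set k := τ + A + 4 with hk
  have h1 : τ < 2 ^ τ := Nat.lt_two_pow_self
  have h2 : A < 2 ^ A := Nat.lt_two_pow_self
  calc τ ^ k * A ≤ (2 ^ τ) ^ k * 2 ^ A := Nat.mul_le_mul (Nat.pow_le_pow_left h1.le k) h2.le
    _ = 2 ^ (τ * k + A) := by rw [← pow_mul, ← pow_add]
    _ < 2 ^ (2 ^ k) := by
      apply Nat.pow_lt_pow_right (by norm_num)
      calc τ * k + A < k * k := by rw [hk]; nlinarith
        _ ≤ 2 ^ k := sq_le_two_pow k (by omega)

theorem iter (f : ℕ → ℕ) (τ : ℕ) (h : ∀ k, f (k + 1) ≤ τ * f k) (k : ℕ) : f k ≤ τ ^ k * f 0 := by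
  induction k with
  | zero => rw [pow_zero, one_mul]
  | succ k ih =>
    calc f (k + 1) ≤ τ * f k := h k
      _ ≤ τ * (τ ^ k * f 0) := Nat.mul_le_mul_left _ ih
      _ = τ ^ (k + 1) * f 0 := by rw [pow_succ]; ring

theorem contra (f : ℕ → ℕ) (τ : ℕ) (h : ∀ k, f (k + 1) ≤ τ * f k) (h2 : ∀ k, 2 ^ 2 ^ k ≤ f k) :
    False := by
  obtain ⟨k, hk⟩ := growth τ (f 0)
  exact absurd ((h2 k).trans (iter f τ h k)) (not_le.mpr hk)

/-! ## The degree on a free algebra -/

section degree

variable {κ B : Type} [Field κ] [CommRing B] [Algebra κ[X] B] {ι : Type} [Fintype ι]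
  (ω : Module.Basis ι κ[X] B) {r : ℕ}

/-- the degree of an element -/
noncomputable def D1 (x : B) : ℕ := Finset.univ.sup fun i => (ω.repr x i).natDegree

/-- the degree of a vector -/
noncomputable def D (x : Fin r → B) : ℕ := Finset.univ.sup fun i => D1 ω (x i)

theorem D1_le {x : B} {d : ℕ} : D1 ω x ≤ d ↔ ∀ i, (ω.repr x i).natDegree ≤ d := by
  simp [D1]

theorem D_le {x : Fin r → B} {d : ℕ} : D ω x ≤ d ↔ ∀ i, D1 ω (x i) ≤ d := by
  simp [D]

theorem le_D (x : Fin r → B) (i : Fin r) : D1 ω (x i) ≤ D ω x := (D_le ω).mp le_rfl i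

theorem D1_sub (x y : B) : D1 ω (x - y) ≤ max (D1 ω x) (D1 ω y) := by
  rw [D1_le]
  intro i
  rw [map_sub, Finsupp.sub_apply]
  exact (natDegree_sub_le _ _).trans
    (max_le_max ((D1_le ω).mp le_rfl i) ((D1_le ω).mp le_rfl i))

theorem D1_add (x y : B) : D1 ω (x + y) ≤ max (D1 ω x) (D1 ω y) := by
  rw [D1_le]
  intro i
  rw [map_add, Finsupp.add_apply]
  exact (natDegree_add_le _ _).trans
    (max_le_max ((D1_le ω).mp le_rfl i) ((D1_le ω).mp le_rfl i))

theorem D_sub (x y : Fin r → B) : D ω (x - y) ≤ max (D ω x) (D ω y) := by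
  rw [D_le]
  intro i
  exact (D1_sub ω (x i) (y i)).trans (max_le_max (le_D ω x i) (le_D ω y i))

theorem D_smul (g : κ[X]) (x : Fin r → B) : D ω (g • x) ≤ g.natDegree + D ω x := by
  rw [D_le]
  intro i
  rw [Pi.smul_apply, D1_le]
  intro j
  rw [map_smul, Finsupp.smul_apply, smul_eq_mul]
  exact natDegree_mul_le.trans (Nat.add_le_add_left
    (((D1_le ω).mp le_rfl j).trans (le_D ω x i)) _)

/-- finitely many polynomials of bounded degree -/
theorem finite_natDegree_le [Finite κ] (d : ℕ) : Finite {g : κ[X] // g.natDegree ≤ d} := by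
  refine Finite.of_injective (β := Fin (d + 1) → κ) (fun g i => g.1.coeff i) ?_
  intro g h hgh
  apply Subtype.ext
  ext n
  by_cases hn : n ≤ d
  · exact congrFun hgh ⟨n, Nat.lt_succ_of_le hn⟩
  · rw [coeff_eq_zero_of_natDegree_lt (lt_of_le_of_lt g.2 (not_le.mp hn)),
      coeff_eq_zero_of_natDegree_lt (lt_of_le_of_lt h.2 (not_le.mp hn))]

theorem finite_D_le [Finite κ] (d : ℕ) : Finite {x : Fin r → B // D ω x ≤ d} := by
  have := finite_natDegree_le (κ := κ) d
  refine Finite.of_injective (β := Fin r → ι → {g : κ[X] // g.natDegree ≤ d})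
    (fun x i j => ⟨ω.repr (x.1 i) j, (D1_le ω).mp ((D_le ω).mp x.2 i) j⟩) ?_
  intro x y hxy
  apply Subtype.ext
  funext i
  apply ω.repr.injective
  ext1 j
  exact congrArg Subtype.val (congrFun (congrFun hxy i) j)

/-- `p D(x) ≤ D(x ^ p) + c` if the `p`-th powers of the basis are linearly independent. -/
theorem D1_pow (p : ℕ) [Fact p.Prime] [CharP B p] (hω : LinearIndependent κ[X] (fun i => ω i ^ p)) :
    ∃ c : ℕ, ∀ x : B, p * D1 ω x ≤ D1 ω (x ^ p) + c := by
  classical
  set A : Matrix ι ι κ[X] := Matrix.of fun i j => ω.repr (ω i ^ p) j with hA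
  have hdet : A.det ≠ 0 := by
    intro h0
    obtain ⟨v, hv, hvA⟩ := Matrix.exists_vecMul_eq_zero_iff.mpr h0
    apply hv
    rw [Fintype.linearIndependent_iff] at hω
    funext i
    refine hω v ?_ i
    apply ω.repr.injective
    rw [map_zero, map_sum]
    ext1 j
    have h1 := congrFun hvA j
    rw [Finsupp.coe_finsetSum, Finset.sum_apply, Finsupp.zero_apply]
    rw [Matrix.vecMul, dotProduct] at h1
    rw [← h1.trans (Pi.zero_apply j)]
    refine Finset.sum_congr rfl fun l _ => ?_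
    rw [map_smul, Finsupp.smul_apply, smul_eq_mul]
    rfl
  set c : ℕ := Finset.univ.sup fun i => Finset.univ.sup fun j => (A.adjugate i j).natDegree with hc
  have hcle : ∀ i j, (A.adjugate i j).natDegree ≤ c := fun i j =>
    (Finset.le_sup (f := fun j => (A.adjugate i j).natDegree) (Finset.mem_univ j)).trans
      (Finset.le_sup (f := fun i => Finset.univ.sup fun j => (A.adjugate i j).natDegree)
        (Finset.mem_univ i))
  refine ⟨c, fun x => ?_⟩
  -- coordinates
  have hx : x ^ p = ∑ i, (ω.repr x i) ^ p • ω i ^ p := by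
    conv_lhs => rw [← ω.sum_repr x]
    rw [sum_pow_char]
    refine Finset.sum_congr rfl fun i _ => ?_
    rw [_root_.smul_pow]
  have hy : ∀ j, ω.repr (x ^ p) j = (Matrix.vecMul (fun i => (ω.repr x i) ^ p) A) j := by
    intro j
    rw [hx, map_sum, Finsupp.coe_finsetSum, Finset.sum_apply, Matrix.vecMul, dotProduct]
    refine Finset.sum_congr rfl fun l _ => ?_
    rw [map_smul, Finsupp.smul_apply, smul_eq_mul]
    rfl
  have hz : ∀ i, ∑ j, ω.repr (x ^ p) j * A.adjugate j i = A.det * (ω.repr x i) ^ p := by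
    intro i
    have h1 : Matrix.vecMul (Matrix.vecMul (fun i => (ω.repr x i) ^ p) A) A.adjugate =
        A.det • fun i => (ω.repr x i) ^ p := by
      rw [Matrix.vecMul_vecMul, Matrix.mul_adjugate, Matrix.vecMul_smul, Matrix.vecMul_one]
    have h2 := congrFun h1 i
    rw [Matrix.vecMul, dotProduct] at h2
    rw [Pi.smul_apply, smul_eq_mul] at h2
    rw [← h2]
    exact Finset.sum_congr rfl fun j _ => by rw [hy]
  -- degrees
  have h1 : ∀ i, p * (ω.repr x i).natDegree ≤ D1 ω (x ^ p) + c := by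
    intro i
    by_cases h0 : ω.repr x i = 0
    · rw [h0, natDegree_zero, mul_zero]
      exact Nat.zero_le _
    · have h2 : (A.det * (ω.repr x i) ^ p).natDegree =
          A.det.natDegree + p * (ω.repr x i).natDegree := by
        rw [natDegree_mul hdet (pow_ne_zero _ h0), natDegree_pow]
      have h3 : (A.det * (ω.repr x i) ^ p).natDegree ≤ D1 ω (x ^ p) + c := by
        rw [← hz]
        refine natDegree_sum_le_of_forall_le _ _ fun j _ => ?_
        exact natDegree_mul_le.trans (Nat.add_le_add ((D1_le ω).mp le_rfl j) (hcle j i))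
      omega
  rcases isEmpty_or_nonempty ι with hι | hι
  · have h2 : D1 ω x = 0 := by
      rw [D1, Finset.univ_eq_empty, Finset.sup_empty]
      rfl
    rw [h2, mul_zero]
    exact Nat.zero_le _
  · obtain ⟨i, _, hi⟩ := Finset.exists_mem_eq_sup Finset.univ Finset.univ_nonempty
      (fun i => (ω.repr x i).natDegree)
    rw [D1, hi]
    exact h1 i

theorem D1_wp (p : ℕ) [Fact p.Prime] [CharP B p]
    (hω : LinearIndependent κ[X] (fun i => ω i ^ p)) :
    ∃ c : ℕ, ∀ (w : Fin r → B) (d : ℕ), D ω (fun i => w i ^ p - w i) ≤ d →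
      2 * D ω w ≤ max (2 * c) (d + c) := by
  obtain ⟨c, hc⟩ := D1_pow ω p hω
  refine ⟨c, fun w d hd => ?_⟩
  have hp : 2 ≤ p := (Fact.out : p.Prime).two_le
  rw [D_le] at hd
  have h1 : ∀ i, 2 * D1 ω (w i) ≤ max (2 * c) (d + c) := by
    intro i
    have h2 := hc (w i)
    have h3 : D1 ω (w i ^ p) ≤ max d (D1 ω (w i)) := by
      have h4 := D1_add ω (w i ^ p - w i) (w i)
      rw [sub_add_cancel] at h4
      exact h4.trans (max_le_max (hd i) le_rfl)
    have h5 : 2 * D1 ω (w i) ≤ p * D1 ω (w i) := Nat.mul_le_mul_right _ hp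
    omega
  rcases isEmpty_or_nonempty (Fin r) with hι | hι
  · have h2 : D ω w = 0 := by
      rw [D, Finset.univ_eq_empty, Finset.sup_empty]
      rfl
    rw [h2, mul_zero]
    exact Nat.zero_le _
  · obtain ⟨i, _, hi⟩ := Finset.exists_mem_eq_sup Finset.univ Finset.univ_nonempty
      (fun i => D1 ω (w i))
    rw [D, hi]
    exact h1 i

/-- the vectors of `M` of bounded degree -/
abbrev Md (M : Submodule κ[X] (Fin r → B)) (d : ℕ) : Type := {x : Fin r → B // x ∈ M ∧ D ω x ≤ d}

theorem finite_Md [Finite κ] (M : Submodule κ[X] (Fin r → B)) (d : ℕ) : Finite (Md ω M d) := by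
  have := finite_D_le (r := r) ω d
  exact Finite.of_injective (β := {x : Fin r → B // D ω x ≤ d}) (fun x => ⟨x.1, x.2.2⟩)
    fun x y h => Subtype.ext (congrArg (fun z => z.1) h)

omit [Fintype ι] in
include ω in
theorem smul_inj {m : Fin r → B} (hm : m ≠ 0) {g h : κ[X]} (hgh : g • m = h • m) : g = h := by
  obtain ⟨i, hi⟩ : ∃ i, m i ≠ 0 := by
    by_contra hcon
    push Not at hcon
    exact hm (funext hcon)
  obtain ⟨j, hj⟩ : ∃ j, ω.repr (m i) j ≠ 0 := by
    by_contra hcon
    push Not at hcon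
    apply hi
    apply ω.repr.injective
    rw [map_zero]
    ext1 j
    exact hcon j
  have h1 := congrArg (fun x => ω.repr (x i) j) hgh
  simp only [Pi.smul_apply, map_smul, Finsupp.smul_apply, smul_eq_mul] at h1
  exact mul_right_cancel₀ hj h1

theorem lower [Finite κ] (M : Submodule κ[X] (Fin r → B)) {m : Fin r → B} (hmM : m ∈ M)
    (hm : m ≠ 0) (n d : ℕ) (hd : n + D ω m ≤ d) : 2 ^ n ≤ Nat.card (Md ω M d) := by
  have := finite_Md ω M d
  have h1 : Nat.card (degreeLT κ n) = Nat.card κ ^ n := by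
    rw [Nat.card_congr (degreeLTEquiv κ n).toEquiv, Nat.card_fun, Nat.card_fin]
  have h2 : 2 ≤ Nat.card κ := Finite.one_lt_card
  refine (Nat.pow_le_pow_left h2 n).trans ?_
  rw [← h1]
  refine Nat.card_le_card_of_injective (β := Md ω M d)
    (fun g : degreeLT κ n => ⟨(g : κ[X]) • m, M.smul_mem _ hmM, ?_⟩) ?_
  · refine (D_smul ω _ _).trans (le_trans (Nat.add_le_add_right ?_ _) hd)
    have h3 := mem_degreeLT.mp g.2
    by_cases h0 : (g : κ[X]) = 0
    · rw [h0, natDegree_zero]
      exact Nat.zero_le _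
    · exact ((natDegree_lt_iff_degree_lt h0).mpr h3).le
  · intro g h hgh
    exact Subtype.ext (smul_inj ω hm (congrArg (fun z => z.1) hgh))

theorem cntMain [Finite κ] (p : ℕ) [Fact p.Prime] [CharP B p]
    (hω : LinearIndependent κ[X] (fun i => ω i ^ p)) (M : Submodule κ[X] (Fin r → B))
    (hM : M ≠ ⊥) (T : Set (Fin r → B)) (hT : T.Finite)
    (h : ∀ w : Fin r → B, (fun i => w i ^ p - w i) ∈ M → ∃ t ∈ T, w - t ∈ M) :
    ∃ m ∈ M, ∀ w : Fin r → B, (fun i => w i ^ p - w i) ≠ m := by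
  classical
  by_contra hcon
  push Not at hcon
  obtain ⟨m₀, hm₀M, hm₀⟩ := M.ne_bot_iff.mp hM
  obtain ⟨c₀, hc₀⟩ := D1_wp (r := r) ω p hω
  have : Finite T := hT
  obtain ⟨c₁, hc₁⟩ := (hT.image (D ω)).bddAbove
  obtain ⟨c, hc⟩ : ∃ c : ℕ, c = c₀ + D ω m₀ + c₁ := ⟨_, rfl⟩
  choose! W hW using hcon
  have hτ : ∀ m ∈ M, ∃ t ∈ T, W m - t ∈ M := fun m hm => h (W m) (by rw [hW m hm]; exact hm)
  choose! τ hτT hτ using hτ
  have hstep : ∀ k : ℕ, Nat.card (Md ω M (c + 2 ^ (k + 1))) ≤
      Nat.card T * Nat.card (Md ω M (c + 2 ^ k)) := by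
    intro k
    have := finite_Md ω M (c + 2 ^ k)
    rw [← Nat.card_prod]
    refine Nat.card_le_card_of_injective (β := T × Md ω M (c + 2 ^ k))
      (fun m => (⟨τ m.1, hτT m.1 m.2.1⟩, ⟨W m.1 - τ m.1, hτ m.1 m.2.1, ?_⟩)) ?_
    · refine (D_sub ω _ _).trans (max_le ?_ ?_)
      · have h1 := hc₀ (W m.1) (c + 2 ^ (k + 1)) (by rw [hW m.1 m.2.1]; exact m.2.2)
        have h2 : 2 ^ (k + 1) = 2 * 2 ^ k := by ring
        omega
      · have h1 : D ω (τ m.1) ≤ c₁ := hc₁ ⟨_, hτT m.1 m.2.1, rfl⟩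
        have h2 : 0 < 2 ^ k := Nat.two_pow_pos k
        omega
    · intro x y hxy
      rw [Prod.mk.injEq] at hxy
      have h1 : τ x.1 = τ y.1 := congrArg (fun z => z.1) hxy.1
      have h2 : W x.1 - τ x.1 = W y.1 - τ y.1 := congrArg (fun z => z.1) hxy.2
      rw [h1] at h2
      have h3 : W x.1 = W y.1 := sub_left_injective h2
      apply Subtype.ext
      rw [← hW x.1 x.2.1, ← hW y.1 y.2.1, h3]
  exact contra (fun k => Nat.card (Md ω M (c + 2 ^ k))) (Nat.card T) hstep
    (fun k => lower ω M hm₀M hm₀ (2 ^ k) (c + 2 ^ k) (by omega))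

end degree

end CNT

open CNT

theorem t_CNT : St_CNT := by
  intro p hp κ L _ _ _ _ _ _ _ _ _ r M hM T hT h
  classical
  have hexp : ExpChar (RatFunc κ) p := by
    have : CharP (RatFunc κ) p :=
      charP_of_injective_ringHom (f := algebraMap κ (RatFunc κ)) (RingHom.injective _) p
    exact ExpChar.prime hp.out
  have hcL : CharP L p := charP_of_injective_ringHom
    (f := (algebraMap (RatFunc κ) L).comp (algebraMap κ (RatFunc κ))) (RingHom.injective _) p
  have hcB : CharP (integralClosure κ[X] L) p :=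
    (RingHom.charP_iff (algebraMap (integralClosure κ[X] L) L) Subtype.val_injective p).mpr hcL
  have hinj : Function.Injective (algebraMap κ[X] L) := by
    rw [IsScalarTower.algebraMap_eq κ[X] (RatFunc κ) L]
    exact (algebraMap (RatFunc κ) L).injective.comp (IsFractionRing.injective κ[X] (RatFunc κ))
  have htf : FaithfulSMul κ[X] L := (faithfulSMul_iff_algebraMap_injective κ[X] L).mpr hinj
  have hfree : Module.Free κ[X] (integralClosure κ[X] L) :=
    IsIntegralClosure.module_free κ[X] (RatFunc κ) L (integralClosure κ[X] L)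
  have hfin : Module.Finite κ[X] (integralClosure κ[X] L) :=
    IsIntegralClosure.finite κ[X] (RatFunc κ) L (integralClosure κ[X] L)
  set ω := Module.Free.chooseBasis κ[X] (integralClosure κ[X] L) with hωdef
  have hω : LinearIndependent κ[X] (fun i => ω i ^ p) := by
    have h1 : LinearIndependent κ[X] (fun i => ((ω i : integralClosure κ[X] L) : L)) :=
      ω.linearIndependent.map' (integralClosure κ[X] L).val.toLinearMap
        (LinearMap.ker_eq_bot_of_injective Subtype.val_injective)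
    rw [LinearIndependent.iff_fractionRing κ[X] (RatFunc κ)] at h1
    have h2 := h1.map_pow_expChar_pow_of_isSeparable p 1
    rw [← LinearIndependent.iff_fractionRing κ[X] (RatFunc κ)] at h2
    refine LinearIndependent.of_comp (integralClosure κ[X] L).val.toLinearMap ?_
    simp only [pow_one] at h2
    exact h2
  exact cntMain ω p hω M hM T hT h

end Pool.Agent.H17Z
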