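import Mathlib

/-!
# Project Z17 (helper17, hard problem MP_7f581e_nt): statements (NOT results)

THEOREM (goal). Let `κ` be a finite field of characteristic `p`, `E` a finite group, `p(E)` the
subgroup generated by the elements of `p`-power order, `E / p(E)` cyclic, and `N` a normal subgroup
of order prime to `p` whose elements commute with those of `p(E)`. Then `E` is the group of an
extension of `κ(X)` unramified over the affine line if and only if `E / N` is.

Notation. `Ω` is a separable closure of `K = κ(X)`, `G = Gal(Ω/K)` is `Ω ≃ₐ[RatFunc κ] Ω`, the ring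
`𝒪` of the elements of `Ω` which are integral over `κ[X]` is `integralClosure κ[X] Ω`, and a place is
a maximal ideal `Q` of `𝒪`. The inertia group of `Q` consists of the `σ` with `σ x - x ∈ Q` for all
`x ∈ 𝒪`. `Geo` is the group of the `σ` which fix all elements of `Ω` algebraic over `κ`. All
homomorphisms below go from `G` or `Geo` to finite groups; `Cont` says that they are continuous,
`Unr` that they kill the inertia groups.

Everything needs only Mathlib. Universe: everything in `Type`.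
-/

set_option autoImplicit false

namespace Pool.Agent.H17Z

open Polynomial

section defs

variable (k Ω : Type) [Field k] [Field Ω] [Algebra (RatFunc k) Ω] [Algebra k[X] Ω]
  [IsScalarTower k[X] (RatFunc k) Ω] [Algebra k Ω] [IsScalarTower k k[X] Ω]

/-- `σ` is in the inertia group of the ideal `Q` of `𝒪`. -/
def InI (Q : Ideal (integralClosure k[X] Ω)) (σ : Ω ≃ₐ[RatFunc k] Ω) : Prop :=
  ∀ x y : integralClosure k[X] Ω, (y : Ω) = σ (x : Ω) → y - x ∈ Q

/-- The geometric Galois group: the elements of `Ω` algebraic over `k` are fixed. -/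
def Geo : Subgroup (Ω ≃ₐ[RatFunc k] Ω) where
  carrier := {σ | ∀ x : Ω, IsAlgebraic k x → σ x = x}
  one_mem' := fun _ _ => rfl
  mul_mem' := fun {σ τ} hσ hτ x hx => by
    rw [AlgEquiv.mul_apply, hτ x hx, hσ x hx]
  inv_mem' := fun {σ} hσ x hx => by
    have h1 : σ⁻¹ (σ x) = x := by
      rw [← AlgEquiv.mul_apply, inv_mul_cancel, AlgEquiv.one_apply]
    rw [hσ x hx] at h1
    exact h1

variable {k Ω}

/-- A homomorphism from a subgroup `A` of the Galois group is continuous: it is trivial on the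
elements which fix a certain finite set. -/
def Cont {A : Subgroup (Ω ≃ₐ[RatFunc k] Ω)} {H : Type} [Group H] (f : A →* H) : Prop :=
  ∃ S : Finset Ω, ∀ σ : A, (∀ x ∈ S, (σ : Ω ≃ₐ[RatFunc k] Ω) x = x) → f σ = 1

/-- A homomorphism from a subgroup `A` of the Galois group is unramified over the affine line: it is
trivial on the elements of the inertia groups of the maximal ideals of `𝒪`. -/
def Unr {A : Subgroup (Ω ≃ₐ[RatFunc k] Ω)} {H : Type} [Group H] (f : A →* H) : Prop :=
  ∀ Q : Ideal (integralClosure k[X] Ω), Q.IsMaximal → ∀ σ : A, InI k Ω Q σ → f σ = 1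

end defs

/-- `H` is the group of a Galois extension of `k(X)` unramified over `k[X]`, in the form of
`Pool/Agent/Y140/AW/Stm3.lean: St_unr3`: for every `τ ≠ 1` the elements `τ b - b` (`b` integral over
`k[X]`) generate the unit ideal, that is, `τ` is in no inertia group. -/
def UA (k H : Type) [Field k] [Group H] : Prop :=
  ∃ (L : Type) (_ : Field L) (_ : Algebra (RatFunc k) L) (_ : Algebra k[X] L)
    (_ : IsScalarTower k[X] (RatFunc k) L) (_ : FiniteDimensional (RatFunc k) L)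
    (_ : IsGalois (RatFunc k) L), Nonempty ((L ≃ₐ[RatFunc k] L) ≃* H) ∧
    ∀ τ : L ≃ₐ[RatFunc k] L, τ ≠ 1 → ∃ (m : ℕ) (b c : Fin m → L), (∀ i, IsIntegral k[X] (b i)) ∧
      (∀ i, IsIntegral k[X] (c i)) ∧ ∑ i, c i * (τ (b i) - b i) = 1

/-! ## Translation -/

/-- SURJ: inertia groups of a finite level lift. PROOF: `L` is an intermediate field, finite Galois
over `K`; `q` the ideal of the elements of `Q` in `L`. If `τ` is an automorphism of `L` with
`τ x - x ∈ Q` for all integral `x ∈ L`, take any `τ₁ ∈ G` over `τ`. The primes `τ₁ Q` and `Q` of `𝒪`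
have the same intersection with `𝒪 ∩ L`, so there is `n ∈ Gal(Ω/L)` with `n τ₁ Q = Q`
(`Algebra.IsInvariant.exists_smul_of_under_eq_of_profinite`, for the profinite group `Gal(Ω/L)`
acting on `𝒪` with invariants `𝒪 ∩ L`). Then `n τ₁` acts on the residue field `𝒪 / Q`, trivially on
`(𝒪 ∩ L) / q`, and by `Ideal.Quotient.stabilizerHom_surjective_of_profinite` there is
`n₂ ∈ Gal(Ω/L)` with `n₂ Q = Q` and the same action; `σ = n₂⁻¹ n τ₁`. -/
def St_SURJ : Prop :=
  ∀ (k Ω : Type) [Field k] [Field Ω] [Algebra (RatFunc k) Ω] [Algebra k[X] Ω]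
    [IsScalarTower k[X] (RatFunc k) Ω] [IsSepClosure (RatFunc k) Ω]
    (L : IntermediateField (RatFunc k) Ω) [FiniteDimensional (RatFunc k) L]
    [IsGalois (RatFunc k) L] (Q : Ideal (integralClosure k[X] Ω)), Q.IsMaximal →
    ∀ τ : L ≃ₐ[RatFunc k] L,
      (∀ (x y : integralClosure k[X] Ω) (z : L), (x : Ω) = z → (y : Ω) = τ z → y - x ∈ Q) →
      ∃ σ : Ω ≃ₐ[RatFunc k] Ω, InI k Ω Q σ ∧ ∀ z : L, σ (z : Ω) = τ z

/-- TRA: an extension of `k(X)` unramified over `k[X]` gives a homomorphism. PROOF: embed `L` in `Ω`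
(`IsSepClosed.lift`), restrict automorphisms to `L` (surjective, `AlgEquiv.restrictNormalHom`). If
`σ ∈ I_Q` restricts to `τ ≠ 1`, then `1 = ∑ c i * (τ (b i) - b i) ∈ Q` (the `b i`, `c i` are in `𝒪`),
a contradiction. -/
def St_TRA : Prop :=
  ∀ (k Ω : Type) [Field k] [Field Ω] [Algebra (RatFunc k) Ω] [Algebra k[X] Ω]
    [IsScalarTower k[X] (RatFunc k) Ω] [IsSepClosure (RatFunc k) Ω] (H : Type) [Group H],
    UA k H → ∃ f : (⊤ : Subgroup (Ω ≃ₐ[RatFunc k] Ω)) →* H, Function.Surjective f ∧ Cont f ∧ Unr f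

/-- TRB: the converse, with SURJ as hypothesis (`theorem t_TRB : St_SURJ → St_TRB`). PROOF: `L` is the
fixed field of the kernel of `f` (the kernel is open by `Cont`, so `L` is finite Galois over `K` and
`Gal(L/K) ≃ G / ker f ≃ H`, `InfiniteGalois`). Let `τ ≠ 1`. If the ideal of
`B = integralClosure k[X] L` generated by the `τ b - b` is not `1`, it is in a maximal ideal `q`; let
`Q` be a maximal ideal of `𝒪` over `q` (`𝒪` is integral over `B`,
`Ideal.exists_ideal_over_maximal_of_isIntegral`); by SURJ some `σ ∈ I_Q` restricts to `τ`, and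
`f σ ≠ 1`, a contradiction to `Unr f`. So the ideal is `1` (`Submodule.mem_span_set'`, as at the end of
`Pool/Agent/Y140/AW/Unr3.lean`). -/
def St_TRB : Prop :=
  ∀ (k Ω : Type) [Field k] [Field Ω] [Algebra (RatFunc k) Ω] [Algebra k[X] Ω]
    [IsScalarTower k[X] (RatFunc k) Ω] [IsSepClosure (RatFunc k) Ω] (H : Type) [Group H]
    [Finite H] (f : (⊤ : Subgroup (Ω ≃ₐ[RatFunc k] Ω)) →* H), Function.Surjective f → Cont f →
    Unr f → UA k H

/-! ## The Frobenius automorphism and extension of homomorphisms -/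

/-- FROB: there is `F ∈ G` which is the Frobenius automorphism on the elements of `Ω` algebraic over
`κ`. PROOF: the elements of `Ω` algebraic over `κ` form an intermediate field `κ̄` of `Ω/κ`
(`algebraicClosure κ Ω`), algebraically closed because `Ω` is separably closed and `κ` perfect.
Equivalent: for every finite normal subextension the map exists; e.g. extend the automorphism
`a ↦ a ^ q` of `κ̄` to `κ̄(X) = Frac(κ̄[X])` by `X ↦ X` and then to `Ω`, which is a separable closure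
of `κ̄(X)` (`IsSepClosed.lift`, it is bijective by `Algebra.IsAlgebraic.algHom_bijective`-type
lemmas). -/
def St_FROB : Prop :=
  ∀ (κ Ω : Type) [Field κ] [Fintype κ] [Field Ω] [Algebra (RatFunc κ) Ω] [Algebra κ[X] Ω]
    [IsScalarTower κ[X] (RatFunc κ) Ω] [Algebra κ Ω] [IsScalarTower κ κ[X] Ω]
    [IsSepClosure (RatFunc κ) Ω],
    ∃ F : Ω ≃ₐ[RatFunc κ] Ω, ∀ x : Ω, IsAlgebraic κ x → F x = x ^ Fintype.card κ

/-- The subgroup of the automorphisms which fix all `x` with `x ^ (q ^ m) = x` (the field with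
`q ^ m` elements). -/
def Wk (κ Ω : Type) [Field κ] [Fintype κ] [Field Ω] [Algebra (RatFunc κ) Ω] (m : ℕ) :
    Subgroup (Ω ≃ₐ[RatFunc κ] Ω) where
  carrier := {σ | ∀ x : Ω, x ^ (Fintype.card κ ^ m) = x → σ x = x}
  one_mem' := fun _ _ => rfl
  mul_mem' := fun {σ τ} hσ hτ x hx => by
    rw [AlgEquiv.mul_apply, hτ x hx, hσ x hx]
  inv_mem' := fun {σ} hσ x hx => by
    have h1 : σ⁻¹ (σ x) = x := by
      rw [← AlgEquiv.mul_apply, inv_mul_cancel, AlgEquiv.one_apply]
    rw [hσ x hx] at h1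
    exact h1

/-- FIN: facts on `Wk`, for the Frobenius automorphism `F` of FROB. (1) `Wk m` is normal and contains
`Geo` (`m ≥ 1`); (2) `F ^ j ∈ Wk m` if and only if `m ∣ j` (`m ≥ 1`); (3) for every `σ` and `m ≥ 1` there is
`j` with `F ^ (-j) σ ∈ Wk m` (the Galois group of the field with `q ^ m` elements is generated by
the Frobenius automorphism); (4) if `S` is a finite subset of `Ω` there is `m ≥ 1` such that every
`σ ∈ Wk m` is a product `g v` with `g ∈ Geo` and `v` fixing `S` pointwise. PROOF of (4): let `M` be a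
finite Galois extension of `K` in `Ω` containing `S`, and `q ^ m` the number of elements of the field
of constants of `M`, or a power of it; if `σ ∈ Wk m`, then the restrictions of `σ` to `M` and of the
identity to `κ̄(X)` agree on the intersection `M ∩ κ̄(X)` (which is `κ_m(X)` with `κ_m = M ∩ κ̄`, a
finite extension of `K` in `κ̄(X)` being of the form `κ'(X)`: PROOF: it is contained in `κ''(X)`,
`κ''` finite, whose group over `K` is cyclic, and its subfields are the `κ'(X)`), so there is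
`g ∈ Geo` which coincides with `σ` on `M`; `v = g⁻¹ σ`. In (4) it may be easier to argue with groups:
the image of `Geo` in `Gal(M/K)` is normal, its fixed field `M'` is contained in `κ̄(X)` (every element
of `Ω` fixed by `Geo` is in `κ̄(X)`), hence in `κ''(X)` for a finite extension `κ''` of `κ`; take for
`m` the degree of `κ''`. Then `σ ∈ Wk m` fixes `κ''` and `X`, so `M'`, and `σ` restricted to `M` is in
the image of `Geo`. -/
def St_FIN : Prop :=
  ∀ (κ Ω : Type) [Field κ] [Fintype κ] [Field Ω] [Algebra (RatFunc κ) Ω] [Algebra κ[X] Ω]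
    [IsScalarTower κ[X] (RatFunc κ) Ω] [Algebra κ Ω] [IsScalarTower κ κ[X] Ω]
    [IsSepClosure (RatFunc κ) Ω] (F : Ω ≃ₐ[RatFunc κ] Ω),
    (∀ x : Ω, IsAlgebraic κ x → F x = x ^ Fintype.card κ) →
    (Geo κ Ω).Normal ∧
    (∀ m : ℕ, 0 < m → (Wk κ Ω m).Normal ∧ Geo κ Ω ≤ Wk κ Ω m) ∧
    (∀ m : ℕ, 0 < m → ∀ j : ℕ, F ^ j ∈ Wk κ Ω m ↔ m ∣ j) ∧
    (∀ m : ℕ, 0 < m → ∀ σ : Ω ≃ₐ[RatFunc κ] Ω, ∃ j : ℕ, (F ^ j)⁻¹ * σ ∈ Wk κ Ω m) ∧
    ∀ S : Finset Ω, ∃ m : ℕ, 0 < m ∧ ∀ σ ∈ Wk κ Ω m, ∃ g ∈ Geo κ Ω,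
      ∀ x ∈ S, g x = σ x

/-- EXT: extension of a homomorphism (pure group theory). `G` a group, `A` normal, `F ∈ G`, `W m`
(`m ≥ 1`) normal subgroups containing `A` as in FIN, `V` a normal subgroup such that
`W m₀ ≤ A ⊔ V` (see FIN (4)), `ψ : A → E` a homomorphism to a finite group,
trivial on `A ∩ V`, and `e ∈ E` with `ψ (F g F⁻¹) = e ψ(g) e⁻¹`. Then `ψ` extends to `Ψ : G → E` with
`Ψ F = e`, trivial on `V ∩ W m` for some `m ≥ 1`. PROOF: write `F ^ m₀ = g₀ v₀` with
`g₀ ∈ A`, `v₀ ∈ V` (`F ^ m₀ ∈ W m₀ ≤ A V`). Let `n = |E|`, `m = m₀ n`. Then `F ^ m = (g₀ v₀) ^ n` is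
congruent to `g₁ = g₀ ^ n` modulo `V`, and `ψ(g₁) = ψ(g₀) ^ n = 1`, `e ^ m = 1`. Every `x ∈ G` is
`x = F ^ j w`, `w ∈ W m ≤ W m₀ ≤ A V`, `w = g v`, `g ∈ A`, `v ∈ V`: define `Ψ x = e ^ j ψ(g)`. Well
defined: if `F ^ j g v = F ^ j' g' v'` (`j ≤ j'`) then `F ^ (j' - j) = g v v'⁻¹ g'⁻¹ ∈ W m` (if
`v, v' ∈ W m`, which follows from `v = g⁻¹ w`), so `j' - j = m i`, and `F ^ (m i) ≡ g₁ ^ i` modulo
`V`, so `g g'⁻¹ ≡ g₁ ^ i` modulo `V` and `ψ(g) = ψ(g')` (`ψ` kills `A ∩ V`), `e ^ j = e ^ j'`.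
Multiplicative: `F ^ j g v F ^ k h u ≡ F ^ (j + k) (F ^ (-k) g F ^ k) h` modulo `V`, and
`ψ(F ^ (-k) g F ^ k) = e ^ (-k) ψ(g) e ^ k`. (Another way: the subgroup of `G × E` generated by
`(F, e)` and the `(g v, ψ(g))` with `g ∈ A`, `v ∈ V`, `g v ∈ W m` is the graph of `Ψ`.) -/
def St_EXT : Prop :=
  ∀ (G : Type) [Group G] (A : Subgroup G) [A.Normal] (F : G) (W : ℕ → Subgroup G),
    (∀ m, (W m).Normal ∧ A ≤ W m) → (∀ m, 0 < m → ∀ j : ℕ, F ^ j ∈ W m ↔ m ∣ j) →
    (∀ m, 0 < m → ∀ x : G, ∃ j : ℕ, (F ^ j)⁻¹ * x ∈ W m) →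
    (∀ m n, W (m * n) ≤ W m) →
    ∀ (V : Subgroup G) [V.Normal] (m₀ : ℕ), 0 < m₀ → W m₀ ≤ A ⊔ V →
    ∀ (E : Type) [Group E] [Finite E] (ψ : A →* E) (e : E),
      (∀ g : A, (g : G) ∈ V → ψ g = 1) →
      (∀ (g h : A), (h : G) = F * g * F⁻¹ → ψ h = e * ψ g * e⁻¹) →
      ∃ Ψ : G →* E, (∀ g : A, Ψ g = ψ g) ∧ Ψ F = e ∧ ∃ m, 0 < m ∧ ∀ x ∈ V, x ∈ W m → Ψ x = 1

/-! ## The geometric group -/

/-- BR: from `κ` to its algebraic closure `C` in `Ω`. PROOF: `C = algebraicClosure κ Ω` (an
intermediate field of `Ω / κ`), algebraically closed since `Ω` is separably closed and `κ` is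
perfect; `RatFunc C → Ω` is the extension of `C → Ω`, `X ↦ X` (`RatFunc.liftAlgHom` or
`IsFractionRing.lift`; injective as `X` is transcendental over `κ`, hence over `C`); `Ω` is separable
over it. An automorphism of `Ω` over `RatFunc κ` is in `Geo` iff it fixes `RatFunc C`; an element
is integral over `C[X]` iff it is integral over `κ[X]` (`C[X]` is integral over `κ[X]`), so the rings
`𝒪` have the same elements, and the inertia groups agree. -/
def St_BR : Prop :=
  ∀ (κ Ω : Type) [Field κ] [Finite κ] [Field Ω] [Algebra (RatFunc κ) Ω] [Algebra κ[X] Ω]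
    [IsScalarTower κ[X] (RatFunc κ) Ω] [Algebra κ Ω] [IsScalarTower κ κ[X] Ω]
    [IsSepClosure (RatFunc κ) Ω] (p : ℕ) [CharP κ p],
    ∃ (C : Type) (_ : Field C) (_ : IsAlgClosed C) (_ : CharP C p) (_ : Algebra (RatFunc C) Ω)
      (_ : Algebra C[X] Ω) (_ : IsScalarTower C[X] (RatFunc C) Ω) (_ : IsSepClosure (RatFunc C) Ω)
      (ε : Geo κ Ω ≃* (Ω ≃ₐ[RatFunc C] Ω)),
      (∀ (σ : Geo κ Ω) (x : Ω), ε σ x = (σ : Ω ≃ₐ[RatFunc κ] Ω) x) ∧
      (∀ x : Ω, IsIntegral C[X] x ↔ IsIntegral κ[X] x)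

/-- A continuous homomorphism from the whole Galois group. -/
def ContT {k Ω : Type} [Field k] [Field Ω] [Algebra (RatFunc k) Ω] {H : Type} [Group H]
    (f : (Ω ≃ₐ[RatFunc k] Ω) →* H) : Prop :=
  ∃ S : Finset Ω, ∀ σ : Ω ≃ₐ[RatFunc k] Ω, (∀ x ∈ S, σ x = x) → f σ = 1

/-- An unramified homomorphism from the whole Galois group. -/
def UnrT {k Ω : Type} [Field k] [Field Ω] [Algebra (RatFunc k) Ω] [Algebra k[X] Ω] {H : Type}
    [Group H] (f : (Ω ≃ₐ[RatFunc k] Ω) →* H) : Prop :=
  ∀ Q : Ideal (integralClosure k[X] Ω), Q.IsMaximal → ∀ σ : Ω ≃ₐ[RatFunc k] Ω, InI k Ω Q σ → f σ = 1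

/-- KUM: the affine line over an algebraically closed field has no unramified cyclic coverings of
degree `ℓ ≠ p` (`theorem t_KUM : St_SURJ → St_KUM`). PROOF (no valuations): let `χ` be nontrivial,
`ζ ∈ C` a primitive `ℓ`-th root of unity, and for `i ∈ ℤ/ℓ` let `B_i` be the set of the `x ∈ 𝒪` with
`σ x = ζ ^ (i χ(σ)) x` for all `σ`; `B_i B_j ⊆ B_(i+j)`, `B_0 = C[X]` (integral elements of `C(X)`),
and every `z ∈ 𝒪` fixed by `ker χ` is the sum of its components
`z_i = ℓ⁻¹ ∑_j ζ ^ (-ij) τ ^ j z ∈ B_i` (`χ(τ) = 1`). (a) For every maximal ideal `Q` of `𝒪` the set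
`B_1` is not contained in `Q`: otherwise `B_i ⊆ Q` for all `i ≠ 0` (`x ∈ B_i`, `i k = 1` in `ℤ/ℓ`, so
`x ^ k ∈ B_1 ⊆ Q`), so `τ z - z = ∑_(i ≠ 0) (ζ ^ i - 1) z_i ∈ Q` for all `z ∈ 𝒪` fixed by `ker χ`, and
by SURJ for the fixed field of `ker χ` some `σ ∈ I_Q` has `χ(σ) = χ(τ) ≠ 0`, a contradiction. (b) Let
`x ∈ B_1`, `x ≠ 0` (exists by (a)) with `x ^ ℓ ∈ B_0 = C[X]` of minimal degree. If `x ^ ℓ` is constant,
then `x ∈ C` (`C` is algebraically closed) is fixed by all `σ`, a contradiction (`ζ ≠ 1`). Otherwise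
let `x ^ ℓ` vanish at `a`, and let `Q` be a maximal ideal of `𝒪` with `X - a ∈ Q`; so `x ∈ Q`; by (a)
there is `z ∈ B_1` outside `Q`. `z / x` is fixed by all `σ`, so `z / x = g / h` with `g, h ∈ C[X]`
coprime. From `h z = g x`, `x ∈ Q`, `z ∉ Q`: `h(a) = 0`, so `deg h ≥ 1`. Write `u g + v h = 1`; then
`x / h = x (u g + v h) / h = u z + v x ∈ B_1` and `(x / h) ^ ℓ = x ^ ℓ / h ^ ℓ` has smaller degree, a
contradiction. -/
def St_KUM : Prop :=
  ∀ (C Ω : Type) [Field C] [IsAlgClosed C] (p : ℕ) [CharP C p] [Field Ω] [Algebra (RatFunc C) Ω]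
    [Algebra C[X] Ω] [IsScalarTower C[X] (RatFunc C) Ω] [IsSepClosure (RatFunc C) Ω]
    (ℓ : ℕ) [Fact ℓ.Prime], ℓ ≠ p → ∀ χ : (Ω ≃ₐ[RatFunc C] Ω) →* Multiplicative (ZMod ℓ),
    ContT χ → UnrT χ → χ = 1

/-- NRM (Tsen): norm maps are surjective for finite separable extensions of finite extensions of
`C(X)`. PROOF: `Pool/Agent/Y903/PS/TSN.lean` in characteristic zero; the general Tsen theorem
`Pool/Agent/H552R3/Tsen/C1.lean` (finite extensions of `k(x)` are `C1`) has no such hypothesis. -/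
def St_NRM : Prop :=
  ∀ (C R N : Type) [Field C] [IsAlgClosed C] [Field R] [Field N] [Algebra (RatFunc C) R]
    [FiniteDimensional (RatFunc C) R] [Algebra R N] [FiniteDimensional R N] (z : R),
    ∃ φ : N, Algebra.norm R φ = z

/-- `c` is a 2-cocycle of `G` (acting on the field `L`) with values in the units. -/
def Coc {L G : Type} [Field L] [Group G] [MulSemiringAction G L] (c : G → G → L) : Prop :=
  (∀ g h, c g h ≠ 0) ∧ ∀ g h j, g • c h j * c g (h * j) = c (g * h) j * c g h

/-- `c` is the coboundary of `a`. -/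
def Cob {L G : Type} [Field L] [Group G] [MulSemiringAction G L] (c : G → G → L) : Prop :=
  ∃ a : G → L, (∀ g, a g ≠ 0) ∧ ∀ g h, c g h = g • a h * a g / a (g * h)

/-- HL: `H² = 0` for `ℓ`-groups if norms are surjective. `G` is a finite `ℓ`-group of automorphisms
of the field `L` and the norms of cyclic layers of degree `ℓ` are surjective: whenever `A ≤ B ≤ G` are
subgroups, `A` normal in `B` of index `ℓ`, `b ∈ B` outside `A`, then every element `z` fixed by `B` is
`∏_(i<ℓ) b ^ i • y` with `y` fixed by `A`. PROOF: induction on `|G|`; `A` a maximal subgroup, normal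
of index `ℓ`, `b ∈ G` outside `A`. By induction the restriction of `c` to `A` is a coboundary;
changing `c` by a coboundary, `c = 1` on `A × A`, and then (multiplying by the coboundary of
`a(g) = c(r, r⁻¹ g)`, `r` the representative `b ^ i` of the coset of `g`, `i < ℓ`) one may assume that
`c(b ^ i, x) = 1` for `x ∈ A`, `i < ℓ`. As usual (inflation-restriction: `H¹(A, L^*) = 0`, Hilbert 90)
`c` becomes the inflation of a cocycle of `G / A` with values in the fixed field `L^A`, and for a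
cyclic group `⟨b⟩` of order `ℓ` a cocycle is a coboundary iff `∏_(i<ℓ) c(b ^ i, b)`, an element fixed
by `G`, is a norm. You may choose another formal proof (for example with the extension
`1 → L^* → U → G → 1` given by `c`: it splits over `A` by induction; two splittings over `A` are
conjugate by Hilbert 90, so some lift `u` of `b` normalises the splitting `s(A)`, and
`u ^ ℓ s(b ^ ℓ)⁻¹` is an element `z` of `L^*` fixed by `A` and by `b`; if `z` is the norm of `y` then
`y⁻¹ u` together with `s(A)` generates a complement). -/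
def St_HL : Prop :=
  ∀ (ℓ : ℕ) [Fact ℓ.Prime] (L G : Type) [Field L] [Group G] [Finite G] [MulSemiringAction G L]
    [FaithfulSMul G L], IsPGroup ℓ G →
    (∀ (A B : Subgroup G), A ≤ B → (A.subgroupOf B).Normal → A.relIndex B = ℓ → ∀ b ∈ B, b ∉ A →
      ∀ z : L, z ≠ 0 → (∀ g ∈ B, g • z = z) →
        ∃ y : L, (∀ g ∈ A, g • y = y) ∧ ∏ i ∈ Finset.range ℓ, b ^ i • y = z) →
    ∀ c : G → G → L, Coc c → Cob c

/-- HS: from Sylow subgroups to `G`. PROOF: `c ^ ℓ = 1`; if the restriction of `c` to a subgroup `S` of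
index `n` prime to `ℓ` is a coboundary, then `c ^ n` is a coboundary (corestriction), and `c ^ ℓ = 1`,
so `c = (c ^ n) ^ u (c ^ ℓ) ^ v` is a coboundary. The corestriction of cochains: first make
`c = 1` on `S × S`; with representatives `r_x` of the left cosets `x ∈ G / S` and
`g r_x = r_(g x) s(g, x)`, `s(g, x) ∈ S`, the cochain `a(g) = ∏_x b(g, x)` with
`b(g, x) = c(g, r_x) / c(r_(g x), s(g, x))` satisfies
`c(g, h) ^ n = g • a(h) * a(g) / a(g h)` (write the cocycle relation for `(g, h, r_x)`,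
`(g, r_(h x), s(h, x))` and `(r_(g h x), s(g, h x), s(h, x))`, and take the product over `x`). -/
def St_HS : Prop :=
  ∀ (ℓ : ℕ) [Fact ℓ.Prime] (L G : Type) [Field L] [Group G] [Finite G] [MulSemiringAction G L]
    (S : Subgroup G), ¬ ℓ ∣ S.index → ∀ c : G → G → L, Coc c → (∀ g h, c g h ^ ℓ = 1) →
    Cob (fun g h : S => c g h) → Cob c

/-- Cocycles of order `ℓ` in finite Galois extensions of `C(X)` are coboundaries. -/
def HHc (C Ω : Type) [Field C] [Field Ω] [Algebra (RatFunc C) Ω] (ℓ : ℕ) : Prop :=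
  ∀ (L : IntermediateField (RatFunc C) Ω) [FiniteDimensional (RatFunc C) L]
    [IsGalois (RatFunc C) L] (c : (L ≃ₐ[RatFunc C] L) → (L ≃ₐ[RatFunc C] L) → L),
    Coc c → (∀ g h, c g h ^ ℓ = 1) → Cob c

/-- HH: assembly of NRM, HL, HS (`theorem t_HH : St_NRM → St_HL → St_HS → St_HH`). PROOF: let `S` be a
Sylow `ℓ`-subgroup of `Gal(L/C(X))`; the hypothesis of HL for `S` acting on `L`: for `A ≤ B ≤ S` as
there, `R` the fixed field of `B`, `N` that of `A`; `N / R` is Galois of degree `ℓ` with group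
generated by `b` (`B / A` has order `ℓ`), and the norm is the product of the `b ^ i`, `i < ℓ`
(`Algebra.norm_eq_prod_automorphisms`). Then HS. -/
def St_HH : Prop :=
  ∀ (C Ω : Type) [Field C] [IsAlgClosed C] [Field Ω] [Algebra (RatFunc C) Ω]
    (ℓ : ℕ) [Fact ℓ.Prime], HHc C Ω ℓ

/-- LOC: `X - x₀` is a uniformiser of the unramified extension `L` at the points over `x₀`.
PROOF: `B = integralClosure C[X] L` is a Dedekind domain; as in
`Pool/Agent/Y140/AW/Unr3.lean: unr_iff` (copy its proof, with `[IsAlgClosed C]` in place of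
`[Finite κ]`: the residue fields of `C[X]` are finite over `C`, hence algebraic over `C` and perfect;
it needs `smulCommClass_aux` of `Pool/Agent/Y77/AW2/UnrM.lean`) the ramification index of `w` is 1
because its inertia group is trivial: if `τ ≠ 1` and all `τ b - b ∈ w`, then
`1 = ∑ c i * (τ (b i) - b i) ∈ w`. So `w ^ 2` does not contain `X - x₀`, the localization of `B` at `w`
is a discrete valuation ring with uniformiser `X - x₀`, and `b` is a power of it times a unit. -/
def St_LOC : Prop :=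
  ∀ (C L : Type) [Field C] [IsAlgClosed C] [Field L] [Algebra (RatFunc C) L] [Algebra C[X] L]
    [IsScalarTower C[X] (RatFunc C) L] [FiniteDimensional (RatFunc C) L] [IsGalois (RatFunc C) L],
    (∀ τ : L ≃ₐ[RatFunc C] L, τ ≠ 1 → ∃ (m : ℕ) (b c : Fin m → L), (∀ i, IsIntegral C[X] (b i)) ∧
      (∀ i, IsIntegral C[X] (c i)) ∧ ∑ i, c i * (τ (b i) - b i) = 1) →
    ∀ (w : Ideal (integralClosure C[X] L)), w.IsMaximal → ∀ x₀ : C,
      (algebraMap C[X] (integralClosure C[X] L)) (X - Polynomial.C x₀) ∈ w → ∀ b : L, b ≠ 0 →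
        ∃ (n : ℤ) (y y' : integralClosure C[X] L), y ∉ w ∧ y' ∉ w ∧
          b * y' = algebraMap C[X] L (X - Polynomial.C x₀) ^ n * y

/-- LFA: (`theorem t_LFA : St_LOC → St_LFA`). PROOF: (1) every maximal ideal `w` of `B` contains
`X - x₀` for exactly one `x₀ ∈ C` (`w ∩ C[X]` is maximal, `C` algebraically closed), and any two
maximal ideals over the same `x₀` are conjugate under `Gal(L/C(X))`. (2) For every `x₀` there is an
integer `n(x₀)` such that for all `w` over `x₀` there are `d ≠ 0` and `y, y' ∉ w` with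
`b y' = (X - x₀) ^ n(x₀) d ^ ℓ y`: take one `w` and LOC (`d = 1`); for `g w` apply `g`:
`g(b) g(y') = (X - x₀) ^ n g(y)`, `g(b) = a ^ ℓ b`, so `d = a⁻¹`. (3) For almost all `x₀` one can take
`n(x₀) = 0`: `b = y / y'` with `y, y' ∈ B` nonzero; the norms of `y`, `y'` are nonzero polynomials (or:
`y`, `y'` divide nonzero polynomials in `B`), and for `x₀` not among their zeros `y, y' ∉ w`. (4) `u` is
the product of the `(X - x₀) ^ (-n(x₀))` over the finitely many remaining `x₀`; at `w` over `x₀` the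
factors `X - x₁`, `x₁ ≠ x₀`, are outside `w`. -/
def St_LFA : Prop :=
  ∀ (C L : Type) [Field C] [IsAlgClosed C] [Field L] [Algebra (RatFunc C) L] [Algebra C[X] L]
    [IsScalarTower C[X] (RatFunc C) L] [FiniteDimensional (RatFunc C) L] [IsGalois (RatFunc C) L],
    (∀ τ : L ≃ₐ[RatFunc C] L, τ ≠ 1 → ∃ (m : ℕ) (b c : Fin m → L), (∀ i, IsIntegral C[X] (b i)) ∧
      (∀ i, IsIntegral C[X] (c i)) ∧ ∑ i, c i * (τ (b i) - b i) = 1) →
    ∀ (ℓ : ℕ), 0 < ℓ → ∀ b : L, b ≠ 0 → (∀ g : L ≃ₐ[RatFunc C] L, ∃ a : L, g b = a ^ ℓ * b) →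
      ∃ u : RatFunc C, u ≠ 0 ∧ ∀ w : Ideal (integralClosure C[X] L), w.IsMaximal →
        ∃ (d : L) (y y' : integralClosure C[X] L), d ≠ 0 ∧ y ∉ w ∧ y' ∉ w ∧
          b * algebraMap (RatFunc C) L u * y' = d ^ ℓ * y

/-- LFT: central extensions of degree `ℓ ≠ p` of unramified homomorphisms lift
(`theorem t_LFT : St_SURJ → St_LFA → St_LFT`). The hypothesis `HHc` is the conclusion of HH. PROOF: let
`f` be given, `L` the fixed field of its kernel, `G / ker f = Gal(L / C(X))`, isomorphic to the image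
of `f`; identify the kernel `Z` of `π` with the group of the `ℓ`-th roots of unity `μ` of `C` (it is
cyclic of order `ℓ`), choose a section `s` of `π` with `s(1) = 1`; `c(g, h) = s(g) s(h) s(gh)⁻¹ ∈ μ`
is a cocycle of `Gal(L/C(X))`. By `HHc` there is `a : Gal(L/C(X)) → L^*` with
`c(g, h) = g(a_h) a_g / a_(gh)`. As `c ^ ℓ = 1`, `a_g ^ ℓ` is a 1-cocycle, so `a_g ^ ℓ = g(b) / b` with
`b ∈ L^*` (Hilbert 90, `groupCohomology.isMulCoboundary₁_of_isMulCocycle₁_of_aut_to_units`). By LFA
(the hypothesis on `τ` holds by SURJ and `UnrT f`, as in TRB) we may multiply `b` by an element of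
`C(X)` (this does not change `g(b) / b`) and assume: for every maximal ideal `w` of `B` there are
`d ≠ 0`, `y, y' ∉ w` with `b y' = d ^ ℓ y`. Let `β ∈ Ω`, `β ^ ℓ = b` (`X ^ ℓ - b` is separable). For
`σ ∈ Gal(Ω/C(X))` with image `g` in `Gal(L/C(X))`, `(σ β / (a_g β)) ^ ℓ = 1`, so
`σ β = z(σ) a_g β`, `z(σ) ∈ μ`; then `z(σ τ) = z(σ) z(τ) g(a_h) a_g / a_(gh) = z(σ) z(τ) c(g, h)`, so
`F(σ) = z(σ) s(f σ)` satisfies `F(σ) F(τ) = z(σ) z(τ) c(g, h) s(gh) = F(σ τ)`: a homomorphism to `E`
with `π F = f`, continuous (fix a finite set generating `L`, and `β`). It is unramified: if `σ ∈ I_Q`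
then `f σ = 1`, `g = 1`, `σ` fixes `L`, `a_1 = c(1, 1) = 1`, `σ β = ζ β` with `ζ = z(σ) ∈ μ`; with
`w = Q ∩ B` and `d, y, y'` as above, `η = β y' / d` has `η ^ ℓ = b y' ^ ℓ / d ^ ℓ = y y' ^ (ℓ - 1)`, so
it is integral and outside `Q`, and `σ η - η = (ζ - 1) η ∈ Q` forces `ζ = 1` (`ζ - 1` is a
constant). -/
def St_LFT : Prop :=
  ∀ (C Ω : Type) [Field C] [IsAlgClosed C] (p : ℕ) [CharP C p] [Field Ω] [Algebra (RatFunc C) Ω]
    [Algebra C[X] Ω] [IsScalarTower C[X] (RatFunc C) Ω] [IsSepClosure (RatFunc C) Ω]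
    (ℓ : ℕ) [Fact ℓ.Prime], ℓ ≠ p → HHc C Ω ℓ →
    ∀ (E H : Type) [Group E] [Finite E] [Group H] (π : E →* H), Function.Surjective π →
      Nat.card π.ker = ℓ → π.ker ≤ Subgroup.center E →
      ∀ f : (Ω ≃ₐ[RatFunc C] Ω) →* H, ContT f → UnrT f →
        ∃ g : (Ω ≃ₐ[RatFunc C] Ω) →* E, π.comp g = f ∧ ContT g ∧ UnrT g

/-! ## Group theory -/

/-- The subgroup generated by the elements of `p`-power order. -/
def pE (p : ℕ) (E : Type) [Group E] : Subgroup E :=
  Subgroup.closure {g : E | ∃ k : ℕ, g ^ p ^ k = 1}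

/-- GRP1: lifting through a central kernel of order prime to `p`, in steps of prime order. Pure group
theory: `A` is a group, `Good f` a property of homomorphisms from `A` to groups such that central
steps of prime degree `ℓ ≠ p` lift. PROOF: induction on `|ker π|`; choose a subgroup `Z` of prime order
in `ker π` (central, so normal in `E`), `E → E / Z → H`. -/
def St_GRP1 : Prop :=
  ∀ (p : ℕ) (A : Type) [Group A] (Good : ∀ (H : Type) [Group H], (A →* H) → Prop),
    (∀ (H H' : Type) [Group H] [Group H'] (f : A →* H) (q : H →* H'), Good H f →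
      Good H' (q.comp f)) →
    (∀ (ℓ : ℕ), ℓ.Prime → ℓ ≠ p → ∀ (E H : Type) [Group E] [Finite E] [Group H] (π : E →* H),
      Function.Surjective π → Nat.card π.ker = ℓ → π.ker ≤ Subgroup.center E →
      ∀ f : A →* H, Good H f → ∃ g : A →* E, π.comp g = f ∧ Good E g) →
    ∀ (E H : Type) [Group E] [Finite E] [Group H] (π : E →* H),
      Function.Surjective π → ¬ p ∣ Nat.card π.ker → π.ker ≤ Subgroup.center E →
      ∀ f : A →* H, Good H f → ∃ g : A →* E, π.comp g = f ∧ Good E g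

/-- GRP2: homomorphisms to a finite abelian group of order prime to `p` (or to any finite group of
order prime to `p` which is commutative) are trivial if those to `ℤ/ℓ`, `ℓ ≠ p`, are. PROOF: if
`f : A → D` is not trivial, its image is a nontrivial finite commutative group of order prime to
`p`; it has a quotient of prime order `ℓ ≠ p`. -/
def St_GRP2 : Prop :=
  ∀ (p : ℕ) (A : Type) [Group A] (Good : ∀ (H : Type) [Group H], (A →* H) → Prop),
    (∀ (H H' : Type) [Group H] [Group H'] (f : A →* H) (q : H →* H'), Good H f →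
      Good H' (q.comp f)) →
    (∀ (H H' : Type) [Group H] [Group H'] (f : A →* H) (i : H →* H'), Function.Injective i →
      Good H' (i.comp f) → Good H f) →
    (∀ (ℓ : ℕ) [Fact ℓ.Prime], ℓ ≠ p → ∀ f : A →* Multiplicative (ZMod ℓ), Good _ f → f = 1) →
    ∀ (D : Type) [CommGroup D] [Finite D], ¬ p ∣ Nat.card D → ∀ f : A →* D, Good D f → f = 1

/-- GRP3: choice of `e`. `E` a finite group, `N` a normal subgroup of order prime to `p` whose elements
commute with those of `p(E)`, `E / p(E)` cyclic. `T` a normal subgroup of `E` contained in `p(E)`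
such that the quotient `E / (T N)` is cyclic, generated by the class of `x`. Then there is `e ∈ x N`
such that the class of `e` generates `E / T`. PROOF: let `D = E / T`, `M = T N / T` (order prime to `p`,
commutes with `p(D)`, the image of `p(E)`), `D / M` is cyclic. `p(D) ∩ M` is central in `p(D)` and
`p(D) / (p(D) ∩ M)` is cyclic, so `p(D)` is commutative; generated by elements of `p`-power order, it
is a `p`-group, so `p(D) ∩ M = 1` and `p(D)` embeds in the cyclic group `D / M`, equivariantly; `D`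
acts trivially on `D / M` by conjugation, so `p(D)` is central in `D`; `D / p(D)`, a quotient of
`E / p(E)`, is cyclic; so `D` is commutative, the product of the cyclic `p`-group `p(D)` and a
subgroup of order prime to `p` which embeds in the cyclic group `D / p(D)`: `D` is cyclic. A
generator of the quotient `D / M` of a finite cyclic group `D` lifts to a generator of `D`. -/
def St_GRP3 : Prop :=
  ∀ (p : ℕ) [Fact p.Prime] (E : Type) [Group E] [Finite E] (N T : Subgroup E) [N.Normal]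
    [T.Normal], ¬ p ∣ Nat.card N → (∀ n ∈ N, ∀ g ∈ pE p E, n * g = g * n) →
    (∃ y : E, ∀ g : E, ∃ k : ℤ, y ^ k * g ∈ pE p E) → T ≤ pE p E →
    ∀ x : E, (∀ g : E, ∃ k : ℤ, x ^ k * g ∈ T ⊔ N) →
      ∃ n ∈ N, ∀ g : E, ∃ k : ℤ, (x * n) ^ k * g ∈ T

end Pool.Agent.H17Z
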