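import Pool.Agent.Y793.Stm
import Pool.Agent.H17Z.Stm

/-!
# Project Z17, piece COR: alternating wreath products are generated by elements of `p`-power order
-/

set_option autoImplicit false
set_option linter.all false

namespace Pool.Agent.H17Z

namespace CORx

open Pool.Agent.H391R2 Pool.Agent.Y793
open scoped commutatorElement

theorem pE_normal (p : ℕ) (E : Type) [Group E] : (pE p E).Normal := by
  refine ⟨fun x hx g => ?_⟩
  unfold pE at hx ⊢
  induction hx using Subgroup.closure_induction with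
  | mem x hx =>
    obtain ⟨k, hk⟩ := hx
    refine Subgroup.subset_closure ⟨k, ?_⟩
    rw [conj_pow, hk, mul_one, mul_inv_cancel]
  | one => rw [mul_one, mul_inv_cancel]; exact Subgroup.one_mem _
  | mul x y _ _ hx hy =>
    have h1 : g * (x * y) * g⁻¹ = (g * x * g⁻¹) * (g * y * g⁻¹) := by group
    rw [h1]
    exact Subgroup.mul_mem _ hx hy
  | inv x _ hx =>
    have h1 : g * x⁻¹ * g⁻¹ = (g * x * g⁻¹)⁻¹ := by group
    rw [h1]
    exact Subgroup.inv_mem _ hx

theorem dvd_card (p : ℕ) [Fact p.Prime] (n : ℕ) (hn : 5 ≤ n) (hpn : p ≤ n) :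
    p ∣ Nat.card (alternatingGroup (Fin n)) := by
  haveI : Nontrivial (Fin n) := Fin.nontrivial_iff_two_le.2 (by omega)
  have h1 : 2 * Nat.card (alternatingGroup (Fin n)) = n.factorial := by
    rw [two_mul_nat_card_alternatingGroup, Nat.card_perm, Nat.card_eq_fintype_card,
      Fintype.card_fin]
  have hp : p.Prime := Fact.out
  by_cases h2 : p = 2
  · subst h2
    have h3 : (4 : ℕ).factorial ∣ n.factorial := Nat.factorial_dvd_factorial (by omega)
    have h4 : (4 : ℕ) ∣ n.factorial := (by decide : (4 : ℕ) ∣ (4 : ℕ).factorial).trans h3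
    rw [← h1] at h4
    omega
  · have h3 : p ∣ n.factorial := (hp.dvd_factorial).2 hpn
    rw [← h1] at h3
    rcases (hp.dvd_mul).1 h3 with h4 | h4
    · exact absurd ((Nat.prime_dvd_prime_iff_eq hp Nat.prime_two).1 h4) h2
    · exact h4

end CORx

open CORx Pool.Agent.H391R2 Pool.Agent.Y793
open scoped commutatorElement

theorem t_COR (p : ℕ) [Fact p.Prime] (G : Type) [Group G] (hG : commutator G = ⊤) (n : ℕ)
    (hn : 5 ≤ n) (hpn : p ≤ n) : pE p (Pool.Agent.Y793.AWr G n) = ⊤ := by
  classical
  haveI hPn : (pE p (AWr G n)).Normal := pE_normal p _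
  -- the alternating group
  have hinr : ∀ s : alternatingGroup (Fin n), (SemidirectProduct.inr s.1 : Wr G n) ∈ AWr G n := by
    intro s
    change Equiv.Perm.sign (SemidirectProduct.inr s.1 : Wr G n).right = 1
    rw [SemidirectProduct.right_inr]
    exact Equiv.Perm.mem_alternatingGroup.1 s.2
  have hinl : ∀ f : Fin n → G, (SemidirectProduct.inl f : Wr G n) ∈ AWr G n := by
    intro f
    change Equiv.Perm.sign (SemidirectProduct.inl f : Wr G n).right = 1
    rw [SemidirectProduct.right_inl, map_one]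
  let ιA : alternatingGroup (Fin n) →* AWr G n :=
    ((SemidirectProduct.inr : Equiv.Perm (Fin n) →* Wr G n).comp
      (alternatingGroup (Fin n)).subtype).codRestrict (AWr G n) hinr
  let ιB : (Fin n → G) →* AWr G n :=
    (SemidirectProduct.inl : (Fin n → G) →* Wr G n).codRestrict (AWr G n) hinl
  have hN : (pE p (AWr G n)).comap ιA = ⊤ := by
    haveI : ((pE p (AWr G n)).comap ιA).Normal := hPn.comap ιA
    rcases alternatingGroup.normal_subgroup_eq_bot_or_eq_top (α := Fin n)
      (by rw [Nat.card_eq_fintype_card, Fintype.card_fin]; exact hn)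
      (N := (pE p (AWr G n)).comap ιA) with h | h
    · exfalso
      obtain ⟨s, hs⟩ := exists_prime_orderOf_dvd_card' (G := alternatingGroup (Fin n)) p
        (dvd_card p n hn hpn)
      have hs1 : s ∈ (pE p (AWr G n)).comap ιA := by
        rw [Subgroup.mem_comap]
        refine Subgroup.subset_closure ⟨1, ?_⟩
        rw [pow_one, ← map_pow, ← hs, pow_orderOf_eq_one, map_one]
      rw [h, Subgroup.mem_bot] at hs1
      rw [hs1, orderOf_one] at hs
      exact (Fact.out : p.Prime).one_lt.ne hs
    · exact h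
  have hA : ∀ s : alternatingGroup (Fin n), ιA s ∈ pE p (AWr G n) := by
    intro s
    rw [← Subgroup.mem_comap, hN]
    trivial
  -- the base group
  have hswap : ∀ (i j : Fin n), i ≠ j → ∀ g : G,
      ιB (Pi.mulSingle i g * Pi.mulSingle j g⁻¹) ∈ pE p (AWr G n) := by
    intro i j hij g
    obtain ⟨k, hk⟩ : ∃ k : Fin n, k ≠ i ∧ k ≠ j := by
      have h1 : ({i, j} : Finset (Fin n)).card < (Finset.univ : Finset (Fin n)).card := by
        rw [Finset.card_univ, Fintype.card_fin]
        exact lt_of_le_of_lt Finset.card_le_two (by omega)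
      obtain ⟨r, -, hr⟩ := Finset.exists_mem_notMem_of_card_lt_card h1
      simp only [Finset.mem_insert, Finset.mem_singleton, not_or] at hr
      exact ⟨r, hr.1, hr.2⟩
    let σ : Equiv.Perm (Fin n) := Equiv.swap j k * Equiv.swap i k
    have hσi : σ i = j := by
      show Equiv.swap j k (Equiv.swap i k i) = j
      rw [Equiv.swap_apply_left, Equiv.swap_apply_right]
    have hσ : σ ∈ alternatingGroup (Fin n) := by
      rw [Equiv.Perm.mem_alternatingGroup]
      show Equiv.Perm.sign (Equiv.swap j k * Equiv.swap i k) = 1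
      rw [Equiv.Perm.sign_mul, Equiv.Perm.sign_swap hk.2.symm, Equiv.Perm.sign_swap hk.1.symm]
      rfl
    have h1 : ιB (Pi.mulSingle i g * Pi.mulSingle j g⁻¹) =
        (ιB (Pi.mulSingle i g) * ιA ⟨σ, hσ⟩ * (ιB (Pi.mulSingle i g))⁻¹) * (ιA ⟨σ, hσ⟩)⁻¹ := by
      apply Subtype.ext
      show (SemidirectProduct.inl (Pi.mulSingle i g * Pi.mulSingle j g⁻¹) : Wr G n) =
        (SemidirectProduct.inl (Pi.mulSingle i g) * SemidirectProduct.inr σ *
          (SemidirectProduct.inl (Pi.mulSingle i g))⁻¹) * (SemidirectProduct.inr σ)⁻¹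
      have h2 : (Pi.mulSingle j g⁻¹ : Fin n → G) = mulAutArrow σ ((Pi.mulSingle i g)⁻¹) := by
        funext x
        show (Pi.mulSingle j g⁻¹ : Fin n → G) x = ((Pi.mulSingle i g : Fin n → G) (σ⁻¹ x))⁻¹
        by_cases hx : x = j
        · subst hx
          have h3 : σ⁻¹ x = i := by rw [Equiv.Perm.inv_eq_iff_eq, hσi]
          rw [h3, Pi.mulSingle_eq_same, Pi.mulSingle_eq_same]
        · have h3 : σ⁻¹ x ≠ i := by
            rw [Ne, Equiv.Perm.inv_eq_iff_eq, hσi]
            exact hx
          rw [Pi.mulSingle_eq_of_ne hx, Pi.mulSingle_eq_of_ne h3, inv_one]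
      rw [map_mul, h2, SemidirectProduct.inl_aut, map_inv, map_inv]
      simp only [mul_assoc]
    rw [h1]
    exact Subgroup.mul_mem _ (hPn.conj_mem _ (hA _) _) (Subgroup.inv_mem _ (hA _))
  have hsing : ∀ (i : Fin n) (g : G), ιB (Pi.mulSingle i g) ∈ pE p (AWr G n) := by
    intro i g
    obtain ⟨j, hj⟩ : ∃ j : Fin n, j ≠ i := by
      haveI : Nontrivial (Fin n) := Fin.nontrivial_iff_two_le.2 (by omega)
      exact exists_ne i
    have hT : (⊤ : Subgroup G) ≤ (pE p (AWr G n)).comap
        (ιB.comp (MonoidHom.mulSingle (fun _ : Fin n => G) i)) := by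
      rw [← hG, commutator_def, Subgroup.commutator_le]
      intro u _ v _
      rw [Subgroup.mem_comap]
      have h1 := hswap i j hj.symm u
      have h2 := hPn.conj_mem _ (Subgroup.inv_mem _ h1) (ιB (Pi.mulSingle i v))
      have h3 := Subgroup.mul_mem _ h1 h2
      have h4 : (ιB.comp (MonoidHom.mulSingle (fun _ : Fin n => G) i)) ⁅u, v⁆ =
          ιB (Pi.mulSingle i u * Pi.mulSingle j u⁻¹) * (ιB (Pi.mulSingle i v) *
            (ιB (Pi.mulSingle i u * Pi.mulSingle j u⁻¹))⁻¹ * (ιB (Pi.mulSingle i v))⁻¹) := by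
        rw [MonoidHom.comp_apply, ← map_inv, ← map_inv, ← map_mul, ← map_mul, ← map_mul]
        congr 1
        funext x
        show (Pi.mulSingle i ⁅u, v⁆ : Fin n → G) x =
          ((Pi.mulSingle i u : Fin n → G) x * (Pi.mulSingle j u⁻¹ : Fin n → G) x) *
            ((Pi.mulSingle i v : Fin n → G) x *
              ((Pi.mulSingle i u : Fin n → G) x * (Pi.mulSingle j u⁻¹ : Fin n → G) x)⁻¹ *
              ((Pi.mulSingle i v : Fin n → G) x)⁻¹)
        by_cases hx : x = i
        · subst hx
          simp only [Pi.mulSingle_eq_same, Pi.mulSingle_eq_of_ne hj.symm, mul_one]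
          rw [commutatorElement_def]
          group
        · simp only [Pi.mulSingle_eq_of_ne hx, one_mul, mul_one, inv_one, mul_inv_cancel]
      rw [h4]
      exact h3
    exact hT (Subgroup.mem_top g)
  have hB : ∀ f : Fin n → G, ιB f ∈ pE p (AWr G n) := by
    intro f
    have h1 := Subgroup.pi_mem_of_mulSingle_mem (H := (pE p (AWr G n)).comap ιB) f
      fun i => hsing i (f i)
    exact h1
  rw [eq_top_iff]
  rintro ⟨w, hw⟩ _
  have hw' : w.right ∈ alternatingGroup (Fin n) := Equiv.Perm.mem_alternatingGroup.2 hw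
  have h1 : (⟨w, hw⟩ : AWr G n) = ιB w.left * ιA ⟨w.right, hw'⟩ := by
    apply Subtype.ext
    exact (SemidirectProduct.inl_left_mul_inr_right w).symm
  rw [h1]
  exact Subgroup.mul_mem _ (hB _) (hA _)

end Pool.Agent.H17Z
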