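import Pool.Agent.H17Z.Stm

/-!
# Piece EXT of project Z17: extension of a homomorphism
-/

set_option autoImplicit false

namespace Pool.Agent.H17Z

namespace ExtX

/-- a total, functional and multiplicative relation is a homomorphism -/
theorem hom_of_rel {G E : Type} [Group G] [Group E] (R : G → E → Prop) (htot : ∀ x, ∃ y, R x y)
    (hfun : ∀ x y y', R x y → R x y' → y = y')
    (hmul : ∀ x x' y y', R x y → R x' y' → R (x * x') (y * y')) :
    ∃ Ψ : G →* E, ∀ x y, R x y → Ψ x = y := by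
  choose f hf using htot
  refine ⟨MonoidHom.mk' f fun x x' => hfun _ _ _ (hf _) (hmul _ _ _ _ (hf x) (hf x')), ?_⟩
  intro x y h
  exact hfun x _ _ (hf x) h

theorem mem_sup' {G : Type} [Group G] (A V : Subgroup G) [V.Normal] {x : G} (h : x ∈ A ⊔ V) :
    ∃ g ∈ A, ∃ v ∈ V, x = g * v := by
  rw [← SetLike.mem_coe, Subgroup.mul_normal] at h
  obtain ⟨g, hg, v, hv, h⟩ := Set.mem_mul.1 h
  exact ⟨g, hg, v, hv, h.symm⟩

end ExtX

open ExtX in
theorem t_EXT : St_EXT := by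
  intro G _ A _ F W hW hWF hWj hWm V _ m₀ hm₀ hAV E _ _ ψ e hψV hψF
  classical
  obtain ⟨g₀, hg₀, v₀, hv₀, hF0⟩ := mem_sup' A V (hAV ((hWF m₀ hm₀ m₀).2 dvd_rfl))
  set n := Nat.card E with hn
  have hn0 : 0 < n := Nat.card_pos
  have hpow : ∀ y : E, y ^ n = 1 := fun y => pow_card_eq_one'
  set m := m₀ * n with hm
  have hm0 : 0 < m := Nat.mul_pos hm₀ hn0
  -- conjugation by powers of F
  have hconj : ∀ (k : ℕ) (g : A) (h : A), (h : G) = (F ^ k)⁻¹ * g * F ^ k →
      ψ h = (e ^ k)⁻¹ * ψ g * e ^ k := by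
    intro k
    induction k with
    | zero =>
      intro g h hgh
      have : h = g := by
        apply Subtype.ext
        rw [hgh]; simp
      rw [this]; simp
    | succ k ih =>
      intro g h hgh
      have hmem : (F ^ k)⁻¹ * (g : G) * F ^ k ∈ A := by
        have := Subgroup.Normal.conj_mem ‹A.Normal› (g : G) g.2 (F ^ k)⁻¹
        simpa using this
      have h1 := ih g ⟨_, hmem⟩ rfl
      have h2 : ((⟨_, hmem⟩ : A) : G) = F * (h : G) * F⁻¹ := by
        rw [hgh, pow_succ]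
        simp only [mul_inv_rev]
        group
      have h3 := hψF h ⟨_, hmem⟩ h2
      rw [h1] at h3
      rw [pow_succ, mul_inv_rev]
      have h4 : ψ h = e⁻¹ * ((e ^ k)⁻¹ * ψ g * e ^ k) * e := by
        rw [h3]; group
      rw [h4]
      group
  -- the quotient by V
  set q := QuotientGroup.mk' V with hq
  have hqV : ∀ v ∈ V, q v = 1 := fun v hv => (QuotientGroup.eq_one_iff v).2 hv
  have hqF : ∀ i : ℕ, q (F ^ (m * i)) = q (g₀ ^ (n * i)) := by
    intro i
    rw [hm, show m₀ * n * i = m₀ * (n * i) by ring, pow_mul, hF0, map_pow, map_mul, hqV v₀ hv₀,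
      mul_one, map_pow]
  let R : G → E → Prop := fun x y => ∃ (j : ℕ) (g : A) (v : G), v ∈ V ∧ (g : G) * v ∈ W m ∧
    x = F ^ j * (g * v) ∧ y = e ^ j * ψ g
  have key : ∀ (j i : ℕ) (g g' : A) (v v' : G), v ∈ V → v' ∈ V → (g : G) * v ∈ W m →
      (g' : G) * v' ∈ W m → F ^ j * (g * v) = F ^ (j + i) * (g' * v') →
      e ^ j * ψ g = e ^ (j + i) * ψ g' := by
    intro j i g g' v v' hv hv' h1 h2 h3
    rw [pow_add, mul_assoc] at h3
    have h4 := mul_left_cancel h3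
    have h5 : F ^ i ∈ W m := by
      have : F ^ i = ((g : G) * v) * ((g' : G) * v')⁻¹ := by
        rw [h4]; group
      rw [this]
      exact (W m).mul_mem h1 ((W m).inv_mem h2)
    obtain ⟨r, hr⟩ := (hWF m hm0 i).1 h5
    have h6 : q (g : G) = q (g₀ ^ (n * r) * g') := by
      have := congrArg q h4
      rw [map_mul, map_mul, map_mul, hqV v hv, hqV v' hv', mul_one, mul_one, hr, hqF r] at this
      rw [this, map_mul]
    have h7 : (g₀ ^ (n * r) * (g' : G))⁻¹ * g ∈ V := by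
      rw [← QuotientGroup.eq_one_iff]
      have : ((g₀ ^ (n * r) * (g' : G))⁻¹ * g : G) = (q ((g₀ ^ (n * r) * (g' : G))⁻¹ * g) : G ⧸ V) := rfl
      rw [this, map_mul, map_inv, h6, inv_mul_cancel]
    have h8 : ψ ((⟨g₀, hg₀⟩ ^ (n * r) * g')⁻¹ * g) = 1 := by
      apply hψV
      exact h7
    rw [map_mul, map_inv, map_mul, map_pow, pow_mul, hpow, one_pow, one_mul, inv_mul_eq_one] at h8
    rw [← h8, hr, pow_add, hm, show m₀ * n * r = n * (m₀ * r) by ring, pow_mul e n, hpow, one_pow,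
      mul_one]
  obtain ⟨Ψ, hΨ⟩ := hom_of_rel R (by
    intro x
    obtain ⟨j, hj⟩ := hWj m hm0 x
    obtain ⟨g, hg, v, hv, hgv⟩ := mem_sup' A V (hAV (hWm m₀ n hj))
    refine ⟨_, j, ⟨g, hg⟩, v, hv, ?_, ?_, rfl⟩
    · change g * v ∈ W m
      rw [← hgv]; exact hj
    · change x = F ^ j * (g * v)
      rw [← hgv]; group) (by
    rintro x y y' ⟨j, g, v, hv, h1, h2, h3⟩ ⟨j', g', v', hv', h1', h2', h3'⟩
    rw [h3, h3']
    rcases le_total j j' with h | h
    · obtain ⟨i, rfl⟩ := Nat.exists_eq_add_of_le h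
      exact key j i g g' v v' hv hv' h1 h1' (h2.symm.trans h2')
    · obtain ⟨i, rfl⟩ := Nat.exists_eq_add_of_le h
      exact (key j' i g' g v' v hv' hv h1' h1 (h2'.symm.trans h2)).symm) (by
    rintro x x' y y' ⟨j, g, v, hv, h1, h2, h3⟩ ⟨k, g', v', hv', h1', h2', h3'⟩
    have hmem : (F ^ k)⁻¹ * (g : G) * F ^ k ∈ A := by
      have := Subgroup.Normal.conj_mem ‹A.Normal› (g : G) g.2 (F ^ k)⁻¹
      simpa using this
    have hmemV : (F ^ k)⁻¹ * v * F ^ k ∈ V := by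
      have := Subgroup.Normal.conj_mem ‹V.Normal› v hv (F ^ k)⁻¹
      simpa using this
    have hmemW : (F ^ k)⁻¹ * ((g : G) * v) * F ^ k ∈ W m := by
      have := Subgroup.Normal.conj_mem (hW m).1 _ h1 (F ^ k)⁻¹
      simpa using this
    have hmemV2 : (g' : G)⁻¹ * ((F ^ k)⁻¹ * v * F ^ k) * g' ∈ V := by
      have := Subgroup.Normal.conj_mem ‹V.Normal› _ hmemV (g' : G)⁻¹
      simpa using this
    refine ⟨j + k, ⟨_, hmem⟩ * g', (g' : G)⁻¹ * ((F ^ k)⁻¹ * v * F ^ k) * g' * v',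
      V.mul_mem hmemV2 hv', ?_, ?_, ?_⟩
    · have : ((⟨_, hmem⟩ * g' : A) : G) * ((g' : G)⁻¹ * ((F ^ k)⁻¹ * v * F ^ k) * g' * v') =
          ((F ^ k)⁻¹ * ((g : G) * v) * F ^ k) * ((g' : G) * v') := by
        rw [Subgroup.coe_mul]
        group
      rw [this]
      exact (W m).mul_mem hmemW h1'
    · rw [h2, h2', Subgroup.coe_mul, pow_add]
      group
    · rw [h3, h3', map_mul, hconj k g ⟨_, hmem⟩ rfl, pow_add]
      group)
  refine ⟨Ψ, fun g => ?_, ?_, m, hm0, fun x hxV hxW => ?_⟩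
  · have := hΨ (g : G) (ψ g) ⟨0, g, 1, V.one_mem, by
      rw [mul_one]; exact (hW m).2 g.2, by simp, by simp⟩
    exact this
  · exact hΨ F e ⟨1, 1, 1, V.one_mem, by simp, by simp, by simp⟩
  · exact hΨ x 1 ⟨0, 1, x, hxV, by simpa using hxW, by simp, by simp⟩

end Pool.Agent.H17Z
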