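import Pool.Agent.H17Z.Stm

/-!
Piece FIN of project Z17 (helper99): constant field extensions.
-/

set_option autoImplicit false

namespace Pool.Agent.H17Z

open Polynomial IntermediateField

namespace FIN

section
variable (κ Ω : Type) [Field κ] [Fintype κ] [Field Ω] [Algebra (RatFunc κ) Ω] [Algebra κ[X] Ω]
    [IsScalarTower κ[X] (RatFunc κ) Ω] [Algebra κ Ω] [IsScalarTower κ κ[X] Ω]

omit [Fintype κ] in
theorem tower : IsScalarTower κ (RatFunc κ) Ω := by
  refine IsScalarTower.of_algebraMap_eq fun c => ?_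
  rw [IsScalarTower.algebraMap_apply κ κ[X] Ω, IsScalarTower.algebraMap_apply κ[X] (RatFunc κ) Ω,
    IsScalarTower.algebraMap_apply κ κ[X] (RatFunc κ)]

variable {κ Ω}

omit [Fintype κ] in
theorem alg_map (σ : Ω ≃ₐ[RatFunc κ] Ω) {x : Ω} (hx : IsAlgebraic κ x) : IsAlgebraic κ (σ x) := by
  haveI := tower κ Ω
  exact IsAlgebraic.algHom ((σ.restrictScalars κ : Ω ≃ₐ[κ] Ω) : Ω →ₐ[κ] Ω) hx

omit [Fintype κ] in
theorem geo_normal : (Geo κ Ω).Normal := by
  refine ⟨fun g hg τ x hx => ?_⟩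
  have h1 : g (τ⁻¹ x) = τ⁻¹ x := hg _ (alg_map τ⁻¹ hx)
  rw [AlgEquiv.mul_apply, AlgEquiv.mul_apply, h1, ← AlgEquiv.mul_apply, mul_inv_cancel,
    AlgEquiv.one_apply]

omit [Algebra κ[X] Ω] [IsScalarTower κ[X] (RatFunc κ) Ω] [Algebra κ Ω] [IsScalarTower κ κ[X] Ω] in
theorem wk_normal (m : ℕ) : (Wk κ Ω m).Normal := by
  refine ⟨fun g hg τ x hx => ?_⟩
  have h1 : g (τ⁻¹ x) = τ⁻¹ x := hg _ (by rw [← map_pow, hx])
  rw [AlgEquiv.mul_apply, AlgEquiv.mul_apply, h1, ← AlgEquiv.mul_apply, mul_inv_cancel,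
    AlgEquiv.one_apply]

omit [Algebra (RatFunc κ) Ω] [Algebra κ[X] Ω]
    [IsScalarTower κ[X] (RatFunc κ) Ω] [IsScalarTower κ κ[X] Ω] in
theorem alg_of_pow {m : ℕ} (hm : 0 < m) {x : Ω} (hx : x ^ (Fintype.card κ ^ m) = x) :
    IsAlgebraic κ x := by
  have h1 : 1 < Fintype.card κ ^ m := Nat.one_lt_pow hm.ne' Fintype.one_lt_card
  refine ⟨X ^ (Fintype.card κ ^ m) - X, FiniteField.X_pow_card_sub_X_ne_zero κ h1, ?_⟩
  simp [hx]

theorem geo_le {m : ℕ} (hm : 0 < m) : Geo κ Ω ≤ Wk κ Ω m :=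
  fun _ hσ _ hx => hσ _ (alg_of_pow hm hx)

variable (κ Ω)

/-- the field with `q ^ m` elements -/
def Lm (m : ℕ) : IntermediateField κ Ω where
  carrier := {x | x ^ (Fintype.card κ ^ m) = x}
  mul_mem' := fun {x y} hx hy => by
    show (x * y) ^ (Fintype.card κ ^ m) = x * y
    rw [mul_pow]
    have hx' : x ^ (Fintype.card κ ^ m) = x := hx
    have hy' : y ^ (Fintype.card κ ^ m) = y := hy
    rw [hx', hy']
  add_mem' := fun {x y} hx hy => by
    have h1 : ∀ z : Ω, (FiniteField.frobeniusAlgHom κ Ω ^ m) z = z ^ (Fintype.card κ ^ m) := by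
      intro z
      rw [AlgHom.coe_pow, FiniteField.coe_frobeniusAlgHom, pow_iterate]
    show (x + y) ^ (Fintype.card κ ^ m) = x + y
    have hx' : x ^ (Fintype.card κ ^ m) = x := hx
    have hy' : y ^ (Fintype.card κ ^ m) = y := hy
    rw [← h1, map_add, h1, h1, hx', hy']
  algebraMap_mem' := fun c => by
    show (algebraMap κ Ω c) ^ (Fintype.card κ ^ m) = algebraMap κ Ω c
    rw [← map_pow, FiniteField.pow_card_pow]
  inv_mem' := fun x hx => by
    show (x⁻¹) ^ (Fintype.card κ ^ m) = x⁻¹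
    have hx' : x ^ (Fintype.card κ ^ m) = x := hx
    rw [inv_pow, hx']

variable {κ Ω}

omit [Algebra (RatFunc κ) Ω] [Algebra κ[X] Ω]
    [IsScalarTower κ[X] (RatFunc κ) Ω] [IsScalarTower κ κ[X] Ω] in
theorem mem_Lm {m : ℕ} {x : Ω} : x ∈ Lm κ Ω m ↔ x ^ (Fintype.card κ ^ m) = x := Iff.rfl

omit [Algebra (RatFunc κ) Ω] [Algebra κ[X] Ω]
    [IsScalarTower κ[X] (RatFunc κ) Ω] [IsScalarTower κ κ[X] Ω] in
theorem Lm_facts [IsSepClosed Ω] {m : ℕ} (hm : 0 < m) :
    Finite (Lm κ Ω m) ∧ Module.finrank κ (Lm κ Ω m) = m := by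
  classical
  obtain ⟨p, hp⟩ := CharP.exists κ
  haveI : CharP Ω p := charP_of_injective_algebraMap' κ p
  have hpprime : p.Prime := CharP.char_is_prime κ p
  obtain ⟨n, hn, hcard⟩ := FiniteField.card κ p
  have hq1 : 1 < Fintype.card κ := Fintype.one_lt_card
  have h1 : 1 < Fintype.card κ ^ m := Nat.one_lt_pow hm.ne' hq1
  have hsep : (X ^ (Fintype.card κ ^ m) - X : Polynomial Ω).Separable := by
    refine galois_poly_separable p _ ?_
    rw [hcard, ← pow_mul]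
    exact dvd_pow_self p (by positivity)
  have hspl : ((X ^ (Fintype.card κ ^ m) - X : Polynomial Ω).map (algebraMap Ω Ω)).Splits :=
    IsSepClosed.splits_of_separable _ (Polynomial.Separable.map hsep)
  have h2 := card_rootSet_eq_natDegree hsep hspl
  rw [FiniteField.X_pow_card_pow_sub_X_natDegree_eq Ω hm.ne' hq1] at h2
  have hne : (X ^ (Fintype.card κ ^ m) - X : Polynomial Ω) ≠ 0 := FiniteField.X_pow_card_sub_X_ne_zero Ω h1
  have hset : ((Lm κ Ω m : IntermediateField κ Ω) : Set Ω) =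
      (X ^ (Fintype.card κ ^ m) - X : Polynomial Ω).rootSet Ω := by
    ext x
    rw [SetLike.mem_coe, mem_Lm, Polynomial.mem_rootSet]
    simp [hne, sub_eq_zero]
  have hfin : Finite (Lm κ Ω m) := by
    have : Set.Finite ((Lm κ Ω m : IntermediateField κ Ω) : Set Ω) := by
      rw [hset]; exact Polynomial.rootSet_finite _ _
    exact this
  refine ⟨hfin, ?_⟩
  haveI : Fintype (Lm κ Ω m) := Fintype.ofFinite _
  have h3 : Nat.card (Lm κ Ω m) = Fintype.card κ ^ m := by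
    have h4 : Nat.card ((Lm κ Ω m : IntermediateField κ Ω) : Set Ω) =
        Nat.card ((X ^ (Fintype.card κ ^ m) - X : Polynomial Ω).rootSet Ω) := by rw [hset]
    rw [Nat.card_eq_fintype_card (α := (X ^ (Fintype.card κ ^ m) - X : Polynomial Ω).rootSet Ω), h2] at h4
    exact h4
  have h5 : Fintype.card (Lm κ Ω m) = Fintype.card κ ^ Module.finrank κ (Lm κ Ω m) :=
    Module.card_eq_pow_finrank
  rw [Nat.card_eq_fintype_card, h5] at h3
  exact Nat.pow_right_injective hq1 h3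

variable [IsSepClosure (RatFunc κ) Ω]

theorem F_pow {F : Ω ≃ₐ[RatFunc κ] Ω} (hF : ∀ x : Ω, IsAlgebraic κ x → F x = x ^ Fintype.card κ)
    (j : ℕ) {x : Ω} (hx : IsAlgebraic κ x) : (F ^ j) x = x ^ (Fintype.card κ ^ j) := by
  induction j with
  | zero => simp
  | succ j ih =>
    rw [pow_succ', AlgEquiv.mul_apply, ih, map_pow, hF x hx, ← pow_mul, pow_succ']

theorem pow_mem_iff {F : Ω ≃ₐ[RatFunc κ] Ω}
    (hF : ∀ x : Ω, IsAlgebraic κ x → F x = x ^ Fintype.card κ) {m : ℕ} (hm : 0 < m) (j : ℕ) :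
    F ^ j ∈ Wk κ Ω m ↔ m ∣ j := by
  haveI : IsSepClosed Ω := IsSepClosure.sep_closed (RatFunc κ)
  obtain ⟨hfin, hrank⟩ := Lm_facts (κ := κ) (Ω := Ω) hm
  have h1 := FiniteField.orderOf_frobeniusAlgHom κ (Lm κ Ω m)
  rw [hrank] at h1
  have h2 : m ∣ j ↔ FiniteField.frobeniusAlgHom κ (Lm κ Ω m) ^ j = 1 := by
    have h0 : orderOf (FiniteField.frobeniusAlgHom κ (Lm κ Ω m)) ∣ j ↔
      FiniteField.frobeniusAlgHom κ (Lm κ Ω m) ^ j = 1 := orderOf_dvd_iff_pow_eq_one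
    rwa [h1] at h0
  rw [h2]
  constructor
  · intro h
    apply AlgHom.ext
    intro x
    rw [AlgHom.coe_pow, FiniteField.coe_frobeniusAlgHom, pow_iterate, AlgHom.one_apply]
    apply Subtype.ext
    have h3 : (F ^ j) (x : Ω) = x := h _ x.2
    rw [F_pow hF j (alg_of_pow hm x.2)] at h3
    exact h3
  · intro h x hx
    rw [F_pow hF j (alg_of_pow hm hx)]
    have h3 := DFunLike.congr_fun h (⟨x, hx⟩ : Lm κ Ω m)
    rw [AlgHom.coe_pow, FiniteField.coe_frobeniusAlgHom, pow_iterate, AlgHom.one_apply] at h3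
    exact congrArg Subtype.val h3

theorem exists_pow {F : Ω ≃ₐ[RatFunc κ] Ω}
    (hF : ∀ x : Ω, IsAlgebraic κ x → F x = x ^ Fintype.card κ) {m : ℕ} (hm : 0 < m)
    (σ : Ω ≃ₐ[RatFunc κ] Ω) : ∃ j : ℕ, (F ^ j)⁻¹ * σ ∈ Wk κ Ω m := by
  haveI : IsSepClosed Ω := IsSepClosure.sep_closed (RatFunc κ)
  haveI := tower κ Ω
  obtain ⟨hfin, hrank⟩ := Lm_facts (κ := κ) (Ω := Ω) hm
  set σ' : Ω →ₐ[κ] Ω := ((σ.restrictScalars κ : Ω ≃ₐ[κ] Ω) : Ω →ₐ[κ] Ω) with hσ'
  have hσ'' : ∀ x, σ' x = σ x := fun x => rfl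
  have hmem : ∀ x : Lm κ Ω m, σ' ((Lm κ Ω m).val x) ∈ (Lm κ Ω m).toSubalgebra := by
    intro x
    show σ (x : Ω) ∈ Lm κ Ω m
    rw [mem_Lm, ← map_pow, mem_Lm.1 x.2]
  set f : Lm κ Ω m →ₐ[κ] Lm κ Ω m :=
    (σ'.comp (Lm κ Ω m).val).codRestrict (Lm κ Ω m).toSubalgebra hmem with hf
  obtain ⟨n, hn⟩ := (FiniteField.bijective_frobeniusAlgHom_pow κ (Lm κ Ω m)).2 f
  refine ⟨n, fun x hx => ?_⟩
  have h3 := DFunLike.congr_fun hn (⟨x, hx⟩ : Lm κ Ω m)
  simp only at h3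
  rw [AlgHom.coe_pow, FiniteField.coe_frobeniusAlgHom, pow_iterate] at h3
  have h4 : x ^ (Fintype.card κ ^ (n : ℕ)) = σ x := congrArg Subtype.val h3
  rw [AlgEquiv.mul_apply, ← h4, ← F_pow hF n (alg_of_pow hm hx), ← AlgEquiv.mul_apply,
    inv_mul_cancel, AlgEquiv.one_apply]

omit [Algebra (RatFunc κ) Ω] [Algebra κ[X] Ω] [IsScalarTower κ[X] (RatFunc κ) Ω]
  [IsScalarTower κ κ[X] Ω] [IsSepClosure (RatFunc κ) Ω] in
theorem exists_deg {x : Ω} (hx : IsAlgebraic κ x) : ∃ d : ℕ, 0 < d ∧ x ^ (Fintype.card κ ^ d) = x := by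
  classical
  haveI : FiniteDimensional κ κ⟮x⟯ := adjoin.finiteDimensional hx.isIntegral
  haveI : Finite κ⟮x⟯ := Module.finite_of_finite κ
  haveI : Fintype κ⟮x⟯ := Fintype.ofFinite _
  refine ⟨Module.finrank κ κ⟮x⟯, Module.finrank_pos, ?_⟩
  have h5 : Fintype.card κ⟮x⟯ = Fintype.card κ ^ Module.finrank κ κ⟮x⟯ := Module.card_eq_pow_finrank
  have h6 := FiniteField.pow_card (⟨x, mem_adjoin_simple_self κ x⟩ : κ⟮x⟯)
  rw [h5] at h6
  exact congrArg Subtype.val h6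

omit [Algebra (RatFunc κ) Ω] [Algebra κ[X] Ω] [IsScalarTower κ[X] (RatFunc κ) Ω]
  [IsScalarTower κ κ[X] Ω] [IsSepClosure (RatFunc κ) Ω] [Algebra κ Ω] in
theorem pow_of_dvd {d m : ℕ} (hdm : d ∣ m) {x : Ω} (hx : x ^ (Fintype.card κ ^ d) = x) :
    x ^ (Fintype.card κ ^ m) = x := by
  obtain ⟨c, rfl⟩ := hdm
  induction c with
  | zero => simp
  | succ c ih => rw [mul_add, mul_one, pow_add, pow_mul, ih, hx]

theorem exists_level (S : Finset Ω) : ∃ m : ℕ, 0 < m ∧ ∀ σ ∈ Wk κ Ω m, ∃ g ∈ Geo κ Ω,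
      ∀ x ∈ S, g x = σ x := by
  classical
  set E : IntermediateField (RatFunc κ) Ω := adjoin (RatFunc κ) {x : Ω | IsAlgebraic κ x} with hE
  have hGeo : Geo κ Ω = E.fixingSubgroup := by
    apply le_antisymm
    · rw [← IntermediateField.le_iff_le, hE, adjoin_le_iff]
      intro x hx
      rw [SetLike.mem_coe, IntermediateField.mem_fixedField_iff]
      exact fun g hg => hg x hx
    · intro σ hσ x hx
      rw [IntermediateField.mem_fixingSubgroup_iff] at hσ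
      exact hσ x (subset_adjoin _ _ hx)
  set M := FiniteGaloisIntermediateField.adjoin (RatFunc κ) (S : Set Ω) with hM
  have hSM : ∀ x ∈ S, x ∈ M.toIntermediateField := fun x hx =>
    FiniteGaloisIntermediateField.subset_adjoin (RatFunc κ) (S : Set Ω) (Finset.mem_coe.2 hx)
  set B : IntermediateField (RatFunc κ) Ω := M.toIntermediateField ⊓ E with hB
  -- a finite set of constants
  obtain ⟨T, hT1, hT2⟩ : ∃ T : Finset Ω, (∀ x ∈ T, IsAlgebraic κ x) ∧
      B ≤ adjoin (RatFunc κ) (T : Set Ω) := by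
    obtain ⟨t, ht⟩ := (inferInstance : Module.Finite (RatFunc κ) B).fg_top
    have h1 : ∀ b : B, ∃ T : Finset Ω, (T : Set Ω) ⊆ {x : Ω | IsAlgebraic κ x} ∧
        (b : Ω) ∈ adjoin (RatFunc κ) (T : Set Ω) := by
      intro b
      have h2 : (b : Ω) ∈ E := b.2.2
      exact exists_finset_of_mem_adjoin h2
    choose T hTa hTb using h1
    refine ⟨t.biUnion T, ?_, ?_⟩
    · intro x hx
      obtain ⟨b, _, hb⟩ := Finset.mem_biUnion.1 hx
      exact hTa b hb
    · intro x hx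
      have h3 : (⟨x, hx⟩ : B) ∈ Submodule.span (RatFunc κ) (t : Set B) := by
        rw [ht]; exact Submodule.mem_top
      have h4 : ∀ b ∈ Submodule.span (RatFunc κ) (t : Set B),
          (b : Ω) ∈ adjoin (RatFunc κ) ((t.biUnion T : Finset Ω) : Set Ω) := by
        intro b hb
        induction hb using Submodule.span_induction with
        | mem b hb =>
          refine adjoin.mono _ _ _ ?_ (hTb b)
          intro y hy
          exact Finset.mem_coe.2 (Finset.mem_biUnion.2 ⟨b, hb, hy⟩)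
        | zero => exact zero_mem _
        | add a b _ _ ha hb => exact add_mem ha hb
        | smul c a _ ha =>
          have : ((c • a : B) : Ω) = c • (a : Ω) := rfl
          rw [this]
          exact IntermediateField.smul_mem _ ha
      exact h4 _ h3
  choose! d hd0 hd using fun (x : Ω) (hx : IsAlgebraic κ x) => exists_deg (κ := κ) hx
  refine ⟨∏ x ∈ T, d x, Finset.prod_pos fun x hx => hd0 x (hT1 x hx), fun σ hσ => ?_⟩
  have hσB : σ ∈ B.fixingSubgroup := by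
    have h5 : adjoin (RatFunc κ) (T : Set Ω) ≤ fixedField (Wk κ Ω (∏ x ∈ T, d x)) := by
      rw [adjoin_le_iff]
      intro x hx
      rw [SetLike.mem_coe, IntermediateField.mem_fixedField_iff]
      intro g hg
      exact hg x (pow_of_dvd (Finset.dvd_prod_of_mem d hx) (hd x (hT1 x hx)))
    have h6 : Wk κ Ω (∏ x ∈ T, d x) ≤ B.fixingSubgroup := by
      rw [← IntermediateField.le_iff_le]
      exact hT2.trans h5
    exact h6 hσ
  have hsup : σ ∈ E.fixingSubgroup ⊔ M.toIntermediateField.fixingSubgroup := by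
    set H : Subgroup (Ω ≃ₐ[RatFunc κ] Ω) := E.fixingSubgroup ⊔ M.toIntermediateField.fixingSubgroup
      with hH
    have hopen : IsOpen (H : Set (Ω ≃ₐ[RatFunc κ] Ω)) :=
      Subgroup.isOpen_mono (le_sup_right : M.toIntermediateField.fixingSubgroup ≤ H)
        (IntermediateField.fixingSubgroup_isOpen M.toIntermediateField)
    have hclosed : IsClosed (H : Set (Ω ≃ₐ[RatFunc κ] Ω)) :=
      OpenSubgroup.isClosed ⟨H, hopen⟩
    have h7 := InfiniteGalois.fixingSubgroup_fixedField (⟨H, hclosed⟩ :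
      ClosedSubgroup (Ω ≃ₐ[RatFunc κ] Ω))
    have h8 : fixedField H ≤ B := by
      rw [hB, le_inf_iff]
      constructor
      · have h9 : fixedField H ≤ fixedField (M.toIntermediateField.fixingSubgroup) :=
          fun x hx => by
            rw [IntermediateField.mem_fixedField_iff] at hx ⊢
            exact fun g hg => hx g (le_sup_right (a := E.fixingSubgroup) hg)
        rwa [InfiniteGalois.fixedField_fixingSubgroup] at h9
      · have h9 : fixedField H ≤ fixedField (E.fixingSubgroup) :=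
          fun x hx => by
            rw [IntermediateField.mem_fixedField_iff] at hx ⊢
            exact fun g hg => hx g (le_sup_left (b := M.toIntermediateField.fixingSubgroup) hg)
        rwa [InfiniteGalois.fixedField_fixingSubgroup] at h9
    have h10 : B.fixingSubgroup ≤ (fixedField H).fixingSubgroup :=
      IntermediateField.fixingSubgroup_antitone h8
    have h11 : (fixedField H).fixingSubgroup = H := h7
    rw [← h11]
    exact h10 hσB
  haveI : M.toIntermediateField.fixingSubgroup.Normal := inferInstance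
  obtain ⟨g, hg, h, hh, hgh⟩ := Subgroup.mem_sup_of_normal_right.1 hsup
  refine ⟨g, hGeo ▸ hg, fun x hx => ?_⟩
  rw [← hgh, AlgEquiv.mul_apply]
  rw [IntermediateField.mem_fixingSubgroup_iff] at hh
  rw [hh x (hSM x hx)]

end

end FIN

/-- the corrected statement (`0 < m`) -/
def St_FIN' : Prop :=
  ∀ (κ Ω : Type) [Field κ] [Fintype κ] [Field Ω] [Algebra (RatFunc κ) Ω] [Algebra κ[X] Ω]
    [IsScalarTower κ[X] (RatFunc κ) Ω] [Algebra κ Ω] [IsScalarTower κ κ[X] Ω]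
    [IsSepClosure (RatFunc κ) Ω] (F : Ω ≃ₐ[RatFunc κ] Ω),
    (∀ x : Ω, IsAlgebraic κ x → F x = x ^ Fintype.card κ) →
    (Geo κ Ω).Normal ∧
    (∀ m : ℕ, 0 < m → (Wk κ Ω m).Normal ∧ Geo κ Ω ≤ Wk κ Ω m) ∧
    (∀ m : ℕ, 0 < m → ∀ j : ℕ, F ^ j ∈ Wk κ Ω m ↔ m ∣ j) ∧
    (∀ m : ℕ, 0 < m → ∀ σ : Ω ≃ₐ[RatFunc κ] Ω, ∃ j : ℕ, (F ^ j)⁻¹ * σ ∈ Wk κ Ω m) ∧
    ∀ S : Finset Ω, ∃ m : ℕ, 0 < m ∧ ∀ σ ∈ Wk κ Ω m, ∃ g ∈ Geo κ Ω,
      ∀ x ∈ S, g x = σ x

theorem t_FIN' : St_FIN' := by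
  intro κ Ω _ _ _ _ _ _ _ _ _ F hF
  exact ⟨FIN.geo_normal, fun m hm => ⟨FIN.wk_normal m, FIN.geo_le hm⟩,
    fun m hm j => FIN.pow_mem_iff hF hm j, fun m hm σ => FIN.exists_pow hF hm σ,
    fun S => FIN.exists_level S⟩

end Pool.Agent.H17Z
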