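import Pool.Agent.H17Z.Stm

set_option autoImplicit false

/-! Piece FROB of project Z17 (helper55). -/

open Polynomial

namespace Pool.Agent.H17Z

namespace FrobPiece

/-- Extension of a ring homomorphism to a separable extension. -/
theorem extend {B Ω Ω' : Type} [Field B] [Field Ω] [Field Ω'] (i : B →+* Ω) (j : B →+* Ω')
    [IsSepClosed Ω'] (h : ∀ x : Ω, ∃ P : B[X], P.Separable ∧ eval₂ i x P = 0) :
    ∃ F : Ω →+* Ω', ∀ b, F (i b) = j b := by
  letI := i.toAlgebra
  letI := j.toAlgebra
  have h1 : Algebra.IsSeparable B Ω := by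
    refine ⟨fun x => ?_⟩
    obtain ⟨P, hP, h0⟩ := h x
    exact hP.of_dvd (minpoly.dvd B x h0)
  let F : Ω →ₐ[B] Ω' := IsSepClosed.lift
  exact ⟨F.toRingHom, fun b => F.commutes b⟩

end FrobPiece

open FrobPiece

theorem t_FROB : St_FROB := by
  intro κ Ω _ _ _ _ _ _ _ _ _
  let K := RatFunc κ
  have hsc : IsSepClosed Ω := IsSepClosure.sep_closed K
  have hse : Algebra.IsSeparable K Ω := IsSepClosure.separable
  let t : Ω := algebraMap κ[X] Ω X
  have hinj : Function.Injective (algebraMap κ[X] Ω) := by
    rw [IsScalarTower.algebraMap_eq κ[X] (RatFunc κ) Ω]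
    exact (algebraMap (RatFunc κ) Ω).injective.comp (IsFractionRing.injective κ[X] (RatFunc κ))
  have hae : ∀ P : κ[X], aeval t P = algebraMap κ[X] Ω P := by
    intro P
    have := aeval_algebraMap_apply Ω (X : κ[X]) P
    rw [aeval_X_left_apply] at this
    exact this
  have ht : Transcendental κ t := by
    rw [transcendental_iff]
    intro P hP
    rw [hae] at hP
    exact hinj (by rw [hP, map_zero])
  let C := algebraicClosure κ Ω
  have htC : Transcendental C t := fun h => ht (h.restrictScalars κ)
  let φ : C →+* C := (FiniteField.frobeniusAlgHom κ C).toRingHom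
  have hφ : ∀ c : C, φ c = c ^ Fintype.card κ := fun c => rfl
  -- the two embeddings of `C(X)`
  have inj0 : Function.Injective ((aeval t : C[X] →ₐ[C] Ω).toRingHom) :=
    transcendental_iff_injective.1 htC
  have inj1 : Function.Injective
      ((aeval t : C[X] →ₐ[C] Ω).toRingHom.comp (Polynomial.mapRingHom φ)) :=
    inj0.comp (Polynomial.map_injective φ φ.injective)
  let θ0 : RatFunc C →+* Ω := IsFractionRing.lift inj0
  let θ1 : RatFunc C →+* Ω := IsFractionRing.lift inj1
  have h0 : ∀ P : C[X], θ0 (algebraMap C[X] (RatFunc C) P) = aeval t P := fun P =>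
    IsFractionRing.lift_algebraMap inj0 P
  have h1 : ∀ P : C[X], θ1 (algebraMap C[X] (RatFunc C) P) = aeval t (P.map φ) := fun P =>
    IsFractionRing.lift_algebraMap inj1 P
  -- `K` in `C(X)`
  have injK : Function.Injective
      ((algebraMap C[X] (RatFunc C)).comp (Polynomial.mapRingHom (algebraMap κ C))) :=
    (IsFractionRing.injective C[X] (RatFunc C)).comp
      (Polynomial.map_injective _ (algebraMap κ C).injective)
  let i : RatFunc κ →+* RatFunc C := IsFractionRing.lift injK
  have hi : θ0.comp i = algebraMap (RatFunc κ) Ω := by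
    apply IsLocalization.ringHom_ext (nonZeroDivisors κ[X])
    refine RingHom.ext fun P => ?_
    rw [RingHom.comp_apply, RingHom.comp_apply]
    show θ0 (i (algebraMap κ[X] (RatFunc κ) P)) = _
    rw [show i (algebraMap κ[X] (RatFunc κ) P) = algebraMap C[X] (RatFunc C)
      (P.map (algebraMap κ C)) from IsFractionRing.lift_algebraMap injK P, h0,
      aeval_map_algebraMap, hae]
    exact IsScalarTower.algebraMap_apply κ[X] (RatFunc κ) Ω P
  obtain ⟨F, hF⟩ := extend θ0 θ1 (fun x => by
    have hx := Algebra.IsSeparable.isSeparable K x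
    refine ⟨(minpoly K x).map i, Polynomial.Separable.map hx, ?_⟩
    rw [eval₂_map, hi]
    exact minpoly.aeval K x)
  have hFC : ∀ x : Ω, IsAlgebraic κ x → F x = x ^ Fintype.card κ := by
    intro x hx
    have hx' : x ∈ algebraicClosure κ Ω := mem_algebraicClosure_iff.2 hx
    let c : C := ⟨x, hx'⟩
    have e0 : θ0 (algebraMap C[X] (RatFunc C) (Polynomial.C c)) = x := by
      rw [h0, aeval_C]
      rfl
    have e1 := hF (algebraMap C[X] (RatFunc C) (Polynomial.C c))
    rw [e0, h1, Polynomial.map_C, aeval_C, hφ] at e1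
    rw [e1, map_pow]
    rfl
  have hFt : F t = t := by
    have e0 : θ0 (algebraMap C[X] (RatFunc C) X) = t := by rw [h0, aeval_X]
    have e1 := hF (algebraMap C[X] (RatFunc C) X)
    rw [e0, h1, Polynomial.map_X, aeval_X] at e1
    exact e1
  have hFK : F.comp (algebraMap (RatFunc κ) Ω) = algebraMap (RatFunc κ) Ω := by
    apply IsLocalization.ringHom_ext (nonZeroDivisors κ[X])
    apply Polynomial.ringHom_ext
    · intro a
      rw [RingHom.comp_apply, RingHom.comp_apply, RingHom.comp_apply,
        ← IsScalarTower.algebraMap_apply κ[X] (RatFunc κ) Ω]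
      have e : algebraMap κ[X] Ω (Polynomial.C a) = algebraMap κ Ω a :=
        (IsScalarTower.algebraMap_apply κ κ[X] Ω a).symm
      rw [e, hFC _ (isAlgebraic_algebraMap a), ← map_pow, FiniteField.pow_card]
    · rw [RingHom.comp_apply, RingHom.comp_apply, RingHom.comp_apply,
        ← IsScalarTower.algebraMap_apply κ[X] (RatFunc κ) Ω]
      exact hFt
  let F' : Ω →ₐ[RatFunc κ] Ω := { F with commutes' := fun z => RingHom.congr_fun hFK z }
  have hb : Function.Bijective F' := Algebra.IsAlgebraic.algHom_bijective F'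
  exact ⟨AlgEquiv.ofBijective F' hb, fun x hx => hFC x hx⟩

end Pool.Agent.H17Z
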