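import Pool.Agent.H17Z.Stm

/-!
# Project Z17, piece GRP1
-/

set_option autoImplicit false
set_option linter.all false

namespace Pool.Agent.H17Z

theorem t_GRP1 : St_GRP1 := by
  intro p A _ Good h1 h2
  suffices H : ∀ (n : ℕ) (E H : Type) [Group E] [Finite E] [Group H] (π : E →* H),
      Function.Surjective π → Nat.card π.ker = n → ¬ p ∣ n → π.ker ≤ Subgroup.center E →
      ∀ f : A →* H, Good H f → ∃ g : A →* E, π.comp g = f ∧ Good E g by
    intro E H' _ _ _ π hπ hp hc f hf
    exact H _ E H' π hπ rfl hp hc f hf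
  intro n
  induction n using Nat.strong_induction_on with
  | _ n ih =>
  intro E H _ _ _ π hπ hn hp hc f hf
  by_cases h1n : n = 1
  · -- the kernel is trivial
    have hker : π.ker = ⊥ := by
      rw [← Subgroup.card_eq_one, hn, h1n]
    have hinj : Function.Injective π := (MonoidHom.ker_eq_bot_iff π).1 hker
    let ε : E ≃* H := MulEquiv.ofBijective π ⟨hinj, hπ⟩
    refine ⟨ε.symm.toMonoidHom.comp f, ?_, h1 _ _ f _ hf⟩
    ext a
    exact ε.apply_symm_apply (f a)
  · have hn0 : n ≠ 0 := by
      rw [← hn]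
      exact Nat.card_pos.ne'
    set ℓ := n.minFac with hℓ
    have hℓp : ℓ.Prime := Nat.minFac_prime h1n
    have hℓn : ℓ ∣ n := Nat.minFac_dvd n
    haveI : Fact ℓ.Prime := ⟨hℓp⟩
    have hne : ℓ ≠ p := by
      rintro h
      exact hp (h ▸ hℓn)
    obtain ⟨z, hz⟩ := exists_prime_orderOf_dvd_card' (G := π.ker) ℓ (by rw [hn]; exact hℓn)
    have hzc : (z : E) ∈ Subgroup.center E := hc z.2
    set Z : Subgroup E := Subgroup.zpowers (z : E) with hZ
    have hZc : Z ≤ Subgroup.center E := by
      rw [hZ, Subgroup.zpowers_le]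
      exact hzc
    have hZk : Z ≤ π.ker := by
      rw [hZ, Subgroup.zpowers_le]
      exact z.2
    have hZcard : Nat.card Z = ℓ := by
      rw [hZ, Nat.card_zpowers, Subgroup.orderOf_coe, hz]
    haveI hZn : Z.Normal := ⟨fun w hw g => by
      have h3 := Subgroup.mem_center_iff.1 (hZc hw) g
      rw [h3, mul_inv_cancel_right]
      exact hw⟩
    let π' : E ⧸ Z →* H := QuotientGroup.lift Z π fun w hw => hZk hw
    have hπ'mk : ∀ g : E, π' (QuotientGroup.mk' Z g) = π g := fun g => rfl
    have hπ's : Function.Surjective π' := by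
      intro y
      obtain ⟨g, hg⟩ := hπ y
      exact ⟨QuotientGroup.mk' Z g, by rw [hπ'mk, hg]⟩
    have hker' : π'.ker = π.ker.map (QuotientGroup.mk' Z) := by
      ext w
      obtain ⟨g, rfl⟩ := QuotientGroup.mk'_surjective Z w
      rw [MonoidHom.mem_ker, hπ'mk, Subgroup.mem_map]
      constructor
      · intro hg
        exact ⟨g, hg, rfl⟩
      · rintro ⟨g', hg', h3⟩
        rw [← hπ'mk, ← h3, hπ'mk]
        exact hg'
    have hcard : Nat.card π'.ker * ℓ = n := by
      have h3 : Nat.card π'.ker = Z.relIndex π.ker := by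
        rw [hker']
        have h4 := Subgroup.relIndex_ker (QuotientGroup.mk' Z) (K := π.ker)
        rw [QuotientGroup.ker_mk'] at h4
        exact h4.symm
      rw [h3, ← hn, ← hZcard, mul_comm]
      have h4 := Subgroup.relIndex_mul_relIndex (⊥ : Subgroup E) Z π.ker bot_le hZk
      rwa [Subgroup.relIndex_bot_left, Subgroup.relIndex_bot_left] at h4
    have hlt : Nat.card π'.ker < n := by
      have h5 : 0 < Nat.card π'.ker := by
        rcases Nat.eq_zero_or_pos (Nat.card π'.ker) with h | h
        · rw [h, zero_mul] at hcard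
          exact absurd hcard.symm hn0
        · exact h
      calc Nat.card π'.ker < Nat.card π'.ker * ℓ := by
            exact lt_mul_of_one_lt_right h5 hℓp.one_lt
        _ = n := hcard
    have hc' : π'.ker ≤ Subgroup.center (E ⧸ Z) := by
      rw [hker']
      rintro _ ⟨g, hg, rfl⟩
      rw [Subgroup.mem_center_iff]
      intro w
      obtain ⟨g', rfl⟩ := QuotientGroup.mk'_surjective Z w
      rw [← map_mul, ← map_mul, Subgroup.mem_center_iff.1 (hc hg) g']
    obtain ⟨g', hg', hG'⟩ := ih _ hlt (E ⧸ Z) H π' hπ's rfl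
      (fun h => hp (h.trans ⟨ℓ, hcard.symm⟩)) hc' f hf
    obtain ⟨g, hg, hG⟩ := h2 ℓ hℓp hne E (E ⧸ Z) (QuotientGroup.mk' Z)
      (QuotientGroup.mk'_surjective Z) (by rw [QuotientGroup.ker_mk', hZcard])
      (by rw [QuotientGroup.ker_mk']; exact hZc) g' hG'
    refine ⟨g, ?_, hG⟩
    rw [← hg', ← hg]
    rfl

end Pool.Agent.H17Z
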