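import Pool.Agent.H17Z.Stm

/-!
# Project Z17, piece GRP3
-/

set_option autoImplicit false
set_option linter.all false

namespace Pool.Agent.H17Z

namespace GRP3x

/-- generators lift in finite cyclic groups -/
theorem lift_gen {D : Type} [Group D] [Finite D] (g : D) (hg : ∀ d : D, d ∈ Subgroup.zpowers g)
    (M : Subgroup D) [M.Normal] (x : D) (hx : ∀ d : D, ∃ k : ℤ, x ^ k * d ∈ M) :
    ∃ m ∈ M, ∀ d : D, d ∈ Subgroup.zpowers (x * m) := by
  set n := Nat.card D with hn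
  have hn0 : n ≠ 0 := Nat.card_pos.ne'
  haveI : NeZero n := ⟨hn0⟩
  have hord : orderOf g = n := orderOf_eq_card_of_forall_mem_zpowers hg
  set a := Nat.card (D ⧸ M) with ha
  have hgM : ∀ w : D ⧸ M, w ∈ Subgroup.zpowers (QuotientGroup.mk' M g) := by
    intro w
    obtain ⟨d, rfl⟩ := QuotientGroup.mk'_surjective M w
    obtain ⟨k, rfl⟩ := Subgroup.mem_zpowers_iff.1 (hg d)
    exact Subgroup.mem_zpowers_iff.2 ⟨k, (map_zpow _ _ _).symm⟩
  have hordM : orderOf (QuotientGroup.mk' M g) = a := orderOf_eq_card_of_forall_mem_zpowers hgM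
  have hmem : ∀ j : ℤ, g ^ j ∈ M ↔ (a : ℤ) ∣ j := by
    intro j
    rw [← hordM, orderOf_dvd_iff_zpow_eq_one, ← map_zpow]
    exact (QuotientGroup.eq_one_iff _).symm
  have han : a ∣ n := by
    rw [← hordM, ← hord]
    exact orderOf_map_dvd _ g
  obtain ⟨s, hs⟩ := Subgroup.mem_zpowers_iff.1 (hg x)
  -- `s` is prime to `a`
  have hcop : IsCoprime s (a : ℤ) := by
    obtain ⟨k, hk⟩ := hx g
    rw [← hs, ← zpow_mul, ← zpow_add_one, hmem] at hk
    obtain ⟨c, hc⟩ := hk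
    exact ⟨-k, c, by linear_combination -hc⟩
  -- lift `s` to a unit modulo `n`
  have hunit : IsUnit ((s : ℤ) : ZMod a) := by
    rw [ZMod.coe_int_isUnit_iff_isCoprime]
    exact hcop.symm
  obtain ⟨u, hu⟩ := hunit
  obtain ⟨v, hv⟩ := ZMod.unitsMap_surjective han u
  obtain ⟨t, ht⟩ : ∃ t : ℤ, ((t : ℤ) : ZMod n) = (v : ZMod n) := ZMod.intCast_surjective _
  obtain ⟨t', ht'⟩ : ∃ t' : ℤ, ((t' : ℤ) : ZMod n) = ((v⁻¹ : (ZMod n)ˣ) : ZMod n) :=
    ZMod.intCast_surjective _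
  have h1 : (a : ℤ) ∣ t - s := by
    rw [← ZMod.intCast_eq_intCast_iff_dvd_sub, ← hu, ← hv, ZMod.unitsMap_val, ← ht]
    exact ZMod.cast_intCast han t
  have h2 : (n : ℤ) ∣ t * t' - 1 := by
    rw [← ZMod.intCast_zmod_eq_zero_iff_dvd]
    push_cast
    rw [ht, ht', Units.mul_inv, sub_self]
  refine ⟨g ^ (t - s), (hmem _).2 h1, fun d => ?_⟩
  have h3 : x * g ^ (t - s) = g ^ t := by
    rw [← hs, ← zpow_add]
    congr 1
    ring
  rw [h3]
  have h4 : g = (g ^ t) ^ t' := by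
    rw [← zpow_mul]
    have h5 : g ^ (t * t' - 1) = 1 := by
      rw [← orderOf_dvd_iff_zpow_eq_one, hord]
      exact h2
    have h6 : t * t' = (t * t' - 1) + 1 := by ring
    rw [h6, zpow_add, h5, one_mul, zpow_one]
  obtain ⟨k, hk⟩ := Subgroup.mem_zpowers_iff.1 (hg d)
  rw [Subgroup.mem_zpowers_iff]
  refine ⟨t' * k, ?_⟩
  rw [zpow_mul, ← h4, hk]

/-- the group `D = E / T` -/
theorem core (p : ℕ) [Fact p.Prime] (D : Type) [Group D] [Finite D] (P M : Subgroup D) [P.Normal]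
    [M.Normal] (S : Set D) (hS : P = Subgroup.closure S) (hSp : ∀ g ∈ S, ∃ k : ℕ, g ^ p ^ k = 1)
    (hpM : ¬ p ∣ Nat.card M) (hc : ∀ m ∈ M, ∀ u ∈ P, m * u = u * m) (y : D)
    (hy : ∀ d : D, ∃ k : ℤ, y ^ k * d ∈ P) (x : D) (hx : ∀ d : D, ∃ k : ℤ, x ^ k * d ∈ M) :
    ∃ m ∈ M, ∀ d : D, d ∈ Subgroup.zpowers (x * m) := by
  have gen : ∀ (Q : Subgroup D) [Q.Normal] (z : D), (∀ d : D, ∃ k : ℤ, z ^ k * d ∈ Q) →
      ∀ w : D ⧸ Q, w ∈ Subgroup.zpowers (QuotientGroup.mk' Q z) := by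
    intro Q _ z hz w
    obtain ⟨d, rfl⟩ := QuotientGroup.mk'_surjective Q w
    obtain ⟨k, hk⟩ := hz d
    rw [Subgroup.mem_zpowers_iff]
    refine ⟨-k, ?_⟩
    have h1 : QuotientGroup.mk' Q (z ^ k * d) = 1 := (QuotientGroup.eq_one_iff _).2 hk
    rw [map_mul, map_zpow] at h1
    rw [zpow_neg]
    exact inv_eq_of_mul_eq_one_right h1
  haveI cyM : IsCyclic (D ⧸ M) := ⟨_, gen M x hx⟩
  haveI cyP : IsCyclic (D ⧸ P) := ⟨_, gen P y hy⟩
  -- `P` is commutative
  have hPc : ∀ u ∈ P, ∀ v ∈ P, u * v = v * u := by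
    intro u hu v hv
    have h1 := commutative_of_cyclic_center_quotient ((QuotientGroup.mk' M).comp P.subtype)
      (fun w hw => by
        rw [MonoidHom.mem_ker] at hw
        have hwM : (w : D) ∈ M := (QuotientGroup.eq_one_iff _).1 hw
        rw [Subgroup.mem_center_iff]
        intro g
        exact Subtype.ext (hc _ hwM _ g.2).symm) (⟨u, hu⟩ : P) ⟨v, hv⟩
    exact congrArg Subtype.val h1
  -- `P` is a `p`-group
  have hPp : ∀ u ∈ P, ∃ k : ℕ, u ^ p ^ k = 1 := by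
    intro u hu
    rw [hS] at hu
    induction hu using Subgroup.closure_induction with
    | mem g hg => exact hSp g hg
    | one => exact ⟨0, one_pow _⟩
    | mul g h hg hh ihg ihh =>
      obtain ⟨i, hi⟩ := ihg
      obtain ⟨j, hj⟩ := ihh
      refine ⟨i + j, ?_⟩
      have hcomm : Commute g h := hPc g (by rw [hS]; exact hg) h (by rw [hS]; exact hh)
      rw [hcomm.mul_pow, pow_add, pow_mul, hi, one_pow, mul_comm (p ^ i), pow_mul, hj, one_pow,
        one_mul]
    | inv g hg ihg =>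
      obtain ⟨i, hi⟩ := ihg
      exact ⟨i, by rw [inv_pow, hi, inv_one]⟩
  have hPG : IsPGroup p P := fun u => by
    obtain ⟨k, hk⟩ := hPp u u.2
    exact ⟨k, Subtype.ext hk⟩
  obtain ⟨k, hk⟩ := IsPGroup.iff_card.1 hPG
  have hcop : Nat.Coprime (Nat.card P) (Nat.card M) := by
    rw [hk]
    exact Nat.Coprime.pow_left _ ((Nat.Prime.coprime_iff_not_dvd Fact.out).2 hpM)
  have hPM : P ⊓ M = ⊥ := Subgroup.inf_eq_bot_of_coprime hcop
  -- `P` is central
  have hPz : P ≤ Subgroup.center D := by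
    intro u hu
    rw [Subgroup.mem_center_iff]
    intro g
    have h1 : g * u * g⁻¹ * u⁻¹ ∈ P ⊓ M := by
      refine ⟨P.mul_mem (Subgroup.Normal.conj_mem inferInstance u hu g) (P.inv_mem hu), ?_⟩
      refine (QuotientGroup.eq_one_iff _).1 ?_
      have h2 := commutative_of_cyclic_center_quotient (MonoidHom.id (D ⧸ M)) (fun w hw => by
        rw [MonoidHom.mem_ker, MonoidHom.id_apply] at hw
        rw [hw]
        exact Subgroup.one_mem _) (QuotientGroup.mk' M g) (QuotientGroup.mk' M u)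
      show QuotientGroup.mk' M (g * u * g⁻¹ * u⁻¹) = 1
      rw [map_mul, map_mul, map_mul, map_inv, map_inv, h2]
      group
    rw [hPM, Subgroup.mem_bot] at h1
    have h3 : g * u = u * g := by
      have h4 : g * u * g⁻¹ * u⁻¹ * (u * g) = u * g := by rw [h1, one_mul]
      rw [← h4]
      group
    exact h3
  -- `D` is commutative
  have hD : ∀ a b : D, a * b = b * a :=
    commutative_of_cyclic_center_quotient (QuotientGroup.mk' P) (by
      rw [QuotientGroup.ker_mk']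
      exact hPz)
  -- `D` is cyclic
  have hcyc : IsCyclic D := by
    letI : CommGroup D := { (inferInstance : Group D) with mul_comm := hD }
    have h1 : ∀ (Q : Subgroup D) [Q.Normal] (z : D), (∀ d : D, ∃ k : ℤ, z ^ k * d ∈ Q) →
        Nat.card D ∣ Nat.card Q * Monoid.exponent D := by
      intro Q _ z hz
      have h2 : orderOf (QuotientGroup.mk' Q z) = Nat.card (D ⧸ Q) :=
        orderOf_eq_card_of_forall_mem_zpowers (gen Q z hz)
      have h3 : Nat.card (D ⧸ Q) ∣ Monoid.exponent D := by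
        rw [← h2]
        exact (orderOf_map_dvd _ z).trans (Monoid.order_dvd_exponent z)
      rw [← Subgroup.card_mul_index Q]
      exact Nat.mul_dvd_mul_left _ h3
    have h4 : Nat.card D ∣ Monoid.exponent D := by
      have h5 := Nat.dvd_gcd (h1 P y hy) (h1 M x hx)
      rwa [Nat.gcd_mul_right, Nat.Coprime.gcd_eq_one hcop, one_mul] at h5
    exact IsCyclic.of_exponent_eq_card (Nat.dvd_antisymm Group.exponent_dvd_nat_card h4)
  obtain ⟨g, hg⟩ := hcyc
  exact lift_gen g hg M x hx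

end GRP3x

theorem t_GRP3 : St_GRP3 := by
  intro p _ E _ _ N T _ _ hpN hc hy hT x hx
  obtain ⟨y, hy⟩ := hy
  set φ := QuotientGroup.mk' T with hφ
  have hφs : Function.Surjective φ := QuotientGroup.mk'_surjective T
  haveI hpEn : (pE p E).Normal := ⟨fun g hg h => by
    unfold pE at hg ⊢
    induction hg using Subgroup.closure_induction with
    | mem g hg =>
      obtain ⟨k, hk⟩ := hg
      exact Subgroup.subset_closure ⟨k, by rw [conj_pow, hk, mul_one, mul_inv_cancel]⟩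
    | one =>
      rw [mul_one, mul_inv_cancel]
      exact Subgroup.one_mem _
    | mul a b _ _ iha ihb =>
      have h1 : h * (a * b) * h⁻¹ = (h * a * h⁻¹) * (h * b * h⁻¹) := by group
      rw [h1]
      exact Subgroup.mul_mem _ iha ihb
    | inv a _ iha =>
      have h1 : h * a⁻¹ * h⁻¹ = (h * a * h⁻¹)⁻¹ := by group
      rw [h1]
      exact Subgroup.inv_mem _ iha⟩
  haveI : ((pE p E).map φ).Normal := Subgroup.Normal.map inferInstance φ hφs
  haveI : (N.map φ).Normal := Subgroup.Normal.map inferInstance φ hφs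
  have h1 := GRP3x.core p (E ⧸ T) ((pE p E).map φ) (N.map φ) (φ '' {g : E | ∃ k : ℕ, g ^ p ^ k = 1})
    (by unfold pE; exact MonoidHom.map_closure φ _)
    (by
      rintro _ ⟨g, ⟨k, hk⟩, rfl⟩
      exact ⟨k, by rw [← map_pow, hk, map_one]⟩)
    (fun h => hpN (h.trans (Subgroup.card_map_dvd _ _)))
    (by
      rintro _ ⟨m, hm, rfl⟩ _ ⟨u, hu, rfl⟩
      rw [← map_mul, ← map_mul, hc m hm u hu])
    (φ y)
    (by
      intro d
      obtain ⟨g, rfl⟩ := hφs d
      obtain ⟨k, hk⟩ := hy g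
      exact ⟨k, _, hk, by rw [map_mul, map_zpow]⟩)
    (φ x)
    (by
      intro d
      obtain ⟨g, rfl⟩ := hφs d
      obtain ⟨k, hk⟩ := hx g
      refine ⟨k, ?_⟩
      have h2 : φ (x ^ k * g) ∈ (T ⊔ N).map φ := Subgroup.mem_map_of_mem φ hk
      rw [Subgroup.map_sup, (Subgroup.map_eq_bot_iff T).2 (by rw [hφ, QuotientGroup.ker_mk']),
        bot_sup_eq, map_mul, map_zpow] at h2
      exact h2)
  obtain ⟨_, ⟨n, hn, rfl⟩, h2⟩ := h1
  refine ⟨n, hn, fun g => ?_⟩
  obtain ⟨k, hk⟩ := Subgroup.mem_zpowers_iff.1 (h2 (φ g))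
  refine ⟨-k, (QuotientGroup.eq_one_iff _).1 ?_⟩
  show φ ((x * n) ^ (-k) * g) = 1
  rw [map_mul, map_zpow, map_mul, zpow_neg, hk, inv_mul_cancel]

end Pool.Agent.H17Z
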