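import Pool.Agent.H17Z.Stm

/-!
# Project Z17, piece HH: assembly (norms, ℓ-groups, Sylow subgroups)
-/

set_option autoImplicit false

namespace Pool.Agent.H17Z

open Polynomial

/-- The norm of a cyclic layer of prime degree: `A` a group of automorphisms of `L`, `b` normalises
`A`, `b ∉ A`, `b ^ ℓ ∈ A`. -/
theorem hh_layer (hN : St_NRM) (C L : Type) [Field C] [IsAlgClosed C] [Field L]
    [Algebra (RatFunc C) L] [FiniteDimensional (RatFunc C) L] [IsGalois (RatFunc C) L]
    (ℓ : ℕ) [Fact ℓ.Prime] (A : Subgroup (L ≃ₐ[RatFunc C] L)) (b : L ≃ₐ[RatFunc C] L)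
    (hb1 : ∀ a ∈ A, b⁻¹ * a * b ∈ A) (hb2 : b ∉ A) (hb3 : b ^ ℓ ∈ A) (z : L)
    (hzA : ∀ a ∈ A, a z = z) (hzb : b z = z) :
    ∃ y : L, (∀ a ∈ A, a y = y) ∧ ∏ i ∈ Finset.range ℓ, (b ^ i) y = z := by
  classical
  have hmem : ∀ x : L, x ∈ IntermediateField.fixedField A ↔ ∀ a ∈ A, a x = x := by
    intro x
    rw [IntermediateField.mem_fixedField_iff]
  have hbN : ∀ x : IntermediateField.fixedField A,
      b (x : L) ∈ IntermediateField.fixedField A := by
    intro x
    rw [hmem]
    intro a ha
    have h1 := (hmem x).1 x.2 _ (hb1 a ha)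
    have h2 : a (b (x : L)) = b ((b⁻¹ * a * b) (x : L)) := by
      simp only [AlgEquiv.mul_apply]
      rw [← AlgEquiv.mul_apply b b⁻¹, mul_inv_cancel, AlgEquiv.one_apply]
    rw [h2, h1]
  let β0 : IntermediateField.fixedField A →ₐ[RatFunc C] IntermediateField.fixedField A :=
    ((b : L →ₐ[RatFunc C] L).comp (IntermediateField.fixedField A).val).codRestrict
      (IntermediateField.fixedField A).toSubalgebra (fun x => hbN x)
  have hβ0 : ∀ x, ((β0 x : IntermediateField.fixedField A) : L) = b (x : L) := fun x => rfl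
  let β : IntermediateField.fixedField A ≃ₐ[RatFunc C] IntermediateField.fixedField A :=
    AlgEquiv.ofBijective β0 (AlgHom.bijective β0)
  have hβ : ∀ x, ((β x : IntermediateField.fixedField A) : L) = b (x : L) := fun x => rfl
  have hβi : ∀ (i : ℕ) x, (((β ^ i) x : IntermediateField.fixedField A) : L) = (b ^ i) (x : L) := by
    intro i
    induction i with
    | zero => intro x; rfl
    | succ i ih =>
      intro x
      rw [pow_succ, pow_succ, AlgEquiv.mul_apply, AlgEquiv.mul_apply, ih, hβ]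
  have hfix := IntermediateField.fixingSubgroup_fixedField A
  have hord : orderOf β = ℓ := by
    apply orderOf_eq_prime
    · ext x
      rw [hβi]
      exact (hmem x).1 x.2 _ hb3
    · intro h
      apply hb2
      rw [← hfix, IntermediateField.mem_fixingSubgroup_iff]
      intro x hx
      have h1 := hβ ⟨x, hx⟩
      rw [h] at h1
      exact h1.symm
  have hzN : z ∈ IntermediateField.fixedField A := (hmem z).2 hzA
  have hβz : β ⟨z, hzN⟩ = ⟨z, hzN⟩ := by
    apply Subtype.ext
    rw [hβ]
    exact hzb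
  have hzR : (⟨z, hzN⟩ : IntermediateField.fixedField A) ∈
      IntermediateField.fixedField (Subgroup.zpowers β) := by
    rw [IntermediateField.mem_fixedField_iff]
    intro h hh
    have h1 : Subgroup.zpowers β ≤ MulAction.stabilizer
        (IntermediateField.fixedField A ≃ₐ[RatFunc C] IntermediateField.fixedField A)
        (⟨z, hzN⟩ : IntermediateField.fixedField A) := by
      rw [Subgroup.zpowers_le]
      exact hβz
    exact h1 hh
  obtain ⟨φ, hφ⟩ := hN C (IntermediateField.fixedField (Subgroup.zpowers β))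
    (IntermediateField.fixedField A) ⟨⟨z, hzN⟩, hzR⟩
  refine ⟨(φ : L), (hmem φ).1 φ.2, ?_⟩
  have hgal : IsGalois (IntermediateField.fixedField (Subgroup.zpowers β))
      (IntermediateField.fixedField A) :=
    IsGalois.of_fixed_field (IntermediateField.fixedField A) (Subgroup.zpowers β)
  have h1 := Algebra.norm_eq_prod_automorphisms
    (IntermediateField.fixedField (Subgroup.zpowers β)) φ
  rw [hφ] at h1
  have h2 : (⟨z, hzN⟩ : IntermediateField.fixedField A) =
      ∏ i ∈ Finset.range ℓ, (β ^ i) φ := by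
    have h3 : (algebraMap (IntermediateField.fixedField (Subgroup.zpowers β))
      (IntermediateField.fixedField A)) ⟨⟨z, hzN⟩, hzR⟩ = ⟨z, hzN⟩ := rfl
    rw [h3] at h1
    rw [h1]
    have hfz := IntermediateField.fixingSubgroup_fixedField (Subgroup.zpowers β)
    let e1 : Subgroup.zpowers β ≃
        (IntermediateField.fixedField A ≃ₐ[IntermediateField.fixedField (Subgroup.zpowers β)]
          IntermediateField.fixedField A) :=
      ((MulEquiv.subgroupCongr hfz.symm).trans
        (IntermediateField.fixingSubgroupEquiv _)).toEquiv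
    have he1 : ∀ (h : Subgroup.zpowers β) (x : IntermediateField.fixedField A),
        e1 h x = (h : IntermediateField.fixedField A ≃ₐ[RatFunc C]
          IntermediateField.fixedField A) x := fun h x => rfl
    rw [← Fintype.prod_equiv e1 (fun h => (h : IntermediateField.fixedField A ≃ₐ[RatFunc C]
          IntermediateField.fixedField A) φ) _ (fun h => (he1 h φ).symm)]
    have hfin : IsOfFinOrder β := isOfFinOrder_of_finite β
    rw [← Fintype.prod_equiv (finEquivZPowers hfin) (fun i => (β ^ (i : ℕ)) φ) _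
      (fun i => by rw [finEquivZPowers_apply])]
    rw [hord.symm, Finset.prod_range]
  have h4 := congrArg (fun x : IntermediateField.fixedField A => (x : L)) h2
  simp only at h4
  rw [h4]
  push_cast
  refine Finset.prod_congr rfl (fun i _ => ?_)
  exact (hβi i φ).symm

theorem t_HH : St_NRM → St_HL → St_HS → St_HH := by
  intro hN hHL hHS C Ω _ _ _ _ ℓ _ L _ _ c hc hcl
  classical
  obtain ⟨S⟩ : Nonempty (Sylow ℓ (L ≃ₐ[RatFunc C] L)) := inferInstance
  refine hHS ℓ L (L ≃ₐ[RatFunc C] L) S S.not_dvd_index c hc hcl ?_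
  refine hHL ℓ L S S.isPGroup' ?_ _ ⟨fun g h => hc.1 g h, fun g h j => hc.2 g h j⟩
  intro A B hAB hnor hind b hbB hbA z hz hzB
  have hmemA : ∀ s : S, ((s : L ≃ₐ[RatFunc C] L) ∈ A.map (S : Subgroup (L ≃ₐ[RatFunc C] L)).subtype) ↔ s ∈ A := by
    intro s
    exact Subgroup.mem_map_iff_mem (S : Subgroup (L ≃ₐ[RatFunc C] L)).subtype_injective
  obtain ⟨y, hy1, hy2⟩ := hh_layer hN C L ℓ (A.map (S : Subgroup (L ≃ₐ[RatFunc C] L)).subtype) (b : L ≃ₐ[RatFunc C] L)
    (by
      rintro a' ⟨a, ha, rfl⟩
      refine ⟨b⁻¹ * a * b, ?_, rfl⟩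
      have h1 := hnor.conj_mem (⟨a, hAB ha⟩ : B) (by
        rw [Subgroup.mem_subgroupOf]; exact ha) (⟨b, hbB⟩⁻¹ : B)
      rw [Subgroup.mem_subgroupOf] at h1
      simpa using h1)
    (by
      rw [hmemA]; exact hbA)
    (by
      have h1 : (⟨b, hbB⟩ : B) ^ (A.subgroupOf B).index ∈ A.subgroupOf B :=
        Subgroup.pow_index_mem (A.subgroupOf B) _
      have h2 : (A.subgroupOf B).index = ℓ := hind
      rw [h2, Subgroup.mem_subgroupOf] at h1
      exact ⟨b ^ ℓ, by simpa using h1, rfl⟩)
    z
    (by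
      rintro a' ⟨a, ha, rfl⟩
      exact hzB a (hAB ha))
    (hzB b hbB)
  refine ⟨y, fun g hg => hy1 g ((hmemA g).2 hg), ?_⟩
  rw [← hy2]
  refine Finset.prod_congr rfl (fun i _ => ?_)
  rw [Subgroup.smul_def]
  rfl

end Pool.Agent.H17Z
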