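import Pool.Agent.H17Z.Stm

/-!
# Piece HL of project Z17: `H² = 0` for `ℓ`-groups if norms are surjective
-/

set_option autoImplicit false

namespace Pool.Agent.H17Z

namespace HLX

/-- gluing a splitting -/
theorem glue {U S G : Type} [Group U] [Group S] [Group G] (π : U →* G) (j : S →* G)
    (A : Subgroup S) (sA : A →* U)
    (hsA : ∀ x : A, π (sA x) = j x) (v : U) (b : S) (hv : π v = j b) (ℓ : ℕ)
    (hbA : ∀ x : A, b * x * b⁻¹ ∈ A)
    (hbA' : ∀ x : A, b⁻¹ * x * b ∈ A)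
    (hconj : ∀ x y : A, (y : S) = b * x * b⁻¹ → v * sA x * v⁻¹ = sA y)
    (hbl : ∀ y : A, (y : S) = b ^ ℓ → v ^ ℓ = sA y) (hblA : b ^ ℓ ∈ A)
    (hgen : ∀ g : S, ∃ (i : ℕ) (x : A), g = b ^ i * x)
    (hdiv : ∀ i : ℕ, b ^ i ∈ A → ℓ ∣ i) : ∃ s : S →* U, ∀ g, π (s g) = j g := by
  classical
  have hpow : ∀ (i : ℕ) (y : A), (y : S) = b ^ (ℓ * i) → v ^ (ℓ * i) = sA y := by
    intro i y hy
    rw [pow_mul, hbl ⟨_, hblA⟩ rfl, ← map_pow]
    congr 1
    apply Subtype.ext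
    rw [hy, Subgroup.coe_pow, pow_mul]
  have hcj : ∀ (k : ℕ) (x y : A), (y : S) = (b ^ k)⁻¹ * x * b ^ k → sA x * v ^ k = v ^ k * sA y := by
    intro k
    induction k with
    | zero =>
      intro x y hy
      have : y = x := by
        apply Subtype.ext
        rw [hy]; simp
      rw [this]; simp
    | succ k ih =>
      intro x y hy
      have hmem : b * (y : S) * b⁻¹ ∈ A := hbA y
      have h1 := hconj y ⟨_, hmem⟩ rfl
      have h2 := ih x ⟨_, hmem⟩ (by
        change b * (y : S) * b⁻¹ = _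
        rw [hy, pow_succ]
        group)
      have h3 : sA ⟨_, hmem⟩ * v = v * sA y := by
        rw [← h1]; group
      calc sA x * v ^ (k + 1) = (sA x * v ^ k) * v := by rw [pow_succ, ← mul_assoc]
        _ = v ^ k * (sA ⟨_, hmem⟩ * v) := by rw [h2, mul_assoc]
        _ = v ^ k * (v * sA y) := by rw [h3]
        _ = v ^ (k + 1) * sA y := by rw [pow_succ, mul_assoc]
  let R : S → U → Prop := fun g u => ∃ (i : ℕ) (x : A), g = b ^ i * x ∧ u = v ^ i * sA x
  have key : ∀ (j i : ℕ) (x y : A), b ^ j * (x : S) = b ^ (j + i) * y →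
      v ^ j * sA x = v ^ (j + i) * sA y := by
    intro j i x y h
    rw [pow_add, mul_assoc] at h
    have h4 := mul_left_cancel h
    have h5 : b ^ i ∈ A := by
      have : b ^ i = (x : S) * (y : S)⁻¹ := by
        rw [h4]; group
      rw [this]
      exact A.mul_mem x.2 (A.inv_mem y.2)
    obtain ⟨r, hr⟩ := hdiv i h5
    have h6 := hpow r ⟨b ^ i, h5⟩ (by rw [← hr])
    rw [← hr] at h6
    rw [pow_add, mul_assoc, h6, ← map_mul]
    congr 2
    apply Subtype.ext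
    exact h4
  have hfun : ∀ g u u', R g u → R g u' → u = u' := by
    rintro g u u' ⟨j, x, h2, h3⟩ ⟨j', x', h2', h3'⟩
    rw [h3, h3']
    rcases le_total j j' with h | h
    · obtain ⟨i, rfl⟩ := Nat.exists_eq_add_of_le h
      exact key j i x x' (h2.symm.trans h2')
    · obtain ⟨i, rfl⟩ := Nat.exists_eq_add_of_le h
      exact (key j' i x' x (h2'.symm.trans h2)).symm
  have hmul : ∀ g g' u u', R g u → R g' u' → R (g * g') (u * u') := by
    rintro g g' u u' ⟨j, x, h2, h3⟩ ⟨k, x', h2', h3'⟩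
    have hcjA : ∀ k : ℕ, ∀ x : A, (b ^ k)⁻¹ * (x : S) * b ^ k ∈ A := by
      intro k
      induction k with
      | zero => intro x; simp
      | succ k ih =>
        intro x
        have h1 := hbA' ⟨_, ih x⟩
        have h2 : (b ^ (k + 1))⁻¹ * (x : S) * b ^ (k + 1) =
            b⁻¹ * ((b ^ k)⁻¹ * (x : S) * b ^ k) * b := by
          rw [pow_succ]; group
        rw [h2]
        exact h1
    refine ⟨j + k, ⟨_, hcjA k x⟩ * x', ?_, ?_⟩
    · rw [h2, h2', Subgroup.coe_mul, pow_add]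
      group
    · rw [h3, h3', map_mul, pow_add]
      have := hcj k x ⟨_, hcjA k x⟩ rfl
      calc v ^ j * sA x * (v ^ k * sA x') = v ^ j * (sA x * v ^ k) * sA x' := by group
        _ = v ^ j * (v ^ k * sA ⟨_, hcjA k x⟩) * sA x' := by rw [this]
        _ = _ := by group
  have htot : ∀ g, ∃ u, R g u := by
    intro g
    obtain ⟨i, x, h⟩ := hgen g
    exact ⟨_, i, x, h, rfl⟩
  choose f hf using htot
  refine ⟨MonoidHom.mk' f fun x x' => hfun _ _ _ (hf _) (hmul _ _ _ _ (hf x) (hf x')), ?_⟩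
  intro g
  obtain ⟨i, x, h1, h2⟩ := hf g
  change π (f g) = j g
  rw [h2, map_mul, map_pow, hv, hsA, h1, map_mul, map_pow]

section

variable {L G : Type} [Field L] [Group G] [MulSemiringAction G L]

/-- the action on units -/
def sm (g : G) : Lˣ →* Lˣ := Units.map (MulSemiringAction.toRingHom G L g : L →* L)

theorem sm_coe (g : G) (x : Lˣ) : ((sm g x : Lˣ) : L) = g • (x : L) := rfl

theorem sm_mul (g h : G) (x : Lˣ) : sm (g * h) x = sm g (sm h x) := by
  apply Units.ext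
  rw [sm_coe, sm_coe, sm_coe, mul_smul]

theorem sm_one (x : Lˣ) : sm (1 : G) x = x := by
  apply Units.ext
  rw [sm_coe, one_smul]

/-- Hilbert 90 -/
theorem h90 [Finite G] [FaithfulSMul G L] (A : Subgroup G) (f : A → Lˣ)
    (hf : ∀ x y : A, f (x * y) = f x * sm (x : G) (f y)) :
    ∃ t : Lˣ, ∀ x : A, f x * sm (x : G) t = t := by
  classical
  have := Fintype.ofFinite A
  let χ : A → (L →* L) := fun x => (MulSemiringAction.toRingHom G L (x : G) : L →* L)
  have hinj : Function.Injective χ := by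
    intro x y h
    apply Subtype.ext
    apply FaithfulSMul.eq_of_smul_eq_smul (α := L)
    intro a
    exact DFunLike.congr_fun h a
  have hli := (linearIndependent_monoidHom L L).comp χ hinj
  rw [Fintype.linearIndependent_iff] at hli
  have hex : ∃ y : L, ∑ x : A, (f x : L) * ((x : G) • y) ≠ 0 := by
    by_contra hcon
    push Not at hcon
    have h1 := hli (fun x => (f x : L)) (by
      funext y
      rw [Finset.sum_apply]
      exact hcon y) 1
    exact (f 1).ne_zero h1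
  obtain ⟨y, hy⟩ := hex
  refine ⟨Units.mk0 _ hy, fun h => ?_⟩
  apply Units.ext
  rw [Units.val_mul, sm_coe, Units.val_mk0, Finset.smul_sum, Finset.mul_sum]
  rw [← Equiv.sum_comp (Equiv.mulLeft h) (fun x : A => (f x : L) * ((x : G) • y))]
  refine Finset.sum_congr rfl fun x _ => ?_
  rw [Equiv.coe_mulLeft, hf, Units.val_mul, sm_coe, smul_mul', Subgroup.coe_mul, mul_smul, mul_assoc]

/-- an extension of `G` by the units of `L` -/
structure Xt (U : Type) [Group U] (π : U →* G) (ι : Lˣ →* U) : Prop where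
  inj : Function.Injective ι
  ker : ∀ u, π u = 1 → ∃ x, ι x = u
  kill : ∀ x, π (ι x) = 1
  cj : ∀ u x, u * ι x * u⁻¹ = ι (sm (π u) x)
  surj : Function.Surjective π

theorem main [Finite G] [FaithfulSMul G L] (ℓ : ℕ) [hl : Fact ℓ.Prime] (hG : IsPGroup ℓ G)
    (hnorm : ∀ (A B : Subgroup G), A ≤ B → (A.subgroupOf B).Normal → A.relIndex B = ℓ →
      ∀ b ∈ B, b ∉ A → ∀ z : L, z ≠ 0 → (∀ g ∈ B, g • z = z) →
        ∃ y : L, (∀ g ∈ A, g • y = y) ∧ ∏ i ∈ Finset.range ℓ, b ^ i • y = z)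
    (U : Type) [Group U] (π : U →* G) (ι : Lˣ →* U) (hX : Xt U π ι) :
    ∀ (n : ℕ) (S : Subgroup G), Nat.card S = n → ∃ s : S →* U, ∀ x : S, π (s x) = x := by
  intro n
  induction n using Nat.strong_induction_on with
  | _ n ih =>
  intro S hS
  by_cases hbot : S = ⊥
  · subst hbot
    refine ⟨1, fun x => ?_⟩
    rw [MonoidHom.one_apply, map_one]
    exact ((Subgroup.mem_bot.1 x.2)).symm
  -- a subgroup of index ℓ
  have hSp : IsPGroup ℓ S := hG.to_subgroup S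
  obtain ⟨m, hm⟩ := IsPGroup.iff_card.1 hSp
  have hm0 : m ≠ 0 := by
    rintro rfl
    apply hbot
    rw [pow_zero] at hm
    exact Subgroup.card_eq_one.1 hm
  obtain ⟨K, hK⟩ := Sylow.exists_subgroup_card_pow_prime (G := S) ℓ (n := m - 1) (by
    rw [hm]
    exact pow_dvd_pow _ (Nat.sub_le _ _))
  have hKi : K.index = ℓ := by
    have h1 := K.card_mul_index
    rw [hK, hm] at h1
    have h2 : ℓ ^ m = ℓ ^ (m - 1) * ℓ := by
      rw [← pow_succ]
      congr 1
      omega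
    rw [h2] at h1
    exact Nat.eq_of_mul_eq_mul_left (pow_pos hl.out.pos _) h1
  have hKn : K.Normal := by
    apply Subgroup.normal_of_index_eq_minFac_card
    rw [hKi, hm, hl.out.pow_minFac hm0]
  -- an element outside
  have hKtop : K ≠ ⊤ := by
    intro h
    rw [h, Subgroup.index_top] at hKi
    exact hl.out.one_lt.ne hKi
  obtain ⟨b, _, hbK⟩ := SetLike.exists_of_lt (lt_top_iff_ne_top.2 hKtop)
  set A : Subgroup G := K.map S.subtype with hA
  have hAS : A ≤ S := by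
    rw [hA]
    exact Subgroup.map_subtype_le K
  have hAK : A.subgroupOf S = K := by
    rw [hA, Subgroup.subgroupOf, Subgroup.comap_map_eq_self_of_injective (Subgroup.subtype_injective S)]
  have hmemA : ∀ x : S, (x : G) ∈ A ↔ x ∈ K := by
    intro x
    rw [← hAK, Subgroup.mem_subgroupOf]
  have hcardA : Nat.card A < n := by
    have h1 : Nat.card A = Nat.card K := by
      rw [← hAK]
      exact (Nat.card_congr (Subgroup.subgroupOfEquivOfLe hAS).toEquiv).symm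
    rw [h1, hK, ← hS, hm]
    exact Nat.pow_lt_pow_right hl.out.one_lt (by omega)
  obtain ⟨sA0, hsA0⟩ := ih _ hcardA A rfl
  -- the quotient of order ℓ
  have hqc : Nat.card (S ⧸ K) = ℓ := hKi
  have hbq : (QuotientGroup.mk' K b) ≠ 1 := by
    intro h
    exact hbK ((QuotientGroup.eq_one_iff b).1 h)
  have hblK : b ^ ℓ ∈ K := by
    have := K.pow_index_mem b
    rwa [hKi] at this
  have hord : orderOf (QuotientGroup.mk' K b) = ℓ := by
    apply orderOf_eq_prime _ hbq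
    rw [← map_pow]
    exact (QuotientGroup.eq_one_iff _).2 hblK
  have hdiv : ∀ i : ℕ, b ^ i ∈ K → ℓ ∣ i := by
    intro i hi
    rw [← hord, orderOf_dvd_iff_pow_eq_one, ← map_pow]
    exact (QuotientGroup.eq_one_iff _).2 hi
  have hgen : ∀ g : S, ∃ (i : ℕ) (x : K), g = b ^ i * x := by
    intro g
    have h1 : QuotientGroup.mk' K g ∈ Submonoid.powers (QuotientGroup.mk' K b) :=
      mem_powers_of_prime_card hqc hbq
    obtain ⟨i, hi⟩ := h1
    have hi' : (QuotientGroup.mk' K b) ^ i = QuotientGroup.mk' K g := hi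
    refine ⟨i, ⟨(b ^ i)⁻¹ * g, ?_⟩, ?_⟩
    · rw [← QuotientGroup.eq_one_iff]
      change QuotientGroup.mk' K ((b ^ i)⁻¹ * g) = 1
      rw [map_mul, map_inv, map_pow, hi', inv_mul_cancel]
    · change g = b ^ i * ((b ^ i)⁻¹ * g)
      group
  -- the splitting over K
  let sA : K →* U := sA0.comp
    { toFun := fun x => ⟨((x : S) : G), (hmemA x).2 x.2⟩
      map_one' := rfl
      map_mul' := fun _ _ => rfl }
  have hsA : ∀ x : K, π (sA x) = ((x : S) : G) := fun x => hsA0 _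
  obtain ⟨u₀, hu₀⟩ := hX.surj (b : G)
  have hbA : ∀ x : K, b * x * b⁻¹ ∈ K := fun x => hKn.conj_mem _ x.2 b
  have hbA' : ∀ x : K, b⁻¹ * x * b ∈ K := fun x => by
    have := hKn.conj_mem _ x.2 b⁻¹
    rwa [inv_inv] at this
  have hcross : ∀ x : K, ∃ t : Lˣ, u₀ * sA ⟨_, hbA' x⟩ * u₀⁻¹ = ι t * sA x := by
    intro x
    obtain ⟨t, ht⟩ := hX.ker (u₀ * sA ⟨_, hbA' x⟩ * u₀⁻¹ * (sA x)⁻¹) (by
      rw [map_mul, map_mul, map_mul, map_inv, map_inv, hu₀, hsA, hsA]
      simp only [Subgroup.coe_mul, Subgroup.coe_inv]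
      group)
    exact ⟨t, by rw [ht]; group⟩
  choose f0 hf0 using hcross
  have hmoveι : ∀ (u : U) (x : Lˣ), u * ι x = ι (sm (π u) x) * u := by
    intro u x
    rw [← hX.cj u x]; group
  have hcoc : ∀ x y : K, f0 (x * y) = f0 x * sm ((x : S) : G) (f0 y) := by
    intro x y
    apply hX.inj
    have h1 := hf0 (x * y)
    have h2 : (⟨b⁻¹ * ((x * y : K) : S) * b, hbA' (x * y)⟩ : K) =
        ⟨_, hbA' x⟩ * ⟨_, hbA' y⟩ := by
      apply Subtype.ext
      change b⁻¹ * ((x : S) * (y : S)) * b = (b⁻¹ * (x : S) * b) * (b⁻¹ * (y : S) * b)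
      group
    rw [h2, map_mul, map_mul] at h1
    have h3 : u₀ * (sA ⟨_, hbA' x⟩ * sA ⟨_, hbA' y⟩) * u₀⁻¹ =
        (u₀ * sA ⟨_, hbA' x⟩ * u₀⁻¹) * (u₀ * sA ⟨_, hbA' y⟩ * u₀⁻¹) := by group
    rw [h3, hf0, hf0] at h1
    have h4 : ι (f0 x) * sA x * (ι (f0 y) * sA y) = ι (f0 x) * (sA x * ι (f0 y)) * sA y := by group
    rw [h4, hmoveι (sA x) (f0 y), hsA] at h1
    have h5 : ι (f0 x) * (ι (sm ((x : S) : G) (f0 y)) * sA x) * sA y =
        (ι (f0 x) * ι (sm ((x : S) : G) (f0 y))) * (sA x * sA y) := by group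
    rw [h5, ← map_mul ι] at h1
    exact (mul_right_cancel h1).symm
  obtain ⟨t, ht⟩ := h90 A (fun x => f0 ⟨⟨(x : G), hAS x.2⟩, (hmemA _).1 x.2⟩) (by
    intro x y
    exact hcoc ⟨⟨(x : G), hAS x.2⟩, (hmemA _).1 x.2⟩ ⟨⟨(y : G), hAS y.2⟩, (hmemA _).1 y.2⟩)
  have ht' : ∀ x : K, f0 x * sm ((x : S) : G) t = t := fun x => ht ⟨((x : S) : G), (hmemA _).2 x.2⟩
  set u : U := ι t⁻¹ * u₀ with hu
  have hπu : π u = b := by
    rw [hu, map_mul, hX.kill, one_mul, hu₀]
  have hu1 : ∀ x : K, u * sA ⟨_, hbA' x⟩ * u⁻¹ = sA x := by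
    intro x
    have h1 : u * sA ⟨_, hbA' x⟩ * u⁻¹ = ι t⁻¹ * (u₀ * sA ⟨_, hbA' x⟩ * u₀⁻¹) * ι t := by
      rw [hu, map_inv]; group
    rw [h1, hf0]
    have h2 : ι t⁻¹ * (ι (f0 x) * sA x) * ι t = ι t⁻¹ * ι (f0 x) * (sA x * ι t) := by group
    rw [h2, hmoveι (sA x) t, hsA, ← map_mul ι, ← mul_assoc, ← map_mul ι]
    have h3 : t⁻¹ * f0 x * sm ((x : S) : G) t = 1 := by
      rw [mul_assoc, ht', inv_mul_cancel]
    rw [h3, map_one, one_mul]
  have hu2 : ∀ x y : K, (y : S) = b * x * b⁻¹ → u * sA x * u⁻¹ = sA y := by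
    intro x y hy
    have h1 := hu1 y
    have h2 : (⟨b⁻¹ * (y : S) * b, hbA' y⟩ : K) = x := by
      apply Subtype.ext
      change b⁻¹ * (y : S) * b = x
      rw [hy]; group
    rwa [h2] at h1
  have hpc : ∀ (k : ℕ) (x y : K), (y : S) = b ^ k * x * (b ^ k)⁻¹ → u ^ k * sA x = sA y * u ^ k := by
    intro k
    induction k with
    | zero =>
      intro x y hy
      have : y = x := by
        apply Subtype.ext
        rw [hy]; simp
      rw [this]; simp
    | succ k ihk =>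
      intro x y hy
      have h1 := hu2 x ⟨_, hbA x⟩ rfl
      have h2 := ihk ⟨_, hbA x⟩ y (by
        rw [hy, pow_succ]
        group)
      have h3 : u * sA x = sA ⟨_, hbA x⟩ * u := by
        rw [← h1]; group
      calc u ^ (k + 1) * sA x = u ^ k * (u * sA x) := by rw [pow_succ, mul_assoc]
        _ = (u ^ k * sA ⟨_, hbA x⟩) * u := by rw [h3]; exact (mul_assoc _ _ _).symm
        _ = sA y * u ^ (k + 1) := by rw [h2, pow_succ, mul_assoc]
  set w : K := ⟨b ^ ℓ, hblK⟩ with hw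
  obtain ⟨z, hz⟩ := hX.ker (u ^ ℓ * (sA w)⁻¹) (by
    rw [map_mul, map_pow, map_inv, hπu, hsA, hw]
    rw [Subgroup.coe_pow, mul_inv_cancel])
  have hzK : ∀ x : K, sm ((x : S) : G) z = z := by
    intro x
    apply hX.inj
    have h1 := hX.cj (sA x) z
    rw [hsA] at h1
    rw [← h1, hz]
    have hx' : (b ^ ℓ)⁻¹ * (x : S) * b ^ ℓ ∈ K := by
      have := hKn.conj_mem _ x.2 (b ^ ℓ)⁻¹
      rwa [inv_inv] at this
    have h2 := hpc ℓ ⟨_, hx'⟩ x (by
      change (x : S) = b ^ ℓ * ((b ^ ℓ)⁻¹ * (x : S) * b ^ ℓ) * (b ^ ℓ)⁻¹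
      group)
    have h3 : sA x * (u ^ ℓ * (sA w)⁻¹) * (sA x)⁻¹ = (sA x * u ^ ℓ) * ((sA w)⁻¹ * (sA x)⁻¹) := by group
    rw [h3, ← h2, mul_assoc, ← map_inv, ← map_inv, ← map_mul, ← map_mul]
    congr 2
    apply Subtype.ext
    rw [Subgroup.coe_mul, Subgroup.coe_mul, Subgroup.coe_inv, Subgroup.coe_inv]
    change (b ^ ℓ)⁻¹ * (x : S) * b ^ ℓ * ((b ^ ℓ)⁻¹ * (x : S)⁻¹) = (b ^ ℓ)⁻¹
    group
  have hzb : sm ((b : S) : G) z = z := by
    apply hX.inj
    have h1 := hX.cj u z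
    rw [hπu] at h1
    rw [← h1, hz]
    have h2 := hu2 w w (by
      change b ^ ℓ = b * b ^ ℓ * b⁻¹
      rw [← pow_succ', pow_succ]; group)
    have h3 : u * (u ^ ℓ * (sA w)⁻¹) * u⁻¹ = u ^ ℓ * (u * sA w * u⁻¹)⁻¹ := by
      rw [← mul_assoc u, ← pow_succ', pow_succ]; group
    rw [h3, h2]
  have hzS : ∀ g ∈ S, g • (z : L) = z := by
    intro g hg
    obtain ⟨i, x, hix⟩ := hgen ⟨g, hg⟩
    have h1 : g = (b : G) ^ i * ((x : S) : G) := by
      have := congrArg (fun s : S => (s : G)) hix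
      simpa using this
    have h2 : sm g z = z := by
      rw [h1, sm_mul, hzK]
      clear h1 hix
      induction i with
      | zero => rw [pow_zero, sm_one]
      | succ i ihi => rw [pow_succ, sm_mul, hzb, ihi]
    rw [← sm_coe, h2]
  obtain ⟨y, hyA, hyz⟩ := hnorm A S hAS (by rw [hAK]; exact hKn) (by
    rw [Subgroup.relIndex, hAK, hKi]) b b.2 (by
      rw [hmemA]; exact hbK) z z.ne_zero hzS
  have hy0 : y ≠ 0 := by
    rintro rfl
    apply z.ne_zero
    rw [← hyz]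
    refine Finset.prod_eq_zero (Finset.mem_range.2 hl.out.pos) ?_
    rw [smul_zero]
  set yu : Lˣ := Units.mk0 y hy0 with hyu
  have hyuK : ∀ x : K, sm ((x : S) : G) yu = yu := by
    intro x
    apply Units.ext
    rw [sm_coe]
    exact hyA _ ((hmemA _).2 x.2)
  set v : U := ι yu⁻¹ * u with hv
  have hπv : π v = b := by
    rw [hv, map_mul, hX.kill, one_mul, hπu]
  have hvconj : ∀ x y : K, (y : S) = b * x * b⁻¹ → v * sA x * v⁻¹ = sA y := by
    intro x y' hy'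
    have h1 : v * sA x * v⁻¹ = ι yu⁻¹ * (u * sA x * u⁻¹) * ι yu := by
      rw [hv, map_inv]; group
    rw [h1, hu2 x y' hy', mul_assoc, hmoveι (sA y') yu, hsA, hyuK, ← mul_assoc, ← map_mul, inv_mul_cancel,
      map_one, one_mul]
  have hvpow : ∀ k : ℕ, v ^ k = ι (∏ i ∈ Finset.range k, sm ((b : G) ^ i) yu⁻¹) * u ^ k := by
    intro k
    induction k with
    | zero => simp
    | succ k ihk =>
      rw [pow_succ, ihk, hv, Finset.prod_range_succ]
      have h1 : ∀ P : Lˣ, ι P * u ^ k * (ι yu⁻¹ * u) = ι P * (u ^ k * ι yu⁻¹) * u := by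
        intro P; group
      rw [h1, hmoveι (u ^ k) yu⁻¹, map_pow, hπu, map_mul ι, pow_succ]
      group
  have hvl : v ^ ℓ = sA w := by
    have h1 : ∏ i ∈ Finset.range ℓ, sm ((b : G) ^ i) yu⁻¹ = z⁻¹ := by
      rw [← Finset.prod_congr rfl fun i _ => (map_inv (sm ((b : G) ^ i)) yu).symm,
        Finset.prod_inv_distrib]
      congr 1
      apply Units.ext
      rw [Units.coe_prod, ← hyz]
      rfl
    rw [hvpow, h1, map_inv, hz]
    group
  exact glue π S.subtype K sA hsA v b hπv ℓ hbA hbA' hvconj (by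
    intro y' hy'
    rw [hvl]
    congr 1
    exact (Subtype.ext hy').symm) hblK hgen hdiv

/-- cocycles with values in the units -/
def IsC (c : G → G → Lˣ) : Prop := ∀ g h j, sm g (c h j) * c g (h * j) = c (g * h) j * c g h

/-- the extension given by a cocycle -/
structure UE (c : G → G → Lˣ) : Type where
  x : Lˣ
  g : G

theorem IsC.one_left {c : G → G → Lˣ} (hc : IsC c) (j : G) : c 1 j = c 1 1 := by
  have h := hc 1 1 j
  rw [sm_one, one_mul, one_mul, mul_comm (c 1 j) (c 1 1), mul_comm (c 1 j) (c 1 j)] at h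
  rw [mul_comm (c 1 1) (c 1 j)] at h
  exact mul_left_cancel h

theorem IsC.one_right {c : G → G → Lˣ} (hc : IsC c) (g : G) : c g 1 = sm g (c 1 1) := by
  have h := hc g 1 1
  rw [mul_one, mul_one] at h
  exact (mul_right_cancel h).symm

/-- the group structure -/
@[reducible] noncomputable def ueGroup (c : G → G → Lˣ) (hc : IsC c) : Group (UE c) :=
  letI : Mul (UE c) := ⟨fun u v => ⟨u.x * sm u.g v.x * c u.g v.g, u.g * v.g⟩⟩
  letI : One (UE c) := ⟨⟨(c 1 1)⁻¹, 1⟩⟩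
  letI : Inv (UE c) := ⟨fun u => ⟨(c 1 1)⁻¹ * (sm u.g⁻¹ u.x)⁻¹ * (c u.g⁻¹ u.g)⁻¹, u.g⁻¹⟩⟩
  Group.ofLeftAxioms
    (by
      rintro ⟨x, g⟩ ⟨y, h⟩ ⟨w, j⟩
      change (⟨x * sm g y * c g h * sm (g * h) w * c (g * h) j, g * h * j⟩ : UE c) =
        ⟨x * sm g (y * sm h w * c h j) * c g (h * j), g * (h * j)⟩
      have h1 := hc g h j
      rw [mul_assoc g h j, sm_mul, map_mul, map_mul]
      congr 1
      calc x * sm g y * c g h * sm g (sm h w) * c (g * h) j =
            x * sm g y * sm g (sm h w) * (c (g * h) j * c g h) := by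
              rw [mul_comm (c (g * h) j) (c g h)]
              ac_rfl
        _ = x * sm g y * sm g (sm h w) * (sm g (c h j) * c g (h * j)) := by rw [h1]
        _ = _ := by ac_rfl)
    (by
      rintro ⟨x, g⟩
      change (⟨(c 1 1)⁻¹ * sm 1 x * c 1 g, 1 * g⟩ : UE c) = ⟨x, g⟩
      rw [sm_one, one_mul, hc.one_left g]
      congr 1
      rw [mul_right_comm, inv_mul_cancel, one_mul])
    (by
      rintro ⟨x, g⟩
      change (⟨(c 1 1)⁻¹ * (sm g⁻¹ x)⁻¹ * (c g⁻¹ g)⁻¹ * sm g⁻¹ x * c g⁻¹ g, g⁻¹ * g⟩ : UE c) =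
        ⟨(c 1 1)⁻¹, 1⟩
      rw [inv_mul_cancel]
      congr 1
      calc (c 1 1)⁻¹ * (sm g⁻¹ x)⁻¹ * (c g⁻¹ g)⁻¹ * sm g⁻¹ x * c g⁻¹ g =
            (c 1 1)⁻¹ * ((sm g⁻¹ x)⁻¹ * sm g⁻¹ x) * ((c g⁻¹ g)⁻¹ * c g⁻¹ g) := by ac_rfl
        _ = _ := by rw [inv_mul_cancel, inv_mul_cancel, mul_one, mul_one])

theorem ext_split (c : G → G → Lˣ) (hc : IsC c)
    (H : ∀ (U : Type) [Group U] (π : U →* G) (ι : Lˣ →* U), Xt U π ι →
      ∃ s : (⊤ : Subgroup G) →* U, ∀ x : (⊤ : Subgroup G), π (s x) = x) :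
    ∃ a : G → Lˣ, ∀ g h, c g h = sm g (a h) * a g / a (g * h) := by
  letI := ueGroup c hc
  have hmul : ∀ u v : UE c, u * v = ⟨u.x * sm u.g v.x * c u.g v.g, u.g * v.g⟩ := fun _ _ => rfl
  have hone : (1 : UE c) = ⟨(c 1 1)⁻¹, 1⟩ := rfl
  let π : UE c →* G := { toFun := UE.g, map_one' := rfl, map_mul' := fun _ _ => rfl }
  let ι : Lˣ →* UE c :=
    { toFun := fun x => ⟨x * (c 1 1)⁻¹, 1⟩
      map_one' := by rw [one_mul, hone]
      map_mul' := by
        intro x y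
        rw [hmul]
        simp only [sm_one, mul_one]
        congr 1
        calc x * y * (c 1 1)⁻¹ = x * y * (c 1 1)⁻¹ * ((c 1 1)⁻¹ * c 1 1) := by
              rw [inv_mul_cancel, mul_one]
          _ = x * (c 1 1)⁻¹ * (y * (c 1 1)⁻¹) * c 1 1 := by ac_rfl }
  have hX : Xt (UE c) π ι :=
    { inj := by
        intro x y h
        have h1 : x * (c 1 1)⁻¹ = y * (c 1 1)⁻¹ := congrArg UE.x h
        exact mul_right_cancel h1
      ker := by
        rintro ⟨x, g⟩ h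
        have hg : g = 1 := h
        subst hg
        refine ⟨x * c 1 1, ?_⟩
        change (⟨x * c 1 1 * (c 1 1)⁻¹, 1⟩ : UE c) = ⟨x, 1⟩
        rw [mul_assoc, mul_inv_cancel, mul_one]
      kill := fun _ => rfl
      cj := by
        rintro ⟨y, g⟩ x
        rw [mul_inv_eq_iff_eq_mul]
        change (⟨y * sm g (x * (c 1 1)⁻¹) * c g 1, g * 1⟩ : UE c) =
          ⟨sm g x * (c 1 1)⁻¹ * sm 1 y * c 1 g, 1 * g⟩
        rw [hc.one_right g, hc.one_left g, sm_one, mul_one, one_mul, map_mul, map_inv]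
        congr 1
        calc y * (sm g x * (sm g (c 1 1))⁻¹) * sm g (c 1 1) =
              y * sm g x * ((sm g (c 1 1))⁻¹ * sm g (c 1 1)) := by ac_rfl
          _ = y * sm g x * ((c 1 1)⁻¹ * c 1 1) := by rw [inv_mul_cancel, inv_mul_cancel]
          _ = sm g x * (c 1 1)⁻¹ * y * c 1 1 := by ac_rfl
      surj := fun g => ⟨⟨1, g⟩, rfl⟩ }
  obtain ⟨s, hs⟩ := H (UE c) π ι hX
  refine ⟨fun g => ((s ⟨g, Subgroup.mem_top g⟩).x)⁻¹, fun g h => ?_⟩
  have hsg : ∀ g : G, (s ⟨g, Subgroup.mem_top g⟩).g = g := fun g => hs ⟨g, Subgroup.mem_top g⟩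
  have h1 : s ⟨g * h, Subgroup.mem_top _⟩ = s ⟨g, Subgroup.mem_top g⟩ * s ⟨h, Subgroup.mem_top h⟩ := by
    rw [← map_mul]
    rfl
  have h2 := congrArg UE.x h1
  rw [hmul] at h2
  simp only [hsg] at h2
  change c g h = sm g (s ⟨h, Subgroup.mem_top h⟩).x⁻¹ * (s ⟨g, Subgroup.mem_top g⟩).x⁻¹ /
    (s ⟨g * h, Subgroup.mem_top _⟩).x⁻¹
  rw [h2, map_inv]
  generalize (s ⟨g, Subgroup.mem_top g⟩).x = p
  generalize sm g (s ⟨h, Subgroup.mem_top h⟩).x = r
  rw [div_inv_eq_mul, mul_assoc p r, mul_assoc r⁻¹, inv_mul_cancel_left, inv_mul_cancel_left]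

end

end HLX

open HLX in
theorem t_HL : St_HL := by
  intro ℓ _ L G _ _ _ _ _ hG hnorm c hc
  let c' : G → G → Lˣ := fun g h => Units.mk0 (c g h) (hc.1 g h)
  have hc' : IsC c' := by
    intro g h j
    apply Units.ext
    exact hc.2 g h j
  obtain ⟨a, ha⟩ := ext_split c' hc' (fun U _ π ι hX => main ℓ hG hnorm U π ι hX _ ⊤ rfl)
  refine ⟨fun g => (a g : L), fun g => (a g).ne_zero, fun g h => ?_⟩
  have := congrArg (fun u : Lˣ => (u : L)) (ha g h)
  simp only [Units.val_div_eq_div_val, Units.val_mul, sm_coe] at this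
  exact this

end Pool.Agent.H17Z
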