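import Pool.Agent.H17Z.Stm

/-!
# Piece HS of project Z17: from Sylow subgroups to the whole group (corestriction of 2-cocycles)
-/

set_option autoImplicit false

namespace Pool.Agent.H17Z

namespace HS

variable {L G : Type} [Field L] [Group G] [MulSemiringAction G L]

theorem smul_ne (g : G) {x : L} (hx : x ≠ 0) : g • x ≠ 0 := by
  intro h
  apply hx
  have h1 : g⁻¹ • (g • x) = g⁻¹ • (0 : L) := by rw [h]
  rwa [inv_smul_smul, smul_zero] at h1

/-- the corestriction for a cocycle which is `1` on `S × S` -/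
theorem cores [Finite G] (S : Subgroup G) (c : G → G → L) (hc : Coc c)
    (h1 : ∀ g ∈ S, ∀ h ∈ S, c g h = 1) :
    ∃ a : G → L, (∀ g, a g ≠ 0) ∧ ∀ g h, a (g * h) * c g h ^ S.index = g • a h * a g := by
  classical
  letI : Fintype (G ⧸ S) := Fintype.ofFinite _
  obtain ⟨r, hr⟩ : ∃ r : G ⧸ S → G, ∀ x, (QuotientGroup.mk (r x) : G ⧸ S) = x :=
    ⟨fun x => x.out, fun x => QuotientGroup.out_eq' x⟩
  obtain ⟨s, hs⟩ : ∃ s : G → G ⧸ S → G, ∀ g x, s g x = (r (g • x))⁻¹ * (g * r x) :=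
    ⟨_, fun _ _ => rfl⟩
  have hsS : ∀ g x, s g x ∈ S := by
    intro g x
    rw [hs, ← QuotientGroup.eq, hr]
    conv_lhs => rw [← hr x]
    rfl
  have hrs : ∀ g x, r (g • x) * s g x = g * r x := by
    intro g x
    rw [hs, mul_inv_cancel_left]
  obtain ⟨b, hb⟩ : ∃ b : G → G ⧸ S → L, ∀ g x,
      b g x = c g (r x) * (c (r (g • x)) (s g x))⁻¹ := ⟨_, fun _ _ => rfl⟩
  have hb0 : ∀ g x, b g x ≠ 0 := by
    intro g x
    rw [hb]
    exact mul_ne_zero (hc.1 _ _) (inv_ne_zero (hc.1 _ _))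
  have key : ∀ g h x, b (g * h) x * c g h = g • b h x * b g (h • x) := by
    intro g h x
    have e1 := hc.2 g h (r x)
    have e2 := hc.2 g (r (h • x)) (s h x)
    rw [hrs h x] at e2
    have e3 := hc.2 (r (g • h • x)) (s g (h • x)) (s h x)
    have e4 : s g (h • x) * s h x = s (g * h) x := by
      rw [hs g (h • x), hs (g * h) x, mul_smul, mul_assoc, mul_assoc, hrs h x, mul_assoc]
    rw [hrs g (h • x), h1 _ (hsS g (h • x)) _ (hsS h x), smul_one, one_mul, e4] at e3
    have n1 := smul_ne g (hc.1 (r (h • x)) (s h x))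
    have n2 := hc.1 (r (g • h • x)) (s g (h • x))
    have n3 := hc.1 (r (g • h • x)) (s (g * h) x)
    have n4 := hc.1 (g * r (h • x)) (s h x)
    rw [hb (g * h) x, hb h x, hb g (h • x), smul_mul', smul_inv'', mul_smul, e3]
    have n5 := hc.1 g (h * r x)
    -- from e1, e2
    have e5 : c (g * h) (r x) * c g h * (g • c (r (h • x)) (s h x)) =
        g • c h (r x) * (c (g * r (h • x)) (s h x) * c g (r (h • x))) := by
      rw [← e1, ← e2]
      ring
    field_simp
    linear_combination e5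
  refine ⟨fun g => ∏ x, b g x, fun g => Finset.prod_ne_zero_iff.2 fun x _ => hb0 g x, ?_⟩
  intro g h
  show (∏ x, b (g * h) x) * c g h ^ S.index = g • (∏ x, b h x) * ∏ x, b g x
  have e1 : c g h ^ S.index = ∏ _x : G ⧸ S, c g h := by
    rw [Finset.prod_const, Finset.card_univ, Subgroup.index, Nat.card_eq_fintype_card]
  have e2 : ∏ x, b g x = ∏ x, b g (h • x) :=
    (Equiv.prod_comp (MulAction.toPerm h : Equiv.Perm (G ⧸ S)) (fun x => b g x)).symm
  rw [e1, e2, Finset.smul_prod', ← Finset.prod_mul_distrib, ← Finset.prod_mul_distrib]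
  exact Finset.prod_congr rfl fun x _ => key g h x

end HS

theorem t_HS : St_HS := by
  intro ℓ _ L G _ _ _ _ S hS c hc hcl hcob
  classical
  obtain ⟨a₀, ha₀, ha₁⟩ := hcob
  obtain ⟨a, ha⟩ : ∃ a : G → L, ∀ g, a g = if h : g ∈ S then a₀ ⟨g, h⟩ else 1 := ⟨_, fun _ => rfl⟩
  have ha0 : ∀ g, a g ≠ 0 := by
    intro g
    rw [ha]
    split_ifs with h
    · exact ha₀ _
    · exact one_ne_zero
  obtain ⟨c', hc'⟩ : ∃ c' : G → G → L, ∀ g h, c' g h = c g h * (g • a h * a g)⁻¹ * a (g * h) :=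
    ⟨_, fun _ _ => rfl⟩
  have hn : ∀ g h, g • a h * a g ≠ 0 := fun g h => mul_ne_zero (HS.smul_ne g (ha0 h)) (ha0 g)
  have hcc : ∀ g h, c' g h * (g • a h * a g) = c g h * a (g * h) := by
    intro g h
    rw [hc', mul_right_comm, mul_assoc (c g h), inv_mul_cancel₀ (hn g h), mul_one]
  have hCoc : Coc c' := by
    refine ⟨fun g h => ?_, fun g h j => ?_⟩
    · rw [hc']
      exact mul_ne_zero (mul_ne_zero (hc.1 _ _) (inv_ne_zero (hn g h))) (ha0 _)
    · have e := hc.2 g h j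
      have n1 := HS.smul_ne g (HS.smul_ne h (ha0 j))
      have n2 := HS.smul_ne g (ha0 h)
      have n3 := HS.smul_ne g (ha0 (h * j))
      have n4 := HS.smul_ne (g * h) (ha0 j)
      have n5 := ha0 g
      have n6 := ha0 (g * h)
      have n7 := ha0 (g * h * j)
      simp only [hc', smul_mul', smul_inv'', ← mul_smul, ← mul_assoc]
      rw [← mul_smul] at n1
      field_simp
      linear_combination e
  have hone : ∀ g ∈ S, ∀ h ∈ S, c' g h = 1 := by
    intro g hg h hh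
    have e := ha₁ ⟨g, hg⟩ ⟨h, hh⟩
    have e1 : a g = a₀ ⟨g, hg⟩ := by rw [ha, dif_pos hg]
    have e2 : a h = a₀ ⟨h, hh⟩ := by rw [ha, dif_pos hh]
    have e3 : a (g * h) = a₀ (⟨g, hg⟩ * ⟨h, hh⟩) := by
      rw [ha, dif_pos (S.mul_mem hg hh)]
      rfl
    have e4 : (⟨g, hg⟩ : S) • a₀ ⟨h, hh⟩ = g • a₀ ⟨h, hh⟩ := rfl
    simp only at e
    rw [← e1, ← e3, e4, ← e2] at e
    have n6 := ha0 (g * h)
    have n := hn g h
    rw [hc', e, div_mul_eq_mul_div, mul_inv_cancel₀ n, one_div, inv_mul_cancel₀ n6]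
  obtain ⟨A, hA0, hA⟩ := HS.cores S c' hCoc hone
  -- Bezout
  have hcop : Nat.Coprime S.index ℓ :=
    ((Nat.Prime.coprime_iff_not_dvd (Fact.out : ℓ.Prime)).2 hS).symm
  obtain ⟨u, hu⟩ := Nat.exists_mul_mod_eq_one_of_coprime hcop (Fact.out : ℓ.Prime).one_lt
  obtain ⟨v, hv⟩ : ∃ v, S.index * u = 1 + ℓ * v := by
    refine ⟨S.index * u / ℓ, ?_⟩
    have := Nat.mod_add_div (S.index * u) ℓ
    omega
  refine ⟨fun g => (A g * a g ^ S.index) ^ u, fun g =>
    pow_ne_zero _ (mul_ne_zero (hA0 g) (pow_ne_zero _ (ha0 g))), ?_⟩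
  intro g h
  have e1 : c g h = (c g h ^ S.index) ^ u := by
    rw [← pow_mul, hv, pow_add, pow_mul, hcl, one_pow, mul_one, pow_one]
  have e2 : A (g * h) * a (g * h) ^ S.index * c g h ^ S.index =
      g • (A h * a h ^ S.index) * (A g * a g ^ S.index) := by
    have e3 : c' g h ^ S.index * (g • a h * a g) ^ S.index = c g h ^ S.index * a (g * h) ^ S.index := by
      rw [← mul_pow, hcc, mul_pow]
    have e4 := hA g h
    rw [smul_mul', smul_pow']
    calc A (g * h) * a (g * h) ^ S.index * c g h ^ S.index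
        = A (g * h) * (c g h ^ S.index * a (g * h) ^ S.index) := by ring
      _ = (A (g * h) * c' g h ^ S.index) * (g • a h * a g) ^ S.index := by rw [← e3]; ring
      _ = g • A h * (g • a h) ^ S.index * (A g * a g ^ S.index) := by rw [e4, mul_pow]; ring
  have n1 : A (g * h) * a (g * h) ^ S.index ≠ 0 :=
    mul_ne_zero (hA0 _) (pow_ne_zero _ (ha0 _))
  show c g h = g • (A h * a h ^ S.index) ^ u * (A g * a g ^ S.index) ^ u /
    (A (g * h) * a (g * h) ^ S.index) ^ u
  rw [eq_div_iff (pow_ne_zero _ n1), smul_pow', ← mul_pow, ← e2,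
    mul_pow (A (g * h) * a (g * h) ^ S.index) (c g h ^ S.index) u, ← e1, mul_comm]

end Pool.Agent.H17Z
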