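import Pool.Agent.H17Z.Stm

/-!
# Project Z17, piece KUM: no unramified cyclic coverings of the affine line of degree `ℓ ≠ p`
-/

set_option autoImplicit false

namespace Pool.Agent.H17Z

open Polynomial

/-- The fixed field of the kernel of a continuous homomorphism. -/
theorem kum_open {k Ω : Type} [Field k] [Field Ω] [Algebra (RatFunc k) Ω]
    [IsGalois (RatFunc k) Ω] {H : Type} [Group H] (f : (Ω ≃ₐ[RatFunc k] Ω) →* H) (hf : ContT f) :
    FiniteDimensional (RatFunc k) (IntermediateField.fixedField f.ker) ∧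
      IsGalois (RatFunc k) (IntermediateField.fixedField f.ker) ∧
      (IntermediateField.fixedField f.ker).fixingSubgroup = f.ker := by
  obtain ⟨S, hS⟩ := hf
  have hfd : FiniteDimensional (RatFunc k) (IntermediateField.adjoin (RatFunc k) (S : Set Ω)) :=
    IntermediateField.finiteDimensional_adjoin (fun x _ => Algebra.IsIntegral.isIntegral x)
  have hle : (IntermediateField.adjoin (RatFunc k) (S : Set Ω)).fixingSubgroup ≤ f.ker := by
    intro σ hσ
    rw [MonoidHom.mem_ker]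
    apply hS
    intro x hx
    rw [IntermediateField.mem_fixingSubgroup_iff] at hσ
    exact hσ x (IntermediateField.subset_adjoin _ _ hx)
  have hopen : IsOpen (f.ker : Set (Ω ≃ₐ[RatFunc k] Ω)) :=
    Subgroup.isOpen_mono hle (IntermediateField.fixingSubgroup_isOpen _)
  have hclosed : IsClosed (f.ker : Set (Ω ≃ₐ[RatFunc k] Ω)) :=
    Subgroup.isClosed_of_isOpen _ hopen
  have hfix : (IntermediateField.fixedField f.ker).fixingSubgroup = f.ker :=
    InfiniteGalois.fixingSubgroup_fixedField ⟨f.ker, hclosed⟩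
  have h1 := (InfiniteGalois.isOpen_and_normal_iff_finite_and_isGalois
    (IntermediateField.fixedField f.ker)).1 ⟨by rw [hfix]; exact hopen, by
      rw [hfix]; infer_instance⟩
  exact ⟨h1.1, h1.2, hfix⟩

/-- Finite Fourier inversion. -/
theorem kum_four {F : Type} [Field F] {ℓ : ℕ} (hℓ : 0 < ℓ) {ζ : F} (hζ : IsPrimitiveRoot ζ ℓ)
    (u : ℕ → F) (e : ℕ) (he : e < ℓ) :
    ∑ i ∈ Finset.range ℓ, ζ ^ (e * i) * ∑ j ∈ Finset.range ℓ, ζ⁻¹ ^ (i * j) * u j =
      (ℓ : F) * u e := by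
  have h0 : ζ ≠ 0 := hζ.ne_zero hℓ.ne'
  have h1 : ∑ i ∈ Finset.range ℓ, ζ ^ (e * i) * ∑ j ∈ Finset.range ℓ, ζ⁻¹ ^ (i * j) * u j =
      ∑ j ∈ Finset.range ℓ, (∑ i ∈ Finset.range ℓ, (ζ ^ e * ζ⁻¹ ^ j) ^ i) * u j := by
    simp_rw [Finset.mul_sum, Finset.sum_mul]
    rw [Finset.sum_comm]
    refine Finset.sum_congr rfl (fun j _ => Finset.sum_congr rfl (fun i _ => ?_))
    rw [mul_pow, ← pow_mul, ← pow_mul, mul_comm j i]
    ring
  rw [h1, Finset.sum_eq_single e]
  · have h2 : ζ ^ e * ζ⁻¹ ^ e = 1 := by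
      rw [← mul_pow, mul_inv_cancel₀ h0, one_pow]
    rw [h2]
    simp
  · intro j hj hje
    have h2 : ζ ^ e * ζ⁻¹ ^ j ≠ 1 := by
      intro h
      apply hje
      have h3 : ζ ^ e = ζ ^ j := by
        have h4 : ζ ^ e * ζ⁻¹ ^ j * ζ ^ j = ζ ^ j := by rw [h, one_mul]
        rw [mul_assoc, ← mul_pow, inv_mul_cancel₀ h0, one_pow, mul_one] at h4
        exact h4
      exact (hζ.pow_inj he (Finset.mem_range.1 hj) h3).symm
    have h3 : (ζ ^ e * ζ⁻¹ ^ j) ^ ℓ = 1 := by
      rw [mul_pow, ← pow_mul, ← pow_mul, mul_comm e, mul_comm j, pow_mul, pow_mul, inv_pow,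
        hζ.pow_eq_one]
      simp
    have h4 := geom_sum_mul (ζ ^ e * ζ⁻¹ ^ j) ℓ
    rw [h3, sub_self, mul_eq_zero] at h4
    rcases h4 with h4 | h4
    · rw [h4, zero_mul]
    · exact absurd (sub_eq_zero.1 h4) h2
  · intro h
    exact absurd (Finset.mem_range.2 he) h

section

variable {C Ω : Type} [Field C] [Field Ω] [Algebra (RatFunc C) Ω]
  [Algebra C[X] Ω] [IsScalarTower C[X] (RatFunc C) Ω]

theorem kum_fix (σ : Ω ≃ₐ[RatFunc C] Ω) (f : C[X]) :
    σ (algebraMap C[X] Ω f) = algebraMap C[X] Ω f := by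
  rw [IsScalarTower.algebraMap_apply C[X] (RatFunc C) Ω, AlgEquiv.commutes]

theorem kum_inj : Function.Injective (algebraMap C[X] Ω) := by
  rw [IsScalarTower.algebraMap_eq C[X] (RatFunc C) Ω]
  exact (algebraMap (RatFunc C) Ω).injective.comp (IsFractionRing.injective C[X] (RatFunc C))

theorem kum_down [IsGalois (RatFunc C) Ω] (y : Ω) (hy : IsIntegral C[X] y)
    (hf : ∀ σ : Ω ≃ₐ[RatFunc C] Ω, σ y = y) : ∃ f : C[X], algebraMap C[X] Ω f = y := by
  obtain ⟨r, hr⟩ := (InfiniteGalois.mem_range_algebraMap_iff_fixed (k := RatFunc C) y).2 hf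
  have h1 : IsIntegral C[X] r := by
    rw [← hr] at hy
    exact (isIntegral_algebraMap_iff (algebraMap (RatFunc C) Ω).injective).1 hy
  obtain ⟨f, hf⟩ := IsIntegrallyClosed.isIntegral_iff.1 h1
  exact ⟨f, by rw [IsScalarTower.algebraMap_apply C[X] (RatFunc C) Ω, hf, hr]⟩

theorem kum_int_map (σ : Ω ≃ₐ[RatFunc C] Ω) {x : Ω} (hx : IsIntegral C[X] x) :
    IsIntegral C[X] (σ x) := by
  obtain ⟨P, hP, hP2⟩ := hx
  refine ⟨P, hP, ?_⟩
  have h1 : ((σ : Ω →+* Ω).comp (algebraMap C[X] Ω)) = algebraMap C[X] Ω := by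
    ext f
    · exact kum_fix σ _
    · exact kum_fix σ _
  have h2 := congrArg (σ : Ω →+* Ω) hP2
  rw [Polynomial.hom_eval₂, h1, map_zero] at h2
  exact h2

/-- (a): the functions of weight one have no common zero. -/
theorem kum_A (hSURJ : St_SURJ) [IsSepClosure (RatFunc C) Ω] (ℓ : ℕ) [Fact ℓ.Prime]
    (hℓC : (ℓ : C) ≠ 0) (ζ : C) (hζ : IsPrimitiveRoot ζ ℓ)
    (χ : (Ω ≃ₐ[RatFunc C] Ω) →* Multiplicative (ZMod ℓ)) (hc : ContT χ) (hu : UnrT χ)
    (τ : Ω ≃ₐ[RatFunc C] Ω) (hτ : χ τ = Multiplicative.ofAdd 1)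
    (Q : Ideal (integralClosure C[X] Ω)) (hQ : Q.IsMaximal) :
    ∃ z : integralClosure C[X] Ω, z ∉ Q ∧ ∀ σ : Ω ≃ₐ[RatFunc C] Ω,
      σ (z : Ω) = algebraMap C[X] Ω (Polynomial.C ζ) ^ (Multiplicative.toAdd (χ σ)).val * z := by
  classical
  have hgal : IsGalois (RatFunc C) Ω := IsSepClosure.isGalois
  obtain ⟨hfd, hgL, hfix⟩ := kum_open χ hc
  have hℓ : ℓ.Prime := Fact.out
  by_contra hcon
  push Not at hcon
  have hcon' : ∀ z : integralClosure C[X] Ω, (∀ σ : Ω ≃ₐ[RatFunc C] Ω,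
      σ (z : Ω) = algebraMap C[X] Ω (Polynomial.C ζ) ^ (Multiplicative.toAdd (χ σ)).val * z) →
      z ∈ Q := by
    intro z hz
    by_contra hzQ
    obtain ⟨σ, hσ⟩ := hcon z hzQ
    exact hσ (hz σ)
  set Z : Ω := algebraMap C[X] Ω (Polynomial.C ζ) with hZ
  have hZp : IsPrimitiveRoot Z ℓ := by
    have h1 : Function.Injective ((algebraMap C[X] Ω).comp (Polynomial.C : C →+* C[X])) := by
      exact kum_inj.comp Polynomial.C_injective
    exact hζ.map_of_injective h1
  have hZ0 : Z ≠ 0 := hZp.ne_zero hℓ.ne_zero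
  have hZi : ∀ σ : Ω ≃ₐ[RatFunc C] Ω, σ Z = Z := fun σ => kum_fix σ _
  have hZint : IsIntegral C[X] Z := isIntegral_algebraMap
  have hZinv : Z⁻¹ = algebraMap C[X] Ω (Polynomial.C ζ⁻¹) := by
    apply inv_eq_of_mul_eq_one_right
    rw [hZ, ← map_mul, ← Polynomial.C_mul, mul_inv_cancel₀ (hζ.ne_zero hℓ.ne_zero),
      Polynomial.C_1, map_one]
  have hZinvint : IsIntegral C[X] Z⁻¹ := by rw [hZinv]; exact isIntegral_algebraMap
  -- elements with the same value of χ act in the same way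
  have hker : ∀ (α β : Ω ≃ₐ[RatFunc C] Ω), χ α = χ β →
      ∀ x ∈ IntermediateField.fixedField χ.ker, α x = β x := by
    intro α β hαβ x hx
    rw [IntermediateField.mem_fixedField_iff] at hx
    have h1 := hx (β⁻¹ * α) (by rw [MonoidHom.mem_ker, map_mul, map_inv, hαβ, inv_mul_cancel])
    rw [AlgEquiv.mul_apply] at h1
    have h2 := congrArg β h1
    rw [← AlgEquiv.mul_apply β β⁻¹, mul_inv_cancel, AlgEquiv.one_apply] at h2
    exact h2
  have hχτ : ∀ n : ℕ, χ (τ ^ n) = Multiplicative.ofAdd (n : ZMod ℓ) := by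
    intro n
    rw [map_pow, hτ, ← ofAdd_nsmul, nsmul_eq_mul, mul_one]
  have hmain : ∀ (x y : integralClosure C[X] Ω),
      (x : Ω) ∈ IntermediateField.fixedField χ.ker → (y : Ω) = τ (x : Ω) → y - x ∈ Q := by
    intro x y hx hy
    let w : ℕ → Ω := fun i => ∑ j ∈ Finset.range ℓ, Z⁻¹ ^ (i * j) * (τ ^ j) (x : Ω)
    have hwint : ∀ i, IsIntegral C[X] (w i) := by
      intro i
      refine IsIntegral.sum _ (fun j _ => ?_)
      exact (hZinvint.pow _).mul (kum_int_map _ x.2)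
    have hτℓ : (τ ^ ℓ) (x : Ω) = x := by
      have h1 := hker (τ ^ ℓ) 1 (by rw [hχτ, map_one]; simp) x hx
      exact h1
    have hτw : ∀ i, τ (w i) = Z ^ i * w i := by
      intro i
      have h1 : τ (w i) = ∑ j ∈ Finset.range ℓ, Z ^ i * Z⁻¹ ^ (i * (j + 1)) *
          (τ ^ (j + 1)) (x : Ω) := by
        rw [map_sum]
        refine Finset.sum_congr rfl (fun j _ => ?_)
        rw [map_mul, map_pow, map_inv₀, hZi, pow_succ' τ, AlgEquiv.mul_apply]
        congr 1
        rw [mul_add, mul_one, pow_add, mul_left_comm, ← mul_pow, mul_inv_cancel₀ hZ0, one_pow,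
          mul_one]
      have h2 : Z ^ i * w i = ∑ j ∈ Finset.range ℓ, Z ^ i * Z⁻¹ ^ (i * j) *
          (τ ^ j) (x : Ω) := by
        rw [Finset.mul_sum]
        refine Finset.sum_congr rfl (fun j _ => ?_)
        rw [mul_assoc]
      rw [h1, h2]
      have h3 := Finset.sum_range_succ (fun j => Z ^ i * Z⁻¹ ^ (i * j) * (τ ^ j) (x : Ω)) ℓ
      have h4 := Finset.sum_range_succ' (fun j => Z ^ i * Z⁻¹ ^ (i * j) * (τ ^ j) (x : Ω)) ℓ
      rw [h3] at h4
      have h5 : Z ^ i * Z⁻¹ ^ (i * ℓ) * (τ ^ ℓ) (x : Ω) =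
          Z ^ i * Z⁻¹ ^ (i * 0) * (τ ^ 0) (x : Ω) := by
        rw [hτℓ, mul_comm i ℓ, pow_mul, inv_pow, hZp.pow_eq_one]
        simp
      rw [h5] at h4
      exact (add_right_cancel h4).symm
    have hτnw : ∀ i n : ℕ, (τ ^ n) (w i) = Z ^ (i * n) * w i := by
      intro i n
      induction n with
      | zero => simp
      | succ n ih =>
        rw [pow_succ', AlgEquiv.mul_apply, ih, map_mul, map_pow, hZi, hτw, ← mul_assoc,
          ← pow_add]
        congr 2
    have hσw : ∀ (i : ℕ) (σ : Ω ≃ₐ[RatFunc C] Ω),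
        σ (w i) = Z ^ (i * (Multiplicative.toAdd (χ σ)).val) * w i := by
      intro i σ
      rw [← hτnw]
      simp only [w, map_sum, map_mul, map_pow, map_inv₀, hZi]
      refine Finset.sum_congr rfl (fun j _ => ?_)
      congr 1
      rw [← AlgEquiv.mul_apply, ← AlgEquiv.mul_apply]
      refine hker _ _ ?_ x hx
      rw [map_mul, map_mul, hχτ (Multiplicative.toAdd (χ σ)).val]
      simp
    have hwQ : ∀ i, 0 < i → i < ℓ → (⟨w i, hwint i⟩ : integralClosure C[X] Ω) ∈ Q := by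
      intro i hi0 hiℓ
      have hcop : Nat.Coprime i ℓ :=
        ((Nat.Prime.coprime_iff_not_dvd hℓ).2 (Nat.not_dvd_of_pos_of_lt hi0 hiℓ)).symm
      obtain ⟨m, -, hm⟩ := Nat.exists_mul_mod_eq_one_of_coprime hcop hℓ.one_lt
      have h1 : (⟨w i, hwint i⟩ : integralClosure C[X] Ω) ^ m ∈ Q := by
        apply hcon'
        intro σ
        push_cast
        rw [map_pow, hσw, mul_pow, ← pow_mul]
        congr 1
        have h2 : i * (Multiplicative.toAdd (χ σ)).val * m =
            (i * m) * (Multiplicative.toAdd (χ σ)).val := by ring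
        rw [h2, pow_mul]
        congr 1
        rw [← Nat.mod_add_div (i * m) ℓ, hm, pow_add, pow_mul, hZp.pow_eq_one, one_pow, pow_one,
          mul_one]
      exact hQ.isPrime.mem_of_pow_mem m h1
    let ZO : integralClosure C[X] Ω := algebraMap C[X] (integralClosure C[X] Ω) (Polynomial.C ζ)
    have hZO : (ZO : Ω) = Z := rfl
    have hs : ∑ i ∈ Finset.range ℓ, (ZO ^ i - 1) * (⟨w i, hwint i⟩ : integralClosure C[X] Ω) ∈
        Q := by
      refine Q.sum_mem (fun i hi => ?_)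
      rcases Nat.eq_zero_or_pos i with h0 | h0
      · subst h0
        rw [pow_zero, sub_self, zero_mul]
        exact Q.zero_mem
      · exact Q.mul_mem_left _ (hwQ i h0 (Finset.mem_range.1 hi))
    have h1 := kum_four hℓ.pos hZp (fun j => (τ ^ j) (x : Ω)) 1 hℓ.one_lt
    have h0 := kum_four hℓ.pos hZp (fun j => (τ ^ j) (x : Ω)) 0 hℓ.pos
    have hval : (((∑ i ∈ Finset.range ℓ, (ZO ^ i - 1) *
        (⟨w i, hwint i⟩ : integralClosure C[X] Ω) : integralClosure C[X] Ω)) : Ω) =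
        (ℓ : Ω) * (y - x) := by
      rw [hy]
      have h2 : (ℓ : Ω) * (τ (x : Ω) - x) =
          (ℓ : Ω) * (τ ^ 1) (x : Ω) - (ℓ : Ω) * (τ ^ 0) (x : Ω) := by
        rw [pow_one, pow_zero, AlgEquiv.one_apply]
        ring
      rw [h2, ← h1, ← h0, ← Finset.sum_sub_distrib]
      push_cast
      refine Finset.sum_congr rfl (fun i _ => ?_)
      rw [hZO]
      simp only [w]
      rw [one_mul, zero_mul, pow_zero]
      ring
    have hfin : y - x = algebraMap C[X] (integralClosure C[X] Ω) (Polynomial.C (ℓ : C)⁻¹) *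
        ∑ i ∈ Finset.range ℓ, (ZO ^ i - 1) * (⟨w i, hwint i⟩ : integralClosure C[X] Ω) := by
      apply Subtype.ext
      have h3 : ((algebraMap C[X] (integralClosure C[X] Ω) (Polynomial.C (ℓ : C)⁻¹) *
        ∑ i ∈ Finset.range ℓ, (ZO ^ i - 1) * (⟨w i, hwint i⟩ : integralClosure C[X] Ω) :
          integralClosure C[X] Ω) : Ω) = algebraMap C[X] Ω (Polynomial.C (ℓ : C)⁻¹) *
          ((∑ i ∈ Finset.range ℓ, (ZO ^ i - 1) *
            (⟨w i, hwint i⟩ : integralClosure C[X] Ω) : integralClosure C[X] Ω) : Ω) := rfl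
      rw [h3, hval, ← mul_assoc]
      have h4 : algebraMap C[X] Ω (Polynomial.C (ℓ : C)⁻¹) * (ℓ : Ω) = 1 := by
        have h5 : (ℓ : Ω) = algebraMap C[X] Ω (Polynomial.C (ℓ : C)) := by simp
        rw [h5, ← map_mul, ← Polynomial.C_mul, inv_mul_cancel₀ hℓC, Polynomial.C_1, map_one]
      rw [h4, one_mul]
      rfl
    rw [hfin]
    exact Q.mul_mem_left _ hs
  obtain ⟨σ, hσ1, hσ2⟩ := hSURJ C Ω (IntermediateField.fixedField χ.ker) Q hQ
    (τ.restrictNormal (IntermediateField.fixedField χ.ker)) (by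
      intro x y z hxz hyz
      apply hmain x y
      · rw [hxz]; exact z.2
      · rw [hyz, hxz]
        exact τ.restrictNormal_commutes (IntermediateField.fixedField χ.ker) z)
  have h1 := hu Q hQ σ hσ1
  have h2 : τ⁻¹ * σ ∈ χ.ker := by
    rw [← hfix, IntermediateField.mem_fixingSubgroup_iff]
    intro z hz
    rw [AlgEquiv.mul_apply]
    have h3 : σ z = τ z := by
      have h4 := hσ2 ⟨z, hz⟩
      rw [show ((⟨z, hz⟩ : IntermediateField.fixedField χ.ker) : Ω) = z from rfl] at h4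
      rw [h4]
      exact τ.restrictNormal_commutes (IntermediateField.fixedField χ.ker) ⟨z, hz⟩
    rw [h3, ← AlgEquiv.mul_apply, inv_mul_cancel, AlgEquiv.one_apply]
  rw [MonoidHom.mem_ker, map_mul, map_inv, h1, mul_one, inv_eq_one, hτ] at h2
  have h3 : (1 : ZMod ℓ) = 0 := h2
  exact one_ne_zero h3

/-- (b): descent on the degree of `x ^ ℓ`. -/
theorem kum_B [IsAlgClosed C] [IsSepClosure (RatFunc C) Ω] (ℓ : ℕ) [Fact ℓ.Prime]
    (ζ : C) (hζ : IsPrimitiveRoot ζ ℓ)
    (χ : (Ω ≃ₐ[RatFunc C] Ω) →* Multiplicative (ZMod ℓ))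
    (τ : Ω ≃ₐ[RatFunc C] Ω) (hτ : χ τ = Multiplicative.ofAdd 1)
    (hA : ∀ Q : Ideal (integralClosure C[X] Ω), Q.IsMaximal →
      ∃ z : integralClosure C[X] Ω, z ∉ Q ∧ ∀ σ : Ω ≃ₐ[RatFunc C] Ω,
        σ (z : Ω) = algebraMap C[X] Ω (Polynomial.C ζ) ^ (Multiplicative.toAdd (χ σ)).val * z) :
    ∀ (N : ℕ) (f : C[X]) (x : integralClosure C[X] Ω), f.natDegree = N → x ≠ 0 →
      (∀ σ : Ω ≃ₐ[RatFunc C] Ω,
        σ (x : Ω) = algebraMap C[X] Ω (Polynomial.C ζ) ^ (Multiplicative.toAdd (χ σ)).val * x) →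
      (x : Ω) ^ ℓ = algebraMap C[X] Ω f → False := by
  classical
  have hgal : IsGalois (RatFunc C) Ω := IsSepClosure.isGalois
  have hℓ : ℓ.Prime := Fact.out
  set Z : Ω := algebraMap C[X] Ω (Polynomial.C ζ) with hZ
  have hZp : IsPrimitiveRoot Z ℓ := by
    have h1 : Function.Injective ((algebraMap C[X] Ω).comp (Polynomial.C : C →+* C[X])) := by
      exact kum_inj.comp Polynomial.C_injective
    exact hζ.map_of_injective h1
  have hZ0 : Z ≠ 0 := hZp.ne_zero hℓ.ne_zero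
  intro N
  induction N using Nat.strong_induction_on with
  | _ N IH =>
  intro f x hfN hx0 hxσ hxf
  have hx0' : (x : Ω) ≠ 0 := fun h => hx0 (Subtype.ext h)
  have hf0 : f ≠ 0 := by
    rintro rfl
    rw [map_zero] at hxf
    exact hx0' (pow_eq_zero_iff hℓ.ne_zero |>.1 hxf)
  rcases Nat.eq_zero_or_pos N with h0 | h0
  · -- constant
    rw [h0] at hfN
    rw [Polynomial.eq_C_of_natDegree_eq_zero hfN] at hxf
    obtain ⟨d, hd⟩ := IsAlgClosed.exists_pow_nat_eq (f.coeff 0) hℓ.pos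
    have hd0 : algebraMap C[X] Ω (Polynomial.C d) ≠ 0 := by
      intro h
      rw [← hd, Polynomial.C_pow, map_pow, h, zero_pow hℓ.ne_zero] at hxf
      exact hx0' (pow_eq_zero_iff hℓ.ne_zero |>.1 hxf)
    have h1 : ((x : Ω) / algebraMap C[X] Ω (Polynomial.C d)) ^ ℓ = 1 := by
      rw [div_pow, hxf, ← hd, Polynomial.C_pow, map_pow]
      exact div_self (pow_ne_zero _ hd0)
    obtain ⟨i, -, hi⟩ := hZp.eq_pow_of_pow_eq_one h1
    have h2 : (x : Ω) = Z ^ i * algebraMap C[X] Ω (Polynomial.C d) := by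
      rw [hi, div_mul_cancel₀ _ hd0]
    have h3 : τ (x : Ω) = x := by
      rw [h2, map_mul, map_pow, kum_fix, hZ, kum_fix]
    have h4 := hxσ τ
    rw [h3, hτ] at h4
    have h5 : (Multiplicative.toAdd (Multiplicative.ofAdd (1 : ZMod ℓ))).val = 1 := by
      rw [toAdd_ofAdd]
      have : Fact (1 < ℓ) := ⟨hℓ.one_lt⟩
      exact ZMod.val_one ℓ
    rw [h5, pow_one] at h4
    have h6 : (Z - 1) * (x : Ω) = 0 := by
      rw [sub_mul, one_mul, ← h4, sub_self]
    rcases mul_eq_zero.1 h6 with h7 | h7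
    · exact hZp.ne_one hℓ.one_lt (sub_eq_zero.1 h7)
    · exact hx0' h7
  · -- nonconstant
    obtain ⟨a, ha⟩ := IsAlgClosed.exists_root f (by
      rw [Polynomial.degree_eq_natDegree hf0, hfN]
      exact_mod_cast h0.ne')
    have hfac : ∃ g : C[X], f = (X - Polynomial.C a) * g := Polynomial.dvd_iff_isRoot.2 ha
    -- a maximal ideal over a
    have hmaxa : (Ideal.span {(X - Polynomial.C a : C[X])}).IsMaximal :=
      PrincipalIdealRing.isMaximal_of_irreducible (Polynomial.irreducible_X_sub_C a)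
    have hintO : Algebra.IsIntegral C[X] (integralClosure C[X] Ω) := inferInstance
    obtain ⟨Q, hQ, hQa⟩ := Ideal.exists_ideal_over_maximal_of_isIntegral
      (S := integralClosure C[X] Ω) (Ideal.span {(X - Polynomial.C a : C[X])}) (by
        have h1 : RingHom.ker (algebraMap C[X] (integralClosure C[X] Ω)) = ⊥ := by
          rw [← RingHom.injective_iff_ker_eq_bot]
          intro u v huv
          exact kum_inj (Ω := Ω) (congrArg (fun t : integralClosure C[X] Ω => (t : Ω)) huv)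
        rw [h1]
        exact bot_le)
    have hXa : algebraMap C[X] (integralClosure C[X] Ω) (X - Polynomial.C a) ∈ Q := by
      rw [← Ideal.mem_comap, hQa]
      exact Ideal.mem_span_singleton_self _
    have hxQ : x ∈ Q := by
      apply hQ.isPrime.mem_of_pow_mem ℓ
      obtain ⟨g, hg⟩ := hfac
      have h1 : x ^ ℓ = algebraMap C[X] (integralClosure C[X] Ω) g *
          algebraMap C[X] (integralClosure C[X] Ω) (X - Polynomial.C a) := by
        apply Subtype.ext
        have h2 : ((x ^ ℓ : integralClosure C[X] Ω) : Ω) = (x : Ω) ^ ℓ := by push_cast; rfl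
        rw [h2, hxf, hg, mul_comm, map_mul]
        rfl
      rw [h1]
      exact Q.mul_mem_left _ hXa
    obtain ⟨z, hzQ, hzσ⟩ := hA Q hQ
    have hquot : ∀ σ : Ω ≃ₐ[RatFunc C] Ω, σ ((z : Ω) / x) = (z : Ω) / x := by
      intro σ
      rw [map_div₀, hzσ, hxσ, mul_div_mul_left _ _ (pow_ne_zero _ hZ0)]
    obtain ⟨r, hr⟩ :=
      (InfiniteGalois.mem_range_algebraMap_iff_fixed (k := RatFunc C) ((z : Ω) / x)).2 hquot
    have hcop := RatFunc.isCoprime_num_denom r
    obtain ⟨u, v, huv⟩ := hcop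
    have hden0 : r.denom ≠ 0 := RatFunc.denom_ne_zero r
    have hr2 : algebraMap (RatFunc C) Ω r * algebraMap C[X] Ω r.denom =
        algebraMap C[X] Ω r.num := by
      have h1 := RatFunc.num_div_denom r
      have h2 : algebraMap C[X] (RatFunc C) r.denom ≠ 0 := by
        rw [Ne, map_eq_zero_iff _ (IsFractionRing.injective C[X] (RatFunc C))]
        exact hden0
      have h3 : r * algebraMap C[X] (RatFunc C) r.denom = algebraMap C[X] (RatFunc C) r.num :=
        ((div_eq_iff h2).1 h1).symm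
      rw [IsScalarTower.algebraMap_apply C[X] (RatFunc C) Ω,
        IsScalarTower.algebraMap_apply C[X] (RatFunc C) Ω r.num, ← map_mul, h3]
    have hrel : algebraMap C[X] Ω r.denom * (z : Ω) = algebraMap C[X] Ω r.num * x := by
      rw [← hr2, hr]
      field_simp
    have hrelO : algebraMap C[X] (integralClosure C[X] Ω) r.denom * z =
        algebraMap C[X] (integralClosure C[X] Ω) r.num * x := Subtype.ext hrel
    have hdenQ : algebraMap C[X] (integralClosure C[X] Ω) r.denom ∈ Q := by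
      have h1 : algebraMap C[X] (integralClosure C[X] Ω) r.denom * z ∈ Q := by
        rw [hrelO]
        exact Q.mul_mem_left _ hxQ
      exact (hQ.isPrime.mem_or_mem h1).resolve_right hzQ
    have hdendvd : (X - Polynomial.C a) ∣ r.denom := by
      rw [← Ideal.mem_comap, hQa] at hdenQ
      exact Ideal.mem_span_singleton.1 hdenQ
    have hdendeg : 0 < r.denom.natDegree := by
      have h1 := Polynomial.natDegree_le_of_dvd hdendvd hden0
      rw [Polynomial.natDegree_X_sub_C] at h1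
      omega
    let y : integralClosure C[X] Ω := algebraMap C[X] (integralClosure C[X] Ω) u * z +
      algebraMap C[X] (integralClosure C[X] Ω) v * x
    have hyval : (y : Ω) = algebraMap C[X] Ω u * z + algebraMap C[X] Ω v * x := rfl
    have hhy : algebraMap C[X] Ω r.denom * (y : Ω) = x := by
      rw [hyval, mul_add, mul_left_comm, hrel, ← mul_assoc, ← mul_assoc, ← map_mul, ← map_mul,
        ← add_mul, ← map_add, mul_comm r.denom v, huv, map_one, one_mul]
    have hy0 : y ≠ 0 := by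
      intro h
      rw [h] at hhy
      apply hx0'
      rw [← hhy]
      simp
    have hyσ : ∀ σ : Ω ≃ₐ[RatFunc C] Ω,
        σ (y : Ω) = Z ^ (Multiplicative.toAdd (χ σ)).val * y := by
      intro σ
      rw [hyval, map_add, map_mul, map_mul, kum_fix, kum_fix, hzσ, hxσ]
      ring
    obtain ⟨f', hf'⟩ := kum_down ((y : Ω) ^ ℓ) (y.2.pow ℓ) (by
      intro σ
      rw [map_pow, hyσ, mul_pow, ← pow_mul, mul_comm _ ℓ, pow_mul, hZp.pow_eq_one, one_pow,
        one_mul])
    have hff : r.denom ^ ℓ * f' = f := by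
      apply kum_inj (Ω := Ω)
      rw [map_mul, map_pow, hf', ← hxf, ← hhy, mul_pow]
    have hf'0 : f' ≠ 0 := by
      rintro rfl
      rw [mul_zero] at hff
      exact hf0 hff.symm
    have hdeg : f'.natDegree < N := by
      rw [← hfN, ← hff, Polynomial.natDegree_mul (pow_ne_zero _ hden0) hf'0,
        Polynomial.natDegree_pow]
      have := Nat.mul_pos hℓ.pos hdendeg
      omega
    exact IH f'.natDegree hdeg f' y rfl hy0 hyσ hf'.symm

end

theorem t_KUM : St_SURJ → St_KUM := by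
  intro hSURJ C Ω _ _ p _ _ _ _ _ _ ℓ _ hℓp χ hc hu
  classical
  have hgal : IsGalois (RatFunc C) Ω := IsSepClosure.isGalois
  have hℓ : ℓ.Prime := Fact.out
  have hℓC : (ℓ : C) ≠ 0 := by
    intro h
    rw [CharP.cast_eq_zero_iff C p] at h
    rcases (Nat.dvd_prime hℓ).1 h with h1 | h1
    · exact CharP.char_ne_one C p h1
    · exact hℓp h1.symm
  have : NeZero (ℓ : C) := ⟨hℓC⟩
  obtain ⟨ζ, hζ⟩ := HasEnoughRootsOfUnity.exists_primitiveRoot C ℓ
  by_contra hne
  have hex : ∃ τ, χ τ ≠ 1 := by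
    by_contra h
    push Not at h
    exact hne (MonoidHom.ext h)
  obtain ⟨τ0, hτ0⟩ := hex
  have hex2 : ∃ τ, χ τ = Multiplicative.ofAdd 1 := by
    refine ⟨τ0 ^ ((Multiplicative.toAdd (χ τ0))⁻¹).val, ?_⟩
    rw [map_pow]
    apply Multiplicative.toAdd.injective
    rw [toAdd_pow, toAdd_ofAdd, nsmul_eq_mul, ZMod.natCast_zmod_val]
    exact inv_mul_cancel₀ (fun h => hτ0 h)
  obtain ⟨τ, hτ⟩ := hex2
  have hA := kum_A hSURJ ℓ hℓC ζ hζ χ hc hu τ hτ
  obtain ⟨Q, hQ⟩ := Ideal.exists_maximal (integralClosure C[X] Ω)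
  obtain ⟨z, hzQ, hzσ⟩ := hA Q hQ
  have hZp : IsPrimitiveRoot (algebraMap C[X] Ω (Polynomial.C ζ)) ℓ := by
    have h1 : Function.Injective ((algebraMap C[X] Ω).comp (Polynomial.C : C →+* C[X])) := by
      exact kum_inj.comp Polynomial.C_injective
    exact hζ.map_of_injective h1
  obtain ⟨f, hf⟩ := kum_down ((z : Ω) ^ ℓ) (z.2.pow ℓ) (by
    intro σ
    rw [map_pow, hzσ, mul_pow, ← pow_mul, mul_comm _ ℓ, pow_mul, hZp.pow_eq_one, one_pow,
      one_mul])
  exact kum_B ℓ ζ hζ χ τ hτ hA f.natDegree f z rfl (fun h => hzQ (by rw [h]; exact Q.zero_mem))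
    hzσ hf.symm

end Pool.Agent.H17Z
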