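import Pool.Agent.H17Z.LOC

/-!
# Project Z17, piece LFA (helper66)

Divisors modulo `ℓ`: an element `b` of the unramified extension `L` of `C(X)` all of whose
conjugates are `b` times `ℓ`-th powers is, after multiplication by a rational function, locally an
`ℓ`-th power times a unit.
-/

set_option autoImplicit false
set_option linter.unusedSectionVars false

namespace Pool.Agent.H17Z

open Polynomial

namespace Lfa

open Loc

section

variable {C L : Type} [Field C] [Field L] [Algebra (RatFunc C) L] [Algebra C[X] L]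
  [IsScalarTower C[X] (RatFunc C) L]

/-- `a` is a unit at `w`. -/
def Un (w : Ideal (integralClosure C[X] L)) (a : L) : Prop :=
  ∃ y y' : integralClosure C[X] L, y ∉ w ∧ y' ∉ w ∧ a * y' = y

theorem notMem_ne {w : Ideal (integralClosure C[X] L)} {z : integralClosure C[X] L}
    (hz : z ∉ w) : (z : L) ≠ 0 := by
  intro h0
  apply hz
  have h1 : z = 0 := Subtype.ext h0
  rw [h1]
  exact w.zero_mem

theorem Un.mul {w : Ideal (integralClosure C[X] L)} (hw : w.IsPrime) {a b : L} (ha : Un w a)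
    (hb : Un w b) : Un w (a * b) := by
  obtain ⟨y, y', hy, hy', h⟩ := ha
  obtain ⟨z, z', hz, hz', h'⟩ := hb
  refine ⟨y * z, y' * z', fun h => (hw.mem_or_mem h).elim hy hz,
    fun h => (hw.mem_or_mem h).elim hy' hz', ?_⟩
  rw [MulMemClass.coe_mul, MulMemClass.coe_mul, ← h, ← h']
  ring

theorem Un.ne_zero {w : Ideal (integralClosure C[X] L)} {a : L} (ha : Un w a) : a ≠ 0 := by
  obtain ⟨y, y', hy, hy', h⟩ := ha
  rintro rfl
  rw [zero_mul] at h
  exact notMem_ne hy h.symm

theorem Un.inv {w : Ideal (integralClosure C[X] L)} {a : L} (ha : Un w a) : Un w a⁻¹ := by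
  have h0 := ha.ne_zero
  obtain ⟨y, y', hy, hy', h⟩ := ha
  refine ⟨y', y, hy', hy, ?_⟩
  rw [← h, ← mul_assoc, inv_mul_cancel₀ h0, one_mul]

theorem Un.of_notMem {w : Ideal (integralClosure C[X] L)} (hw : w.IsPrime)
    {z : integralClosure C[X] L} (hz : z ∉ w) : Un w (z : L) :=
  ⟨z, 1, hz, fun h => hw.ne_top ((Ideal.eq_top_iff_one w).2 h), by
    rw [OneMemClass.coe_one, mul_one]⟩

theorem Un.one {w : Ideal (integralClosure C[X] L)} (hw : w.IsPrime) : Un w (1 : L) :=
  Un.of_notMem hw (z := 1) (fun h => hw.ne_top ((Ideal.eq_top_iff_one w).2 h))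

theorem Un.pow {w : Ideal (integralClosure C[X] L)} (hw : w.IsPrime) {a : L} (ha : Un w a)
    (n : ℕ) : Un w (a ^ n) := by
  induction n with
  | zero => rw [pow_zero]; exact Un.one hw
  | succ n ih => rw [pow_succ]; exact ih.mul hw ha

theorem Un.zpow {w : Ideal (integralClosure C[X] L)} (hw : w.IsPrime) {a : L} (ha : Un w a)
    (n : ℤ) : Un w (a ^ n) := by
  obtain ⟨m, rfl | rfl⟩ := n.eq_nat_or_neg
  · rw [zpow_natCast]; exact ha.pow hw m
  · rw [zpow_neg, zpow_natCast]; exact (ha.pow hw m).inv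

theorem Un.prod {w : Ideal (integralClosure C[X] L)} (hw : w.IsPrime) {ι : Type} (S : Finset ι)
    (f : ι → L) (h : ∀ i ∈ S, Un w (f i)) : Un w (∏ i ∈ S, f i) := by
  classical
  induction S using Finset.induction_on with
  | empty => rw [Finset.prod_empty]; exact Un.one hw
  | insert a S ha ih =>
    rw [Finset.prod_insert ha]
    exact (h a (Finset.mem_insert_self _ _)).mul hw
      (ih fun i hi => h i (Finset.mem_insert_of_mem hi))

/-- Every maximal ideal is over a point. -/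
theorem over_point [IsAlgClosed C] {w : Ideal (integralClosure C[X] L)} (hw : w.IsMaximal) :
    ∃ x₀ : C, algebraMap C[X] (integralClosure C[X] L) (X - Polynomial.C x₀) ∈ w := by
  have hm : (w.comap (algebraMap C[X] (integralClosure C[X] L))).IsMaximal :=
    Ideal.isMaximal_comap_of_isIntegral_of_isMaximal w
  have hne : w.comap (algebraMap C[X] (integralClosure C[X] L)) ≠ ⊥ :=
    Ring.ne_bot_of_isMaximal_of_not_isField hm (Polynomial.not_isField C)
  obtain ⟨f, hf, hf0⟩ := Submodule.exists_mem_ne_zero_of_ne_bot hne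
  have h1 := (IsAlgClosed.splits f).eq_prod_roots
  rw [h1] at hf
  rcases hm.isPrime.mem_or_mem hf with h2 | h2
  · exact absurd (Ideal.eq_top_of_isUnit_mem _ h2
      ((isUnit_iff_ne_zero.2 (leadingCoeff_ne_zero.2 hf0)).map Polynomial.C)) hm.ne_top
  · obtain ⟨q, hq, hq2⟩ := (hm.isPrime.multiset_prod_mem_iff_exists_mem _).1 h2
    obtain ⟨a, -, rfl⟩ := Multiset.mem_map.1 hq
    exact ⟨a, hq2⟩

/-- The other points are units. -/
theorem point_unit {w : Ideal (integralClosure C[X] L)} (hw : w.IsMaximal) {x₀ x : C}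
    (hx : algebraMap C[X] (integralClosure C[X] L) (X - Polynomial.C x₀) ∈ w) (hne : x ≠ x₀) :
    Un w (algebraMap C[X] L (X - Polynomial.C x)) := by
  refine Un.of_notMem hw.isPrime
    (z := algebraMap C[X] (integralClosure C[X] L) (X - Polynomial.C x)) fun h => ?_
  have h1 := dvd_of_mem hw hx h
  rw [Polynomial.dvd_iff_isRoot, Polynomial.IsRoot.def, eval_sub, eval_X, eval_C, sub_eq_zero] at h1
  exact hne h1.symm

variable [FiniteDimensional (RatFunc C) L]

/-- Maximal ideals over the same point are conjugate. -/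
theorem conj [IsGalois (RatFunc C) L] {w w' : Ideal (integralClosure C[X] L)}
    (hw : w.IsMaximal) (hw' : w'.IsMaximal) {x₀ : C}
    (hx : algebraMap C[X] (integralClosure C[X] L) (X - Polynomial.C x₀) ∈ w)
    (hx' : algebraMap C[X] (integralClosure C[X] L) (X - Polynomial.C x₀) ∈ w') :
    ∃ g : L ≃ₐ[RatFunc C] L, ∀ z : integralClosure C[X] L, act g z ∈ w' ↔ z ∈ w := by
  have hu : ∀ v : Ideal (integralClosure C[X] L), v.IsMaximal →
      algebraMap C[X] (integralClosure C[X] L) (X - Polynomial.C x₀) ∈ v →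
      v ∈ Ideal.primesOver (Ideal.span {X - Polynomial.C x₀}) (integralClosure C[X] L) := by
    intro v hv hxv
    refine ⟨hv.isPrime, ⟨?_⟩⟩
    ext f
    rw [Ideal.mem_span_singleton, Ideal.under_def, Ideal.mem_comap]
    constructor
    · rintro ⟨q, rfl⟩
      rw [map_mul]
      exact v.mul_mem_right _ hxv
    · exact fun h => dvd_of_mem hv hxv h
  obtain ⟨σ, hσ⟩ := Ideal.exists_comap_galRestrict_eq C[X] (RatFunc C) L
    (integralClosure C[X] L) (hu w' hw' hx') (hu w hw hx)
  refine ⟨σ, fun z => ?_⟩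
  rw [← hσ, Ideal.mem_comap]
  rfl

end

end Lfa

open Loc Lfa in
/-- Piece LFA. -/
theorem t_LFA : St_LOC → St_LFA := by
  classical
  intro hLOC C L _ _ _ _ _ _ _ _ hun ℓ hℓ b hb hconj
  have hfr : IsFractionRing (integralClosure C[X] L) L :=
    integralClosure.isFractionRing_of_finite_extension (RatFunc C) L
  have hπ : ∀ x₀ : C, algebraMap C[X] L (X - Polynomial.C x₀) ≠ 0 := by
    intro x₀ h1
    rw [IsScalarTower.algebraMap_apply C[X] (RatFunc C) L, map_eq_zero_iff _
      (algebraMap (RatFunc C) L).injective, map_eq_zero_iff _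
      (IsFractionRing.injective C[X] (RatFunc C))] at h1
    exact X_sub_C_ne_zero x₀ h1
  -- the local statement
  let P : C → ℤ → Prop := fun x₀ n => ∀ w : Ideal (integralClosure C[X] L), w.IsMaximal →
    algebraMap C[X] (integralClosure C[X] L) (X - Polynomial.C x₀) ∈ w →
    ∃ d a' : L, d ≠ 0 ∧ Un w a' ∧ b = algebraMap C[X] L (X - Polynomial.C x₀) ^ n * d ^ ℓ * a'
  have hP : ∀ x₀, ∃ n, P x₀ n := by
    intro x₀
    by_cases hex : ∃ w : Ideal (integralClosure C[X] L), w.IsMaximal ∧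
        algebraMap C[X] (integralClosure C[X] L) (X - Polynomial.C x₀) ∈ w
    · obtain ⟨w₀, hw₀, hx₀⟩ := hex
      obtain ⟨n, y, y', hy, hy', hn⟩ := hLOC C L hun w₀ hw₀ x₀ hx₀ b hb
      refine ⟨n, fun w hw hx => ?_⟩
      obtain ⟨g, hg⟩ := conj hw₀ hw hx₀ hx
      obtain ⟨a, ha⟩ := hconj g
      have ha0 : a ≠ 0 := by
        rintro rfl
        rw [zero_pow hℓ.ne', zero_mul, map_eq_zero_iff _ g.injective] at ha
        exact hb ha
      have hyw : act g y ∉ w := fun h => hy ((hg y).1 h)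
      have hyw' : act g y' ∉ w := fun h => hy' ((hg y').1 h)
      have h1 := congrArg g hn
      rw [map_mul, map_mul, map_zpow₀, ha, IsScalarTower.algebraMap_apply C[X] (RatFunc C) L,
        AlgEquiv.commutes, ← IsScalarTower.algebraMap_apply C[X] (RatFunc C) L, ← coe_act,
        ← coe_act] at h1
      refine ⟨a⁻¹, (act g y : L) / (act g y' : L), inv_ne_zero ha0,
        ⟨act g y, act g y', hyw, hyw', div_mul_cancel₀ _ (notMem_ne hyw')⟩, ?_⟩
      have h2 := notMem_ne hyw'
      rw [mul_div_assoc', eq_div_iff h2, inv_pow]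
      have h3 : a ^ ℓ ≠ 0 := pow_ne_zero _ ha0
      field_simp
      rw [← h1]
      ring
    · exact ⟨0, fun w hw hx => absurd ⟨w, hw, hx⟩ hex⟩
  -- almost all points
  obtain ⟨x, y, hy, hxy⟩ := IsFractionRing.div_surjective (A := integralClosure C[X] L) b
  have hy0 : y ≠ 0 := nonZeroDivisors.ne_zero hy
  have hx0 : x ≠ 0 := by
    rintro rfl
    rw [map_zero, zero_div] at hxy
    exact hb hxy.symm
  obtain ⟨c₁, f₁, hf₁, h₁⟩ := dvd_poly hx0
  obtain ⟨c₂, f₂, hf₂, h₂⟩ := dvd_poly hy0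
  let S : Finset C := (f₁ * f₂).roots.toFinset
  have hS : ∀ x₀, x₀ ∉ S → P x₀ 0 := by
    intro x₀ hx₀ w hw hx
    have h3 : ¬ (f₁ * f₂).IsRoot x₀ := fun h => hx₀
      (Multiset.mem_toFinset.2 ((mem_roots (mul_ne_zero hf₁ hf₂)).2 h))
    have hxw : x ∉ w := by
      intro h
      have h4 : algebraMap C[X] (integralClosure C[X] L) f₁ ∈ w := by
        rw [← h₁]
        exact w.mul_mem_right _ h
      have h5 := Polynomial.dvd_iff_isRoot.1 (dvd_of_mem hw hx h4)
      apply h3
      rw [Polynomial.IsRoot.def, eval_mul, h5.eq_zero, zero_mul]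
    have hyw : y ∉ w := by
      intro h
      have h4 : algebraMap C[X] (integralClosure C[X] L) f₂ ∈ w := by
        rw [← h₂]
        exact w.mul_mem_right _ h
      have h5 := Polynomial.dvd_iff_isRoot.1 (dvd_of_mem hw hx h4)
      apply h3
      rw [Polynomial.IsRoot.def, eval_mul, h5.eq_zero, mul_zero]
    refine ⟨1, b, one_ne_zero, ⟨x, y, hxw, hyw, ?_⟩, by rw [zpow_zero, one_pow, one_mul, one_mul]⟩
    rw [← hxy]
    exact div_mul_cancel₀ _ (notMem_ne hyw)
  have hn : ∀ x₀, ∃ n, P x₀ n ∧ (x₀ ∉ S → n = 0) := by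
    intro x₀
    by_cases h : x₀ ∈ S
    · obtain ⟨n, hn⟩ := hP x₀
      exact ⟨n, hn, fun h' => absurd h h'⟩
    · exact ⟨0, hS x₀ h, fun _ => rfl⟩
  choose n hn hn0 using hn
  have hπ' : ∀ x₀ : C, algebraMap C[X] (RatFunc C) (X - Polynomial.C x₀) ≠ 0 := by
    intro x₀ h1
    rw [map_eq_zero_iff _ (IsFractionRing.injective C[X] (RatFunc C))] at h1
    exact X_sub_C_ne_zero x₀ h1
  refine ⟨∏ x₀ ∈ S, algebraMap C[X] (RatFunc C) (X - Polynomial.C x₀) ^ (-(n x₀)),
    Finset.prod_ne_zero_iff.2 fun x₀ _ => zpow_ne_zero _ (hπ' x₀), fun w hw => ?_⟩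
  obtain ⟨x₁, hx₁⟩ := over_point hw
  obtain ⟨d, a', hd, ha', hb'⟩ := hn x₁ w hw hx₁
  have hu : algebraMap (RatFunc C) L
      (∏ x₀ ∈ S, algebraMap C[X] (RatFunc C) (X - Polynomial.C x₀) ^ (-(n x₀))) =
      ∏ x₀ ∈ S, algebraMap C[X] L (X - Polynomial.C x₀) ^ (-(n x₀)) := by
    rw [map_prod]
    refine Finset.prod_congr rfl fun x₀ _ => ?_
    rw [map_zpow₀, ← IsScalarTower.algebraMap_apply]
  have hun2 : Un w (algebraMap C[X] L (X - Polynomial.C x₁) ^ (n x₁) *
      ∏ x₀ ∈ S, algebraMap C[X] L (X - Polynomial.C x₀) ^ (-(n x₀))) := by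
    by_cases h1 : x₁ ∈ S
    · rw [← Finset.mul_prod_erase S _ h1, ← mul_assoc, ← zpow_add₀ (hπ x₁), add_neg_cancel,
        zpow_zero, one_mul]
      exact Un.prod hw.isPrime _ _ fun i hi =>
        (point_unit hw hx₁ (Finset.ne_of_mem_erase hi)).zpow hw.isPrime _
    · rw [hn0 x₁ h1, zpow_zero, one_mul]
      exact Un.prod hw.isPrime _ _ fun i hi =>
        (point_unit hw hx₁ (fun h => h1 (h ▸ hi))).zpow hw.isPrime _
  obtain ⟨z, z', hz, hz', hzz⟩ := ha'.mul hw.isPrime hun2
  refine ⟨d, z, z', hd, hz, hz', ?_⟩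
  rw [hu, hb', ← hzz]
  ring

end Pool.Agent.H17Z
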