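import Pool.Agent.H17Z.LFTb

/-!
# Project Z17, piece LFT: unramified lifts through central kernels of prime order
-/

set_option autoImplicit false

namespace Pool.Agent.H17Z

open Polynomial

theorem t_LFT (h1 : St_SURJ) (h2 : St_LFA) : St_LFT := by
  intro C Ω _ _ p _ _ _ _ _ _ ℓ _ hℓp hHH E H _ _ _ π hπ hcard hcen f hfc hfu
  have hp : ℓ.Prime := Fact.out
  obtain ⟨L, hLfin, hLgal, hL⟩ := lft_gal f hfc
  have hunr := lft_unr h1 f hfu L (fun σ h => (hL σ).1 h)
  obtain ⟨hℓ0, ι, hι1, hι2, hι3⟩ := lft_root C p ℓ hℓp π.ker hcard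
  obtain ⟨s, hs, hs1⟩ := lft_section π hπ
  obtain ⟨r, fb, hr, hfb⟩ := lft_bar f L hL
  obtain ⟨zc, hzc1, hzc2, hzc3⟩ := lft_coc π hcen s hs hs1 fb
  obtain ⟨a, b, ha0, hb0, ha, hb, hw⟩ :=
    lft_kum h2 ℓ hp.pos hHH L hunr ι hι2 zc hzc2
  let J : C →+* Ω := (algebraMap (RatFunc C) Ω).comp (algebraMap C (RatFunc C))
  have hJfix : ∀ (σ : Ω ≃ₐ[RatFunc C] Ω) (x : C), σ (J x) = J x := fun σ x => AlgEquiv.commutes σ _
  have hJinj : Function.Injective J := J.injective
  have hJ0 : ∀ z : π.ker, J (ι z) ≠ 0 := by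
    intro z h
    have h3 := hι2 z
    have h4 : (J (ι z)) ^ ℓ = 1 := by rw [← map_pow, h3, map_one]
    rw [h, zero_pow hp.ne_zero] at h4
    exact zero_ne_one h4
  have hclosed : IsSepClosed Ω := IsSepClosure.sep_closed (RatFunc C)
  have hne : NeZero (ℓ : Ω) := ⟨by
    have h3 : J (ℓ : C) = (ℓ : Ω) := map_natCast J ℓ
    rw [← h3]
    exact (_root_.map_ne_zero J).2 hℓ0⟩
  obtain ⟨β, hβ⟩ := IsSepClosed.exists_pow_nat_eq ((b : L) : Ω) ℓ
  have hbΩ : ((b : L) : Ω) ≠ 0 := fun h => hb0 (Subtype.ext h)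
  have haΩ : ∀ g, ((a g : L) : Ω) ≠ 0 := fun g h => ha0 g (Subtype.ext h)
  have hβ0 : β ≠ 0 := by
    intro h
    rw [h, zero_pow hp.ne_zero] at hβ
    exact hbΩ hβ.symm
  -- the Kummer character
  have hz : ∀ σ : Ω ≃ₐ[RatFunc C] Ω, ∃ z : π.ker, σ β = J (ι z) * (a (r σ) : Ω) * β := by
    intro σ
    have h3 : (σ β / ((a (r σ) : Ω) * β)) ^ ℓ = 1 := by
      rw [div_pow, mul_pow, ← map_pow, hβ, ← hr σ b, hb (r σ)]
      have h4 : ((a (r σ) ^ ℓ * b : L) : Ω) = (a (r σ) : Ω) ^ ℓ * (b : Ω) := rfl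
      rw [h4, div_self (mul_ne_zero (pow_ne_zero _ (haΩ _)) hbΩ)]
    obtain ⟨z, hz⟩ := hι3 Ω J _ h3
    refine ⟨z, ?_⟩
    rw [hz, mul_assoc, div_mul_cancel₀ _ (mul_ne_zero (haΩ _) hβ0)]
  choose z hz using hz
  have haa : ∀ g h, J (ι (zc g h)) * (a (g * h) : Ω) = ((g (a h) : L) : Ω) * (a g : Ω) := by
    intro g h
    have h3 := congrArg (fun t : L => (t : Ω)) (ha g h)
    exact h3
  have hzmul : ∀ σ τ : Ω ≃ₐ[RatFunc C] Ω, z (σ * τ) = z σ * z τ * zc (r σ) (r τ) := by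
    intro σ τ
    apply hι1
    apply hJinj
    have h3 : (σ * τ) β = σ (τ β) := rfl
    have h4 : σ (τ β) = J (ι (z τ)) * ((r σ (a (r τ)) : L) : Ω) *
        (J (ι (z σ)) * (a (r σ) : Ω) * β) := by
      rw [hz τ, map_mul, map_mul, hJfix, ← hr σ (a (r τ)), hz σ]
    have h5 := hz (σ * τ)
    rw [h3, h4, map_mul r] at h5
    have h6 := haa (r σ) (r τ)
    have h7 : (J (ι (z (σ * τ))) - J (ι (z σ)) * J (ι (z τ)) * J (ι (zc (r σ) (r τ)))) *
        ((a (r σ * r τ) : Ω) * β) = 0 := by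
      have : J (ι (z (σ * τ))) * (a (r σ * r τ) : Ω) * β =
          J (ι (z σ)) * J (ι (z τ)) * (J (ι (zc (r σ) (r τ))) * (a (r σ * r τ) : Ω)) * β := by
        rw [← h5, h6]; ring
      linear_combination this
    rcases mul_eq_zero.1 h7 with h8 | h8
    · rw [sub_eq_zero] at h8
      rw [h8, map_mul ι, map_mul ι, map_mul J, map_mul J]
    · exact absurd h8 (mul_ne_zero (haΩ _) hβ0)
  have hcomm : ∀ (w : π.ker) (x : E), (w : E) * x = x * w := fun w x =>
    ((Subgroup.mem_center_iff.1 (hcen w.2)) x).symm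
  let g : (Ω ≃ₐ[RatFunc C] Ω) →* E := MonoidHom.mk' (fun σ => (z σ : E) * s (f σ)) (by
    intro σ τ
    have h3 := hzc1 (r σ) (r τ)
    rw [← map_mul r, hfb, hfb, hfb] at h3
    rw [hzmul]
    change (z σ : E) * (z τ : E) * (zc (r σ) (r τ) : E) * s (f (σ * τ)) =
      (z σ : E) * s (f σ) * ((z τ : E) * s (f τ))
    calc (z σ : E) * (z τ : E) * (zc (r σ) (r τ) : E) * s (f (σ * τ))
        = (z σ : E) * (z τ : E) * ((zc (r σ) (r τ) : E) * s (f (σ * τ))) := by group
      _ = (z σ : E) * (z τ : E) * (s (f σ) * s (f τ)) := by rw [← h3]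
      _ = (z σ : E) * ((z τ : E) * s (f σ)) * s (f τ) := by group
      _ = (z σ : E) * (s (f σ) * (z τ : E)) * s (f τ) := by rw [hcomm (z τ) (s (f σ))]
      _ = _ := by group)
  have hg : ∀ σ, g σ = (z σ : E) * s (f σ) := fun _ => rfl
  have ha1 : a 1 = 1 := by
    have h3 := ha 1 1
    rw [hzc3, map_one ι, map_one, map_one, one_mul, mul_one] at h3
    have h4 : a 1 = a 1 * a 1 := h3
    have h5 : a 1 * (a 1 - 1) = 0 := by linear_combination -h4
    rcases mul_eq_zero.1 h5 with h6 | h6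
    · exact absurd h6 (ha0 1)
    · exact sub_eq_zero.1 h6
  have hr1 : ∀ σ, f σ = 1 → r σ = 1 := by
    intro σ hσ
    ext x
    rw [hr σ x, (hL σ).1 hσ x]
    rfl
  have hz1 : ∀ σ, f σ = 1 → σ β = J (ι (z σ)) * β := by
    intro σ hσ
    rw [hz σ, hr1 σ hσ, ha1]
    have h3 : ((1 : L) : Ω) = 1 := rfl
    rw [h3, mul_one]
  have hgz : ∀ σ, f σ = 1 → J (ι (z σ)) = 1 → g σ = 1 := by
    intro σ hσ hJ1
    have h3 : ι (z σ) = ι 1 := by
      apply hJinj
      rw [hJ1, map_one ι, map_one]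
    rw [hg, hι1 h3, hσ, hs1]
    simp
  refine ⟨g, ?_, ?_, ?_⟩
  · ext σ
    change π (g σ) = f σ
    rw [hg, map_mul, hs, (MonoidHom.mem_ker).1 (z σ).2, one_mul]
  · classical
    obtain ⟨S, hS⟩ := hfc
    refine ⟨insert β S, fun σ hσ => ?_⟩
    have hf1 : f σ = 1 := hS σ fun x hx => hσ x (Finset.mem_insert_of_mem hx)
    refine hgz σ hf1 ?_
    have h3 := hz1 σ hf1
    rw [hσ β (Finset.mem_insert_self _ _)] at h3
    have h4 : (J (ι (z σ)) - 1) * β = 0 := by linear_combination -h3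
    rcases mul_eq_zero.1 h4 with h5 | h5
    · exact sub_eq_zero.1 h5
    · exact absurd h5 hβ0
  · intro Q hQ σ hσ
    have hf1 : f σ = 1 := hfu Q hQ σ hσ
    refine hgz σ hf1 ?_
    by_contra hne1
    have hwmax : (Q.comap (lftInc L).toRingHom).IsMaximal := by
      have _ := hQ
      let _ : Algebra (integralClosure C[X] L) (integralClosure C[X] Ω) :=
        (lftInc L).toRingHom.toAlgebra
      have _ : IsScalarTower C[X] (integralClosure C[X] L) (integralClosure C[X] Ω) :=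
        IsScalarTower.of_algebraMap_eq fun x => ((lftInc L).commutes x).symm
      have _ : Algebra.IsIntegral (integralClosure C[X] L) (integralClosure C[X] Ω) :=
        Algebra.IsIntegral.tower_top (R := C[X])
      exact Ideal.isMaximal_comap_of_isIntegral_of_isMaximal
        (R := integralClosure C[X] L) (S := integralClosure C[X] Ω) Q
    obtain ⟨d, y, y', hd0, hy, hy', hbd⟩ := hw _ hwmax
    rw [Ideal.mem_comap] at hy hy'
    have hdΩ : ((d : L) : Ω) ≠ 0 := fun h => hd0 (Subtype.ext h)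
    have hbdΩ : ((b : L) : Ω) * ((y' : L) : Ω) = ((d : L) : Ω) ^ ℓ * ((y : L) : Ω) :=
      congrArg (fun t : L => (t : Ω)) hbd
    obtain ⟨m, hm⟩ : ∃ m, ℓ = m + 1 := ⟨ℓ - 1, by have := hp.pos; omega⟩
    have hη : (β * ((y' : L) : Ω) / ((d : L) : Ω)) ^ ℓ =
        ((lftInc L y * lftInc L y' ^ m : integralClosure C[X] Ω) : Ω) := by
      have h3 : ((lftInc L y * lftInc L y' ^ m : integralClosure C[X] Ω) : Ω) =
          ((y : L) : Ω) * ((y' : L) : Ω) ^ m := rfl
      rw [h3, div_pow, mul_pow, hβ, div_eq_iff (pow_ne_zero _ hdΩ)]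
      have h4 : ((y' : L) : Ω) ^ ℓ = ((y' : L) : Ω) * ((y' : L) : Ω) ^ m := by
        rw [hm, pow_succ']
      rw [h4]
      linear_combination ((y' : L) : Ω) ^ m * hbdΩ
    have hηint : IsIntegral C[X] (β * ((y' : L) : Ω) / ((d : L) : Ω)) :=
      IsIntegral.of_pow hp.pos (hη ▸ (lftInc L y * lftInc L y' ^ m : integralClosure C[X] Ω).2)
    set η : integralClosure C[X] Ω := ⟨_, hηint⟩ with hηdef
    have hηQ : η ∉ Q := by
      intro hc
      have h3 : η ^ ℓ = lftInc L y * lftInc L y' ^ m := Subtype.ext hη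
      have h4 : η ^ ℓ ∈ Q := Ideal.pow_mem_of_mem Q hc ℓ hp.pos
      rw [h3] at h4
      rcases hQ.isPrime.mem_or_mem h4 with h5 | h5
      · exact hy h5
      · exact hy' (hQ.isPrime.mem_of_pow_mem _ h5)
    have hση : σ (η : Ω) = J (ι (z σ)) * (η : Ω) := by
      change σ (β * ((y' : L) : Ω) / ((d : L) : Ω)) =
        J (ι (z σ)) * (β * ((y' : L) : Ω) / ((d : L) : Ω))
      rw [map_div₀, map_mul, hz1 σ hf1, (hL σ).1 hf1, (hL σ).1 hf1]
      ring
    -- constants are integral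
    have hcst : ∀ x : C, ((algebraMap C[X] (integralClosure C[X] Ω) (Polynomial.C x) :
        integralClosure C[X] Ω) : Ω) = J x := by
      intro x
      have h3 : ((algebraMap C[X] (integralClosure C[X] Ω) (Polynomial.C x) :
        integralClosure C[X] Ω) : Ω) = algebraMap C[X] Ω (Polynomial.C x) := rfl
      rw [h3, IsScalarTower.algebraMap_apply C[X] (RatFunc C) Ω]
      rfl
    have h6 := hσ η (algebraMap C[X] (integralClosure C[X] Ω) (Polynomial.C (ι (z σ))) * η) (by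
      change ((algebraMap C[X] (integralClosure C[X] Ω) (Polynomial.C (ι (z σ))) :
        integralClosure C[X] Ω) : Ω) * (η : Ω) = _
      rw [hcst, hση])
    have h7 : algebraMap C[X] (integralClosure C[X] Ω) (Polynomial.C (ι (z σ))) * η - η =
        algebraMap C[X] (integralClosure C[X] Ω) (Polynomial.C (ι (z σ) - 1)) * η := by
      rw [map_sub, map_sub, map_one, map_one]; ring
    rw [h7] at h6
    rcases hQ.isPrime.mem_or_mem h6 with h8 | h8
    · have hne2 : ι (z σ) - 1 ≠ 0 := by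
        intro h9
        apply hne1
        rw [sub_eq_zero.1 h9, map_one]
      apply hQ.ne_top
      rw [Ideal.eq_top_iff_one]
      have h10 : (1 : integralClosure C[X] Ω) =
          algebraMap C[X] (integralClosure C[X] Ω) (Polynomial.C (ι (z σ) - 1)⁻¹) *
          algebraMap C[X] (integralClosure C[X] Ω) (Polynomial.C (ι (z σ) - 1)) := by
        rw [← map_mul, ← map_mul, inv_mul_cancel₀ hne2, map_one, map_one]
      rw [h10]
      exact Ideal.mul_mem_left _ _ h8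
    · exact hηQ h8

end Pool.Agent.H17Z
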