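import Pool.Agent.H17Z.Stm

/-!
# Project Z17, piece LOC (helper66)

`X - x₀` is a uniformiser of an unramified Galois extension of `C(X)`, `C` algebraically closed. The
proof is elementary: the decomposition group of the maximal ideal `w` is trivial, there is `e ∉ w`
which is in all the other conjugates of `w`, and the matrix of the `g h⁻¹ e` is invertible modulo
`w`; by Cramer's rule an element all of whose conjugates are in `w` is divisible by `X - x₀` in the
local ring of `w`.
-/

set_option autoImplicit false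
set_option linter.unusedSectionVars false

namespace Pool.Agent.H17Z

open Polynomial

namespace Loc

section

variable {C L : Type} [Field C] [Field L] [Algebra (RatFunc C) L] [Algebra C[X] L]
  [IsScalarTower C[X] (RatFunc C) L]

theorem dvd_of_mem {w : Ideal (integralClosure C[X] L)} (hw : w.IsMaximal) {x₀ : C}
    (hx : algebraMap C[X] (integralClosure C[X] L) (X - Polynomial.C x₀) ∈ w) {f : C[X]}
    (hf : algebraMap C[X] (integralClosure C[X] L) f ∈ w) : (X - Polynomial.C x₀) ∣ f := by
  rw [Polynomial.dvd_iff_isRoot]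
  by_contra hr
  have h1 : f %ₘ (X - Polynomial.C x₀) + (X - Polynomial.C x₀) * (f /ₘ (X - Polynomial.C x₀)) = f :=
    modByMonic_add_div f _
  rw [modByMonic_X_sub_C_eq_C_eval] at h1
  have h2 : algebraMap C[X] (integralClosure C[X] L) (Polynomial.C (f.eval x₀)) ∈ w := by
    have h3 : algebraMap C[X] (integralClosure C[X] L) (Polynomial.C (f.eval x₀)) =
        algebraMap C[X] (integralClosure C[X] L) f -
          algebraMap C[X] (integralClosure C[X] L) (X - Polynomial.C x₀) *
            algebraMap C[X] (integralClosure C[X] L) (f /ₘ (X - Polynomial.C x₀)) := by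
      rw [← map_mul, ← map_sub]
      congr 1
      rw [eq_sub_iff_add_eq]
      exact h1
    rw [h3]
    exact w.sub_mem hf (w.mul_mem_right _ hx)
  exact hw.ne_top (Ideal.eq_top_of_isUnit_mem w h2
    (((isUnit_iff_ne_zero.2 hr).map Polynomial.C).map _))

theorem residue [IsAlgClosed C] {w : Ideal (integralClosure C[X] L)} (hw : w.IsMaximal) {x₀ : C}
    (hx : algebraMap C[X] (integralClosure C[X] L) (X - Polynomial.C x₀) ∈ w)
    (b : integralClosure C[X] L) :
    ∃ c : C, b - algebraMap C[X] (integralClosure C[X] L) (Polynomial.C c) ∈ w := by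
  have := hw
  have : IsDomain (integralClosure C[X] L ⧸ w) := Ideal.Quotient.isDomain w
  let φ : C →+* (integralClosure C[X] L ⧸ w) :=
    (Ideal.Quotient.mk w).comp ((algebraMap C[X] (integralClosure C[X] L)).comp Polynomial.C)
  have h1 : φ.comp (Polynomial.evalRingHom x₀) =
      (Ideal.Quotient.mk w).comp (algebraMap C[X] (integralClosure C[X] L)) := by
    apply Polynomial.ringHom_ext
    · intro a
      simp only [φ, RingHom.comp_apply, Polynomial.coe_evalRingHom, Polynomial.eval_C]
    · simp only [φ, RingHom.comp_apply, Polynomial.coe_evalRingHom, Polynomial.eval_X]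
      symm
      rw [Ideal.Quotient.eq, ← map_sub]
      exact hx
  have h2 : φ.IsIntegral := by
    have h3 : ((Ideal.Quotient.mk w).comp
        (algebraMap C[X] (integralClosure C[X] L))).IsIntegral :=
      RingHom.IsIntegral.trans _ _ (algebraMap_isIntegral_iff.2 inferInstance)
        (RingHom.isIntegral_of_surjective _ Ideal.Quotient.mk_surjective)
    rw [← h1] at h3
    exact RingHom.IsIntegral.tower_top (T := integralClosure C[X] L ⧸ w)
      (Polynomial.evalRingHom x₀) φ h3
  obtain ⟨c, hc⟩ := (IsAlgClosed.ringHom_bijective_of_isIntegral φ h2).2 (Ideal.Quotient.mk w b)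
  refine ⟨c, ?_⟩
  rw [← Ideal.Quotient.eq]
  exact hc.symm

variable [FiniteDimensional (RatFunc C) L]

theorem fixed [IsGalois (RatFunc C) L] (x : integralClosure C[X] L)
    (h : ∀ g : L ≃ₐ[RatFunc C] L, g (x : L) = x) :
    ∃ f : C[X], algebraMap C[X] (integralClosure C[X] L) f = x := by
  have h1 : (x : L) ∈ (⊥ : IntermediateField (RatFunc C) L) := (IsGalois.mem_bot_iff_fixed _).2 h
  obtain ⟨r, hr⟩ := IntermediateField.mem_bot.1 h1
  have h2 : IsIntegral C[X] r := by
    have h3 : IsIntegral C[X] (algebraMap (RatFunc C) L r) := by rw [hr]; exact x.2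
    exact (isIntegral_algebraMap_iff (algebraMap (RatFunc C) L).injective).1 h3
  obtain ⟨f, hf⟩ := IsIntegrallyClosed.algebraMap_eq_of_integral h2
  refine ⟨f, Subtype.ext ?_⟩
  rw [← hr, ← hf, ← IsScalarTower.algebraMap_apply]
  rfl

/-- The action on the integral elements. -/
noncomputable def act (g : L ≃ₐ[RatFunc C] L) :
    integralClosure C[X] L ≃ₐ[C[X]] integralClosure C[X] L :=
  galRestrict C[X] (RatFunc C) L (integralClosure C[X] L) g

theorem coe_act (g : L ≃ₐ[RatFunc C] L) (x : integralClosure C[X] L) :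
    ((act g x : integralClosure C[X] L) : L) = g (x : L) :=
  algebraMap_galRestrict_apply C[X] g x

theorem act_mul (g h : L ≃ₐ[RatFunc C] L) (x : integralClosure C[X] L) :
    act g (act h x) = act (g * h) x := by
  apply Subtype.ext
  rw [coe_act, coe_act, coe_act]
  rfl

theorem act_one (x : integralClosure C[X] L) :
    act (1 : L ≃ₐ[RatFunc C] L) x = x := by
  apply Subtype.ext
  rw [coe_act]
  rfl

/-- There is `e ∉ w` all of whose other conjugates are in `w`. -/
theorem exists_e [IsAlgClosed C] 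
    (hun : ∀ τ : L ≃ₐ[RatFunc C] L, τ ≠ 1 → ∃ (m : ℕ) (b c : Fin m → L),
      (∀ i, IsIntegral C[X] (b i)) ∧
      (∀ i, IsIntegral C[X] (c i)) ∧ ∑ i, c i * (τ (b i) - b i) = 1)
    {w : Ideal (integralClosure C[X] L)} (hw : w.IsMaximal) {x₀ : C}
    (hx : algebraMap C[X] (integralClosure C[X] L) (X - Polynomial.C x₀) ∈ w) :
    ∃ e : integralClosure C[X] L, e ∉ w ∧ ∀ g : L ≃ₐ[RatFunc C] L, g ≠ 1 → act g e ∈ w := by
  classical
  have key : ∀ g : L ≃ₐ[RatFunc C] L, ∃ z : integralClosure C[X] L, z ∉ w ∧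
      (g ≠ 1 → act g z ∈ w) := by
    intro g
    by_cases hg : g = 1
    · exact ⟨1, fun h => hw.ne_top ((Ideal.eq_top_iff_one w).2 h), fun h => absurd hg h⟩
    · have hg' : g⁻¹ ≠ 1 := fun h => hg (inv_eq_one.1 h)
      obtain ⟨m, b, c, hb, hc, hs⟩ := hun g⁻¹ hg'
      let bB : Fin m → integralClosure C[X] L := fun i => ⟨b i, hb i⟩
      let cB : Fin m → integralClosure C[X] L := fun i => ⟨c i, hc i⟩
      have h1 : ∃ i, act g⁻¹ (bB i) - bB i ∉ w := by
        by_contra hall
        push Not at hall
        apply hw.ne_top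
        rw [Ideal.eq_top_iff_one]
        have h2 : ∑ i, cB i * (act g⁻¹ (bB i) - bB i) = 1 := by
          apply Subtype.ext
          rw [AddSubmonoidClass.coe_finsetSum]
          refine Eq.trans (Finset.sum_congr rfl fun i _ => ?_) hs
          rw [MulMemClass.coe_mul, AddSubgroupClass.coe_sub, coe_act]
        rw [← h2]
        exact w.sum_mem fun i _ => w.mul_mem_left _ (hall i)
      obtain ⟨i, hi⟩ := h1
      obtain ⟨r, hr⟩ := residue hw hx (bB i)
      set z : integralClosure C[X] L := bB i -
        algebraMap C[X] (integralClosure C[X] L) (Polynomial.C r) with hz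
      refine ⟨act g⁻¹ z, ?_, fun _ => ?_⟩
      · intro h
        apply hi
        have h3 : act g⁻¹ z = act g⁻¹ (bB i) -
            algebraMap C[X] (integralClosure C[X] L) (Polynomial.C r) := by
          rw [hz, map_sub, AlgEquiv.commutes]
        have h4 : act g⁻¹ (bB i) - bB i = act g⁻¹ z - z := by
          rw [h3, hz]
          ring
        rw [h4]
        exact w.sub_mem h hr
      · rw [act_mul, mul_inv_cancel, act_one]
        exact hr
  choose z hz1 hz2 using key
  have : Fintype (L ≃ₐ[RatFunc C] L) := Fintype.ofFinite _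
  refine ⟨∏ g, z g, ?_, fun g hg => ?_⟩
  · intro h
    obtain ⟨g, -, hg⟩ := (hw.isPrime.prod_mem_iff).1 h
    exact hz1 g hg
  · rw [map_prod]
    exact (hw.isPrime.prod_mem_iff).2 ⟨g, Finset.mem_univ _, hz2 g hg⟩

/-- The main step: an element of `w` is divisible by `X - x₀` at `w`. -/
theorem step [IsAlgClosed C] [IsGalois (RatFunc C) L]
    (hun : ∀ τ : L ≃ₐ[RatFunc C] L, τ ≠ 1 → ∃ (m : ℕ) (b c : Fin m → L),
      (∀ i, IsIntegral C[X] (b i)) ∧
      (∀ i, IsIntegral C[X] (c i)) ∧ ∑ i, c i * (τ (b i) - b i) = 1)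
    {w : Ideal (integralClosure C[X] L)} (hw : w.IsMaximal) {x₀ : C}
    (hx : algebraMap C[X] (integralClosure C[X] L) (X - Polynomial.C x₀) ∈ w)
    {t : integralClosure C[X] L} (ht : t ∈ w) :
    ∃ e t' : integralClosure C[X] L, e ∉ w ∧
      t * e = algebraMap C[X] (integralClosure C[X] L) (X - Polynomial.C x₀) * t' := by
  classical
  have : Fintype (L ≃ₐ[RatFunc C] L) := Fintype.ofFinite _
  obtain ⟨e, he, hec⟩ := exists_e hun hw hx
  let A : Matrix (L ≃ₐ[RatFunc C] L) (L ≃ₐ[RatFunc C] L) (integralClosure C[X] L) :=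
    Matrix.of fun h g => act (g * h⁻¹) e
  have hdet : A.det ∉ w := by
    intro h
    have := hw
    have : IsDomain (integralClosure C[X] L ⧸ w) := Ideal.Quotient.isDomain w
    have h1 : (Ideal.Quotient.mk w) A.det = 0 := Ideal.Quotient.eq_zero_iff_mem.2 h
    rw [RingHom.map_det (S := integralClosure C[X] L ⧸ w) (Ideal.Quotient.mk w) A] at h1
    have h2 : (Ideal.Quotient.mk w).mapMatrix A =
        Matrix.diagonal (fun _ => (Ideal.Quotient.mk w) e) := by
      ext h g
      rw [RingHom.mapMatrix_apply, Matrix.map_apply, Matrix.diagonal_apply]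
      split_ifs with hgh
      · subst hgh
        simp only [A, Matrix.of_apply, mul_inv_cancel, act_one]
      · simp only [A, Matrix.of_apply]
        apply Ideal.Quotient.eq_zero_iff_mem.2
        apply hec
        intro h3
        exact hgh (mul_inv_eq_one.1 h3).symm
    rw [h2, Matrix.det_diagonal, Finset.prod_const] at h1
    exact he (Ideal.Quotient.eq_zero_iff_mem.1 (eq_zero_of_pow_eq_zero h1))
  let s : integralClosure C[X] L := t * e
  have hs : ∀ g, act g s ∈ w := by
    intro g
    by_cases hg : g = 1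
    · rw [hg, act_one]
      exact w.mul_mem_right _ ht
    · simp only [s, map_mul]
      exact w.mul_mem_left _ (hec g hg)
  let v : (L ≃ₐ[RatFunc C] L) → integralClosure C[X] L := fun g => act g s
  have hT : ∀ h, ∃ q, (A.mulVec v) h =
      algebraMap C[X] (integralClosure C[X] L) (X - Polynomial.C x₀) * q := by
    intro h
    have hval : (A.mulVec v) h = ∑ g, act g (act h⁻¹ e * s) := by
      simp only [Matrix.mulVec, dotProduct, A, Matrix.of_apply, v, map_mul, act_mul]
    have hmem : (A.mulVec v) h ∈ w := by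
      simp only [Matrix.mulVec, dotProduct]
      exact w.sum_mem fun g _ => w.mul_mem_left _ (hs g)
    obtain ⟨f, hf⟩ := fixed ((A.mulVec v) h) (by
      intro k
      rw [hval, ← coe_act, map_sum]
      congr 1
      simp only [act_mul]
      exact Fintype.sum_equiv (Equiv.mulLeft k) _ _ fun g => rfl)
    rw [← hf] at hmem
    obtain ⟨q, hq⟩ := dvd_of_mem hw hx hmem
    refine ⟨algebraMap C[X] (integralClosure C[X] L) q, ?_⟩
    rw [← hf, hq, map_mul]
  choose q hq using hT
  have hcr : A.adjugate.mulVec (A.mulVec v) = A.det • v := by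
    rw [Matrix.mulVec_mulVec, Matrix.adjugate_mul, Matrix.smul_mulVec, Matrix.one_mulVec]
  have h1 := congrFun hcr 1
  refine ⟨e * A.det, ∑ h, A.adjugate 1 h * q h, fun h => ?_, ?_⟩
  · rcases hw.isPrime.mem_or_mem h with h2 | h2
    · exact he h2
    · exact hdet h2
  · have h2 : A.det * s = ∑ h, A.adjugate 1 h * (A.mulVec v) h := by
      rw [Pi.smul_apply, smul_eq_mul] at h1
      simp only [v, act_one] at h1
      rw [← h1]
      rfl
    calc t * (e * A.det) = A.det * s := by simp only [s]; ring
      _ = _ := by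
        rw [h2, Finset.mul_sum]
        refine Finset.sum_congr rfl fun h _ => ?_
        rw [hq h]
        ring

/-- The valuation of an integral element. -/
theorem val [IsAlgClosed C] [IsGalois (RatFunc C) L]
    (hun : ∀ τ : L ≃ₐ[RatFunc C] L, τ ≠ 1 → ∃ (m : ℕ) (b c : Fin m → L),
      (∀ i, IsIntegral C[X] (b i)) ∧
      (∀ i, IsIntegral C[X] (c i)) ∧ ∑ i, c i * (τ (b i) - b i) = 1)
    {w : Ideal (integralClosure C[X] L)} (hw : w.IsMaximal) {x₀ : C}
    (hx : algebraMap C[X] (integralClosure C[X] L) (X - Polynomial.C x₀) ∈ w) (m : ℕ) :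
    ∀ (b c h : integralClosure C[X] L), h ∉ w →
      b * c = algebraMap C[X] (integralClosure C[X] L) (X - Polynomial.C x₀) ^ m * h →
      ∃ (n : ℕ) (e y : integralClosure C[X] L), e ∉ w ∧ y ∉ w ∧
        b * e = algebraMap C[X] (integralClosure C[X] L) (X - Polynomial.C x₀) ^ n * y := by
  have hone : (1 : integralClosure C[X] L) ∉ w := fun h => hw.ne_top ((Ideal.eq_top_iff_one w).2 h)
  induction m with
  | zero =>
    intro b c h hh hbc
    refine ⟨0, 1, b, hone, fun hb => hh ?_, by ring⟩
    rw [pow_zero, one_mul] at hbc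
    rw [← hbc]
    exact w.mul_mem_right _ hb
  | succ m ih =>
    intro b c h hh hbc
    by_cases hb : b ∈ w
    · obtain ⟨e, t', he, ht'⟩ := step hun hw hx hb
      have h0 : algebraMap C[X] (integralClosure C[X] L) (X - Polynomial.C x₀) ≠ 0 := by
        intro h0
        have h1 : algebraMap C[X] L (X - Polynomial.C x₀) = 0 := by
          have := congrArg (fun z : integralClosure C[X] L => (z : L)) h0
          exact this
        rw [IsScalarTower.algebraMap_apply C[X] (RatFunc C) L, map_eq_zero_iff _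
          (algebraMap (RatFunc C) L).injective, map_eq_zero_iff _
          (IsFractionRing.injective C[X] (RatFunc C))] at h1
        exact X_sub_C_ne_zero x₀ h1
      have h1 : t' * c = algebraMap C[X] (integralClosure C[X] L) (X - Polynomial.C x₀) ^ m *
          (h * e) := by
        apply mul_left_cancel₀ h0
        calc algebraMap C[X] (integralClosure C[X] L) (X - Polynomial.C x₀) * (t' * c)
            = (algebraMap C[X] (integralClosure C[X] L) (X - Polynomial.C x₀) * t') * c := by ring
          _ = (b * e) * c := by rw [ht']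
          _ = (b * c) * e := by ring
          _ = _ := by rw [hbc]; ring
      obtain ⟨n, e', y, he', hy, hn⟩ := ih t' c (h * e)
        (fun h2 => (hw.isPrime.mem_or_mem h2).elim hh he) h1
      refine ⟨n + 1, e * e', y, fun h2 => (hw.isPrime.mem_or_mem h2).elim he he', hy, ?_⟩
      calc b * (e * e') = (b * e) * e' := by ring
        _ = algebraMap C[X] (integralClosure C[X] L) (X - Polynomial.C x₀) * (t' * e') := by
          rw [ht']; ring
        _ = _ := by rw [hn]; ring
    · exact ⟨0, 1, b, hone, hb, by ring⟩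

/-- A nonzero integral element divides a nonzero polynomial. -/
theorem dvd_poly [IsGalois (RatFunc C) L] {b : integralClosure C[X] L} (hb : b ≠ 0) :
    ∃ (c : integralClosure C[X] L) (f : C[X]), f ≠ 0 ∧
      b * c = algebraMap C[X] (integralClosure C[X] L) f := by
  classical
  have : Fintype (L ≃ₐ[RatFunc C] L) := Fintype.ofFinite _
  obtain ⟨f, hf⟩ := fixed (∏ g : L ≃ₐ[RatFunc C] L, act g b) (by
    intro k
    rw [← coe_act, map_prod]
    congr 1
    simp only [act_mul]
    exact Fintype.prod_equiv (Equiv.mulLeft k) _ _ fun g => rfl)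
  refine ⟨∏ g ∈ Finset.univ.erase (1 : L ≃ₐ[RatFunc C] L), act g b, f, ?_, ?_⟩
  · rintro rfl
    rw [map_zero] at hf
    obtain ⟨g, -, hg⟩ := Finset.prod_eq_zero_iff.1 hf.symm
    exact hb ((map_eq_zero_iff _ (act g).injective).1 hg)
  · rw [hf, ← Finset.mul_prod_erase Finset.univ _ (Finset.mem_univ (1 : L ≃ₐ[RatFunc C] L)),
      act_one]

theorem val' [IsAlgClosed C] [IsGalois (RatFunc C) L]
    (hun : ∀ τ : L ≃ₐ[RatFunc C] L, τ ≠ 1 → ∃ (m : ℕ) (b c : Fin m → L),
      (∀ i, IsIntegral C[X] (b i)) ∧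
      (∀ i, IsIntegral C[X] (c i)) ∧ ∑ i, c i * (τ (b i) - b i) = 1)
    {w : Ideal (integralClosure C[X] L)} (hw : w.IsMaximal) {x₀ : C}
    (hx : algebraMap C[X] (integralClosure C[X] L) (X - Polynomial.C x₀) ∈ w)
    {b : integralClosure C[X] L} (hb : b ≠ 0) :
      ∃ (n : ℕ) (e y : integralClosure C[X] L), e ∉ w ∧ y ∉ w ∧
        b * e = algebraMap C[X] (integralClosure C[X] L) (X - Polynomial.C x₀) ^ n * y := by
  obtain ⟨c, f, hf, hbc⟩ := dvd_poly hb
  obtain ⟨q, hq, hnd⟩ := Polynomial.exists_eq_pow_rootMultiplicity_mul_and_not_dvd f hf x₀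
  refine val hun hw hx (f.rootMultiplicity x₀) b c (algebraMap C[X] (integralClosure C[X] L) q)
    (fun h => hnd (dvd_of_mem hw hx h)) ?_
  rw [hbc, ← map_pow, ← map_mul, ← hq]

end

end Loc

open Loc in
/-- Piece LOC. -/
theorem t_LOC : St_LOC := by
  intro C L _ _ _ _ _ _ _ _ hun w hw x₀ hx b hb
  have hfr : IsFractionRing (integralClosure C[X] L) L :=
    integralClosure.isFractionRing_of_finite_extension (RatFunc C) L
  obtain ⟨x, y, hy, hxy⟩ := IsFractionRing.div_surjective (A := integralClosure C[X] L) b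
  have hy0 : y ≠ 0 := nonZeroDivisors.ne_zero hy
  have hx0 : x ≠ 0 := by
    rintro rfl
    rw [map_zero, zero_div] at hxy
    exact hb hxy.symm
  obtain ⟨n₁, e₁, y₁, he₁, hy₁, h₁⟩ := val' hun hw hx hx0
  obtain ⟨n₂, e₂, y₂, he₂, hy₂, h₂⟩ := val' hun hw hx hy0
  have hne : ∀ z : integralClosure C[X] L, z ∉ w → (z : L) ≠ 0 := by
    intro z hz h0
    apply hz
    have : z = 0 := Subtype.ext h0
    rw [this]
    exact w.zero_mem
  have hπ : algebraMap C[X] L (X - Polynomial.C x₀) ≠ 0 := by
    intro h1
    rw [IsScalarTower.algebraMap_apply C[X] (RatFunc C) L, map_eq_zero_iff _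
      (algebraMap (RatFunc C) L).injective, map_eq_zero_iff _
      (IsFractionRing.injective C[X] (RatFunc C))] at h1
    exact X_sub_C_ne_zero x₀ h1
  have g₁ : (x : L) * e₁ = algebraMap C[X] L (X - Polynomial.C x₀) ^ n₁ * y₁ :=
    congrArg (fun z : integralClosure C[X] L => (z : L)) h₁
  have g₂ : (y : L) * e₂ = algebraMap C[X] L (X - Polynomial.C x₀) ^ n₂ * y₂ :=
    congrArg (fun z : integralClosure C[X] L => (z : L)) h₂
  have hyL : (y : L) ≠ 0 := fun h0 => hy0 (Subtype.ext h0)
  have hxy' : b * (y : L) = x := by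
    rw [← hxy]
    exact div_mul_cancel₀ _ hyL
  refine ⟨(n₁ : ℤ) - n₂, y₁ * e₂, y₂ * e₁,
    fun h => (hw.isPrime.mem_or_mem h).elim hy₁ he₂,
    fun h => (hw.isPrime.mem_or_mem h).elim hy₂ he₁, ?_⟩
  rw [zpow_sub₀ hπ, zpow_natCast, zpow_natCast, MulMemClass.coe_mul, MulMemClass.coe_mul]
  have hπ2 := pow_ne_zero n₂ hπ
  rw [div_mul_eq_mul_div, eq_div_iff hπ2]
  calc b * ((y₂ : L) * e₁) * algebraMap C[X] L (X - Polynomial.C x₀) ^ n₂
      = b * (algebraMap C[X] L (X - Polynomial.C x₀) ^ n₂ * y₂) * e₁ := by ring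
    _ = (b * y) * e₁ * e₂ := by rw [← g₂]; ring
    _ = (x * e₁) * e₂ := by rw [hxy']
    _ = _ := by rw [g₁]; ring

end Pool.Agent.H17Z
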