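import Pool.Agent.H17Z.Stm2

set_option autoImplicit false

/-! Piece MNZ of project Z17, part 2 (helper55); the facts on `InB` are used in `TRC.lean` also. -/

open Polynomial

namespace Pool.Agent.H17Z

namespace InBP

variable {k Ω : Type} [Field k] [Field Ω] [Algebra (RatFunc k) Ω] [Algebra k[X] Ω]
    [IsScalarTower k[X] (RatFunc k) Ω] {H : Type} [Group H] {φ : (Ω ≃ₐ[RatFunc k] Ω) →* H}

theorem facts [IsSepClosure (RatFunc k) Ω] (hφ : ContT φ) :
    ∃ L : IntermediateField (RatFunc k) Ω, FiniteDimensional (RatFunc k) L ∧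
      IsGalois (RatFunc k) L ∧ L.fixingSubgroup = φ.ker ∧
      L = IntermediateField.fixedField φ.ker := by
  classical
  obtain ⟨S, hS⟩ := hφ
  have : IsGalois (RatFunc k) Ω := inferInstance
  have : FiniteDimensional (RatFunc k) (IntermediateField.adjoin (RatFunc k) (S : Set Ω)) :=
    IntermediateField.finiteDimensional_adjoin fun x _ =>
      (Algebra.IsAlgebraic.isAlgebraic (R := RatFunc k) x).isIntegral
  have hopen : IsOpen (φ.ker : Set (Ω ≃ₐ[RatFunc k] Ω)) := by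
    refine Subgroup.isOpen_mono ?_ (IntermediateField.fixingSubgroup_isOpen
      (IntermediateField.adjoin (RatFunc k) (S : Set Ω)))
    intro σ hσ
    rw [MonoidHom.mem_ker]
    apply hS
    intro x hx
    exact (IntermediateField.mem_fixingSubgroup_iff _ σ).1 hσ x
      (IntermediateField.subset_adjoin _ _ hx)
  let N : ClosedSubgroup (Ω ≃ₐ[RatFunc k] Ω) := ⟨φ.ker, φ.ker.isClosed_of_isOpen hopen⟩
  obtain ⟨L, hLdef⟩ : ∃ L : IntermediateField (RatFunc k) Ω,
      L = IntermediateField.fixedField φ.ker := ⟨_, rfl⟩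
  have hfix : L.fixingSubgroup = φ.ker := by
    rw [hLdef]
    exact InfiniteGalois.fixingSubgroup_fixedField N
  have : FiniteDimensional (RatFunc k) L := by
    rw [← InfiniteGalois.isOpen_iff_finite, hfix]
    exact hopen
  have : IsGalois (RatFunc k) L := by
    rw [← InfiniteGalois.normal_iff_isGalois, hfix]
    infer_instance
  exact ⟨L, inferInstance, inferInstance, hfix, hLdef⟩

theorem int_map (σ : Ω ≃ₐ[RatFunc k] Ω) {x : Ω} (hx : IsIntegral k[X] x) :
    IsIntegral k[X] (σ x) :=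
  hx.map (σ.toAlgHom.restrictScalars k[X])

theorem inB_map (σ : Ω ≃ₐ[RatFunc k] Ω) {x : Ω} (hx : InB φ x) : InB φ (σ x) := by
  refine ⟨int_map σ hx.1, fun τ hτ => ?_⟩
  have h1 : φ (σ⁻¹ * τ * σ) = 1 := by
    rw [map_mul, map_mul, hτ, mul_one, ← map_mul, inv_mul_cancel, map_one]
  have h2 := hx.2 _ h1
  rw [AlgEquiv.mul_apply, AlgEquiv.mul_apply] at h2
  have h3 := congrArg σ h2
  rw [← AlgEquiv.mul_apply, mul_inv_cancel, AlgEquiv.one_apply] at h3
  exact h3

theorem map_congr {σ τ : Ω ≃ₐ[RatFunc k] Ω} (h : φ σ = φ τ) {x : Ω} (hx : InB φ x) :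
    σ x = τ x := by
  have h1 : φ (τ⁻¹ * σ) = 1 := by rw [map_mul, h, map_inv, inv_mul_cancel]
  have h2 := congrArg τ (hx.2 _ h1)
  rw [AlgEquiv.mul_apply, ← AlgEquiv.mul_apply, mul_inv_cancel, AlgEquiv.one_apply] at h2
  exact h2

theorem exists_mul {L : IntermediateField (RatFunc k) Ω} [IsSepClosure (RatFunc k) Ω]
    (hL : L.fixingSubgroup = φ.ker) {z : Ω} (hz : z ∈ L) :
    ∃ a : k[X], a ≠ 0 ∧ InB φ (algebraMap k[X] Ω a * z) := by
  have h1 : IsAlgebraic k[X] z := by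
    rw [IsFractionRing.isAlgebraic_iff k[X] (RatFunc k) Ω]
    exact Algebra.IsAlgebraic.isAlgebraic z
  obtain ⟨a, ha, hi⟩ := h1.exists_integral_multiple
  rw [Algebra.smul_def] at hi
  refine ⟨a, ha, hi, fun σ hσ => ?_⟩
  have h2 : σ ∈ L.fixingSubgroup := by rw [hL, MonoidHom.mem_ker, hσ]
  rw [map_mul, (IntermediateField.mem_fixingSubgroup_iff _ σ).1 h2 z hz,
    IsScalarTower.algebraMap_apply k[X] (RatFunc k) Ω, σ.commutes]

theorem eq_of_inB [IsSepClosure (RatFunc k) Ω] (hφ : ContT φ) {σ τ : Ω ≃ₐ[RatFunc k] Ω}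
    (h : ∀ x, InB φ x → σ x = τ x) : φ σ = φ τ := by
  obtain ⟨L, -, -, hL, -⟩ := facts hφ
  have h1 : τ⁻¹ * σ ∈ φ.ker := by
    rw [← hL, IntermediateField.mem_fixingSubgroup_iff]
    intro z hz
    obtain ⟨a, ha, hi⟩ := exists_mul hL hz
    have h2 := h _ hi
    rw [map_mul, map_mul, IsScalarTower.algebraMap_apply k[X] (RatFunc k) Ω, σ.commutes,
      τ.commutes] at h2
    have h3 : algebraMap (RatFunc k) Ω (algebraMap k[X] (RatFunc k) a) ≠ 0 := by
      rw [Ne, map_eq_zero]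
      exact fun h0 => ha (IsFractionRing.injective k[X] (RatFunc k) (by rw [h0, map_zero]))
    have h4 := mul_left_cancel₀ h3 h2
    rw [AlgEquiv.mul_apply, h4, ← AlgEquiv.mul_apply, inv_mul_cancel, AlgEquiv.one_apply]
  rw [MonoidHom.mem_ker, map_mul, map_inv] at h1
  exact (inv_mul_eq_one.1 h1).symm

/-- `InB` as a submonoid -/
def BB (φ : (Ω ≃ₐ[RatFunc k] Ω) →* H) : Submonoid Ω where
  carrier := {x | InB φ x}
  one_mem' := ⟨isIntegral_one, fun σ _ => map_one σ⟩
  mul_mem' := fun {x y} hx hy => ⟨hx.1.mul hy.1, fun σ hσ => by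
    rw [map_mul, hx.2 σ hσ, hy.2 σ hσ]⟩

end InBP

open InBP

theorem t_MNZ : St_MNZ := by
  classical
  intro p hp k Ω _ _ _ _ _ _ _ H _ _ r hr ρ φ hs hc
  obtain ⟨s, hs⟩ : ∃ s : H → (Ω ≃ₐ[RatFunc k] Ω), ∀ h, φ (s h) = h :=
    ⟨Function.surjInv hs, Function.surjInv_eq hs⟩
  have hch : CharP Ω p := charP_of_injective_ringHom
    (f := (algebraMap (RatFunc k) Ω).comp (algebraMap k (RatFunc k)))
    ((algebraMap (RatFunc k) Ω).injective.comp (algebraMap k (RatFunc k)).injective) p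
  let ι : ZMod p →+* Ω := ZMod.castHom (dvd_refl p) Ω
  have hι : ∀ z : ZMod p, ((z.val : ℕ) : Ω) = ι z := by
    intro z
    have := ZMod.natCast_zmod_val z
    conv_rhs => rw [← this]
    rw [map_natCast]
  let o : Fin r := ⟨0, hr⟩
  let b : Ω → Fin r → Ω := fun x i => ∑ h, ι (ρ h i o) * s h x
  have hfix : ∀ z, ∀ σ : Ω ≃ₐ[RatFunc k] Ω, σ (ι z) = ι z := by
    intro z σ
    rw [← hι, map_natCast]
  -- there is a nonzero vector
  obtain ⟨x, hx, hbx⟩ : ∃ x, InB φ x ∧ b x ≠ 0 := by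
    by_contra hno
    push Not at hno
    let χ : H → (BB φ →* Ω) := fun h => ((s h : Ω ≃ₐ[RatFunc k] Ω) : Ω →* Ω).comp (BB φ).subtype
    have hχ : ∀ h (y : BB φ), χ h y = s h (y : Ω) := fun h y => rfl
    have hinj : Function.Injective χ := by
      intro h h' hh
      have h1 := eq_of_inB (σ := s h) (τ := s h') hc (fun y hy => by
        rw [← hχ h ⟨y, hy⟩, ← hχ h' ⟨y, hy⟩, hh])
      rwa [hs, hs] at h1
    have hli := (linearIndependent_monoidHom (BB φ) Ω).comp χ hinj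
    rw [Fintype.linearIndependent_iff] at hli
    have h1 := hli (fun h => ι (ρ h o o)) (by
      funext y
      rw [Finset.sum_apply]
      exact congrFun (hno y y.2) o) 1
    have h2 : ι (ρ 1 o o) = 1 := by rw [map_one, Matrix.one_apply_eq, map_one]
    rw [h2] at h1
    exact one_ne_zero h1
  refine ⟨b x, hbx, fun i => ⟨?_, ?_⟩, ?_⟩
  · refine IsIntegral.sum _ fun h _ => ?_
    rw [← hι]
    exact (isIntegral_natCast _).mul (int_map _ hx.1)
  · intro σ hσ
    rw [map_sum]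
    refine Finset.sum_congr rfl fun h _ => ?_
    rw [map_mul, hfix, (inB_map (s h) hx).2 σ hσ]
  · intro σ
    funext i
    rw [tw]
    have h1 : ∀ j, ((ρ (φ σ) i j).val : Ω) * σ (b x j) =
        ∑ h, ι (ρ (φ σ) i j * ρ h j o) * s (φ σ * h) x := by
      intro j
      rw [hι, map_sum, Finset.mul_sum]
      refine Finset.sum_congr rfl fun h _ => ?_
      rw [map_mul, hfix, map_mul, mul_assoc]
      congr 2
      rw [← AlgEquiv.mul_apply]
      exact map_congr (by rw [map_mul, hs, hs]) hx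
    rw [Finset.sum_congr rfl fun j _ => h1 j, Finset.sum_comm]
    have h2 : ∀ h, ∑ j, ι (ρ (φ σ) i j * ρ h j o) * s (φ σ * h) x =
        ι (ρ (φ σ * h) i o) * s (φ σ * h) x := by
      intro h
      rw [← Finset.sum_mul, ← map_sum, map_mul, Matrix.mul_apply]
    rw [Finset.sum_congr rfl fun h _ => h2 h]
    exact Fintype.sum_equiv (Equiv.mulLeft (φ σ)) _ _ fun h => rfl

end Pool.Agent.H17Z
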