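import Pool.Agent.H17Z.Stm

/-!
# Project Z17, piece LFT, part a: the fixed field of the kernel; it is unramified
-/

set_option autoImplicit false

namespace Pool.Agent.H17Z

open Polynomial

section gal

variable {C Ω : Type} [Field C] [Field Ω] [Algebra (RatFunc C) Ω] [IsSepClosure (RatFunc C) Ω]

/-- The fixed field of the kernel of a continuous homomorphism. -/
theorem lft_gal {H : Type} [Group H] (f : (Ω ≃ₐ[RatFunc C] Ω) →* H) (hf : ContT f) :
    ∃ (L : IntermediateField (RatFunc C) Ω), FiniteDimensional (RatFunc C) L ∧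
      IsGalois (RatFunc C) L ∧ ∀ σ : Ω ≃ₐ[RatFunc C] Ω, f σ = 1 ↔ ∀ z : L, σ z = z := by
  classical
  obtain ⟨S, hS⟩ := hf
  have _ : IsGalois (RatFunc C) Ω := IsSepClosure.isGalois
  have hfin : FiniteDimensional (RatFunc C) (IntermediateField.adjoin (RatFunc C) (S : Set Ω)) :=
    IntermediateField.finiteDimensional_adjoin fun x _ => Algebra.IsIntegral.isIntegral x
  have hle : (IntermediateField.adjoin (RatFunc C) (S : Set Ω)).fixingSubgroup ≤ f.ker := by
    intro σ hσ
    rw [MonoidHom.mem_ker]
    apply hS σ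
    intro x hx
    rw [IntermediateField.mem_fixingSubgroup_iff] at hσ
    exact hσ x (IntermediateField.subset_adjoin _ _ hx)
  have hopen : IsOpen (f.ker : Set (Ω ≃ₐ[RatFunc C] Ω)) :=
    Subgroup.isOpen_mono hle (IntermediateField.fixingSubgroup_isOpen _)
  have hclosed : IsClosed (f.ker : Set (Ω ≃ₐ[RatFunc C] Ω)) :=
    Subgroup.isClosed_of_isOpen _ hopen
  have hfix : (IntermediateField.fixedField f.ker).fixingSubgroup = f.ker :=
    InfiniteGalois.fixingSubgroup_fixedField ⟨f.ker, hclosed⟩
  refine ⟨IntermediateField.fixedField f.ker, ?_, ?_, ?_⟩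
  · rw [← InfiniteGalois.isOpen_iff_finite, hfix]
    exact hopen
  · rw [← InfiniteGalois.normal_iff_isGalois, hfix]
    infer_instance
  · intro σ
    rw [← MonoidHom.mem_ker, ← hfix, IntermediateField.mem_fixingSubgroup_iff, hfix]
    constructor
    · intro h z
      exact h z z.2
    · intro h x hx
      exact h ⟨x, hx⟩

end gal

section unr

variable {C Ω : Type} [Field C] [Field Ω] [Algebra (RatFunc C) Ω] [Algebra C[X] Ω]
  [IsScalarTower C[X] (RatFunc C) Ω]

theorem lft_tower (L : IntermediateField (RatFunc C) Ω) : IsScalarTower C[X] L Ω :=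
  IsScalarTower.of_algebraMap_eq fun _ => rfl

/-- The inclusion of `L` in `Ω` over `C[X]`. -/
noncomputable def lftVal (L : IntermediateField (RatFunc C) Ω) : L →ₐ[C[X]] Ω where
  toRingHom := algebraMap L Ω
  commutes' := fun _ => rfl

/-- The inclusion of the integral closures. -/
noncomputable def lftInc (L : IntermediateField (RatFunc C) Ω) :
    integralClosure C[X] L →ₐ[C[X]] integralClosure C[X] Ω :=
  AlgHom.mapIntegralClosure (lftVal L)

theorem lftInc_coe (L : IntermediateField (RatFunc C) Ω) (x : integralClosure C[X] L) :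
    ((lftInc L x : integralClosure C[X] Ω) : Ω) = ((x : L) : Ω) := rfl

theorem lftInc_inj (L : IntermediateField (RatFunc C) Ω) : Function.Injective (lftInc L) := by
  intro x y h
  have h1 : ((x : L) : Ω) = ((y : L) : Ω) :=
    congrArg (fun t : integralClosure C[X] Ω => (t : Ω)) h
  exact Subtype.ext (Subtype.ext h1)

theorem lft_int_iff (L : IntermediateField (RatFunc C) Ω) (z : L) :
    IsIntegral C[X] z ↔ IsIntegral C[X] (z : Ω) :=
  (isIntegral_algHom_iff (lftVal L) (algebraMap L Ω).injective).symm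

variable [IsSepClosure (RatFunc C) Ω]

/-- Maximal ideals lift. -/
theorem lft_over (L : IntermediateField (RatFunc C) Ω) (w : Ideal (integralClosure C[X] L))
    (hw : w.IsMaximal) : ∃ Q : Ideal (integralClosure C[X] Ω), Q.IsMaximal ∧
      Q.comap (lftInc L).toRingHom = w := by
  let _ : Algebra (integralClosure C[X] L) (integralClosure C[X] Ω) := (lftInc L).toRingHom.toAlgebra
  have _ : IsScalarTower C[X] (integralClosure C[X] L) (integralClosure C[X] Ω) :=
    IsScalarTower.of_algebraMap_eq fun x => ((lftInc L).commutes x).symm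
  have _ : Algebra.IsIntegral (integralClosure C[X] L) (integralClosure C[X] Ω) :=
    Algebra.IsIntegral.tower_top (R := C[X])
  refine Ideal.exists_ideal_over_maximal_of_isIntegral (S := integralClosure C[X] Ω) w ?_
  have h1 : RingHom.ker (algebraMap (integralClosure C[X] L) (integralClosure C[X] Ω)) = ⊥ :=
    (RingHom.injective_iff_ker_eq_bot _).1 (lftInc_inj L)
  rw [h1]
  exact bot_le

/-- The fixed field of the kernel of an unramified homomorphism is unramified. -/
theorem lft_unr (hSURJ : St_SURJ) {H : Type} [Group H] (f : (Ω ≃ₐ[RatFunc C] Ω) →* H)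
    (hf : UnrT f) (L : IntermediateField (RatFunc C) Ω) [FiniteDimensional (RatFunc C) L]
    [IsGalois (RatFunc C) L] (hL : ∀ σ : Ω ≃ₐ[RatFunc C] Ω, f σ = 1 → ∀ z : L, σ z = z) :
    ∀ τ : L ≃ₐ[RatFunc C] L, τ ≠ 1 → ∃ (m : ℕ) (b c : Fin m → L), (∀ i, IsIntegral C[X] (b i)) ∧
      (∀ i, IsIntegral C[X] (c i)) ∧ ∑ i, c i * (τ (b i) - b i) = 1 := by
  intro τ hτ
  have hτC : ∀ x : L, IsIntegral C[X] x → IsIntegral C[X] (τ x) := by
    intro x hx
    have h2 : ∀ r : C[X], τ (algebraMap C[X] L r) = algebraMap C[X] L r := by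
      intro r
      rw [IsScalarTower.algebraMap_apply C[X] (RatFunc C) L r, AlgEquiv.commutes]
    obtain ⟨P, hP, hP2⟩ := hx
    refine ⟨P, hP, ?_⟩
    have h3 : ((τ : L →+* L).comp (algebraMap C[X] L)) = algebraMap C[X] L := by
      ext r
      · exact congrArg Subtype.val (h2 _)
      · exact congrArg Subtype.val (h2 _)
    rw [← h3]
    have h4 := Polynomial.hom_eval₂ P (algebraMap C[X] L) (τ : L →+* L) x
    rw [hP2, map_zero] at h4
    exact h4.symm
  let d : integralClosure C[X] L → integralClosure C[X] L := fun x =>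
    ⟨τ (x : L), hτC x x.2⟩ - x
  have htop : Ideal.span (Set.range d) = ⊤ := by
    by_contra hne
    obtain ⟨w, hw, hle⟩ := Ideal.exists_le_maximal _ hne
    obtain ⟨Q, hQ, hQw⟩ := lft_over L w hw
    obtain ⟨σ, hσ, hστ⟩ := hSURJ C Ω L Q hQ τ (by
      intro x y z hxz hyz
      have hz : IsIntegral C[X] z := (lft_int_iff L z).2 (hxz ▸ x.2)
      have h5 : d ⟨z, hz⟩ ∈ w := hle (Ideal.subset_span ⟨_, rfl⟩)
      rw [← hQw, Ideal.mem_comap] at h5
      have h6 : (lftInc L).toRingHom (d ⟨z, hz⟩) = y - x := by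
        apply Subtype.ext
        change ((τ z - z : L) : Ω) = (y : Ω) - (x : Ω)
        rw [hxz, hyz]
        rfl
      rwa [h6] at h5)
    have h7 : f σ = 1 := hf Q hQ σ hσ
    apply hτ
    ext z
    have h8 := hστ z
    rw [hL σ h7 z] at h8
    exact h8.symm
  have h1 : (1 : integralClosure C[X] L) ∈ Ideal.span (Set.range d) := by
    rw [htop]; exact Submodule.mem_top
  obtain ⟨m, c, g, hg⟩ := Submodule.mem_span_set'.1 h1
  have h9 : ∀ i, ∃ b : integralClosure C[X] L, d b = g i := fun i => (g i).2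
  choose b hb using h9
  refine ⟨m, fun i => (b i : L), fun i => (c i : L), fun i => (b i).2, fun i => (c i).2, ?_⟩
  have h10 := congrArg (fun x : integralClosure C[X] L => (x : L)) hg
  have h11 : ((∑ i, c i • (g i : integralClosure C[X] L) : integralClosure C[X] L) : L) =
      ∑ i, (c i : L) * (τ (b i : L) - (b i : L)) := by
    rw [AddSubmonoidClass.coe_finsetSum]
    refine Finset.sum_congr rfl fun i _ => ?_
    rw [← hb i]
    rfl
  rw [← h11]
  exact h10

end unr

end Pool.Agent.H17Z
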