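import Mathlib
import Pool.Agent.H17Z.Stm

/-!
# Project Z17: assembly, part A (basic facts, conversions)
-/

set_option autoImplicit false
set_option linter.unusedSectionVars false

namespace Pool.Agent.H17Z

open Polynomial

section conv

variable {k Ω : Type} [Field k] [Field Ω] [Algebra (RatFunc k) Ω] [Algebra k[X] Ω]
  [IsScalarTower k[X] (RatFunc k) Ω]

theorem Cont.comp' {A : Subgroup (Ω ≃ₐ[RatFunc k] Ω)} {H H' : Type} [Group H] [Group H']
    {f : A →* H} (hf : Cont f) (q : H →* H') : Cont (q.comp f) := by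
  obtain ⟨S, hS⟩ := hf
  exact ⟨S, fun σ h => by rw [MonoidHom.comp_apply, hS σ h, map_one]⟩

theorem Unr.comp' {A : Subgroup (Ω ≃ₐ[RatFunc k] Ω)} {H H' : Type} [Group H] [Group H']
    {f : A →* H} (hf : Unr f) (q : H →* H') : Unr (q.comp f) := fun Q hQ σ h => by
  rw [MonoidHom.comp_apply, hf Q hQ σ h, map_one]

theorem Cont.inj' {A : Subgroup (Ω ≃ₐ[RatFunc k] Ω)} {H H' : Type} [Group H] [Group H']
    {f : A →* H} (q : H →* H') (hq : Function.Injective q) (hf : Cont (q.comp f)) : Cont f := by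
  obtain ⟨S, hS⟩ := hf
  exact ⟨S, fun σ h => hq (by rw [map_one]; exact hS σ h)⟩

theorem Unr.inj' {A : Subgroup (Ω ≃ₐ[RatFunc k] Ω)} {H H' : Type} [Group H] [Group H']
    {f : A →* H} (q : H →* H') (hq : Function.Injective q) (hf : Unr (q.comp f)) : Unr f :=
  fun Q hQ σ h => hq (by rw [map_one]; exact hf Q hQ σ h)

theorem ContT.top {H : Type} [Group H] {φ : (Ω ≃ₐ[RatFunc k] Ω) →* H} (h : ContT φ) :
    Cont (φ.comp (⊤ : Subgroup (Ω ≃ₐ[RatFunc k] Ω)).subtype) := by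
  obtain ⟨S, hS⟩ := h
  exact ⟨S, fun σ hσ => hS σ hσ⟩

theorem UnrT.top {H : Type} [Group H] {φ : (Ω ≃ₐ[RatFunc k] Ω) →* H} (h : UnrT φ) :
    Unr (φ.comp (⊤ : Subgroup (Ω ≃ₐ[RatFunc k] Ω)).subtype) := fun Q hQ σ hσ => h Q hQ σ hσ

theorem top_to {H : Type} [Group H] (f : (⊤ : Subgroup (Ω ≃ₐ[RatFunc k] Ω)) →* H)
    (hs : Function.Surjective f) (hc : Cont f) (hu : Unr f) :
    ∃ φ : (Ω ≃ₐ[RatFunc k] Ω) →* H, Function.Surjective φ ∧ ContT φ ∧ UnrT φ := by
  refine ⟨f.comp (Subgroup.topEquiv.symm.toMonoidHom), ?_, ?_, ?_⟩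
  · exact hs.comp Subgroup.topEquiv.symm.surjective
  · obtain ⟨S, hS⟩ := hc
    exact ⟨S, fun σ hσ => hS _ hσ⟩
  · exact fun Q hQ σ hσ => hu Q hQ _ hσ

/-- The automorphism of the ring of integral elements given by an automorphism of `Ω`. -/
noncomputable def autO (g : Ω ≃ₐ[RatFunc k] Ω) :
    integralClosure k[X] Ω ≃+* integralClosure k[X] Ω where
  toFun x := ⟨g x, by
    have := x.2
    exact (show IsIntegral k[X] ((g.restrictScalars k[X]) (x : Ω)) from
      IsIntegral.map (g.restrictScalars k[X]) this)⟩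
  invFun x := ⟨g.symm x, by
    have := x.2
    exact (show IsIntegral k[X] ((g.symm.restrictScalars k[X]) (x : Ω)) from
      IsIntegral.map (g.symm.restrictScalars k[X]) this)⟩
  left_inv x := Subtype.ext (g.symm_apply_apply _)
  right_inv x := Subtype.ext (g.apply_symm_apply _)
  map_mul' x y := Subtype.ext (map_mul g _ _)
  map_add' x y := Subtype.ext (map_add g _ _)

theorem autO_coe (g : Ω ≃ₐ[RatFunc k] Ω) (x : integralClosure k[X] Ω) :
    ((autO g x : integralClosure k[X] Ω) : Ω) = g x := rfl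

theorem autO_symm_coe (g : Ω ≃ₐ[RatFunc k] Ω) (x : integralClosure k[X] Ω) :
    (((autO g).symm x : integralClosure k[X] Ω) : Ω) = g.symm x := rfl

/-- Conjugates of inertia elements. -/
theorem InI.conj {Q : Ideal (integralClosure k[X] Ω)} {σ : Ω ≃ₐ[RatFunc k] Ω} (h : InI k Ω Q σ)
    (g : Ω ≃ₐ[RatFunc k] Ω) : InI k Ω (Q.comap (autO g).symm.toRingHom) (g * σ * g⁻¹) := by
  intro x y hxy
  rw [Ideal.mem_comap]
  have h1 := h ((autO g).symm x) ((autO g).symm y) (by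
    rw [autO_symm_coe, autO_symm_coe, hxy]
    change g.symm (g (σ (g⁻¹ (x : Ω)))) = σ (g.symm x)
    rw [g.symm_apply_apply]
    rfl)
  have h2 : (autO g).symm.toRingHom (y - x) = (autO g).symm y - (autO g).symm x := map_sub _ _ _
  rw [h2]
  exact h1

end conv

section geo

variable {κ Ω : Type} [Field κ] [Field Ω] [Algebra (RatFunc κ) Ω] [Algebra κ[X] Ω]
  [IsScalarTower κ[X] (RatFunc κ) Ω] [Algebra κ Ω] [IsScalarTower κ κ[X] Ω]

/-- Inertia elements are geometric. -/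
theorem InI.geo {Q : Ideal (integralClosure κ[X] Ω)} (hQ : Q.IsMaximal) {σ : Ω ≃ₐ[RatFunc κ] Ω}
    (h : InI κ Ω Q σ) : σ ∈ Geo κ Ω := by
  intro x hx
  have hκ : ∀ z : Ω, IsAlgebraic κ z → IsIntegral κ[X] z := fun z hz =>
    IsIntegral.tower_top (R := κ) hz.isIntegral
  have hσκ : ∀ a : κ, σ (algebraMap κ Ω a) = algebraMap κ Ω a := by
    intro a
    rw [IsScalarTower.algebraMap_apply κ κ[X] Ω,
      IsScalarTower.algebraMap_apply κ[X] (RatFunc κ) Ω]
    exact σ.commutes _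
  let σκ : Ω →ₐ[κ] Ω := { (σ : Ω →+* Ω) with commutes' := hσκ }
  have hσx : IsAlgebraic κ (σ x) := (isAlgebraic_algHom_iff σκ (σκ : Ω →+* Ω).injective).2 hx
  by_contra hne
  have hd : σ x - x ≠ 0 := sub_ne_zero.2 hne
  have hda : IsAlgebraic κ (σ x - x) := hσx.sub hx
  have hinv : IsAlgebraic κ (σ x - x)⁻¹ := hda.inv
  have h1 := h ⟨x, hκ x hx⟩ ⟨σ x, hκ _ hσx⟩ rfl
  have h2 : (⟨(σ x - x)⁻¹, hκ _ hinv⟩ : integralClosure κ[X] Ω) *
      ((⟨σ x, hκ _ hσx⟩ : integralClosure κ[X] Ω) - ⟨x, hκ x hx⟩) = 1 := by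
    apply Subtype.ext
    change (σ x - x)⁻¹ * (σ x - x) = 1
    exact inv_mul_cancel₀ hd
  apply hQ.ne_top
  rw [Ideal.eq_top_iff_one, ← h2]
  exact Q.mul_mem_left _ h1

end geo

end Pool.Agent.H17Z
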