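import Mathlib
import Pool.Agent.H17Z.Stm
import Pool.Agent.H17Z.MainA

/-!
# Project Z17: assembly, part B (the geometric group)
-/

set_option autoImplicit false
set_option linter.unusedSectionVars false

namespace Pool.Agent.H17Z

open Polynomial

/-- Continuous and unramified. -/
def GoodA {k Ω : Type} [Field k] [Field Ω] [Algebra (RatFunc k) Ω] [Algebra k[X] Ω]
    {A : Subgroup (Ω ≃ₐ[RatFunc k] Ω)} (H : Type) [Group H] (f : A →* H) : Prop :=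
  Cont f ∧ Unr f

section br

variable {κ Ω : Type} [Field κ] [Field Ω] [Algebra (RatFunc κ) Ω] [Algebra κ[X] Ω]
  [IsScalarTower κ[X] (RatFunc κ) Ω] [Algebra κ Ω] [IsScalarTower κ κ[X] Ω]
  {C : Type} [Field C] [Algebra (RatFunc C) Ω] [Algebra C[X] Ω] [IsScalarTower C[X] (RatFunc C) Ω]

/-- The two rings of integral elements. -/
def eqO (hI : ∀ x : Ω, IsIntegral C[X] x ↔ IsIntegral κ[X] x) :
    integralClosure κ[X] Ω ≃+* integralClosure C[X] Ω where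
  toFun x := ⟨x, (hI x).2 x.2⟩
  invFun x := ⟨x, (hI x).1 x.2⟩
  left_inv _ := rfl
  right_inv _ := rfl
  map_mul' _ _ := rfl
  map_add' _ _ := rfl

theorem good_iff (ε : Geo κ Ω ≃* (Ω ≃ₐ[RatFunc C] Ω))
    (hε : ∀ (σ : Geo κ Ω) (x : Ω), ε σ x = (σ : Ω ≃ₐ[RatFunc κ] Ω) x)
    (hI : ∀ x : Ω, IsIntegral C[X] x ↔ IsIntegral κ[X] x) {H : Type} [Group H]
    (f : Geo κ Ω →* H) :
    GoodA H f ↔ ContT (f.comp ε.symm.toMonoidHom) ∧ UnrT (f.comp ε.symm.toMonoidHom) := by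
  have hε' : ∀ (σ : Ω ≃ₐ[RatFunc C] Ω) (x : Ω), (ε.symm σ : Ω ≃ₐ[RatFunc κ] Ω) x = σ x := by
    intro σ x
    rw [← hε, MulEquiv.apply_symm_apply]
  constructor
  · rintro ⟨⟨S, hS⟩, hU⟩
    refine ⟨⟨S, fun σ hσ => hS (ε.symm σ) fun x hx => (hε' σ x).trans (hσ x hx)⟩,
      fun Q hQ σ hσ => ?_⟩
    have hQ' : (Q.comap (eqO hI)).IsMaximal := Ideal.comap_isMaximal_of_equiv (eqO hI)
    refine hU _ hQ' (ε.symm σ) fun x y hxy => ?_
    rw [Ideal.mem_comap, map_sub]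
    exact hσ (eqO hI x) (eqO hI y) (by
      change (y : Ω) = σ (x : Ω)
      rw [hxy, hε'])
  · rintro ⟨⟨S, hS⟩, hU⟩
    refine ⟨⟨S, fun σ hσ => ?_⟩, fun Q hQ σ hσ => ?_⟩
    · have h1 := hS (ε σ) fun x hx => by rw [hε, hσ x hx]
      simpa using h1
    · have hQ' : (Q.comap (eqO hI).symm).IsMaximal := Ideal.comap_isMaximal_of_equiv (eqO hI).symm
      have h1 := hU _ hQ' (ε σ) fun x y hxy => by
        rw [Ideal.mem_comap, map_sub]
        exact hσ ((eqO hI).symm x) ((eqO hI).symm y) (by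
          change (y : Ω) = (σ : Ω ≃ₐ[RatFunc κ] Ω) (x : Ω)
          rw [hxy, hε])
      simpa using h1

end br

/-- The facts on the geometric group which are used. -/
theorem geo_facts (hSURJ : St_SURJ) (hBR : St_BR) (hKUM : St_KUM) (hLFT : St_LFT) (hHH : St_HH)
    (κ Ω : Type) [Field κ] [Finite κ] [Field Ω] [Algebra (RatFunc κ) Ω] [Algebra κ[X] Ω]
    [IsScalarTower κ[X] (RatFunc κ) Ω] [Algebra κ Ω] [IsScalarTower κ κ[X] Ω]
    [IsSepClosure (RatFunc κ) Ω] (p : ℕ) [CharP κ p] :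
    (∀ (ℓ : ℕ) [Fact ℓ.Prime], ℓ ≠ p → ∀ f : Geo κ Ω →* Multiplicative (ZMod ℓ),
      GoodA _ f → f = 1) ∧
    (∀ (ℓ : ℕ), ℓ.Prime → ℓ ≠ p → ∀ (E H : Type) [Group E] [Finite E] [Group H] (π : E →* H),
      Function.Surjective π → Nat.card π.ker = ℓ → π.ker ≤ Subgroup.center E →
      ∀ f : Geo κ Ω →* H, GoodA H f → ∃ g : Geo κ Ω →* E, π.comp g = f ∧ GoodA E g) := by
  obtain ⟨C, _, _, _, _, _, _, _, ε, hε, hI⟩ := hBR κ Ω p
  constructor
  · intro ℓ _ hℓ f hf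
    have h1 := hKUM C Ω p ℓ hℓ (f.comp ε.symm.toMonoidHom) ((good_iff ε hε hI f).1 hf).1
      ((good_iff ε hε hI f).1 hf).2
    ext σ
    have h2 := DFunLike.congr_fun h1 (ε σ)
    simpa using h2
  · intro ℓ hℓp hℓ E H _ _ _ π hπ hc hz f hf
    haveI : Fact ℓ.Prime := ⟨hℓp⟩
    obtain ⟨g, hg, hgc, hgu⟩ := hLFT C Ω p ℓ hℓ (hHH C Ω ℓ) E H π hπ hc hz
      (f.comp ε.symm.toMonoidHom) ((good_iff ε hε hI f).1 hf).1 ((good_iff ε hε hI f).1 hf).2
    refine ⟨g.comp ε.toMonoidHom, ?_, ?_⟩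
    · rw [← MonoidHom.comp_assoc, hg]
      ext σ
      simp
    · rw [good_iff ε hε hI]
      have h3 : (g.comp ε.toMonoidHom).comp ε.symm.toMonoidHom = g := by
        ext σ
        simp
      rw [h3]
      exact ⟨hgc, hgu⟩

/-- The consequences for the geometric group: triviality of homomorphisms to commutative groups of
order prime to `p`, and lifts through central kernels of order prime to `p`. -/
theorem geo_facts2 (hSURJ : St_SURJ) (hBR : St_BR) (hKUM : St_KUM) (hLFT : St_LFT) (hHH : St_HH)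
    (hG1 : St_GRP1) (hG2 : St_GRP2)
    (κ Ω : Type) [Field κ] [Finite κ] [Field Ω] [Algebra (RatFunc κ) Ω] [Algebra κ[X] Ω]
    [IsScalarTower κ[X] (RatFunc κ) Ω] [Algebra κ Ω] [IsScalarTower κ κ[X] Ω]
    [IsSepClosure (RatFunc κ) Ω] (p : ℕ) [CharP κ p] :
    (∀ (D : Type) [CommGroup D] [Finite D], ¬ p ∣ Nat.card D → ∀ f : Geo κ Ω →* D, GoodA D f →
      f = 1) ∧
    (∀ (E H : Type) [Group E] [Finite E] [Group H] (π : E →* H),
      Function.Surjective π → ¬ p ∣ Nat.card π.ker → π.ker ≤ Subgroup.center E →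
      ∀ f : Geo κ Ω →* H, GoodA H f → ∃ g : Geo κ Ω →* E, π.comp g = f ∧ GoodA E g) := by
  obtain ⟨h1, h2⟩ := geo_facts hSURJ hBR hKUM hLFT hHH κ Ω p
  constructor
  · intro D _ _ hD f hf
    exact hG2 p (Geo κ Ω) (fun H _ f => GoodA H f)
      (fun H H' _ _ f q hf => ⟨hf.1.comp' q, hf.2.comp' q⟩)
      (fun H H' _ _ f i hi hf => ⟨hf.1.inj' i hi, hf.2.inj' i hi⟩) h1 D hD f hf
  · intro E H _ _ _ π hπ hc hz f hf
    exact hG1 p (Geo κ Ω) (fun H _ f => GoodA H f)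
      (fun H H' _ _ f q hf => ⟨hf.1.comp' q, hf.2.comp' q⟩) h2 E H π hπ hc hz f hf

end Pool.Agent.H17Z
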