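import Mathlib
import Pool.Agent.H17Z.Stm
import Pool.Agent.H17Z.MainB

/-!
# Project Z17: assembly, part C (group theory; uniqueness and equivariance of lifts)
-/

set_option autoImplicit false
set_option linter.unusedSectionVars false

namespace Pool.Agent.H17Z

open Polynomial

section grp

variable (p : ℕ) [Fact p.Prime] {E H : Type} [Group E] [Group H]

theorem pE_normal (E : Type) [Group E] : (pE p E).Normal := by
  constructor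
  intro n hn g
  have h1 : (pE p E).map (MulAut.conj g).toMonoidHom ≤ pE p E := by
    rw [pE, MonoidHom.map_closure, Subgroup.closure_le]
    rintro _ ⟨x, ⟨k, hk⟩, rfl⟩
    apply Subgroup.subset_closure
    refine ⟨k, ?_⟩
    change ((MulAut.conj g) x) ^ p ^ k = 1
    rw [← map_pow, hk, map_one]
  exact h1 ⟨n, hn, rfl⟩

theorem map_pE_le (π : E →* H) : (pE p E).map π ≤ pE p H := by
  rw [pE, MonoidHom.map_closure, Subgroup.closure_le]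
  rintro _ ⟨x, ⟨k, hk⟩, rfl⟩
  apply Subgroup.subset_closure
  exact ⟨k, by rw [← map_pow, hk, map_one]⟩

/-- Elements of `p`-power order lift to such elements. -/
theorem lift_p [Finite E] (π : E →* H) (hπ : Function.Surjective π) {h : H} {k : ℕ}
    (hk : h ^ p ^ k = 1) : ∃ e : E, (∃ a : ℕ, e ^ p ^ a = 1) ∧ π e = h := by
  obtain ⟨e₀, he₀⟩ := hπ h
  obtain ⟨a, m, hm, hn⟩ := Nat.exists_eq_pow_mul_and_not_dvd (orderOf_pos e₀).ne' p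
    (Fact.out : p.Prime).ne_one
  have hc : Nat.Coprime m (p ^ k) :=
    Nat.Coprime.pow_right k ((Nat.Prime.coprime_iff_not_dvd Fact.out).2 hm).symm
  have hb := Nat.gcd_eq_gcd_ab m (p ^ k)
  rw [Nat.Coprime.gcd_eq_one hc] at hb
  refine ⟨e₀ ^ ((m : ℤ) * Nat.gcdA m (p ^ k)), ⟨a, ?_⟩, ?_⟩
  · rw [← zpow_natCast, ← zpow_mul]
    have h1 : (m : ℤ) * Nat.gcdA m (p ^ k) * ((p ^ a : ℕ) : ℤ) =
        ((p ^ a * m : ℕ) : ℤ) * Nat.gcdA m (p ^ k) := by push_cast; ring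
    rw [h1, zpow_mul, zpow_natCast, ← hn, pow_orderOf_eq_one, one_zpow]
  · rw [map_zpow, he₀]
    have h1 : (m : ℤ) * Nat.gcdA m (p ^ k) = 1 - ((p ^ k : ℕ) : ℤ) * Nat.gcdB m (p ^ k) := by
      push_cast at hb ⊢
      linarith
    rw [h1, zpow_sub, zpow_one, zpow_mul, zpow_natCast, hk, one_zpow, inv_one, mul_one]

theorem pE_le_map [Finite E] (π : E →* H) (hπ : Function.Surjective π) :
    pE p H ≤ (pE p E).map π := by
  rw [pE, Subgroup.closure_le]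
  rintro h ⟨k, hk⟩
  obtain ⟨e, he, rfl⟩ := lift_p p π hπ hk
  exact ⟨e, Subgroup.subset_closure he, rfl⟩

/-- The order of `H / p(H)` is prime to `p`. -/
theorem card_quot_pE [Finite H] : ¬ p ∣ Nat.card (H ⧸ pE p H) := by
  haveI := pE_normal p H
  intro hd
  obtain ⟨d, hd1⟩ := exists_prime_orderOf_dvd_card' p hd
  obtain ⟨h, rfl⟩ := QuotientGroup.mk_surjective d
  have hdp : ((h : H ⧸ pE p H)) ^ p ^ 1 = 1 := by
    rw [pow_one]
    exact orderOf_dvd_iff_pow_eq_one.1 (dvd_of_eq hd1)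
  obtain ⟨e, he, heq⟩ := lift_p p (QuotientGroup.mk' (pE p H))
    (QuotientGroup.mk'_surjective _) hdp
  have h1 : (h : H ⧸ pE p H) = 1 := by
    rw [← heq]
    exact (QuotientGroup.eq_one_iff e).2 (Subgroup.subset_closure he)
  rw [h1, orderOf_one] at hd1
  exact (Fact.out : p.Prime).ne_one hd1.symm

end grp

section core

variable {κ Ω : Type} [Field κ] [Finite κ] [Field Ω] [Algebra (RatFunc κ) Ω] [Algebra κ[X] Ω]
  [IsScalarTower κ[X] (RatFunc κ) Ω] [Algebra κ Ω] [IsScalarTower κ κ[X] Ω]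

theorem Geo_normal : (Geo κ Ω).Normal := by
  constructor
  intro σ hσ g x hx
  have hgκ : ∀ (g : Ω ≃ₐ[RatFunc κ] Ω) (a : κ), g (algebraMap κ Ω a) = algebraMap κ Ω a := by
    intro g a
    rw [IsScalarTower.algebraMap_apply κ κ[X] Ω,
      IsScalarTower.algebraMap_apply κ[X] (RatFunc κ) Ω]
    exact g.commutes _
  let gκ : Ω →ₐ[κ] Ω := { ((g⁻¹ : Ω ≃ₐ[RatFunc κ] Ω) : Ω →+* Ω) with commutes' := hgκ g⁻¹ }
  have hgx : IsAlgebraic κ (g⁻¹ x) := (isAlgebraic_algHom_iff gκ (gκ : Ω →+* Ω).injective).2 hx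
  rw [AlgEquiv.mul_apply, AlgEquiv.mul_apply, hσ _ hgx]
  exact g.apply_symm_apply x

/-- Conjugation of a homomorphism. -/
noncomputable def cj {E : Type} [Group E] (ψ : Geo κ Ω →* E) (g : Ω ≃ₐ[RatFunc κ] Ω) (e : E) : Geo κ Ω →* E where
  toFun σ := e⁻¹ * ψ ⟨g * σ * g⁻¹, Geo_normal.conj_mem _ σ.2 g⟩ * e
  map_one' := by
    have h1 : (⟨g * ((1 : Geo κ Ω) : Ω ≃ₐ[RatFunc κ] Ω) * g⁻¹,
        Geo_normal.conj_mem _ (1 : Geo κ Ω).2 g⟩ : Geo κ Ω) = 1 := Subtype.ext (by simp)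
    rw [h1, map_one]
    group
  map_mul' σ τ := by
    have h1 : (⟨g * ((σ * τ : Geo κ Ω) : Ω ≃ₐ[RatFunc κ] Ω) * g⁻¹,
        Geo_normal.conj_mem _ (σ * τ).2 g⟩ : Geo κ Ω) =
        ⟨g * σ * g⁻¹, Geo_normal.conj_mem _ σ.2 g⟩ * ⟨g * τ * g⁻¹, Geo_normal.conj_mem _ τ.2 g⟩ :=
      Subtype.ext (by simp [mul_assoc])
    rw [h1, map_mul]
    group

theorem cj_good {E : Type} [Group E] {ψ : Geo κ Ω →* E} (h : GoodA E ψ)
    (g : Ω ≃ₐ[RatFunc κ] Ω) (e : E) : GoodA E (cj ψ g e) := by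
  classical
  obtain ⟨⟨S, hS⟩, hU⟩ := h
  constructor
  · refine ⟨S.image g.symm, fun σ hσ => ?_⟩
    change e⁻¹ * ψ _ * e = 1
    rw [hS]
    · group
    · intro x hx
      change g ((σ : Ω ≃ₐ[RatFunc κ] Ω) (g.symm x)) = x
      rw [hσ _ (Finset.mem_image_of_mem _ hx), g.apply_symm_apply]
  · intro Q hQ σ hσ
    change e⁻¹ * ψ _ * e = 1
    haveI : (Q.comap (autO g).symm.toRingHom).IsMaximal := by
      exact Ideal.comap_isMaximal_of_equiv (autO g).symm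
    rw [hU (Q.comap (autO g).symm.toRingHom) this _ (InI.conj hσ g)]
    group

theorem huniq {p : ℕ} [Fact p.Prime] {E H : Type} [Group E] [Finite E] [Group H] (π : E →* H)
    (hcard : ¬ p ∣ Nat.card π.ker) (hcomm : ∀ n ∈ π.ker, ∀ g ∈ pE p E, n * g = g * n)
    (hK : ∀ (D : Type) [CommGroup D] [Finite D], ¬ p ∣ Nat.card D → ∀ f : Geo κ Ω →* D,
      GoodA D f → f = 1)
    (ψ₁ ψ₂ : Geo κ Ω →* E) (h₁ : ∀ σ, ψ₁ σ ∈ pE p E) (h₂ : ∀ σ, ψ₂ σ ∈ pE p E)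
    (g₁ : GoodA E ψ₁) (g₂ : GoodA E ψ₂) (he : ∀ σ, π (ψ₁ σ) = π (ψ₂ σ)) : ψ₁ = ψ₂ := by
  classical
  let D : Subgroup E := π.ker ⊓ pE p E
  letI : CommGroup D := { (inferInstance : Group D) with
    mul_comm := fun a b => Subtype.ext (hcomm a a.2.1 b b.2.2) }
  have hDc : ¬ p ∣ Nat.card D := fun hd =>
    hcard (hd.trans (Subgroup.card_dvd_of_le (inf_le_left : D ≤ π.ker)))
  have hm : ∀ σ, ψ₁ σ * (ψ₂ σ)⁻¹ ∈ D := fun σ =>
    ⟨(MonoidHom.mem_ker (f := π)).2 (by rw [map_mul, map_inv, he, mul_inv_cancel]),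
      (pE p E).mul_mem (h₁ σ) ((pE p E).inv_mem (h₂ σ))⟩
  let δ : Geo κ Ω →* D :=
    { toFun := fun σ => ⟨ψ₁ σ * (ψ₂ σ)⁻¹, hm σ⟩
      map_one' := Subtype.ext (by simp)
      map_mul' := fun σ τ => by
        apply Subtype.ext
        change ψ₁ (σ * τ) * (ψ₂ (σ * τ))⁻¹ = (ψ₁ σ * (ψ₂ σ)⁻¹) * (ψ₁ τ * (ψ₂ τ)⁻¹)
        have h3 : (ψ₁ τ * (ψ₂ τ)⁻¹) * (ψ₂ σ)⁻¹ = (ψ₂ σ)⁻¹ * (ψ₁ τ * (ψ₂ τ)⁻¹) :=
          hcomm _ (hm τ).1 _ ((pE p E).inv_mem (h₂ σ))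
        calc ψ₁ (σ * τ) * (ψ₂ (σ * τ))⁻¹ = ψ₁ σ * ((ψ₁ τ * (ψ₂ τ)⁻¹) * (ψ₂ σ)⁻¹) := by
              rw [map_mul, map_mul]; group
          _ = _ := by rw [h3]; group }
  have hδ : GoodA D δ := by
    obtain ⟨⟨S₁, hS₁⟩, hU₁⟩ := g₁
    obtain ⟨⟨S₂, hS₂⟩, hU₂⟩ := g₂
    constructor
    · refine ⟨S₁ ∪ S₂, fun σ hσ => Subtype.ext ?_⟩
      change ψ₁ σ * (ψ₂ σ)⁻¹ = 1
      rw [hS₁ σ fun x hx => hσ x (Finset.mem_union_left _ hx),
        hS₂ σ fun x hx => hσ x (Finset.mem_union_right _ hx), mul_inv_cancel]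
    · intro Q hQ σ hσ
      apply Subtype.ext
      change ψ₁ σ * (ψ₂ σ)⁻¹ = 1
      rw [hU₁ Q hQ σ hσ, hU₂ Q hQ σ hσ, mul_inv_cancel]
  have h4 : δ = 1 := hK D hDc δ hδ
  ext σ
  have h5 := congrArg Subtype.val (DFunLike.congr_fun h4 σ)
  exact mul_inv_eq_one.1 h5

end core

end Pool.Agent.H17Z
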