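import Mathlib
import Pool.Agent.H17Z.Stm
import Pool.Agent.H17Z.MainC

/-!
# Project Z17: assembly, part D (kernels of order prime to `p` which commute with `p(E)`)
-/

set_option autoImplicit false
set_option linter.unusedSectionVars false

namespace Pool.Agent.H17Z

open Polynomial

section agree

variable {κ Ω : Type} [Field κ] [Fintype κ] [Field Ω] [Algebra (RatFunc κ) Ω] [Algebra κ[X] Ω]
  [IsScalarTower κ[X] (RatFunc κ) Ω] [Algebra κ Ω] [IsScalarTower κ κ[X] Ω]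

/-- Every element of the Galois group is `F ^ j g v` with `v` fixing a given finite set. -/
theorem decomp (F : Ω ≃ₐ[RatFunc κ] Ω)
    (hσj : ∀ m : ℕ, 0 < m → ∀ σ : Ω ≃ₐ[RatFunc κ] Ω, ∃ j : ℕ, (F ^ j)⁻¹ * σ ∈ Wk κ Ω m)
    (hS : ∀ S : Finset Ω, ∃ m : ℕ, 0 < m ∧ ∀ σ ∈ Wk κ Ω m, ∃ g ∈ Geo κ Ω, ∀ x ∈ S, g x = σ x)
    (S : Finset Ω) (γ : Ω ≃ₐ[RatFunc κ] Ω) :
    ∃ (j : ℕ) (g : Geo κ Ω) (v : Ω ≃ₐ[RatFunc κ] Ω), (∀ x ∈ S, v x = x) ∧
      γ = F ^ j * (g : Ω ≃ₐ[RatFunc κ] Ω) * v := by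
  obtain ⟨m, hm, h1⟩ := hS S
  obtain ⟨j, hj⟩ := hσj m hm γ
  obtain ⟨g, hg, hgx⟩ := h1 _ hj
  refine ⟨j, ⟨g, hg⟩, g⁻¹ * ((F ^ j)⁻¹ * γ), fun x hx => ?_, by group⟩
  rw [AlgEquiv.mul_apply, ← hgx x hx]
  exact g.symm_apply_apply x

/-- Homomorphisms which agree on the geometric group and on the Frobenius automorphism. -/
theorem eq_of_geo (F : Ω ≃ₐ[RatFunc κ] Ω)
    (hσj : ∀ m : ℕ, 0 < m → ∀ σ : Ω ≃ₐ[RatFunc κ] Ω, ∃ j : ℕ, (F ^ j)⁻¹ * σ ∈ Wk κ Ω m)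
    (hS : ∀ S : Finset Ω, ∃ m : ℕ, 0 < m ∧ ∀ σ ∈ Wk κ Ω m, ∃ g ∈ Geo κ Ω, ∀ x ∈ S, g x = σ x)
    {H : Type} [Group H] (f₁ f₂ : (Ω ≃ₐ[RatFunc κ] Ω) →* H) (h₁ : ContT f₁) (h₂ : ContT f₂)
    (hF : f₁ F = f₂ F) (hG : ∀ σ : Geo κ Ω, f₁ σ = f₂ σ) : f₁ = f₂ := by
  classical
  obtain ⟨S₁, hS₁⟩ := h₁
  obtain ⟨S₂, hS₂⟩ := h₂
  ext γ
  obtain ⟨j, g, v, hv, rfl⟩ := decomp F hσj hS (S₁ ∪ S₂) γ
  rw [map_mul, map_mul, map_mul, map_mul, map_pow, map_pow, hF, hG,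
    hS₁ v fun x hx => hv x (Finset.mem_union_left _ hx),
    hS₂ v fun x hx => hv x (Finset.mem_union_right _ hx)]

end agree

section stable

variable {k Ω : Type} [Field k] [Field Ω] [Algebra (RatFunc k) Ω]

/-- The pointwise stabiliser of a set. -/
def stab (S : Set Ω) : Subgroup (Ω ≃ₐ[RatFunc k] Ω) where
  carrier := {σ | ∀ x ∈ S, σ x = x}
  one_mem' := fun _ _ => rfl
  mul_mem' := fun {σ τ} hσ hτ x hx => by
    rw [AlgEquiv.mul_apply, hτ x hx, hσ x hx]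
  inv_mem' := fun {σ} hσ x hx => by
    have h1 : σ⁻¹ (σ x) = x := by
      rw [← AlgEquiv.mul_apply, inv_mul_cancel, AlgEquiv.one_apply]
    rw [hσ x hx] at h1
    exact h1

theorem stab_normal (S : Set Ω) (hS : ∀ (σ : Ω ≃ₐ[RatFunc k] Ω), ∀ x ∈ S, σ x ∈ S) :
    (stab (k := k) S).Normal := by
  constructor
  intro σ hσ g x hx
  rw [AlgEquiv.mul_apply, AlgEquiv.mul_apply, hσ _ (hS g⁻¹ x hx)]
  exact g.apply_symm_apply x

/-- Every finite set is contained in a finite stable set. -/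
theorem exists_stable [Algebra.IsAlgebraic (RatFunc k) Ω] (S : Finset Ω) :
    ∃ S₁ : Finset Ω, S ⊆ S₁ ∧ ∀ (σ : Ω ≃ₐ[RatFunc k] Ω), ∀ x ∈ S₁, σ x ∈ S₁ := by
  classical
  refine ⟨S.biUnion fun x => ((minpoly (RatFunc k) x).aroots Ω).toFinset, fun x hx => ?_,
    fun σ x hx => ?_⟩
  · rw [Finset.mem_biUnion]
    refine ⟨x, hx, ?_⟩
    have hi : IsIntegral (RatFunc k) x := (Algebra.IsAlgebraic.isAlgebraic x).isIntegral
    rw [Multiset.mem_toFinset, mem_aroots]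
    exact ⟨minpoly.ne_zero hi, minpoly.aeval _ x⟩
  · rw [Finset.mem_biUnion] at hx ⊢
    obtain ⟨y, hy, hxy⟩ := hx
    refine ⟨y, hy, ?_⟩
    rw [Multiset.mem_toFinset, mem_aroots] at hxy ⊢
    refine ⟨hxy.1, ?_⟩
    have h1 : aeval (σ x) (minpoly (RatFunc k) y) = σ (aeval x (minpoly (RatFunc k) y)) :=
      Polynomial.aeval_algHom_apply (σ : Ω →ₐ[RatFunc k] Ω) x _
    rw [h1, hxy.2, map_zero]

end stable

/-- The main theorem of part 1: proper solution of embedding problems with kernel of order prime to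
`p` commuting with `p(E)`. -/
theorem stepA_core (hSURJ : St_SURJ) (hBR : St_BR) (hKUM : St_KUM) (hLFT : St_LFT) (hHH : St_HH)
    (hG1 : St_GRP1) (hG2 : St_GRP2) (hG3 : St_GRP3) (hFROB : St_FROB) (hFIN : St_FIN)
    (hEXT : St_EXT)
    (κ Ω : Type) [Field κ] [Fintype κ] [Field Ω] [Algebra (RatFunc κ) Ω] [Algebra κ[X] Ω]
    [IsScalarTower κ[X] (RatFunc κ) Ω] [Algebra κ Ω] [IsScalarTower κ κ[X] Ω]
    [IsSepClosure (RatFunc κ) Ω] (p : ℕ) [Fact p.Prime] [CharP κ p]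
    (E H : Type) [Group E] [Finite E] [Group H] (π : E →* H) (hπ : Function.Surjective π)
    (hcard : ¬ p ∣ Nat.card π.ker) (hcomm : ∀ n ∈ π.ker, ∀ g ∈ pE p E, n * g = g * n)
    (hcyc : ∃ y : E, ∀ g : E, ∃ k : ℤ, y ^ k * g ∈ pE p E)
    (φ : (Ω ≃ₐ[RatFunc κ] Ω) →* H) (hφs : Function.Surjective φ) (hφc : ContT φ)
    (hφu : UnrT φ) :
    ∃ Ψ : (Ω ≃ₐ[RatFunc κ] Ω) →* E, Function.Surjective Ψ ∧ π.comp Ψ = φ ∧ ContT Ψ ∧
      UnrT Ψ := by
  classical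
  haveI hHfin : Finite H := Finite.of_surjective π hπ
  haveI hsep : Algebra.IsSeparable (RatFunc κ) Ω := (inferInstance : IsSepClosure _ Ω).separable
  haveI halg : Algebra.IsAlgebraic (RatFunc κ) Ω := inferInstance
  obtain ⟨F, hF⟩ := hFROB κ Ω
  obtain ⟨hGn, hWn, hFj, hσj, hS⟩ := hFIN κ Ω F hF
  obtain ⟨hK, hL⟩ := geo_facts2 hSURJ hBR hKUM hLFT hHH hG1 hG2 κ Ω p
  haveI := pE_normal p H
  let φA : Geo κ Ω →* H := φ.comp (Geo κ Ω).subtype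
  have hφA : GoodA H φA := by
    obtain ⟨S, hS⟩ := hφc
    exact ⟨⟨S, fun σ hσ => hS σ hσ⟩, fun Q hQ σ hσ => hφu Q hQ σ hσ⟩
  -- the image is in `p(H)`
  have h4 : ∀ σ : Geo κ Ω, φA σ ∈ pE p H := by
    obtain ⟨y, hy⟩ := hcyc
    have hcy : IsCyclic (H ⧸ pE p H) := by
      refine ⟨⟨(π y : H), fun d => ?_⟩⟩
      obtain ⟨h, rfl⟩ := QuotientGroup.mk_surjective d
      obtain ⟨g, rfl⟩ := hπ h
      obtain ⟨k, hk⟩ := hy g
      refine ⟨-k, ?_⟩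
      have h1 : π (y ^ k * g) ∈ pE p H := map_pE_le p π ⟨_, hk, rfl⟩
      change ((π y : H) : H ⧸ pE p H) ^ (-k) = (π g : H ⧸ pE p H)
      rw [← QuotientGroup.mk_zpow, QuotientGroup.eq, zpow_neg, inv_inv, ← map_zpow, ← map_mul]
      exact h1
    have h2 : (QuotientGroup.mk' (pE p H)).comp φA = 1 :=
      @hK (H ⧸ pE p H) (@IsCyclic.commGroup _ _ hcy) inferInstance (card_quot_pE p)
        ((QuotientGroup.mk' (pE p H)).comp φA) ⟨hφA.1.comp' _, hφA.2.comp' _⟩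
    intro σ
    exact (QuotientGroup.eq_one_iff _).1 (DFunLike.congr_fun h2 σ)
  -- the lift to `p(E)`
  obtain ⟨ψ, hψP, hψg, hψπ⟩ : ∃ ψ : Geo κ Ω →* E, (∀ σ, ψ σ ∈ pE p E) ∧ GoodA E ψ ∧
      ∀ σ, π (ψ σ) = φ σ := by
    let R : Subgroup H := φA.range
    let A' : Subgroup E := pE p E ⊓ R.comap π
    let π' : A' →* R := (π.comp A'.subtype).codRestrict R (fun a => a.2.2)
    have hs' : Function.Surjective π' := by
      rintro ⟨h, σ, rfl⟩
      obtain ⟨e, he, heq⟩ := pE_le_map p π hπ (h4 σ)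
      exact ⟨⟨e, he, by
        change π e ∈ R
        rw [heq]
        exact ⟨σ, rfl⟩⟩, Subtype.ext heq⟩
    have hle : π'.ker.map A'.subtype ≤ π.ker := by
      rintro _ ⟨a, ha, rfl⟩
      exact congrArg Subtype.val ha
    have hc' : ¬ p ∣ Nat.card π'.ker := by
      intro hd
      apply hcard
      have h5 : Nat.card (π'.ker.map A'.subtype) = Nat.card π'.ker :=
        Nat.card_congr (π'.ker.equivMapOfInjective _ A'.subtype_injective).toEquiv.symm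
      rw [← h5] at hd
      exact hd.trans (Subgroup.card_dvd_of_le hle)
    have hz' : π'.ker ≤ Subgroup.center A' := by
      intro a ha
      rw [Subgroup.mem_center_iff]
      intro g
      apply Subtype.ext
      exact (hcomm a (hle ⟨a, ha, rfl⟩) g g.2.1).symm
    obtain ⟨g', hg', hgg⟩ := hL A' R π' hs' hc' hz' φA.rangeRestrict
      ⟨hφA.1.inj' R.subtype R.subtype_injective, hφA.2.inj' R.subtype R.subtype_injective⟩
    refine ⟨A'.subtype.comp g', fun σ => (g' σ).2.1, ⟨hgg.1.comp' _, hgg.2.comp' _⟩, fun σ => ?_⟩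
    exact congrArg Subtype.val (DFunLike.congr_fun hg' σ)
  have hu := huniq (κ := κ) (Ω := Ω) π hcard hcomm hK
  -- equivariance
  have heq : ∀ (g : Ω ≃ₐ[RatFunc κ] Ω) (e : E), π e = φ g → ∀ σ τ : Geo κ Ω,
      (τ : Ω ≃ₐ[RatFunc κ] Ω) = g * σ * g⁻¹ → ψ τ = e * ψ σ * e⁻¹ := by
    intro g e he σ τ hτ
    have h1 : cj ψ g e = ψ := by
      apply hu _ _ _ hψP (cj_good hψg g e) hψg
      · intro σ
        change π (e⁻¹ * ψ _ * e) = π (ψ σ)
        rw [map_mul, map_mul, map_inv, hψπ, hψπ, he, map_mul, map_mul, map_inv]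
        group
      · intro σ
        have h2 := (pE_normal p E).conj_mem _ (hψP ⟨g * σ * g⁻¹, Geo_normal.conj_mem _ σ.2 g⟩) e⁻¹
        rw [inv_inv] at h2
        exact h2
    have h2 : e⁻¹ * ψ τ * e = ψ σ := by
      have h3 := DFunLike.congr_fun h1 σ
      have h4 : τ = ⟨g * σ * g⁻¹, Geo_normal.conj_mem _ σ.2 g⟩ := Subtype.ext hτ
      rw [h4]
      exact h3
    rw [← h2]
    group
  let T : Subgroup E := ψ.range
  haveI hTn : T.Normal := by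
    constructor
    rintro _ ⟨σ, rfl⟩ e
    obtain ⟨g, hg⟩ := hφs (π e)
    exact ⟨⟨g * σ * g⁻¹, Geo_normal.conj_mem _ σ.2 g⟩, heq g e hg.symm σ _ rfl⟩
  have hTP : T ≤ pE p E := by
    rintro _ ⟨σ, rfl⟩
    exact hψP σ
  obtain ⟨x, hx⟩ := hπ (φ F)
  obtain ⟨Sφ, hSφ⟩ := id hφc
  obtain ⟨n, hn, hgen⟩ := hG3 p E π.ker T hcard hcomm hcyc hTP x (by
    intro g
    obtain ⟨γ, hγ⟩ := hφs (π g)
    obtain ⟨j, a, v, hv, rfl⟩ := decomp F hσj hS Sφ γ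
    refine ⟨-(j : ℤ), ?_⟩
    have h1 : (ψ a)⁻¹ * (x ^ (-(j : ℤ)) * g) ∈ π.ker := by
      rw [MonoidHom.mem_ker, map_mul, map_mul, map_inv, map_zpow, hx, ← hγ, hψπ, map_mul, map_mul,
        hSφ v hv, map_pow, mul_one, zpow_neg, zpow_natCast]
      group
    have h2 : x ^ (-(j : ℤ)) * g = ψ a * ((ψ a)⁻¹ * (x ^ (-(j : ℤ)) * g)) := by group
    rw [h2]
    exact Subgroup.mul_mem_sup ⟨a, rfl⟩ h1)
  let e : E := x * n
  have hπe : π e = φ F := by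
    change π (x * n) = φ F
    rw [map_mul, hx, MonoidHom.mem_ker.1 hn, mul_one]
  obtain ⟨⟨Sψ, hSψ⟩, hψu⟩ := id hψg
  obtain ⟨S₁, hS₁, hS₁s⟩ := exists_stable (k := κ) Sψ
  haveI hVn : (stab (k := κ) (S₁ : Set Ω)).Normal := stab_normal _ hS₁s
  obtain ⟨m₀, hm₀, hm₀S⟩ := hS S₁
  let W : ℕ → Subgroup (Ω ≃ₐ[RatFunc κ] Ω) := fun m => if m = 0 then Geo κ Ω else Wk κ Ω m
  have hW : ∀ m, 0 < m → W m = Wk κ Ω m := fun m hm => if_neg hm.ne'
  have hW0 : W 0 = Geo κ Ω := if_pos rfl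
  obtain ⟨Ψ, hΨψ, hΨF, m, hm, hΨV⟩ := hEXT (Ω ≃ₐ[RatFunc κ] Ω) (Geo κ Ω) F W
    (by
      intro m
      rcases Nat.eq_zero_or_pos m with rfl | hm
      · rw [hW0]; exact ⟨hGn, le_rfl⟩
      · rw [hW m hm]; exact hWn m hm)
    (by
      intro m hm j
      rw [hW m hm]; exact hFj m hm j)
    (by
      intro m hm γ
      rw [hW m hm]; exact hσj m hm γ)
    (by
      intro m n
      rcases Nat.eq_zero_or_pos m with rfl | hm
      · rw [zero_mul]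
      · rcases Nat.eq_zero_or_pos n with rfl | hn
        · rw [mul_zero, hW0, hW m hm]
          exact (hWn m hm).2
        · rw [hW m hm, hW (m * n) (Nat.mul_pos hm hn)]
          intro σ hσ x hx
          apply hσ x
          rw [pow_mul]
          have h6 : ∀ n : ℕ, x ^ (Fintype.card κ ^ m) ^ n = x := by
            intro n
            induction n with
            | zero => rw [pow_zero, pow_one]
            | succ n ih => rw [pow_succ, pow_mul, ih, hx]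
          exact h6 n)
    (stab (k := κ) (S₁ : Set Ω)) m₀ hm₀
    (by
      rw [hW m₀ hm₀]
      intro σ hσ
      obtain ⟨g, hg, hgx⟩ := hm₀S σ hσ
      have h2 : σ = g * (g⁻¹ * σ) := by group
      rw [h2]
      refine Subgroup.mul_mem_sup hg ?_
      intro x hx
      rw [AlgEquiv.mul_apply, ← hgx x hx]
      exact g.symm_apply_apply x)
    E ψ e
    (fun g hg => hSψ g fun x hx => hg x (hS₁ hx))
    (fun g h hgh => heq F e hπe g h hgh)
  have hΨc : ContT Ψ := by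
    refine ⟨S₁ ∪ ((X ^ (Fintype.card κ ^ m) - X : Polynomial Ω).roots.toFinset), fun σ hσ => ?_⟩
    apply hΨV σ (fun x hx => hσ x (Finset.mem_union_left _ hx))
    rw [hW m hm]
    intro x hx
    apply hσ x
    apply Finset.mem_union_right
    rw [Multiset.mem_toFinset, mem_roots]
    · rw [IsRoot, eval_sub, eval_pow, eval_X, hx, sub_self]
    · refine FiniteField.X_pow_card_sub_X_ne_zero Ω ?_
      exact Nat.one_lt_pow hm.ne' Fintype.one_lt_card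
  refine ⟨Ψ, ?_, ?_, hΨc, ?_⟩
  · intro g
    obtain ⟨k, σ, hσ⟩ := hgen g
    refine ⟨(F ^ k)⁻¹ * (σ : Ω ≃ₐ[RatFunc κ] Ω), ?_⟩
    rw [map_mul, map_inv, map_zpow, hΨF, hΨψ, hσ]
    exact inv_mul_cancel_left _ _
  · apply eq_of_geo F hσj hS _ _ _ hφc
    · rw [MonoidHom.comp_apply, hΨF, hπe]
    · intro σ
      rw [MonoidHom.comp_apply, hΨψ, hψπ]
    · obtain ⟨S, hS⟩ := hΨc
      exact ⟨S, fun σ hσ => by rw [MonoidHom.comp_apply, hS σ hσ, map_one]⟩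
  · intro Q hQ σ hσ
    have h1 := hΨψ ⟨σ, hσ.geo hQ⟩
    exact h1.trans (hψu Q hQ ⟨σ, hσ.geo hQ⟩ hσ)

end Pool.Agent.H17Z
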