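import Mathlib
import Pool.Agent.H17Z.Stm

/-!
# Project Z17, part 2 (helper17, hard problem MP_7f581e_nt): statements (NOT results)

Kernels which are `p`-groups: every homomorphism from `G` onto `H`, unramified over the affine line,
lifts to one onto `E` if `E → H` is surjective with kernel a `p`-group (additive analogue of LFT,
elementary). Together with part 1 this gives the theorem for every normal subgroup `N` all of whose
`E`-chief factors are `p`-groups or centralised by `p(E)`. Notation as in `Stm.lean`: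
`G = Gal(Ω/k(X))`, `𝒪` the ring of the elements of `Ω` integral over `k[X]`.
-/

set_option autoImplicit false

namespace Pool.Agent.H17Z

open Polynomial

/-- The elements of `𝒪` fixed by the kernel of `φ` (this is the integral closure of `k[X]` in the
fixed field of the kernel of `φ`). -/
def InB {k Ω : Type} [Field k] [Field Ω] [Algebra (RatFunc k) Ω] [Algebra k[X] Ω] {H : Type}
    [Group H] (φ : (Ω ≃ₐ[RatFunc k] Ω) →* H) (x : Ω) : Prop :=
  IsIntegral k[X] x ∧ ∀ σ : Ω ≃ₐ[RatFunc k] Ω, φ σ = 1 → σ x = x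

/-- There is an element of trace one. -/
def Tr1 {k Ω : Type} [Field k] [Field Ω] [Algebra (RatFunc k) Ω] [Algebra k[X] Ω] {H : Type}
    [Group H] [Fintype H] (φ : (Ω ≃ₐ[RatFunc k] Ω) →* H) : Prop :=
  ∃ t : Ω, InB φ t ∧ ∀ s : H → (Ω ≃ₐ[RatFunc k] Ω), (∀ h, φ (s h) = h) → ∑ h, s h t = 1

/-- TRC (`theorem t_TRC : St_SURJ → St_TRC`): PROOF: the set of the traces
`∑_h s_h x`, `x ∈ B = InB φ`, is an ideal of `k[X]` (an element of `Ω` fixed by all `σ` is in `k(X)`,
and integral, so in `k[X]`; the trace is `k[X]`-linear). If it is not `1` it is in a maximal ideal `m`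
of `k[X]`; let `Q` be a maximal ideal of `𝒪` over `m`. The maps `B → 𝒪 / Q`, `x ↦ s_h x mod Q`
(`h ∈ H`) are ring homomorphisms, and they are distinct: if `s_h x - s_h' x ∈ Q` for all `x ∈ B`, then
`τ = s_h s_h'⁻¹` satisfies `τ y - y ∈ Q` for all `y ∈ B`, so by SURJ for the fixed field of `ker φ`
there is `σ ∈ I_Q` with `σ = τ` on this field, `φ σ = φ τ` (`σ⁻¹ τ` fixes the fixed field of the
closed subgroup `ker φ`), and `φ σ = 1` (`UnrT φ`), so `h = h'`. By the linear independence of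
characters (`linearIndependent_monoidHom`) some trace is not in `Q`, a contradiction. -/
def St_TRC : Prop :=
  ∀ (k Ω : Type) [Field k] [Field Ω] [Algebra (RatFunc k) Ω] [Algebra k[X] Ω]
    [IsScalarTower k[X] (RatFunc k) Ω] [IsSepClosure (RatFunc k) Ω] (H : Type) [Group H]
    [Fintype H] (φ : (Ω ≃ₐ[RatFunc k] Ω) →* H), Function.Surjective φ → ContT φ → UnrT φ → Tr1 φ

/-- The twisted action of `G` on vectors. -/
noncomputable def tw {k Ω : Type} [Field k] [Field Ω] [Algebra (RatFunc k) Ω] {H : Type} [Group H] {p r : ℕ}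
    (ρ : H →* Matrix (Fin r) (Fin r) (ZMod p)) (φ : (Ω ≃ₐ[RatFunc k] Ω) →* H)
    (σ : Ω ≃ₐ[RatFunc k] Ω) (b : Fin r → Ω) : Fin r → Ω :=
  fun i => ∑ j, ((ρ (φ σ) i j).val : Ω) * σ (b j)

/-- PLF: lifts through an elementary abelian `p`-kernel, with a parameter `b'`. PROOF: embed
`𝔽_p ^ r` in `Ω ^ r`; write `σ ⋆ b = tw ρ φ σ b` (an action of `G`; on vectors with entries in `InB φ`
it is an action of `H`, `h ⋆ b = s_h ⋆ b`). Choose a section `s` of `π`, `s(1) = 1`, and let
`c(g, h) ∈ 𝔽_p ^ r`, `ι(c(g, h)) = s(g) s(h) s(gh)⁻¹`, a 2-cocycle: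
`g ⋆ c(h, j) + c(g, hj) = c(gh, j) + c(g, h)`. With `t` from `Tr1` let
`a(g) = ∑_j (gj)(t) c(g, j) ∈ B ^ r`; then `a(g) + g ⋆ a(h) - a(gh) = c(g, h)` (substitute `j → hj` in
`a(g)`), `a(1) = 0`. Put `℘(x) = x ^ p - x` (coordinatewise; it commutes with `⋆` because the entries
of `ρ` are in `𝔽_p`). `f(g) = ℘(a(g))` satisfies `f(gh) = f(g) + g ⋆ f(h)` (`℘ c = 0`), and
`b = -∑_h h(t) f(h)` satisfies `g ⋆ b - b = f(g)`. Now let `b', β` be given and
`z(σ) = σ ⋆ β - β - a(φ σ)`; `℘ z(σ) = σ ⋆ (b + b') - (b + b') - f(φ σ) = 0`, so `z(σ) ∈ 𝔽_p ^ r`, and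
`z(σ τ) = z(σ) + (φ σ) ⋆ z(τ) + c(φ σ, φ τ)`, so `Φ(σ) = ι(z(σ)) s(φ σ)` is a homomorphism,
`π Φ = φ`. It is continuous (fix the `β i` and the finite set for `φ`, and a finite set generating the
`a(g)`, e.g. the entries of the `a(g)` are fixed by `ker φ`). If `σ ∈ I_Q` then `φ σ = 1`,
`z(σ) = σ β - β` has entries in `Q` (`β i` is integral) and in `𝔽_p`, so `z(σ) = 0`. If `φ σ = 1` and
`Φ σ = 1` then `z(σ) = 0` and `σ β = β`. -/
def St_PLF : Prop :=
  ∀ (p : ℕ) [Fact p.Prime] (k Ω : Type) [Field k] [CharP k p] [Field Ω] [Algebra (RatFunc k) Ω]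
    [Algebra k[X] Ω] [IsScalarTower k[X] (RatFunc k) Ω] [IsSepClosure (RatFunc k) Ω]
    (H E : Type) [Group H] [Fintype H] [Group E] [Finite E] (π : E →* H), Function.Surjective π →
    ∀ (r : ℕ) (ι : Multiplicative (Fin r → ZMod p) →* E), Function.Injective ι →
    ι.range = π.ker → ∀ (ρ : H →* Matrix (Fin r) (Fin r) (ZMod p)),
    (∀ (e : E) (v : Fin r → ZMod p), e * ι (Multiplicative.ofAdd v) * e⁻¹ =
      ι (Multiplicative.ofAdd ((ρ (π e)).mulVec v))) →
    ∀ φ : (Ω ≃ₐ[RatFunc k] Ω) →* H, Function.Surjective φ → ContT φ → UnrT φ → Tr1 φ →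
      ∃ b : Fin r → Ω, (∀ i, InB φ (b i)) ∧
        ∀ b' : Fin r → Ω, (∀ i, InB φ (b' i)) → (∀ σ, tw ρ φ σ b' = b') →
          ∀ β : Fin r → Ω, (∀ i, β i ^ p - β i = b i + b' i) →
            ∃ Φ : (Ω ≃ₐ[RatFunc k] Ω) →* E, π.comp Φ = φ ∧ ContT Φ ∧ UnrT Φ ∧
              ∀ σ, φ σ = 1 → Φ σ = 1 → ∀ i, σ (β i) = β i

/-- MNZ: there are nonzero invariant vectors. PROOF: `v = e_0`; for `x ∈ InB φ` let
`b'(x) = ∑_h s_h(x) ρ(h) v` (`s` a section of `φ`). It is invariant (`σ s_h` and `s_(gh)`, `g = φ σ`,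
differ by an element of `ker φ`). If all `b'(x)` vanish, then in particular
`∑_h (ρ(h) v)_0 s_h(x) = 0` for all `x ∈ InB φ`, which contradicts the linear independence of the
characters `s_h` (`linearIndependent_monoidHom`) of the multiplicative monoid `InB φ`, because the
coefficient of `h = 1` is `1`. The `s_h` are distinct on `InB φ`: every element of the fixed field of
`ker φ` is a quotient of an element of `InB φ` by a polynomial, and `ker φ` is a closed subgroup
(`ContT`), so an automorphism which fixes `InB φ` is in `ker φ` (`InfiniteGalois`). -/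
def St_MNZ : Prop :=
  ∀ (p : ℕ) [Fact p.Prime] (k Ω : Type) [Field k] [CharP k p] [Field Ω] [Algebra (RatFunc k) Ω]
    [Algebra k[X] Ω] [IsScalarTower k[X] (RatFunc k) Ω] [IsSepClosure (RatFunc k) Ω]
    (H : Type) [Group H] [Fintype H] (r : ℕ), 0 < r →
    ∀ (ρ : H →* Matrix (Fin r) (Fin r) (ZMod p)) (φ : (Ω ≃ₐ[RatFunc k] Ω) →* H),
      Function.Surjective φ → ContT φ →
      ∃ b' : Fin r → Ω, b' ≠ 0 ∧ (∀ i, InB φ (b' i)) ∧ ∀ σ, tw ρ φ σ b' = b'

/-- CNT: a counting argument. PROOF: `B = integralClosure κ[X] L` is a free `κ[X]`-module with a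
finite basis `ω_1, …, ω_n`; for `x ∈ B ^ r` let `D(x)` be the maximal degree of the coordinates (`0`
for `x = 0`). The `ω_i ^ p` are linearly independent over `κ(X)` (`L` is separable:
`LinearIndependent.map_pow_expChar_pow_of_isSeparable`), so the matrix expressing them by the `ω_j` is
invertible over `κ(X)`, and as the coordinates of `x ^ p` are this matrix times the `p`-th powers of
those of `x`: `p D(x) ≤ D(x ^ p) + c` with a constant `c` (for `x ∈ B ^ r`). If `w ^ p - w = m` then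
`p D(w) ≤ max (D w) (D m) + c`, so `D(w) ≤ d' := max c ((D(m) + c) / p)`. Let `M_d` be the (finite)
set of the `m ∈ M` with `D(m) ≤ d`, `f(d) = |M_d|`. If `0 ≠ m₀ ∈ M`, the `g m₀`, `deg g ≤ d - D(m₀)`,
show `f(d) ≥ 2 ^ (d - D(m₀))`. Suppose that every `m ∈ M` is of the form `w ^ p - w`. Then
`f(d) ≤ |T| f(d')` with `d' = max c ((d + c) / p)`: choose for `m ∈ M_d` some `w`, and `t ∈ T` with
`w - t ∈ M`; if `w₁` and `w₂` have the same `t` then `w₁ - w₂ ∈ M_(d')`. Iterating, `f` has at most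
polynomial growth: `f(d) ≤ A (d + 1) ^ k` for suitable `A, k` (strong induction: `d' + 1 ≤ 3/4 (d + 1)`
for large `d`, and `|T| (3/4) ^ k ≤ 1`), a contradiction. -/
def St_CNT : Prop :=
  ∀ (p : ℕ) [Fact p.Prime] (κ L : Type) [Field κ] [Finite κ] [CharP κ p] [Field L]
    [Algebra (RatFunc κ) L] [Algebra κ[X] L] [IsScalarTower κ[X] (RatFunc κ) L]
    [FiniteDimensional (RatFunc κ) L] [Algebra.IsSeparable (RatFunc κ) L] (r : ℕ)
    (M : Submodule κ[X] (Fin r → integralClosure κ[X] L)), M ≠ ⊥ →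
    ∀ T : Set (Fin r → integralClosure κ[X] L), T.Finite →
      (∀ w : Fin r → integralClosure κ[X] L, (fun i => w i ^ p - w i) ∈ M → ∃ t ∈ T, w - t ∈ M) →
      ∃ m ∈ M, ∀ w : Fin r → integralClosure κ[X] L, (fun i => w i ^ p - w i) ≠ m

/-- PAR: from CNT to `Ω` (`theorem t_PAR : St_CNT → St_MNZ → St_PAR`): for every `b` some invariant
`b'` is such that no solution `β` of `β ^ p - β = b + b'` has entries in `InB φ`. PROOF: `L` the fixed
field of `ker φ`, `M` the set of the vectors with entries in `InB φ` (identified with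
`integralClosure κ[X] L`) invariant under all `tw ρ φ σ`; `M ≠ 0` by MNZ. If `℘ w ∈ M`, `w` with
entries in `InB φ`, then `℘(σ ⋆ w - w) = 0`, so `σ ⋆ w - w ∈ 𝔽_p ^ r`, a function of `φ σ ∈ H`; if
`w`, `w'` give the same function then `w - w' ∈ M`: so there is a finite `T` as in CNT (one `w` for
each function which occurs). By CNT some `m ∈ M` is not of the form `℘ w`. If the claim were false for
`b`, both `b = ℘ w₀` (`b' = 0`) and `b + m = ℘ w₁`, so `m = ℘(w₁ - w₀)`. -/
def St_PAR : Prop :=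
  ∀ (p : ℕ) [Fact p.Prime] (κ Ω : Type) [Field κ] [Finite κ] [CharP κ p] [Field Ω]
    [Algebra (RatFunc κ) Ω] [Algebra κ[X] Ω] [IsScalarTower κ[X] (RatFunc κ) Ω]
    [IsSepClosure (RatFunc κ) Ω] (H : Type) [Group H] [Fintype H] (r : ℕ), 0 < r →
    ∀ (ρ : H →* Matrix (Fin r) (Fin r) (ZMod p)) (φ : (Ω ≃ₐ[RatFunc κ] Ω) →* H),
      Function.Surjective φ → ContT φ → ∀ b : Fin r → Ω, (∀ i, InB φ (b i)) →
      ∃ b' : Fin r → Ω, (∀ i, InB φ (b' i)) ∧ (∀ σ, tw ρ φ σ b' = b') ∧
        ∀ β : Fin r → Ω, (∀ i, β i ^ p - β i = b i + b' i) → ¬ ∀ i, InB φ (β i)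

/-- PSU: surjective lifts for minimal normal kernels
(`theorem t_PSU : St_TRC → St_PLF → St_PAR → St_PSU`). PROOF: `π.ker` is a finite dimensional vector
space over `ZMod p`: choose `ι` (with `r > 0`), and let `ρ(h)` be the matrix of the conjugation by any
`e` with `π e = h` (`π.ker` is commutative). Take `b` from PLF, `b'` from PAR, and `β` in `Ω`
(`T ^ p - T - c` is separable, `Ω` separably closed; `β i` is integral). Then `Φ` from PLF is
surjective: its image `I` satisfies `π(I) = H`; `I ∩ π.ker` is normalised by `I` and by `π.ker`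
(commutative), so normal in `E = I π.ker`; so it is `⊥` or `π.ker`. In the second case `I = E`. In the
first `Φ σ = 1` for all `σ ∈ ker φ` (`π Φ σ = 1`), so `σ β = β` by PLF, and the `β i` are in `InB φ`, a
contradiction to PAR. -/
def St_PSU : Prop :=
  ∀ (p : ℕ) [Fact p.Prime] (κ Ω : Type) [Field κ] [Finite κ] [CharP κ p] [Field Ω]
    [Algebra (RatFunc κ) Ω] [Algebra κ[X] Ω] [IsScalarTower κ[X] (RatFunc κ) Ω]
    [IsSepClosure (RatFunc κ) Ω] (H E : Type) [Group H] [Group E] [Finite E] (π : E →* H),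
    Function.Surjective π → π.ker ≠ ⊥ → (∀ x ∈ π.ker, ∀ y ∈ π.ker, x * y = y * x) →
    (∀ x ∈ π.ker, x ^ p = 1) →
    (∀ M : Subgroup E, M.Normal → M ≤ π.ker → M = ⊥ ∨ M = π.ker) →
    ∀ φ : (Ω ≃ₐ[RatFunc κ] Ω) →* H, Function.Surjective φ → ContT φ → UnrT φ →
      ∃ Φ : (Ω ≃ₐ[RatFunc κ] Ω) →* E, Function.Surjective Φ ∧ π.comp Φ = φ ∧ ContT Φ ∧ UnrT Φ

/-- PIN: kernels which are `p`-groups (pure group theory; `Good` is any property of homomorphisms
from `A`, in the application: surjective, `ContT`, `UnrT`). PROOF: induction on `|ker π|`. If it is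
trivial use the inverse of `π` and the first hypothesis. Otherwise let `M` be a minimal nontrivial
normal subgroup of `E` in `ker π`; `M` is a nontrivial `p`-group, so the commutator subgroup of `M` is
proper and (characteristic in `M`, so normal in `E`) trivial; the elements of `M` with `x ^ p = 1` form
a nontrivial normal subgroup of `E`, so all of `M`. Lift `f` to `E / M` by induction and then to
`E`. -/
def St_PIN : Prop :=
  ∀ (p : ℕ) [Fact p.Prime] (A : Type) [Group A] (Good : ∀ (H : Type) [Group H], (A →* H) → Prop),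
    (∀ (H H' : Type) [Group H] [Group H'] (f : A →* H) (q : H →* H'), Function.Surjective q →
      Good H f → Good H' (q.comp f)) →
    (∀ (E H : Type) [Group E] [Finite E] [Group H] (π : E →* H),
      Function.Surjective π → π.ker ≠ ⊥ → (∀ x ∈ π.ker, ∀ y ∈ π.ker, x * y = y * x) →
      (∀ x ∈ π.ker, x ^ p = 1) →
      (∀ M : Subgroup E, M.Normal → M ≤ π.ker → M = ⊥ ∨ M = π.ker) →
      ∀ f : A →* H, Good H f → ∃ g : A →* E, π.comp g = f ∧ Good E g) →
    ∀ (E H : Type) [Group E] [Finite E] [Group H] (π : E →* H),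
      Function.Surjective π → IsPGroup p π.ker →
      ∀ f : A →* H, Good H f → ∃ g : A →* E, π.comp g = f ∧ Good E g

end Pool.Agent.H17Z
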