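import Mathlib
import Pool.Agent.H17Z.Stm
import Pool.Agent.H17Z.Stm2
import Pool.Agent.H17Z.MainD
import Pool.Agent.H17Z.LFTa

/-!
# Project Z17: assembly, part E (series of kernels; fields)
-/

set_option autoImplicit false
set_option linter.unusedSectionVars false

namespace Pool.Agent.H17Z

open Polynomial

/-- `N` has a series of normal subgroups of `E` whose factors are `p`-groups, or of order prime to `p`
and centralised by `p(E)` (the subgroup generated by the elements of `p`-power order). -/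
inductive Hyp (p : ℕ) (E : Type) [Group E] : Subgroup E → Prop
  | bot : Hyp p E ⊥
  | pgroup (N M : Subgroup E) : Hyp p E N → N ≤ M → M.Normal →
      (∀ g ∈ M, ∃ k : ℕ, g ^ p ^ k ∈ N) → Hyp p E M
  | prime (N M : Subgroup E) : Hyp p E N → N ≤ M → M.Normal →
      (∀ g ∈ M, ∃ m : ℕ, ¬ p ∣ m ∧ g ^ m ∈ N) → (∀ g ∈ M, ∀ h ∈ pE p E, g * h * g⁻¹ * h⁻¹ ∈ N) →
      Hyp p E M

theorem Hyp.normal {p : ℕ} {E : Type} [Group E] {M : Subgroup E} (h : Hyp p E M) : M.Normal := by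
  cases h with
  | bot => infer_instance
  | pgroup N M _ _ h _ => exact h
  | prime N M _ _ h _ _ => exact h

/-- What is proved: lifting of unramified homomorphisms. -/
def Lifts (κ Ω : Type) [Field κ] [Field Ω] [Algebra (RatFunc κ) Ω] [Algebra κ[X] Ω]
    {E H : Type} [Group E] [Group H] (π : E →* H) : Prop :=
  ∀ φ : (Ω ≃ₐ[RatFunc κ] Ω) →* H, Function.Surjective φ → ContT φ → UnrT φ →
    ∃ Ψ : (Ω ≃ₐ[RatFunc κ] Ω) →* E, Function.Surjective Ψ ∧ π.comp Ψ = φ ∧ ContT Ψ ∧ UnrT Ψ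

theorem cyc_quot {p : ℕ} {E H : Type} [Group E] [Group H] (π : E →* H)
    (hπ : Function.Surjective π) (hcyc : ∃ y : E, ∀ g : E, ∃ k : ℤ, y ^ k * g ∈ pE p E) :
    ∃ y : H, ∀ g : H, ∃ k : ℤ, y ^ k * g ∈ pE p H := by
  obtain ⟨y, hy⟩ := hcyc
  refine ⟨π y, fun g => ?_⟩
  obtain ⟨g, rfl⟩ := hπ g
  obtain ⟨k, hk⟩ := hy g
  refine ⟨k, ?_⟩
  rw [← map_zpow, ← map_mul]
  have h1 : (pE p E).map π ≤ pE p H := by
    rw [pE, MonoidHom.map_closure, Subgroup.closure_le]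
    rintro _ ⟨x, ⟨k, hk⟩, rfl⟩
    apply Subgroup.subset_closure
    exact ⟨k, by rw [← map_pow, hk, map_one]⟩
  exact h1 ⟨_, hk, rfl⟩

/-- Induction along the series. -/
theorem lifts_of_hyp
    (κ Ω : Type) [Field κ] [Field Ω] [Algebra (RatFunc κ) Ω] [Algebra κ[X] Ω]
    (p : ℕ) [Fact p.Prime]
    (hA : ∀ (E H : Type) [Group E] [Finite E] [Group H] (π : E →* H), Function.Surjective π →
      ¬ p ∣ Nat.card π.ker → (∀ n ∈ π.ker, ∀ g ∈ pE p E, n * g = g * n) →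
      (∃ y : E, ∀ g : E, ∃ k : ℤ, y ^ k * g ∈ pE p E) → Lifts κ Ω π)
    (hP : ∀ (E H : Type) [Group E] [Finite E] [Group H] (π : E →* H), Function.Surjective π →
      IsPGroup p π.ker → Lifts κ Ω π)
    (E : Type) [Group E] [Finite E] (hcyc : ∃ y : E, ∀ g : E, ∃ k : ℤ, y ^ k * g ∈ pE p E)
    (M : Subgroup E) (hM : Hyp p E M) :
    ∀ (H : Type) [Group H] (π : E →* H), Function.Surjective π → π.ker = M → Lifts κ Ω π := by
  induction hM with
  | bot =>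
    intro H _ π hπ hk
    apply hP E H π hπ
    rw [hk]
    intro g
    exact ⟨0, Subsingleton.elim _ _⟩
  | pgroup N M hN hNM hMn hp ih =>
    intro H _ π hπ hk φ hφs hφc hφu
    haveI := hN.normal
    let π₂ : E ⧸ N →* H := QuotientGroup.lift N π (fun x hx => by
      have h1 : x ∈ π.ker := by rw [hk]; exact hNM hx
      exact h1)
    have hπ₂ : Function.Surjective π₂ := by
      intro h
      obtain ⟨e, rfl⟩ := hπ h
      exact ⟨(e : E ⧸ N), rfl⟩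
    have hcomp : π₂.comp (QuotientGroup.mk' N) = π := by
      ext x; rfl
    obtain ⟨Ψ₂, hs₂, hc₂, hcc₂, hu₂⟩ := hP (E ⧸ N) H π₂ hπ₂ (by
      rintro ⟨x, hx⟩
      obtain ⟨e, rfl⟩ := QuotientGroup.mk_surjective x
      have h1 : e ∈ M := by
        rw [← hk]; exact hx
      obtain ⟨k, hk'⟩ := hp e h1
      refine ⟨k, Subtype.ext ?_⟩
      exact (QuotientGroup.eq_one_iff _).2 hk') φ hφs hφc hφu
    obtain ⟨Ψ, hs, hc, hcc, hu⟩ := ih (E ⧸ N) (QuotientGroup.mk' N)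
      (QuotientGroup.mk'_surjective N) (QuotientGroup.ker_mk' N) Ψ₂ hs₂ hcc₂ hu₂
    refine ⟨Ψ, hs, ?_, hcc, hu⟩
    rw [← hcomp, MonoidHom.comp_assoc, hc, hc₂]
  | prime N M hN hNM hMn hp hz ih =>
    intro H _ π hπ hk φ hφs hφc hφu
    haveI := hN.normal
    let π₂ : E ⧸ N →* H := QuotientGroup.lift N π (fun x hx => by
      have h1 : x ∈ π.ker := by rw [hk]; exact hNM hx
      exact h1)
    have hπ₂ : Function.Surjective π₂ := by
      intro h
      obtain ⟨e, rfl⟩ := hπ h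
      exact ⟨(e : E ⧸ N), rfl⟩
    have hcomp : π₂.comp (QuotientGroup.mk' N) = π := by
      ext x; rfl
    have hker : ∀ e : E, (e : E ⧸ N) ∈ π₂.ker → e ∈ M := by
      intro e he
      rw [← hk]; exact he
    obtain ⟨Ψ₂, hs₂, hc₂, hcc₂, hu₂⟩ := hA (E ⧸ N) H π₂ hπ₂ (by
      intro hd
      obtain ⟨⟨x, hx⟩, hox⟩ := exists_prime_orderOf_dvd_card' p hd
      obtain ⟨e, rfl⟩ := QuotientGroup.mk_surjective x
      obtain ⟨m, hm, hme⟩ := hp e (hker e hx)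
      have h2 : (⟨(e : E ⧸ N), hx⟩ : π₂.ker) ^ m = 1 :=
        Subtype.ext ((QuotientGroup.eq_one_iff _).2 hme)
      have h3 := orderOf_dvd_of_pow_eq_one h2
      rw [hox] at h3
      exact hm h3) (by
      intro n hn g hg
      obtain ⟨g', hg', rfl⟩ := pE_le_map p (QuotientGroup.mk' N)
        (QuotientGroup.mk'_surjective N) hg
      obtain ⟨e, rfl⟩ := QuotientGroup.mk_surjective n
      have h1 := hz e (hker e hn) g' hg'
      have h2 : ((e : E ⧸ N)) * (g' : E ⧸ N) * (e : E ⧸ N)⁻¹ * (g' : E ⧸ N)⁻¹ = 1 :=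
        (QuotientGroup.eq_one_iff _).2 h1
      have h3 : ((e : E ⧸ N)) * (g' : E ⧸ N) = (g' : E ⧸ N) * (e : E ⧸ N) := by
        rw [mul_inv_eq_one, mul_inv_eq_iff_eq_mul] at h2
        exact h2
      exact h3) (cyc_quot _ (QuotientGroup.mk'_surjective N) hcyc) φ hφs hφc hφu
    obtain ⟨Ψ, hs, hc, hcc, hu⟩ := ih (E ⧸ N) (QuotientGroup.mk' N)
      (QuotientGroup.mk'_surjective N) (QuotientGroup.ker_mk' N) Ψ₂ hs₂ hcc₂ hu₂
    refine ⟨Ψ, hs, ?_, hcc, hu⟩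
    rw [← hcomp, MonoidHom.comp_assoc, hc, hc₂]

/-! ### Fields -/

/-- `Pool.Agent.Y140.AW.UnrEP` with the criterion for being unramified. -/
def EPs (κ L₀ W : Type) [Field κ] [Field L₀] [Algebra (RatFunc κ) L₀] [Group W]
    (r : W →* (L₀ ≃ₐ[RatFunc κ] L₀)) : Prop :=
  ∃ (L : Type) (_ : Field L) (_ : Algebra (RatFunc κ) L) (_ : Algebra κ[X] L)
    (_ : IsScalarTower κ[X] (RatFunc κ) L) (_ : Algebra L₀ L) (_ : IsScalarTower (RatFunc κ) L₀ L)
    (_ : FiniteDimensional (RatFunc κ) L) (_ : IsGalois (RatFunc κ) L)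
    (γ : (L ≃ₐ[RatFunc κ] L) ≃* W),
    (∀ (σ : L ≃ₐ[RatFunc κ] L) (a : L₀), σ (algebraMap L₀ L a) = algebraMap L₀ L (r (γ σ) a)) ∧
    ∀ τ : L ≃ₐ[RatFunc κ] L, τ ≠ 1 → ∃ (m : ℕ) (b c : Fin m → L), (∀ i, IsIntegral κ[X] (b i)) ∧
      (∀ i, IsIntegral κ[X] (c i)) ∧ ∑ i, c i * (τ (b i) - b i) = 1

section fields

variable {k Ω : Type} [Field k] [Field Ω] [Algebra (RatFunc k) Ω] [Algebra k[X] Ω]
  [IsScalarTower k[X] (RatFunc k) Ω] [IsSepClosure (RatFunc k) Ω]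

/-- From a field to a homomorphism. -/
theorem hom_of_field (L₀ : Type) [Field L₀] [Algebra (RatFunc k) L₀] [Algebra k[X] L₀]
    [IsScalarTower k[X] (RatFunc k) L₀] [FiniteDimensional (RatFunc k) L₀]
    [IsGalois (RatFunc k) L₀] (j : L₀ →ₐ[RatFunc k] Ω)
    (hU : ∀ τ : L₀ ≃ₐ[RatFunc k] L₀, τ ≠ 1 → ∃ (m : ℕ) (b c : Fin m → L₀),
      (∀ i, IsIntegral k[X] (b i)) ∧ (∀ i, IsIntegral k[X] (c i)) ∧
        ∑ i, c i * (τ (b i) - b i) = 1) :
    ∃ φ : (Ω ≃ₐ[RatFunc k] Ω) →* (L₀ ≃ₐ[RatFunc k] L₀), Function.Surjective φ ∧ ContT φ ∧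
      UnrT φ ∧ ∀ (σ : Ω ≃ₐ[RatFunc k] Ω) (x : L₀), σ (j x) = j (φ σ x) := by
  classical
  letI : Algebra L₀ Ω := j.toRingHom.toAlgebra
  haveI : IsScalarTower (RatFunc k) L₀ Ω := IsScalarTower.of_algebraMap_eq fun x =>
    (j.commutes x).symm
  haveI : IsGalois (RatFunc k) Ω := IsSepClosure.isGalois
  have hj : ∀ x, algebraMap L₀ Ω x = j x := fun _ => rfl
  let φ : (Ω ≃ₐ[RatFunc k] Ω) →* (L₀ ≃ₐ[RatFunc k] L₀) := AlgEquiv.restrictNormalHom L₀
  have hφ : ∀ (σ : Ω ≃ₐ[RatFunc k] Ω) (x : L₀), σ (j x) = j (φ σ x) := by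
    intro σ x
    rw [← hj, ← hj]
    exact (AlgEquiv.restrictNormal_commutes σ L₀ x).symm
  refine ⟨φ, AlgEquiv.restrictNormalHom_surjective Ω, ?_, ?_, hφ⟩
  · let b := Module.finBasis (RatFunc k) L₀
    refine ⟨Finset.univ.image fun i => j (b i), fun σ hσ => ?_⟩
    have h1 : ((φ σ : L₀ ≃ₐ[RatFunc k] L₀) : L₀ →ₗ[RatFunc k] L₀) = LinearMap.id := by
      apply b.ext
      intro i
      apply j.toRingHom.injective
      change j (φ σ (b i)) = j (b i)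
      rw [← hφ]
      exact hσ _ (Finset.mem_image_of_mem _ (Finset.mem_univ i))
    ext x
    exact DFunLike.congr_fun h1 x
  · intro Q hQ σ hσ
    by_contra hne
    obtain ⟨m, b, c, hb, hc, hs⟩ := hU (φ σ) hne
    haveI : IsScalarTower k[X] (RatFunc k) L₀ := inferInstance
    let jX : L₀ →ₐ[k[X]] Ω := j.restrictScalars k[X]
    have hjb : ∀ x, IsIntegral k[X] x → IsIntegral k[X] (j x) := fun x hx => hx.map jX
    apply hQ.ne_top
    rw [Ideal.eq_top_iff_one]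
    have hb' : ∀ i, IsIntegral k[X] (σ (j (b i))) := fun i =>
      (hjb _ (hb i)).map (σ.toAlgHom.restrictScalars k[X])
    have h1 : (∑ i, (⟨j (c i), hjb _ (hc i)⟩ : integralClosure k[X] Ω) *
        ((⟨σ (j (b i)), hb' i⟩ : integralClosure k[X] Ω) - ⟨j (b i), hjb _ (hb i)⟩)) = 1 := by
      apply Subtype.ext
      rw [AddSubmonoidClass.coe_finsetSum]
      have h2 := congrArg j hs
      rw [map_one, map_sum] at h2
      refine Eq.trans (Finset.sum_congr rfl fun i _ => ?_) h2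
      rw [map_mul, map_sub, ← hφ]
      rfl
    rw [← h1]
    exact Q.sum_mem fun i _ => Q.mul_mem_left _ (hσ _ _ rfl)

/-- From a homomorphism to a field. -/
theorem field_of_hom (hSURJ : St_SURJ) (L₀ : Type) [Field L₀] [Algebra (RatFunc k) L₀]
    (j : L₀ →ₐ[RatFunc k] Ω) (W : Type) [Group W] (r : W →* (L₀ ≃ₐ[RatFunc k] L₀))
    (Ψ : (Ω ≃ₐ[RatFunc k] Ω) →* W) (hs : Function.Surjective Ψ) (hc : ContT Ψ) (hu : UnrT Ψ)
    (hj : ∀ (σ : Ω ≃ₐ[RatFunc k] Ω) (x : L₀), σ (j x) = j (r (Ψ σ) x)) : EPs k L₀ W r := by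
  classical
  haveI : IsGalois (RatFunc k) Ω := IsSepClosure.isGalois
  obtain ⟨M, hfd, hgal, hM⟩ := lft_gal Ψ hc
  have hjM : ∀ x, j x ∈ M := by
    intro x
    have h1 : IntermediateField.fixedField M.fixingSubgroup = M :=
      InfiniteGalois.fixedField_fixingSubgroup M
    rw [← h1, IntermediateField.mem_fixedField_iff]
    intro σ hσ
    have h2 : Ψ σ = 1 := (hM σ).2 fun z =>
      (IntermediateField.mem_fixingSubgroup_iff M σ).1 hσ z z.2
    rw [hj, h2, map_one]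
    rfl
  let jM : L₀ →ₐ[RatFunc k] M := AlgHom.codRestrict j M.toSubalgebra hjM
  letI : Algebra L₀ M := jM.toRingHom.toAlgebra
  haveI hT : IsScalarTower (RatFunc k) L₀ M := IsScalarTower.of_algebraMap_eq fun x =>
    (jM.commutes x).symm
  have hjM' : ∀ x : L₀, ((algebraMap L₀ M x : M) : Ω) = j x := fun _ => rfl
  let ρ : (Ω ≃ₐ[RatFunc k] Ω) →* (M ≃ₐ[RatFunc k] M) := AlgEquiv.restrictNormalHom M
  have hρs : Function.Surjective ρ := AlgEquiv.restrictNormalHom_surjective Ω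
  have hρ : ∀ (σ : Ω ≃ₐ[RatFunc k] Ω) (z : M), ((ρ σ z : M) : Ω) = σ z := fun σ z =>
    AlgEquiv.restrictNormal_commutes σ M z
  have hρ1 : ∀ σ, ρ σ = 1 ↔ Ψ σ = 1 := by
    intro σ
    rw [hM]
    constructor
    · intro h z
      rw [← hρ, h]
      rfl
    · intro h
      ext z
      rw [hρ, h z]
      rfl
  let γ₀ : (M ≃ₐ[RatFunc k] M) →* W := ρ.liftOfSurjective hρs
    ⟨Ψ, fun σ hσ => (hρ1 σ).1 hσ⟩
  have hγ₀ : ∀ σ, γ₀ (ρ σ) = Ψ σ := fun σ => MonoidHom.liftOfRightInverse_comp_apply _ _ _ _ σ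
  have hγb : Function.Bijective γ₀ := by
    constructor
    · rw [injective_iff_map_eq_one]
      intro τ hτ
      obtain ⟨σ, rfl⟩ := hρs τ
      rw [hγ₀] at hτ
      exact (hρ1 σ).2 hτ
    · intro w
      obtain ⟨σ, rfl⟩ := hs w
      exact ⟨ρ σ, hγ₀ σ⟩
  refine ⟨M, inferInstance, inferInstance, inferInstance, inferInstance, inferInstance, hT, hfd,
    hgal, MulEquiv.ofBijective γ₀ hγb, ?_, lft_unr hSURJ Ψ hu M fun σ h => (hM σ).1 h⟩
  intro τ a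
  obtain ⟨σ, rfl⟩ := hρs τ
  apply Subtype.ext
  rw [hρ, hjM', hjM', hj]
  change j (r (Ψ σ) a) = j (r (γ₀ (ρ σ)) a)
  rw [hγ₀]

end fields

end Pool.Agent.H17Z
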