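import Pool.Agent.H17Z.Stm
import Pool.Agent.H552R3.Tsen.C1

set_option autoImplicit false

/-! Piece NRM of project Z17 (helper55), after `Pool/Agent/Y903/PS/TSN.lean`. -/

open Polynomial

namespace Pool.Agent.H17Z

namespace NrmPiece

/-- the norm form minus `z T ^ n` -/
noncomputable def nf {R : Type} [Field R] {n : ℕ} (M : Fin n → Matrix (Fin n) (Fin n) R) (z : R) :
    MvPolynomial (Option (Fin n)) R :=
  (∑ i, (M i).map (fun c => MvPolynomial.C c * MvPolynomial.X (some i)) :
      Matrix (Fin n) (Fin n) (MvPolynomial (Option (Fin n)) R)).det -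
    MvPolynomial.C z * MvPolynomial.X none ^ n

lemma nf_hom {R : Type} [Field R] {n : ℕ} (M : Fin n → Matrix (Fin n) (Fin n) R) (z : R) :
    (nf M z).IsHomogeneous n := by
  unfold nf
  refine MvPolynomial.IsHomogeneous.sub ?_ ?_
  · rw [Matrix.det_apply]
    refine MvPolynomial.IsHomogeneous.sum _ _ _ fun σ _ => ?_
    have h : (∏ i, (∑ i, (M i).map (fun c => MvPolynomial.C c * MvPolynomial.X (some i)) :
      Matrix (Fin n) (Fin n) (MvPolynomial (Option (Fin n)) R)) (σ i) i).IsHomogeneous
        (∑ _i : Fin n, 1) := by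
      refine MvPolynomial.IsHomogeneous.prod _ _ _ fun i _ => ?_
      rw [Matrix.sum_apply]
      refine MvPolynomial.IsHomogeneous.sum _ _ _ fun j _ => ?_
      rw [Matrix.map_apply]
      have := (MvPolynomial.isHomogeneous_C (Option (Fin n)) (M j (σ i) i)).mul
        (MvPolynomial.isHomogeneous_X R (some j))
      rwa [zero_add] at this
    rw [Finset.sum_const, Finset.card_univ, Fintype.card_fin, smul_eq_mul, mul_one] at h
    rcases Int.units_eq_one_or (Equiv.Perm.sign σ) with hs | hs
    · rw [hs, one_smul]; exact h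
    · rw [hs, Units.neg_smul, one_smul]; exact h.neg
  · have := (MvPolynomial.isHomogeneous_C (Option (Fin n)) z).mul
      ((MvPolynomial.isHomogeneous_X R (none : Option (Fin n))).pow n)
    rwa [zero_add, one_mul] at this

lemma nf_eval {R : Type} [Field R] {n : ℕ} (M : Fin n → Matrix (Fin n) (Fin n) R) (z : R)
    (a : Option (Fin n) → R) :
    MvPolynomial.eval a (nf M z) = (∑ i, a (some i) • M i).det - z * a none ^ n := by
  unfold nf
  rw [map_sub, map_mul, map_pow, MvPolynomial.eval_C, MvPolynomial.eval_X, RingHom.map_det]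
  congr 2
  ext i j
  rw [RingHom.mapMatrix_apply, Matrix.map_apply, Matrix.sum_apply, Matrix.sum_apply, map_sum]
  refine Finset.sum_congr rfl fun k _ => ?_
  rw [Matrix.map_apply, map_mul, MvPolynomial.eval_C, MvPolynomial.eval_X, Matrix.smul_apply,
    smul_eq_mul, mul_comm]

theorem core {κ R N : Type} [Field κ] [IsAlgClosed κ] [Field R] [Field N] [Algebra κ R]
    [Algebra R N] [FiniteDimensional R N] {J : Type} [Fintype J] (ω : J → R) (x : R)
    (hx : Transcendental κ x)
    (hspan : ∀ z : R, ∃ h : Polynomial κ, h ≠ 0 ∧ ∃ p : J → Polynomial κ,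
      Polynomial.aeval x h * z = ∑ j, Polynomial.aeval x (p j) * ω j)
    (hlin : ∀ p : J → Polynomial κ,
      ∑ j, Polynomial.aeval x (p j) * ω j = 0 → ∀ j, p j = 0) (z : R) :
    ∃ φ : N, Algebra.norm R φ = z := by
  let n := Module.finrank R N
  have hn : 0 < n := Module.finrank_pos
  let b := Module.finBasis R N
  let M : Fin n → Matrix (Fin n) (Fin n) R := fun i => Algebra.leftMulMatrix b (b i)
  have hdeg : (nf M z).totalDegree ≤ n := (nf_hom M z).totalDegree_le
  have h0 : MvPolynomial.eval 0 (nf M z) = 0 := by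
    rw [nf_eval]
    have : Nonempty (Fin n) := ⟨⟨0, hn⟩⟩
    simp only [Pi.zero_apply, zero_smul, Finset.sum_const_zero, zero_pow hn.ne', mul_zero,
      sub_zero]
    exact Matrix.det_zero
  obtain ⟨a, ha, ha0⟩ := Pool.Agent.H552R3.Tsen.exists_zero x ω hx
    hspan hlin (nf M z) n hdeg h0 (by rw [Fintype.card_option, Fintype.card_fin]; omega)
  rw [nf_eval, sub_eq_zero] at ha0
  let β : N := ∑ i, a (some i) • b i
  have hβ : Algebra.norm R β = z * a none ^ n := by
    rw [← ha0, Algebra.norm_eq_matrix_det b]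
    congr 1
    rw [map_sum]
    refine Finset.sum_congr rfl fun i _ => ?_
    rw [map_smul]
  have hT : a none ≠ 0 := by
    intro hT
    rw [hT, zero_pow hn.ne', mul_zero, Algebra.norm_eq_zero_iff] at hβ
    apply ha
    funext i
    rcases i with _ | i
    · exact hT
    · exact (Fintype.linearIndependent_iff.1 b.linearIndependent) (fun i => a (some i)) hβ i
  refine ⟨algebraMap R N (a none)⁻¹ * β, ?_⟩
  rw [map_mul, Algebra.norm_algebraMap, hβ]
  change (a none)⁻¹ ^ n * (z * a none ^ n) = z
  rw [mul_comm z, ← mul_assoc, ← mul_pow, inv_mul_cancel₀ hT, one_pow, one_mul]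

end NrmPiece

open NrmPiece

theorem t_NRM : St_NRM := by
  intro C R N _ _ _ _ _ _ _ _ z
  letI : Algebra C R := ((algebraMap (RatFunc C) R).comp (algebraMap C (RatFunc C))).toAlgebra
  haveI : IsScalarTower C (RatFunc C) R := IsScalarTower.of_algebraMap_eq fun _ => rfl
  let x : R := algebraMap (RatFunc C) R RatFunc.X
  have hx : Transcendental C x :=
    (transcendental_algebraMap_iff (algebraMap (RatFunc C) R).injective).2 RatFunc.transcendental_X
  have hae : ∀ p : C[X], aeval x p = algebraMap (RatFunc C) R (algebraMap C[X] (RatFunc C) p) := by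
    intro p
    have h1 : aeval x p = algebraMap (RatFunc C) R (aeval (RatFunc.X : RatFunc C) p) :=
      aeval_algebraMap_apply R (RatFunc.X : RatFunc C) p
    have h2 : aeval (RatFunc.X : RatFunc C) p = algebraMap C[X] (RatFunc C) p := by
      rw [← RatFunc.algebraMap_X, aeval_algebraMap_apply, aeval_X_left_apply]
    rw [h1, h2]
  let b := Module.finBasis (RatFunc C) R
  refine core (κ := C) (fun j => b j) x hx ?_ ?_ z
  · intro z
    obtain ⟨h, hh⟩ := IsLocalization.exist_integer_multiples_of_finite (nonZeroDivisors C[X])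
      (fun j => b.repr z j)
    choose p hp using hh
    refine ⟨h, nonZeroDivisors.ne_zero h.2, p, ?_⟩
    conv_lhs => rw [← b.sum_repr z]
    rw [Finset.mul_sum]
    refine Finset.sum_congr rfl fun j _ => ?_
    rw [hae, hae, hp j, Algebra.smul_def, Algebra.smul_def, map_mul]
    ring
  · intro p hp j
    have h1 : ∑ j, (algebraMap C[X] (RatFunc C) (p j)) • b j = 0 := by
      rw [← hp]
      refine Finset.sum_congr rfl fun j _ => ?_
      rw [hae, Algebra.smul_def]
    have h2 := Fintype.linearIndependent_iff.1 b.linearIndependent _ h1 j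
    exact (IsFractionRing.injective C[X] (RatFunc C)) (by rw [h2, map_zero])

end Pool.Agent.H17Z
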