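import Pool.Agent.H17Z.Stm2

/-!
# Project Z17, piece PAR
-/

set_option autoImplicit false
set_option linter.all false

namespace Pool.Agent.H17Z

open Polynomial

namespace PAR

variable {p : ℕ} [hp : Fact p.Prime] {κ Ω : Type} [Field κ] [CharP κ p] [Field Ω]
    [Algebra (RatFunc κ) Ω] [Algebra κ[X] Ω] [IsScalarTower κ[X] (RatFunc κ) Ω]
    {H : Type} [Group H] {r : ℕ}
    (ρ : H →* Matrix (Fin r) (Fin r) (ZMod p)) (φ : (Ω ≃ₐ[RatFunc κ] Ω) →* H)

theorem sig_smul (σ : Ω ≃ₐ[RatFunc κ] Ω) (c : κ[X]) (x : Ω) : σ (c • x) = c • σ x := by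
  rw [← algebraMap_smul (RatFunc κ) c x, map_smul, algebraMap_smul]

theorem tw_add (σ : Ω ≃ₐ[RatFunc κ] Ω) (x y : Fin r → Ω) :
    tw ρ φ σ (x + y) = tw ρ φ σ x + tw ρ φ σ y := by
  funext i
  simp only [tw, Pi.add_apply, map_add, mul_add, Finset.sum_add_distrib]

theorem tw_sub (σ : Ω ≃ₐ[RatFunc κ] Ω) (x y : Fin r → Ω) :
    tw ρ φ σ (x - y) = tw ρ φ σ x - tw ρ φ σ y := by
  funext i
  simp only [tw, Pi.sub_apply, map_sub, mul_sub, Finset.sum_sub_distrib]

theorem tw_zero (σ : Ω ≃ₐ[RatFunc κ] Ω) : tw ρ φ σ (0 : Fin r → Ω) = 0 := by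
  funext i
  simp [tw]

theorem tw_smul (σ : Ω ≃ₐ[RatFunc κ] Ω) (c : κ[X]) (x : Fin r → Ω) :
    tw ρ φ σ (c • x) = c • tw ρ φ σ x := by
  funext i
  simp only [tw, Pi.smul_apply, Finset.smul_sum]
  refine Finset.sum_congr rfl fun j _ => ?_
  rw [sig_smul, mul_smul_comm]

theorem charΩ (p : ℕ) (κ Ω : Type) [Field κ] [CharP κ p] [Field Ω]
    [Algebra (RatFunc κ) Ω] : CharP Ω p := by
  haveI : CharP (RatFunc κ) p := charP_of_injective_algebraMap (algebraMap κ (RatFunc κ)).injective p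
  exact charP_of_injective_algebraMap (algebraMap (RatFunc κ) Ω).injective p

/-- the operator commutes with the action -/
theorem tw_wp (σ : Ω ≃ₐ[RatFunc κ] Ω) (x : Fin r → Ω) (i : Fin r) :
    (tw ρ φ σ x i) ^ p - tw ρ φ σ x i = tw ρ φ σ (fun i => x i ^ p - x i) i := by
  haveI := charΩ p κ Ω
  have h1 : (tw ρ φ σ x i) ^ p = ∑ j, ((ρ (φ σ) i j).val : Ω) * σ (x j) ^ p := by
    have h2 : (tw ρ φ σ x i) ^ p = frobenius Ω p (tw ρ φ σ x i) := (frobenius_def p _).symm
    rw [h2]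
    unfold tw
    rw [map_sum]
    refine Finset.sum_congr rfl fun j _ => ?_
    rw [map_mul, map_natCast, frobenius_def]
  rw [h1]
  unfold tw
  rw [← Finset.sum_sub_distrib]
  refine Finset.sum_congr rfl fun j _ => ?_
  rw [map_sub, map_pow, mul_sub]

end PAR

open PAR in
theorem t_PAR : St_CNT → St_MNZ → St_PAR := by
  classical
  intro hcnt hmnz p _ κ Ω _ _ _ _ _ _ _ _ H _ _ r hr ρ φ hφ hc b hb
  haveI := charΩ p κ Ω
  haveI : IsGalois (RatFunc κ) Ω := IsSepClosure.isGalois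
  by_contra hcon
  push Not at hcon
  let L : IntermediateField (RatFunc κ) Ω := IntermediateField.fixedField φ.ker
  have hL : ∀ x : Ω, x ∈ L ↔ ∀ σ : Ω ≃ₐ[RatFunc κ] Ω, φ σ = 1 → σ x = x := by
    intro x
    rw [IntermediateField.mem_fixedField_iff]
    exact Iff.rfl
  haveI hfd : FiniteDimensional (RatFunc κ) L := by
    obtain ⟨S, hS⟩ := hc
    haveI : FiniteDimensional (RatFunc κ) (IntermediateField.adjoin (RatFunc κ) (S : Set Ω)) :=
      IntermediateField.finiteDimensional_adjoin fun x _ => Algebra.IsIntegral.isIntegral x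
    have hle : L ≤ IntermediateField.adjoin (RatFunc κ) (S : Set Ω) := by
      intro x hx
      rw [← InfiniteGalois.fixedField_fixingSubgroup
        (IntermediateField.adjoin (RatFunc κ) (S : Set Ω)), IntermediateField.mem_fixedField_iff]
      intro σ hσ
      refine (hL x).1 hx σ (hS σ fun y hy => ?_)
      exact (IntermediateField.mem_fixingSubgroup_iff _ _).1 hσ y
        (IntermediateField.subset_adjoin _ _ hy)
    exact Module.Finite.of_injective (IntermediateField.inclusion hle).toLinearMap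
      (IntermediateField.inclusion hle).injective
  haveI : Algebra.IsSeparable (RatFunc κ) L := inferInstance
  haveI : IsScalarTower κ[X] L Ω := IsScalarTower.of_algebraMap_eq fun _ => rfl
  -- elements
  have hval : ∀ y : integralClosure κ[X] L, InB φ ((y : L) : Ω) := by
    intro y
    refine ⟨?_, fun σ hσ => (hL _).1 (y : L).2 σ hσ⟩
    have h1 : IsIntegral κ[X] (algebraMap L Ω (y : L)) := y.2.algebraMap
    exact h1
  have hlift : ∀ x : Ω, InB φ x → ∃ y : integralClosure κ[X] L, ((y : L) : Ω) = x := by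
    rintro x ⟨h1, h2⟩
    have hx : x ∈ L := (hL x).2 h2
    have h3 : IsIntegral κ[X] (algebraMap L Ω ⟨x, hx⟩) := h1
    have h4 : IsIntegral κ[X] (⟨x, hx⟩ : L) :=
      (isIntegral_algebraMap_iff (algebraMap L Ω).injective).1 h3
    exact ⟨⟨⟨x, hx⟩, h4⟩, rfl⟩
  let v : (Fin r → integralClosure κ[X] L) → Fin r → Ω := fun w i => ((w i : L) : Ω)
  have hv0 : v 0 = 0 := rfl
  have hvadd : ∀ x y, v (x + y) = v x + v y := fun x y => rfl
  have hvsub : ∀ x y, v (x - y) = v x - v y := fun x y => rfl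
  have hvsmul : ∀ (c : κ[X]) x, v (c • x) = c • v x := fun c x => rfl
  have hvinj : Function.Injective v := by
    intro x y hxy
    funext i
    apply Subtype.ext
    apply Subtype.ext
    exact congrFun hxy i
  have hvw : ∀ w : Fin r → integralClosure κ[X] L,
      v (fun i => w i ^ p - w i) = fun i => v w i ^ p - v w i := fun w => rfl
  let M : Submodule κ[X] (Fin r → integralClosure κ[X] L) :=
    { carrier := {m | ∀ σ, tw ρ φ σ (v m) = v m}
      add_mem' := fun {x y} hx hy σ => by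
        rw [hvadd, tw_add, hx σ, hy σ]
      zero_mem' := fun σ => by
        rw [hv0, tw_zero]
      smul_mem' := fun c x hx σ => by
        rw [hvsmul, tw_smul, hx σ] }
  have hM : ∀ m, m ∈ M ↔ ∀ σ, tw ρ φ σ (v m) = v m := fun m => Iff.rfl
  have hlv : ∀ x : Fin r → Ω, (∀ i, InB φ (x i)) → ∃ y, v y = x := by
    intro x hx
    choose y hy using fun i => hlift (x i) (hx i)
    exact ⟨y, funext hy⟩
  have hM0 : M ≠ ⊥ := by
    obtain ⟨b', h1, h2, h3⟩ := hmnz p κ Ω H r hr ρ φ hφ hc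
    obtain ⟨y, hy⟩ := hlv b' h2
    intro h
    have h4 : y ∈ M := by
      rw [hM, hy]
      exact h3
    rw [h, Submodule.mem_bot] at h4
    apply h1
    rw [← hy, h4, hv0]
  -- a section
  choose s hs using hφ
  have htw : ∀ (σ : Ω ≃ₐ[RatFunc κ] Ω) (w : Fin r → integralClosure κ[X] L),
      tw ρ φ σ (v w) = tw ρ φ (s (φ σ)) (v w) := by
    intro σ w
    funext i
    unfold tw
    refine Finset.sum_congr rfl fun j _ => ?_
    rw [hs (φ σ)]
    congr 1
    have h1 := (hval (w j)).2 ((s (φ σ))⁻¹ * σ) (by rw [map_mul, map_inv, hs, inv_mul_cancel])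
    have h2 : s (φ σ) (((s (φ σ))⁻¹ * σ) (v w j)) = s (φ σ) (v w j) := congrArg _ h1
    rw [← AlgEquiv.mul_apply, mul_inv_cancel_left] at h2
    exact h2
  let e : (Fin r → integralClosure κ[X] L) → H → Fin r → Ω := fun w h => tw ρ φ (s h) (v w) - v w
  let W : Set (Fin r → integralClosure κ[X] L) := {w | (fun i => w i ^ p - w i) ∈ M}
  obtain ⟨T, hTW, hT⟩ := Set.exists_subset_bijOn W e
  have hfinZ : {z : Ω | z ^ p - z = 0}.Finite := by
    have h1 : (X ^ p - X : Polynomial Ω) ≠ 0 := by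
      exact FiniteField.X_pow_card_sub_X_ne_zero Ω (Fact.out : p.Prime).one_lt
    refine ((X ^ p - X : Polynomial Ω).roots.toFinset.finite_toSet).subset ?_
    intro z hz
    rw [Finset.mem_coe, Multiset.mem_toFinset, mem_roots h1]
    simpa [IsRoot.def] using hz
  have hTfin : T.Finite := by
    rw [hT.finite_iff_finite]
    have h1 : (Set.pi (Set.univ : Set H) (fun _ => Set.pi (Set.univ : Set (Fin r)) (fun _ =>
        {z : Ω | z ^ p - z = 0}))).Finite :=
      Set.Finite.pi fun _ => Set.Finite.pi fun _ => hfinZ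
    refine h1.subset ?_
    rintro _ ⟨w, hw, rfl⟩ h _ i _
    show (tw ρ φ (s h) (v w) i - v w i) ^ p - (tw ρ φ (s h) (v w) i - v w i) = 0
    have h2 := tw_wp ρ φ (s h) (v w) i
    rw [← hvw, (hM _).1 hw (s h)] at h2
    have h3 : v (fun i => w i ^ p - w i) i = v w i ^ p - v w i := rfl
    rw [h3] at h2
    rw [sub_pow_char]
    linear_combination h2
  obtain ⟨m, hm, hmw⟩ := hcnt p κ L r M hM0 T hTfin (by
    intro w hw
    have h1 : e w ∈ e '' W := ⟨w, hw, rfl⟩
    rw [← hT.image_eq] at h1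
    obtain ⟨t, ht, hte⟩ := h1
    refine ⟨t, ht, ?_⟩
    rw [hM]
    intro σ
    have h2 := congrFun hte (φ σ)
    have h3 : tw ρ φ (s (φ σ)) (v t) - v t = tw ρ φ (s (φ σ)) (v w) - v w := h2
    rw [hvsub, tw_sub, htw σ w, htw σ t]
    have h4 : tw ρ φ (s (φ σ)) (v t) = tw ρ φ (s (φ σ)) (v w) - v w + v t :=
      eq_add_of_sub_eq h3
    rw [h4]
    abel)
  obtain ⟨β₀, h1, h2⟩ := hcon 0 (fun i => ⟨isIntegral_zero, fun σ _ => map_zero σ⟩)
    (fun σ => tw_zero ρ φ σ)
  obtain ⟨β₁, h3, h4⟩ := hcon (v m) (fun i => hval (m i)) ((hM m).1 hm)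
  obtain ⟨y₀, hy₀⟩ := hlv β₀ h2
  obtain ⟨y₁, hy₁⟩ := hlv β₁ h4
  apply hmw (y₁ - y₀)
  apply hvinj
  rw [hvw]
  funext i
  show (v (y₁ - y₀) i) ^ p - v (y₁ - y₀) i = v m i
  rw [hvsub, hy₀, hy₁, Pi.sub_apply, sub_pow_char]
  have h5 := h1 i
  have h6 := h3 i
  rw [Pi.zero_apply] at h5
  linear_combination h6 - h5

end Pool.Agent.H17Z
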