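import Pool.Agent.H17Z.Stm2

set_option autoImplicit false

namespace Pool.Agent.H17Z

namespace PINaux

/-- A minimal normal subgroup which is a `p`-group is elementary abelian. -/
theorem elem {p : ℕ} [Fact p.Prime] {E : Type} [Group E] [Finite E] (M : Subgroup E) (hM : M.Normal)
    (hne : M ≠ ⊥) (hp : IsPGroup p M)
    (hmin : ∀ M' : Subgroup E, M'.Normal → M' ≤ M → M' = ⊥ ∨ M' = M) :
    (∀ x ∈ M, ∀ y ∈ M, x * y = y * x) ∧ ∀ x ∈ M, x ^ p = 1 := by
  have hnt : Nontrivial M := (Subgroup.nontrivial_iff_ne_bot M).2 hne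
  have hcomm : ⁅M, M⁆ = ⊥ := by
    have hle : ⁅M, M⁆ ≤ M := Subgroup.commutator_le_right M M
    rcases hmin ⁅M, M⁆ inferInstance hle with h | h
    · exact h
    · exfalso
      have hnil : Group.IsNilpotent M := hp.isNilpotent
      have hlt := Group.IsSolvable.commutator_lt_top_of_nontrivial M
      apply hlt.ne
      rw [commutator_def]
      apply Subgroup.map_injective (Subgroup.subtype_injective M)
      rw [Subgroup.map_commutator, ← MonoidHom.range_eq_map, Subgroup.range_subtype]
      exact h
  have hc : ∀ x ∈ M, ∀ y ∈ M, x * y = y * x := by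
    intro x hx y hy
    have h1 := (Subgroup.commutator_eq_bot_iff_le_centralizer.1 hcomm) hx
    exact ((Subgroup.mem_centralizer_iff.1 h1) y hy).symm
  refine ⟨hc, ?_⟩
  let P : Subgroup E :=
    { carrier := {x | x ∈ M ∧ x ^ p = 1}
      one_mem' := ⟨M.one_mem, one_pow p⟩
      mul_mem' := by
        rintro x y ⟨hx, hxp⟩ ⟨hy, hyp⟩
        refine ⟨M.mul_mem hx hy, ?_⟩
        rw [(show Commute x y from hc x hx y hy).mul_pow, hxp, hyp, one_mul]
      inv_mem' := by
        rintro x ⟨hx, hxp⟩
        refine ⟨M.inv_mem hx, ?_⟩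
        rw [inv_pow, hxp, inv_one] }
  have hPn : P.Normal := by
    constructor
    rintro x ⟨hx, hxp⟩ g
    refine ⟨hM.conj_mem x hx g, ?_⟩
    rw [conj_pow, hxp, mul_one, mul_inv_cancel]
  have hPM : P ≤ M := fun x hx => hx.1
  rcases hmin P hPn hPM with h | h
  · exfalso
    have hdvd : p ∣ Nat.card M := by
      obtain ⟨n, hn⟩ := hp.exists_card_eq
      rcases Nat.eq_zero_or_pos n with h0 | h0
      · rw [h0, pow_zero] at hn
        have := Finite.one_lt_card (α := M)
        omega
      · rw [hn]
        exact dvd_pow_self p (by omega)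
    obtain ⟨x, hx⟩ := exists_prime_orderOf_dvd_card' p hdvd
    have h2 : (x : E) ∈ P := by
      refine ⟨x.2, ?_⟩
      have := pow_orderOf_eq_one x
      rw [hx] at this
      exact_mod_cast congrArg Subtype.val this
    rw [h, Subgroup.mem_bot] at h2
    have h3 : x = 1 := Subtype.ext h2
    rw [h3, orderOf_one] at hx
    exact (Fact.out : p.Prime).one_lt.ne hx
  · intro x hx
    rw [← h] at hx
    exact hx.2

end PINaux

open PINaux in
theorem t_PIN : St_PIN := by
  intro p hpp A _ Good h1 h2
  have main : ∀ n : ℕ, ∀ (E H : Type) [Group E] [Finite E] [Group H] (π : E →* H),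
      Function.Surjective π → IsPGroup p π.ker → Nat.card π.ker = n →
      ∀ f : A →* H, Good H f → ∃ g : A →* E, π.comp g = f ∧ Good E g := by
    intro n
    induction n using Nat.strong_induction_on with
    | _ n ih =>
    intro E H _ _ _ π hπ hker hn f hf
    by_cases hbot : π.ker = ⊥
    · have hinj : Function.Injective π := (MonoidHom.ker_eq_bot_iff π).1 hbot
      let e := MulEquiv.ofBijective π ⟨hinj, hπ⟩
      refine ⟨e.symm.toMonoidHom.comp f, ?_, h1 H E f e.symm.toMonoidHom e.symm.surjective hf⟩
      ext a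
      exact e.apply_symm_apply (f a)
    · obtain ⟨M, hM⟩ := (Set.toFinite {M : Subgroup E | M.Normal ∧ M ≠ ⊥ ∧ M ≤ π.ker}).exists_minimal
        ⟨π.ker, inferInstance, hbot, le_rfl⟩
      obtain ⟨hMn, hMne, hMk⟩ := hM.1
      have hmin : ∀ M' : Subgroup E, M'.Normal → M' ≤ M → M' = ⊥ ∨ M' = M := by
        intro M' hn' hle
        by_cases h0 : M' = ⊥
        · exact Or.inl h0
        · exact Or.inr (le_antisymm hle (hM.2 ⟨hn', h0, hle.trans hMk⟩ hle))
      have hMp : IsPGroup p M := hker.to_le hMk
      obtain ⟨hc, he⟩ := elem M hMn hMne hMp hmin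
      -- the quotient
      let π' : E ⧸ M →* H := QuotientGroup.lift M π hMk
      have hπ' : Function.Surjective π' := by
        intro h
        obtain ⟨x, hx⟩ := hπ h
        exact ⟨QuotientGroup.mk x, by rw [← hx]; rfl⟩
      have hcomp : π'.comp (QuotientGroup.mk' M) = π := by
        ext x; rfl
      have hkmap : π'.ker = π.ker.map (QuotientGroup.mk' M) := by
        ext y
        constructor
        · intro hy
          obtain ⟨x, rfl⟩ := QuotientGroup.mk'_surjective M y
          refine ⟨x, ?_, rfl⟩
          have h3 : π' (QuotientGroup.mk' M x) = 1 := hy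
          have h4 : π x = 1 := by rw [← hcomp]; exact h3
          exact h4
        · rintro ⟨x, hx, rfl⟩
          show π' (QuotientGroup.mk' M x) = 1
          have h4 : π x = 1 := hx
          rw [← h4, ← hcomp]
          rfl
      have hp' : IsPGroup p π'.ker := by
        rw [hkmap]
        exact hker.map _
      have hcard : Nat.card π'.ker < n := by
        rw [← hn]
        have hmem : ∀ x : π.ker, QuotientGroup.mk' M (x : E) ∈ π'.ker := by
          intro x
          rw [hkmap]
          exact ⟨x, x.2, rfl⟩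
        have i1 : Fintype π.ker := Fintype.ofFinite _
        have i2 : Fintype π'.ker := Fintype.ofFinite _
        rw [Nat.card_eq_fintype_card, Nat.card_eq_fintype_card]
        refine Fintype.card_lt_of_surjective_not_injective
          (fun x : π.ker => (⟨QuotientGroup.mk' M (x : E), hmem x⟩ : π'.ker)) ?_ ?_
        · rintro ⟨y, hy⟩
          rw [hkmap] at hy
          obtain ⟨x, hx, hxy⟩ := hy
          exact ⟨⟨x, hx⟩, Subtype.ext hxy⟩
        · intro hinj
          obtain ⟨⟨x, hx⟩, hx1⟩ := (Subgroup.ne_bot_iff_exists_ne_one.1 hMne)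
          have h5 := @hinj ⟨x, hMk hx⟩ 1 (Subtype.ext (by
            show QuotientGroup.mk' M x = QuotientGroup.mk' M 1
            rw [map_one]
            exact (QuotientGroup.eq_one_iff x).2 hx))
          have h6 : x = 1 := congrArg Subtype.val h5
          exact hx1 (Subtype.ext h6)
      obtain ⟨f', hf'1, hf'2⟩ := ih _ hcard (E ⧸ M) H π' hπ' hp' rfl f hf
      have hk : (QuotientGroup.mk' M).ker = M := QuotientGroup.ker_mk' M
      obtain ⟨g, hg1, hg2⟩ := h2 E (E ⧸ M) (QuotientGroup.mk' M) (QuotientGroup.mk'_surjective M)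
        (by rw [hk]; exact hMne) (by rw [hk]; exact hc) (by rw [hk]; exact he)
        (by rw [hk]; exact hmin) f' hf'2
      refine ⟨g, ?_, hg2⟩
      rw [← hcomp, MonoidHom.comp_assoc, hg1, hf'1]
  intro E H _ _ _ π hπ hker f hf
  exact main _ E H π hπ hker rfl f hf

end Pool.Agent.H17Z
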