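import Pool.Agent.H17Z.Stm2

/-!
# Project Z17, part 2, piece PLF: lifts through an elementary abelian `p`-kernel
-/

set_option autoImplicit false

namespace Pool.Agent.H17Z

open Polynomial

namespace PLF

section field

variable {k Ω : Type} [Field k] [Field Ω] [Algebra (RatFunc k) Ω] [Algebra k[X] Ω]
  [IsScalarTower k[X] (RatFunc k) Ω]

theorem charΩ (k Ω : Type) [Field k] [Field Ω] [Algebra (RatFunc k) Ω] (p : ℕ) [CharP k p] :
    CharP Ω p :=
  charP_of_injective_ringHom (f := (algebraMap (RatFunc k) Ω).comp (algebraMap k (RatFunc k)))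
    (RingHom.injective _) p

/-- the elements of `Ω` with `x ^ p = x` -/
theorem exists_cast (p : ℕ) [Fact p.Prime] (F : Type) [Field F] [CharP F p] (x : F)
    (hx : x ^ p = x) : ∃ w : ZMod p, (ZMod.castHom (dvd_refl p) F) w = x := by
  have h1 : x ∈ (⊥ : Subfield F) := (Subfield.mem_bot_iff_pow_eq_self F p).mpr hx
  rw [← ZMod.fieldRange_castHom_eq_bot p] at h1
  obtain ⟨w, hw⟩ := h1
  exact ⟨w, hw⟩

theorem int_map (σ : Ω ≃ₐ[RatFunc k] Ω) {x : Ω} (hx : IsIntegral k[X] x) :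
    IsIntegral k[X] (σ x) :=
  hx.map (σ.toAlgHom.restrictScalars k[X])

variable {H : Type} [Group H] (φ : (Ω ≃ₐ[RatFunc k] Ω) →* H)

/-- the ring `InB φ` -/
def BB : Subring Ω where
  carrier := {x | InB φ x}
  mul_mem' := fun ha hb => ⟨ha.1.mul hb.1, fun σ hσ => by rw [map_mul, ha.2 σ hσ, hb.2 σ hσ]⟩
  one_mem' := ⟨isIntegral_one, fun σ _ => map_one σ⟩
  add_mem' := fun ha hb => ⟨ha.1.add hb.1, fun σ hσ => by rw [map_add, ha.2 σ hσ, hb.2 σ hσ]⟩
  zero_mem' := ⟨isIntegral_zero, fun σ _ => map_zero σ⟩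
  neg_mem' := fun ha => ⟨ha.1.neg, fun σ hσ => by rw [map_neg, ha.2 σ hσ]⟩

omit [IsScalarTower k[X] (RatFunc k) Ω] in
theorem mem_BB (x : Ω) : x ∈ BB φ ↔ InB φ x := Iff.rfl

theorem BB_map (σ : Ω ≃ₐ[RatFunc k] Ω) {x : Ω} (hx : InB φ x) : InB φ (σ x) := by
  refine ⟨int_map σ hx.1, fun τ hτ => ?_⟩
  have h1 : φ (σ⁻¹ * τ * σ) = 1 := by
    rw [map_mul, map_mul, hτ, mul_one, ← map_mul, inv_mul_cancel, map_one]
  have h2 := hx.2 _ h1
  have h3 : τ * σ = σ * (σ⁻¹ * τ * σ) := by group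
  calc τ (σ x) = (τ * σ) x := rfl
    _ = σ ((σ⁻¹ * τ * σ) x) := by rw [h3]; rfl
    _ = σ x := by rw [h2]

omit [IsScalarTower k[X] (RatFunc k) Ω] in
theorem BB_eq {σ τ : Ω ≃ₐ[RatFunc k] Ω} (h : φ σ = φ τ) {x : Ω} (hx : InB φ x) : σ x = τ x := by
  have h1 : φ (τ⁻¹ * σ) = 1 := by rw [map_mul, map_inv, h, inv_mul_cancel]
  have h2 := hx.2 _ h1
  have h3 : σ = τ * (τ⁻¹ * σ) := by group
  calc σ x = (τ * (τ⁻¹ * σ)) x := by rw [← h3]
    _ = τ ((τ⁻¹ * σ) x) := rfl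
    _ = τ x := by rw [h2]

end field

section twist

variable {k Ω : Type} [Field k] [Field Ω] [Algebra (RatFunc k) Ω]
  {p : ℕ} [Fact p.Prime] [CharP Ω p] {H : Type} [Group H] {r : ℕ}
  (ρ : H →* Matrix (Fin r) (Fin r) (ZMod p)) (φ : (Ω ≃ₐ[RatFunc k] Ω) →* H)

/-- the embedding of the prime field -/
noncomputable def eps (p : ℕ) [Fact p.Prime] (Ω : Type) [Field Ω] [CharP Ω p] : ZMod p →+* Ω :=
  ZMod.castHom (dvd_refl p) Ω

theorem eps_val (w : ZMod p) : ((w.val : ℕ) : Ω) = eps p Ω w := by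
  rw [eps, ZMod.castHom_apply, ZMod.natCast_val]

theorem map_eps (σ : Ω ≃ₐ[RatFunc k] Ω) (w : ZMod p) : σ (eps p Ω w) = eps p Ω w := by
  rw [← eps_val, map_natCast]

theorem eps_pow (w : ZMod p) : eps p Ω w ^ p = eps p Ω w := by
  rw [← map_pow, ZMod.pow_card]

theorem tw_apply (σ : Ω ≃ₐ[RatFunc k] Ω) (b : Fin r → Ω) (i : Fin r) :
    tw ρ φ σ b i = ∑ j, eps p Ω (ρ (φ σ) i j) * σ (b j) := by
  unfold tw
  exact Finset.sum_congr rfl fun j _ => by rw [eps_val]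

theorem tw_add (σ : Ω ≃ₐ[RatFunc k] Ω) (a b : Fin r → Ω) (i : Fin r) :
    tw ρ φ σ (fun i => a i + b i) i = tw ρ φ σ a i + tw ρ φ σ b i := by
  rw [tw_apply, tw_apply, tw_apply, ← Finset.sum_add_distrib]
  exact Finset.sum_congr rfl fun j _ => by rw [map_add, mul_add]

theorem tw_sub (σ : Ω ≃ₐ[RatFunc k] Ω) (a b : Fin r → Ω) (i : Fin r) :
    tw ρ φ σ (fun i => a i - b i) i = tw ρ φ σ a i - tw ρ φ σ b i := by
  rw [tw_apply, tw_apply, tw_apply, ← Finset.sum_sub_distrib]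
  exact Finset.sum_congr rfl fun j _ => by rw [map_sub, mul_sub]

theorem tw_neg (σ : Ω ≃ₐ[RatFunc k] Ω) (a : Fin r → Ω) (i : Fin r) :
    tw ρ φ σ (fun i => - a i) i = - tw ρ φ σ a i := by
  rw [tw_apply, tw_apply, ← Finset.sum_neg_distrib]
  exact Finset.sum_congr rfl fun j _ => by rw [map_neg, mul_neg]

theorem tw_smul (σ : Ω ≃ₐ[RatFunc k] Ω) (x : Ω) (b : Fin r → Ω) (i : Fin r) :
    tw ρ φ σ (fun i => x * b i) i = σ x * tw ρ φ σ b i := by
  rw [tw_apply, tw_apply, Finset.mul_sum]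
  exact Finset.sum_congr rfl fun j _ => by rw [map_mul]; ring

theorem tw_sum {ι : Type*} (s : Finset ι) (σ : Ω ≃ₐ[RatFunc k] Ω) (b : ι → Fin r → Ω)
    (i : Fin r) :
    tw ρ φ σ (fun i => ∑ h ∈ s, b h i) i = ∑ h ∈ s, tw ρ φ σ (b h) i := by
  rw [tw_apply]
  simp_rw [tw_apply]
  rw [Finset.sum_comm]
  exact Finset.sum_congr rfl fun j _ => by rw [map_sum, Finset.mul_sum]

theorem tw_eps (σ : Ω ≃ₐ[RatFunc k] Ω) (v : Fin r → ZMod p) (i : Fin r) :
    tw ρ φ σ (fun i => eps p Ω (v i)) i = eps p Ω ((ρ (φ σ)).mulVec v i) := by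
  rw [tw_apply, Matrix.mulVec, dotProduct, map_sum]
  exact Finset.sum_congr rfl fun j _ => by rw [map_eps, map_mul]

theorem tw_tw (σ τ : Ω ≃ₐ[RatFunc k] Ω) (b : Fin r → Ω) (i : Fin r) :
    tw ρ φ σ (tw ρ φ τ b) i = tw ρ φ (σ * τ) b i := by
  rw [tw_apply, tw_apply]
  simp_rw [tw_apply, map_sum, Finset.mul_sum]
  rw [Finset.sum_comm]
  refine Finset.sum_congr rfl fun l _ => ?_
  rw [map_mul, map_mul, Matrix.mul_apply, map_sum, Finset.sum_mul]
  refine Finset.sum_congr rfl fun j _ => ?_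
  rw [map_mul, map_mul, map_eps, mul_assoc]
  rfl

theorem tw_of_one {σ : Ω ≃ₐ[RatFunc k] Ω} (h : φ σ = 1) (b : Fin r → Ω) (i : Fin r) :
    tw ρ φ σ b i = σ (b i) := by
  rw [tw_apply, h, map_one, Finset.sum_eq_single i]
  · rw [Matrix.one_apply_eq, map_one, one_mul]
  · intro j _ hj
    rw [Matrix.one_apply_ne (Ne.symm hj), map_zero, zero_mul]
  · intro h
    exact absurd (Finset.mem_univ i) h

theorem tw_pow (σ : Ω ≃ₐ[RatFunc k] Ω) (b : Fin r → Ω) (i : Fin r) :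
    tw ρ φ σ (fun i => b i ^ p) i = tw ρ φ σ b i ^ p := by
  rw [tw_apply, tw_apply, sum_pow_char]
  exact Finset.sum_congr rfl fun j _ => by rw [map_pow, mul_pow, eps_pow]

theorem tw_wp (σ : Ω ≃ₐ[RatFunc k] Ω) (b : Fin r → Ω) (i : Fin r) :
    tw ρ φ σ (fun i => b i ^ p - b i) i = tw ρ φ σ b i ^ p - tw ρ φ σ b i := by
  rw [tw_sub, tw_pow]

end twist

end PLF

open PLF

theorem t_PLF : St_PLF := by
  intro p hp k Ω _ _ _ _ _ _ _ H E _ _ _ _ π hπ r ι hι hιker ρ hρ φ hφ hcont hunr htr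
  have : CharP Ω p := charΩ k Ω p
  classical
  -- a section of `π`
  choose s hs using hπ
  -- the cocycle
  have hc : ∀ g h : H, ∃ v : Fin r → ZMod p,
      ι (Multiplicative.ofAdd v) = s g * s h * (s (g * h))⁻¹ := by
    intro g h
    have h1 : s g * s h * (s (g * h))⁻¹ ∈ π.ker := by
      rw [MonoidHom.mem_ker, map_mul, map_mul, map_inv, hs, hs, hs, mul_inv_cancel]
    rw [← hιker] at h1
    obtain ⟨v, hv⟩ := h1
    exact ⟨Multiplicative.toAdd v, hv⟩
  choose c hc using hc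
  have hιadd : ∀ v w : Fin r → ZMod p, ι (Multiplicative.ofAdd (v + w)) =
      ι (Multiplicative.ofAdd v) * ι (Multiplicative.ofAdd w) := fun v w => by
    rw [ofAdd_add, map_mul]
  have hcomm : ∀ v w : Fin r → ZMod p, ι (Multiplicative.ofAdd v) * ι (Multiplicative.ofAdd w) =
      ι (Multiplicative.ofAdd w) * ι (Multiplicative.ofAdd v) := fun v w => by
    rw [← hιadd, ← hιadd, add_comm]
  have hιinj : ∀ v w : Fin r → ZMod p, ι (Multiplicative.ofAdd v) = ι (Multiplicative.ofAdd w) →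
      v = w := fun v w h => Multiplicative.ofAdd.injective (hι h)
  have hmul : ∀ g h : H, s g * s h = ι (Multiplicative.ofAdd (c g h)) * s (g * h) := by
    intro g h
    rw [hc, inv_mul_cancel_right]
  have hconj : ∀ (g : H) (v : Fin r → ZMod p), s g * ι (Multiplicative.ofAdd v) =
      ι (Multiplicative.ofAdd ((ρ g).mulVec v)) * s g := by
    intro g v
    have h1 := hρ (s g) v
    rw [hs] at h1
    rw [← h1, inv_mul_cancel_right]
  have hcoc : ∀ g h j : H, (ρ g).mulVec (c h j) + c g (h * j) = c g h + c (g * h) j := by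
    intro g h j
    apply hιinj
    rw [hιadd, hιadd]
    have h1 : s g * (s h * s j) = ι (Multiplicative.ofAdd ((ρ g).mulVec (c h j))) *
        ι (Multiplicative.ofAdd (c g (h * j))) * s (g * (h * j)) := by
      rw [hmul h j, ← mul_assoc, hconj, mul_assoc, hmul g (h * j), mul_assoc]
    have h2 : s g * s h * s j = ι (Multiplicative.ofAdd (c g h)) *
        ι (Multiplicative.ofAdd (c (g * h) j)) * s (g * h * j) := by
      rw [hmul g h, mul_assoc, hmul (g * h) j, ← mul_assoc]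
    have h3 : s g * (s h * s j) = s g * s h * s j := (mul_assoc _ _ _).symm
    rw [h1, h2, mul_assoc g h j] at h3
    exact mul_right_cancel h3
  -- the partition of unity
  obtain ⟨t, ht, htr⟩ := htr
  choose τ hτ using hφ
  have hsum : ∑ h, τ h t = 1 := htr τ hτ
  set u : H → Ω := fun h => τ h t with hu
  have hub : ∀ h, InB φ (u h) := fun h => BB_map φ (τ h) ht
  have huσ : ∀ (σ : Ω ≃ₐ[RatFunc k] Ω) (h : H), σ (u h) = u (φ σ * h) := by
    intro σ h
    have h1 : φ (σ * τ h) = φ (τ (φ σ * h)) := by rw [map_mul, hτ, hτ]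
    exact BB_eq φ h1 ht
  -- the cochain `a`
  set a : H → Fin r → Ω := fun g i => ∑ j, u (g * j) * eps p Ω (c g j i) with ha
  have hab : ∀ g i, InB φ (a g i) := by
    intro g i
    rw [← mem_BB, ha]
    refine Subring.sum_mem _ fun j _ => Subring.mul_mem _ (hub _) ?_
    rw [← eps_val]
    exact natCast_mem _ _
  have htwa : ∀ (σ : Ω ≃ₐ[RatFunc k] Ω) (h : H) (i : Fin r), tw ρ φ σ (a h) i =
      ∑ j, u (φ σ * h * j) * eps p Ω ((ρ (φ σ)).mulVec (c h j) i) := by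
    intro σ h i
    rw [ha]
    show tw ρ φ σ (fun i => ∑ j, u (h * j) * eps p Ω (c h j i)) i = _
    rw [tw_sum]
    refine Finset.sum_congr rfl fun j _ => ?_
    rw [tw_smul, tw_eps, huσ, mul_assoc]
  have hacoc : ∀ (σ : Ω ≃ₐ[RatFunc k] Ω) (h : H) (i : Fin r),
      a (φ σ) i + tw ρ φ σ (a h) i = a (φ σ * h) i + eps p Ω (c (φ σ) h i) := by
    intro σ h i
    rw [htwa]
    have h1 : a (φ σ) i = ∑ j, u (φ σ * h * j) * eps p Ω (c (φ σ) (h * j) i) := by
      rw [ha]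
      show ∑ j, u (φ σ * j) * eps p Ω (c (φ σ) j i) = _
      rw [← Equiv.sum_comp (Equiv.mulLeft h)]
      refine Finset.sum_congr rfl fun j _ => ?_
      rw [Equiv.coe_mulLeft, mul_assoc]
    have h2 : ∑ j, u (φ σ * h * j) = 1 := by
      rw [← hsum, ← Equiv.sum_comp (Equiv.mulLeft (φ σ * h)) u]
      rfl
    have h3 : eps p Ω (c (φ σ) h i) = ∑ j, u (φ σ * h * j) * eps p Ω (c (φ σ) h i) := by
      rw [← Finset.sum_mul, h2, one_mul]
    rw [h1, h3, ← Finset.sum_add_distrib, ha]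
    show _ = (∑ j, u (φ σ * h * j) * eps p Ω (c (φ σ * h) j i)) + _
    rw [← Finset.sum_add_distrib]
    refine Finset.sum_congr rfl fun j _ => ?_
    rw [← mul_add, ← mul_add, ← map_add, ← map_add]
    have h4 := congrFun (hcoc (φ σ) h j) i
    rw [Pi.add_apply, Pi.add_apply] at h4
    rw [add_comm (c (φ σ) (h * j) i), h4, add_comm (c (φ σ) h i)]
  -- the cochain `F`
  set F : H → Fin r → Ω := fun g i => a g i ^ p - a g i with hF
  have hFcoc : ∀ (σ : Ω ≃ₐ[RatFunc k] Ω) (h : H) (i : Fin r),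
      F (φ σ * h) i = F (φ σ) i + tw ρ φ σ (F h) i := by
    intro σ h i
    rw [hF]
    show a (φ σ * h) i ^ p - a (φ σ * h) i = a (φ σ) i ^ p - a (φ σ) i +
      tw ρ φ σ (fun i => a h i ^ p - a h i) i
    rw [tw_wp]
    have h1 : a (φ σ * h) i = a (φ σ) i + tw ρ φ σ (a h) i - eps p Ω (c (φ σ) h i) := by
      rw [hacoc]; ring
    rw [h1, sub_pow_char, add_pow_char, eps_pow]
    ring
  set b : Fin r → Ω := fun i => - ∑ h, u h * F h i with hb
  have hbb : ∀ i, InB φ (b i) := by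
    intro i
    rw [← mem_BB, hb]
    refine Subring.neg_mem _ (Subring.sum_mem _ fun j _ => Subring.mul_mem _ (hub _) ?_)
    rw [hF]
    exact Subring.sub_mem _ (Subring.pow_mem _ (hab j i) p) (hab j i)
  have htwb : ∀ (σ : Ω ≃ₐ[RatFunc k] Ω) (i : Fin r), tw ρ φ σ b i - b i = F (φ σ) i := by
    intro σ i
    have h1 : tw ρ φ σ b i = - ∑ h, u (φ σ * h) * tw ρ φ σ (F h) i := by
      rw [hb]
      show tw ρ φ σ (fun i => - ∑ h, u h * F h i) i = _
      rw [tw_neg, tw_sum]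
      congr 1
      refine Finset.sum_congr rfl fun j _ => ?_
      rw [tw_smul, huσ]
    have h2 : b i = - ∑ h, u (φ σ * h) * F (φ σ * h) i := by
      rw [hb]
      show - ∑ h, u h * F h i = _
      rw [← Equiv.sum_comp (Equiv.mulLeft (φ σ)) (fun h => u h * F h i)]
      rfl
    have h3 : F (φ σ) i = ∑ h, u (φ σ * h) * F (φ σ) i := by
      have h4 : ∑ j, u (φ σ * j) = 1 := by
        rw [← hsum, ← Equiv.sum_comp (Equiv.mulLeft (φ σ)) u]
        rfl
      rw [← Finset.sum_mul, h4, one_mul]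
    rw [h1, h2, sub_neg_eq_add, neg_add_eq_sub, ← Finset.sum_sub_distrib]
    conv_rhs => rw [h3]
    refine Finset.sum_congr rfl fun j _ => ?_
    rw [hFcoc]
    ring
  refine ⟨b, hbb, fun b' hb' hb'inv β hβ => ?_⟩
  -- the function `z`
  have hz : ∀ (σ : Ω ≃ₐ[RatFunc k] Ω) (i : Fin r),
      ∃ w : ZMod p, eps p Ω w = tw ρ φ σ β i - β i - a (φ σ) i := by
    intro σ i
    apply exists_cast p Ω
    have h1 : tw ρ φ σ β i ^ p - tw ρ φ σ β i = tw ρ φ σ b i + b' i := by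
      rw [← tw_wp, ← congrFun (hb'inv σ) i]
      have h2 : (fun i => β i ^ p - β i) = fun i => b i + b' i := funext hβ
      rw [h2, tw_add, hb'inv σ]
    have h3 := htwb σ i
    have h4 := hβ i
    have h5 : F (φ σ) i = a (φ σ) i ^ p - a (φ σ) i := rfl
    rw [sub_pow_char, sub_pow_char]
    rw [h5] at h3
    linear_combination h1 + h3 - h4
  choose ζ hζ using hz
  have hεinj : Function.Injective (eps p Ω) := RingHom.injective _
  have hζmul : ∀ σ τ : Ω ≃ₐ[RatFunc k] Ω,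
      ζ (σ * τ) = ζ σ + (ρ (φ σ)).mulVec (ζ τ) + c (φ σ) (φ τ) := by
    intro σ τ
    funext i
    apply hεinj
    rw [Pi.add_apply, Pi.add_apply, map_add, map_add, hζ, hζ, ← tw_eps, ← tw_tw]
    have h1 : tw ρ φ τ β = fun i => (eps p Ω (ζ τ i) + β i) + a (φ τ) i := by
      funext j
      rw [hζ]; ring
    have h2 := hacoc σ (φ τ) i
    rw [h1, tw_add, tw_add, map_mul]
    linear_combination h2
  set Φ : (Ω ≃ₐ[RatFunc k] Ω) →* E :=
    MonoidHom.mk' (fun σ => ι (Multiplicative.ofAdd (ζ σ)) * s (φ σ)) (by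
      intro σ τ
      show ι (Multiplicative.ofAdd (ζ (σ * τ))) * s (φ (σ * τ)) =
        ι (Multiplicative.ofAdd (ζ σ)) * s (φ σ) * (ι (Multiplicative.ofAdd (ζ τ)) * s (φ τ))
      rw [hζmul, hιadd, hιadd, map_mul]
      calc ι (Multiplicative.ofAdd (ζ σ)) * ι (Multiplicative.ofAdd ((ρ (φ σ)).mulVec (ζ τ))) *
            ι (Multiplicative.ofAdd (c (φ σ) (φ τ))) * s (φ σ * φ τ)
          = ι (Multiplicative.ofAdd (ζ σ)) * ι (Multiplicative.ofAdd ((ρ (φ σ)).mulVec (ζ τ))) *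
            (ι (Multiplicative.ofAdd (c (φ σ) (φ τ))) * s (φ σ * φ τ)) := mul_assoc _ _ _
        _ = ι (Multiplicative.ofAdd (ζ σ)) * ι (Multiplicative.ofAdd ((ρ (φ σ)).mulVec (ζ τ))) *
            (s (φ σ) * s (φ τ)) := by rw [hmul]
        _ = ι (Multiplicative.ofAdd (ζ σ)) *
            (ι (Multiplicative.ofAdd ((ρ (φ σ)).mulVec (ζ τ))) * s (φ σ)) * s (φ τ) := by
              simp only [mul_assoc]
        _ = ι (Multiplicative.ofAdd (ζ σ)) * s (φ σ) *
            (ι (Multiplicative.ofAdd (ζ τ)) * s (φ τ)) := by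
              rw [← hconj]
              simp only [mul_assoc]) with hΦ
  have hΦap : ∀ σ, Φ σ = ι (Multiplicative.ofAdd (ζ σ)) * s (φ σ) := fun _ => rfl
  have hφ1 : φ 1 = 1 := map_one φ
  -- the key equivalence
  have hdiff : ∀ σ, φ σ = 1 → ∀ i, eps p Ω (ζ σ i - ζ 1 i) = σ (β i) - β i := by
    intro σ hσ i
    rw [map_sub, hζ, hζ, tw_of_one ρ φ hσ, tw_of_one ρ φ hφ1, hσ, hφ1, AlgEquiv.one_apply]
    ring
  have hker : ∀ σ, φ σ = 1 → (Φ σ = 1 ↔ ζ σ = ζ 1) := by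
    intro σ hσ
    have h1 : Φ 1 = 1 := map_one Φ
    rw [hΦap, hφ1] at h1
    rw [hΦap, hσ]
    constructor
    · intro h2
      rw [← h1] at h2
      exact hιinj _ _ (mul_right_cancel h2)
    · intro h2
      rw [h2, h1]
  refine ⟨Φ, ?_, ?_, ?_, ?_⟩
  · ext σ
    rw [MonoidHom.comp_apply, hΦap, map_mul, hs]
    have h1 : ι (Multiplicative.ofAdd (ζ σ)) ∈ π.ker := by
      rw [← hιker]
      exact ⟨_, rfl⟩
    rw [MonoidHom.mem_ker] at h1
    rw [h1, one_mul]
  · obtain ⟨S, hS⟩ := hcont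
    refine ⟨S ∪ Finset.univ.image β, fun σ hσ => ?_⟩
    have h1 : φ σ = 1 := hS σ fun x hx => hσ x (Finset.mem_union_left _ hx)
    rw [hker σ h1]
    funext i
    have h2 := hdiff σ h1 i
    rw [hσ (β i) (Finset.mem_union_right _ (Finset.mem_image_of_mem _ (Finset.mem_univ i))),
      sub_self] at h2
    exact sub_eq_zero.mp (hεinj (h2.trans (map_zero _).symm))
  · intro Q hQ σ hσ
    have h1 : φ σ = 1 := hunr Q hQ σ hσ
    rw [hker σ h1]
    funext i
    have hβint : IsIntegral k[X] (β i) := by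
      refine IsIntegral.of_aeval_monic (p := X ^ p - X) ?_ ?_ ?_
      · refine monic_X_pow_sub ?_
        rw [degree_X]
        exact_mod_cast hp.out.one_lt
      · rw [natDegree_sub_eq_left_of_natDegree_lt]
        · rw [natDegree_X_pow]
          exact hp.out.ne_zero
        · rw [natDegree_X_pow, natDegree_X]
          exact hp.out.one_lt
      · rw [map_sub, map_pow, aeval_X, hβ]
        exact (hbb i).1.add (hb' i).1
    have h2 := hσ ⟨β i, hβint⟩ ⟨σ (β i), int_map σ hβint⟩ rfl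
    have h3 := hdiff σ h1 i
    by_contra hne
    have hne' : ζ σ i - ζ 1 i ≠ 0 := sub_ne_zero.mpr hne
    apply hQ.ne_top
    rw [Ideal.eq_top_iff_one]
    set w : ZMod p := ζ σ i - ζ 1 i with hw
    set x : integralClosure k[X] Ω := ⟨σ (β i), int_map σ hβint⟩ - ⟨β i, hβint⟩ with hx
    have h4 : (x : Ω) = eps p Ω w := h3.symm
    have h5 : (((w⁻¹).val : ℕ) : integralClosure k[X] Ω) * x = 1 := by
      apply Subtype.ext
      show ((((w⁻¹).val : ℕ) : integralClosure k[X] Ω) : Ω) * (x : Ω) = 1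
      rw [h4]
      have h6 : ((((w⁻¹).val : ℕ) : integralClosure k[X] Ω) : Ω) = eps p Ω w⁻¹ := by
        rw [← eps_val]
        rfl
      rw [h6, ← map_mul, inv_mul_cancel₀ hne', map_one]
    rw [← h5]
    exact Q.mul_mem_left _ h2
  · intro σ hσ hΦσ i
    have h1 := (hker σ hσ).mp hΦσ
    have h2 := hdiff σ hσ i
    rw [h1, sub_self, map_zero] at h2
    exact (sub_eq_zero.mp h2.symm)

end Pool.Agent.H17Z
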