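import Pool.Agent.H17Z.Stm2

/-!
# Project Z17, part 2, piece PSU
-/

set_option autoImplicit false
set_option linter.all false

namespace Pool.Agent.H17Z

open Polynomial

namespace PSUx

section lin

variable {p : ℕ} [Fact p.Prime] {E H : Type} [Group E] [Finite E] [Group H] (π : E →* H)

/-- the kernel as an elementary abelian group, with the conjugation in matrix form: general form -/
theorem exists_lin_aux {V : Type} [AddCommGroup V] [Module (ZMod p) V] [Module.Finite (ZMod p) V]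
    [Nontrivial V] (j : Multiplicative V →* E) (hj : Function.Injective j)
    (hjr : j.range = π.ker) (hπ : Function.Surjective π)
    (hc : ∀ x ∈ π.ker, ∀ y ∈ π.ker, x * y = y * x) :
    ∃ (r : ℕ) (ι : Multiplicative (Fin r → ZMod p) →* E) (ρ : H →* Matrix (Fin r) (Fin r) (ZMod p)),
      0 < r ∧ Function.Injective ι ∧ ι.range = π.ker ∧
      ∀ (e : E) (v : Fin r → ZMod p), e * ι (Multiplicative.ofAdd v) * e⁻¹ =
        ι (Multiplicative.ofAdd ((ρ (π e)).mulVec v)) := by
  set r := Module.finrank (ZMod p) V with hr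
  have hr0 : 0 < r := by
    rw [hr]
    exact Module.finrank_pos
  let ε : (Fin r → ZMod p) ≃ₗ[ZMod p] V := (Module.finBasis (ZMod p) V).equivFun.symm
  let ι : Multiplicative (Fin r → ZMod p) →* E :=
    { toFun := fun v => j (Multiplicative.ofAdd (ε (Multiplicative.toAdd v)))
      map_one' := by
        show j (Multiplicative.ofAdd (ε 0)) = 1
        rw [map_zero, ofAdd_zero, map_one]
      map_mul' := fun v w => by
        show j (Multiplicative.ofAdd (ε (Multiplicative.toAdd v + Multiplicative.toAdd w))) = _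
        rw [map_add, ofAdd_add, map_mul] }
  have hιv : ∀ v : Fin r → ZMod p, ι (Multiplicative.ofAdd v) =
      j (Multiplicative.ofAdd (ε v)) := fun v => rfl
  have hιinj : ∀ v w : Fin r → ZMod p, ι (Multiplicative.ofAdd v) = ι (Multiplicative.ofAdd w) →
      v = w := by
    intro v w h
    exact ε.injective (Multiplicative.ofAdd.injective (hj h))
  have hιmem : ∀ v, ι v ∈ π.ker := by
    intro v
    rw [← hjr]
    exact ⟨_, rfl⟩
  have hιsur : ∀ x ∈ π.ker, ∃ v : Fin r → ZMod p, ι (Multiplicative.ofAdd v) = x := by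
    intro x hx
    rw [← hjr] at hx
    obtain ⟨v, rfl⟩ := hx
    refine ⟨ε.symm (Multiplicative.toAdd v), ?_⟩
    rw [hιv, LinearEquiv.apply_symm_apply]
    rfl
  -- the conjugation
  have hex : ∀ (x : E) (v : Fin r → ZMod p), ∃ w : Fin r → ZMod p,
      ι (Multiplicative.ofAdd w) = x * ι (Multiplicative.ofAdd v) * x⁻¹ := fun x v =>
    hιsur _ (Subgroup.Normal.conj_mem inferInstance _ (hιmem _) x)
  choose cf hcf using hex
  let cj : E → ((Fin r → ZMod p) →+ (Fin r → ZMod p)) := fun x =>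
    { toFun := cf x
      map_zero' := by
        apply hιinj
        rw [hcf, ofAdd_zero, map_one, mul_one, mul_inv_cancel]
      map_add' := fun v w => by
        apply hιinj
        rw [hcf, ofAdd_add, ofAdd_add, map_mul, map_mul, hcf, hcf]
        group }
  have hcj : ∀ (x : E) (v : Fin r → ZMod p), ι (Multiplicative.ofAdd (cj x v)) =
      x * ι (Multiplicative.ofAdd v) * x⁻¹ := hcf
  let Lc : E → ((Fin r → ZMod p) →ₗ[ZMod p] (Fin r → ZMod p)) := fun x =>
    AddMonoidHom.toZModLinearMap p (cj x)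
  have hLc : ∀ x v, Lc x v = cj x v := fun x v => rfl
  have hLmul : ∀ x y, Lc (x * y) = (Lc x).comp (Lc y) := by
    intro x y
    refine LinearMap.ext fun v => ?_
    rw [LinearMap.comp_apply, hLc, hLc, hLc]
    apply hιinj
    rw [hcj, hcj, hcj]
    group
  have hLone : Lc 1 = LinearMap.id := by
    refine LinearMap.ext fun v => ?_
    rw [LinearMap.id_apply, hLc]
    apply hιinj
    rw [hcj]
    group
  have hLker : ∀ x y, π x = π y → Lc x = Lc y := by
    intro x y hxy
    refine LinearMap.ext fun v => ?_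
    rw [hLc, hLc]
    apply hιinj
    rw [hcj, hcj]
    have hk : y⁻¹ * x ∈ π.ker := by
      rw [MonoidHom.mem_ker, map_mul, map_inv, hxy, inv_mul_cancel]
    have h1 := hc _ hk _ (hιmem (Multiplicative.ofAdd v))
    generalize ι (Multiplicative.ofAdd v) = w at h1 ⊢
    calc x * w * x⁻¹ = y * ((y⁻¹ * x) * w) * x⁻¹ := by group
      _ = y * (w * (y⁻¹ * x)) * x⁻¹ := by rw [h1]
      _ = y * w * y⁻¹ := by group
  choose s hs using hπ
  let ρ : H →* Matrix (Fin r) (Fin r) (ZMod p) :=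
    { toFun := fun h => LinearMap.toMatrix' (Lc (s h))
      map_one' := by
        rw [hLker (s 1) 1 (by rw [hs, map_one]), hLone, LinearMap.toMatrix'_id]
      map_mul' := fun g h => by
        rw [hLker (s (g * h)) (s g * s h) (by rw [hs, map_mul, hs, hs]), hLmul,
          LinearMap.toMatrix'_comp] }
  refine ⟨r, ι, ρ, hr0, ?_, ?_, ?_⟩
  · intro v w h
    exact Multiplicative.toAdd.injective (hιinj _ _ h)
  · apply le_antisymm
    · rintro _ ⟨v, rfl⟩
      exact hιmem v
    · intro x hx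
      obtain ⟨v, hv⟩ := hιsur x hx
      exact ⟨_, hv⟩
  · intro e v
    rw [← hcj, ← hLc]
    congr 2
    show Lc e v = (LinearMap.toMatrix' (Lc (s (π e)))).mulVec v
    rw [LinearMap.toMatrix'_mulVec, hLker (s (π e)) e (hs _)]

/-- the same for an injective homomorphism from a commutative group -/
theorem exists_lin_grp {K : Type} [CommGroup K] [Finite K] [Nontrivial K]
    (hpK : ∀ x : K, x ^ p = 1) (jK : K →* E) (hj : Function.Injective jK)
    (hjr : jK.range = π.ker) (hπ : Function.Surjective π)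
    (hc : ∀ x ∈ π.ker, ∀ y ∈ π.ker, x * y = y * x) :
    ∃ (r : ℕ) (ι : Multiplicative (Fin r → ZMod p) →* E) (ρ : H →* Matrix (Fin r) (Fin r) (ZMod p)),
      0 < r ∧ Function.Injective ι ∧ ι.range = π.ker ∧
      ∀ (e : E) (v : Fin r → ZMod p), e * ι (Multiplicative.ofAdd v) * e⁻¹ =
        ι (Multiplicative.ofAdd ((ρ (π e)).mulVec v)) := by
  letI im : Module (ZMod p) (Additive K) := AddCommGroup.zmodModule (fun x => by
    have h1 : (Additive.toMul x) ^ p = 1 := hpK _
    exact h1)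
  haveI if1 : Module.Finite (ZMod p) (Additive K) := Module.Finite.of_finite
  let j : Multiplicative (Additive K) →* E :=
    { toFun := fun v => jK (Additive.toMul (Multiplicative.toAdd v))
      map_one' := map_one jK
      map_mul' := fun _ _ => map_mul jK _ _ }
  refine @exists_lin_aux p _ E H _ _ _ π (Additive K) _ im if1 _ j ?_ ?_ hπ hc
  · intro v w h
    exact hj h
  · rw [← hjr]
    apply le_antisymm
    · rintro _ ⟨v, rfl⟩
      exact ⟨_, rfl⟩
    · rintro _ ⟨v, rfl⟩
      exact ⟨Multiplicative.ofAdd (Additive.ofMul v), rfl⟩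

/-- the kernel as an elementary abelian group, with the conjugation in matrix form -/
theorem exists_lin (hπ : Function.Surjective π) (hne : π.ker ≠ ⊥)
    (hc : ∀ x ∈ π.ker, ∀ y ∈ π.ker, x * y = y * x) (hp : ∀ x ∈ π.ker, x ^ p = 1) :
    ∃ (r : ℕ) (ι : Multiplicative (Fin r → ZMod p) →* E) (ρ : H →* Matrix (Fin r) (Fin r) (ZMod p)),
      0 < r ∧ Function.Injective ι ∧ ι.range = π.ker ∧
      ∀ (e : E) (v : Fin r → ZMod p), e * ι (Multiplicative.ofAdd v) * e⁻¹ =
        ι (Multiplicative.ofAdd ((ρ (π e)).mulVec v)) := by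
  haveI : Nontrivial π.ker := (Subgroup.nontrivial_iff_ne_bot _).2 hne
  letI ic : CommGroup π.ker := { (inferInstance : Group π.ker) with
    mul_comm := fun a b => Subtype.ext (hc a a.2 b b.2) }
  exact @exists_lin_grp p _ E H _ _ _ π π.ker ic inferInstance inferInstance
    (fun x => Subtype.ext (hp _ x.2)) π.ker.subtype Subtype.val_injective
    (Subgroup.range_subtype _) hπ hc

end lin

/-- Artin-Schreier equations are solvable in a separably closed field -/
theorem exists_as {p : ℕ} [Fact p.Prime] {Ω : Type} [Field Ω] [CharP Ω p] [IsSepClosed Ω] (c : Ω) :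
    ∃ β : Ω, β ^ p - β = c := by
  have hp1 : 1 < p := (Fact.out : p.Prime).one_lt
  set P : Polynomial Ω := X ^ p - X - C c with hP
  have hdeg : P.degree = p := by
    have h1 : P = X ^ p - (X + C c) := by rw [hP]; ring
    rw [h1, degree_sub_eq_left_of_degree_lt, degree_X_pow]
    rw [degree_X_pow, degree_X_add_C]
    exact_mod_cast hp1
  have hsep : P.Separable := by
    rw [separable_def, hP]
    have h2 : derivative (X ^ p - X - C c : Polynomial Ω) = -1 := by
      simp [derivative_X_pow]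
    rw [h2]
    exact ⟨0, -1, by ring⟩
  obtain ⟨β, hβ⟩ := IsSepClosed.exists_root P (by
    rw [hdeg]
    exact_mod_cast (by omega : p ≠ 0)) hsep
  refine ⟨β, ?_⟩
  rw [IsRoot.def, hP] at hβ
  simp only [eval_sub, eval_pow, eval_X, eval_C] at hβ
  exact sub_eq_zero.1 hβ

/-- the solutions are integral -/
theorem int_as {R Ω : Type} [CommRing R] [Field Ω] [Algebra R Ω] {p : ℕ} (hp : 1 < p) {β c : Ω}
    (hc : IsIntegral R c) (h : β ^ p - β = c) : IsIntegral R β := by
  have h1 : IsIntegral (integralClosure R Ω) β := by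
    refine ⟨X ^ p - (X + C ⟨c, hc⟩), ?_, ?_⟩
    · apply monic_X_pow_sub
      rw [degree_X_add_C]
      exact_mod_cast hp
    · rw [eval₂_sub, eval₂_X_pow, eval₂_add, eval₂_X, eval₂_C]
      show β ^ p - (β + c) = 0
      rw [← h]
      ring
  exact isIntegral_trans β h1

end PSUx

open PSUx

theorem t_PSU (hTRC : St_TRC) (hPLF : St_PLF) (hPAR : St_PAR) : St_PSU := by
  intro p _ κ Ω _ _ _ _ _ _ _ _ H E _ _ _ π hπ hne hc hp hmin φ hφ hcont hunr
  haveI : Finite H := Finite.of_surjective π hπ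
  letI : Fintype H := Fintype.ofFinite H
  have hp1 : 1 < p := (Fact.out : p.Prime).one_lt
  obtain ⟨r, ι, ρ, hr, hι, hrange, hconj⟩ := exists_lin π hπ hne hc hp
  have hTr := hTRC κ Ω H φ hφ hcont hunr
  obtain ⟨b, hb, hΦ⟩ := hPLF p κ Ω H E π hπ r ι hι hrange ρ hconj φ hφ hcont hunr hTr
  obtain ⟨b', hb', hinv, hno⟩ := hPAR p κ Ω H r hr ρ φ hφ hcont b hb
  haveI : CharP (RatFunc κ) p := charP_of_injective_algebraMap (algebraMap κ (RatFunc κ)).injective p
  haveI : CharP Ω p := charP_of_injective_algebraMap (algebraMap (RatFunc κ) Ω).injective p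
  haveI : IsSepClosed Ω := IsSepClosure.sep_closed (RatFunc κ)
  have hβ : ∀ i, ∃ β : Ω, β ^ p - β = b i + b' i := fun i => exists_as _
  choose β hβ using hβ
  obtain ⟨Φ, hπΦ, hΦc, hΦu, hfix⟩ := hΦ b' hb' hinv β hβ
  refine ⟨Φ, ?_, hπΦ, hΦc, hΦu⟩
  have hπΦ' : ∀ σ, π (Φ σ) = φ σ := fun σ => by rw [← hπΦ]; rfl
  have hdec : ∀ x : E, ∃ k ∈ π.ker, ∃ σ, x = k * Φ σ := by
    intro x
    obtain ⟨σ, hσ⟩ := hφ (π x)
    refine ⟨x * (Φ σ)⁻¹, ?_, σ, by group⟩
    rw [MonoidHom.mem_ker, map_mul, map_inv, hπΦ', hσ, mul_inv_cancel]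
  have hnorm : (Φ.range ⊓ π.ker).Normal := ⟨fun m hm x => by
    obtain ⟨k, hk, σ, rfl⟩ := hdec x
    obtain ⟨⟨τ, hτ⟩, hmk⟩ := hm
    have h1 : Φ σ * m * (Φ σ)⁻¹ ∈ Φ.range := ⟨σ * τ * σ⁻¹, by rw [map_mul, map_mul, map_inv, hτ]⟩
    have h2 : Φ σ * m * (Φ σ)⁻¹ ∈ π.ker := Subgroup.Normal.conj_mem inferInstance m hmk _
    have h3 := hc k hk _ h2
    have h4 : k * Φ σ * m * (k * Φ σ)⁻¹ = Φ σ * m * (Φ σ)⁻¹ := by
      calc k * Φ σ * m * (k * Φ σ)⁻¹ = (k * (Φ σ * m * (Φ σ)⁻¹)) * k⁻¹ := by group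
        _ = ((Φ σ * m * (Φ σ)⁻¹) * k) * k⁻¹ := by rw [h3]
        _ = Φ σ * m * (Φ σ)⁻¹ := by group
    rw [h4]
    exact ⟨h1, h2⟩⟩
  rcases hmin _ hnorm inf_le_right with hM | hM
  · exfalso
    refine hno β hβ fun i => ⟨?_, fun σ hσ => ?_⟩
    · exact int_as hp1 ((hb i).1.add (hb' i).1) (hβ i)
    · have h1 : Φ σ ∈ Φ.range ⊓ π.ker := ⟨⟨σ, rfl⟩, by
        show π (Φ σ) = 1
        rw [hπΦ', hσ]⟩
      rw [hM, Subgroup.mem_bot] at h1
      exact hfix σ hσ h1 i
  · intro x
    obtain ⟨k, hk, σ, rfl⟩ := hdec x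
    have h1 : k ∈ Φ.range ⊓ π.ker := by rw [hM]; exact hk
    obtain ⟨⟨τ, hτ⟩, _⟩ := h1
    exact ⟨τ * σ, by rw [map_mul, hτ]⟩

end Pool.Agent.H17Z
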