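import Pool.Agent.H17Z.Stm

/-!
# Project Z17, piece SURJ: inertia groups of a finite level lift
-/

set_option autoImplicit false

namespace Pool.Agent.H17Z

open Polynomial
open scoped Pointwise

namespace SURJP

section

variable {k Ω : Type} [Field k] [Field Ω] [Algebra (RatFunc k) Ω] [Algebra k[X] Ω]
    [IsScalarTower k[X] (RatFunc k) Ω]

instance smc : SMulCommClass (Ω ≃ₐ[RatFunc k] Ω) k[X] Ω := ⟨fun g r x => by
  rw [← IsScalarTower.algebraMap_smul (RatFunc k) r x,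
    ← IsScalarTower.algebraMap_smul (RatFunc k) r (g • x)]
  exact map_smul g _ _⟩

/-- the elements of `𝒪` in `L` -/
noncomputable def AA (L : IntermediateField (RatFunc k) Ω) : Subring (integralClosure k[X] Ω) :=
  L.toSubfield.toSubring.comap (integralClosure k[X] Ω).val.toRingHom

theorem mem_AA {L : IntermediateField (RatFunc k) Ω} {x : integralClosure k[X] Ω} :
    x ∈ AA L ↔ (x : Ω) ∈ L := Iff.rfl

instance smc2 (L : IntermediateField (RatFunc k) Ω) :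
    SMulCommClass L.fixingSubgroup (AA L) (integralClosure k[X] Ω) := ⟨fun g a x => by
  apply Subtype.ext
  change (g : Ω ≃ₐ[RatFunc k] Ω) (((a : integralClosure k[X] Ω) : Ω) * (x : Ω)) =
    ((a : integralClosure k[X] Ω) : Ω) * (g : Ω ≃ₐ[RatFunc k] Ω) (x : Ω)
  rw [map_mul]
  congr 1
  exact (mem_fixingSubgroup_iff (Ω ≃ₐ[RatFunc k] Ω)).1 g.2 _ a.2⟩

theorem inv_AA [IsSepClosure (RatFunc k) Ω] (L : IntermediateField (RatFunc k) Ω) :
    Algebra.IsInvariant (AA L) (integralClosure k[X] Ω) L.fixingSubgroup := ⟨fun b hb => by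
  have h1 : (b : Ω) ∈ IntermediateField.fixedField L.fixingSubgroup := by
    rw [IntermediateField.mem_fixedField_iff]
    intro f hf
    exact congrArg Subtype.val (hb ⟨f, hf⟩)
  rw [InfiniteGalois.fixedField_fixingSubgroup] at h1
  exact ⟨⟨b, h1⟩, rfl⟩⟩

end

end SURJP

open SURJP in
theorem t_SURJ : St_SURJ := by
  intro k Ω _ _ _ _ _ _ L _ _ Q hQ τ hτ
  have : Q.IsPrime := hQ.isPrime
  let : TopologicalSpace (integralClosure k[X] Ω) := ⊥
  have : DiscreteTopology (integralClosure k[X] Ω) := ⟨rfl⟩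
  have : ContinuousSMul (Ω ≃ₐ[RatFunc k] Ω) (integralClosure k[X] Ω) := by
    rw [continuousSMul_iff_stabilizer_isOpen]
    intro x
    convert stabilizer_isOpen_of_isIntegral (K := RatFunc k) (x : Ω) using 1
    ext g
    simp only [SetLike.mem_coe, MulAction.mem_stabilizer_iff]
    exact ⟨fun h => congrArg Subtype.val h, fun h => Subtype.ext h⟩
  have : CompactSpace L.fixingSubgroup :=
    isCompact_iff_compactSpace.1 (InfiniteGalois.fixingSubgroup_isClosed L).isCompact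
  have := inv_AA L
  -- lift of `τ`
  obtain ⟨τ₁, hτ₁⟩ : ∃ τ₁ : Ω ≃ₐ[RatFunc k] Ω, ∀ z : L, τ₁ (z : Ω) = τ z :=
    ⟨τ.liftNormal Ω, fun z => AlgEquiv.liftNormal_commutes τ Ω z⟩
  have hinv : ∀ z : L, τ₁⁻¹ (z : Ω) = τ⁻¹ z := by
    intro z
    have h1 : τ₁ ((τ⁻¹ z : L) : Ω) = z := by
      rw [hτ₁, ← AlgEquiv.mul_apply, mul_inv_cancel, AlgEquiv.one_apply]
    rw [← h1, ← AlgEquiv.mul_apply, inv_mul_cancel, AlgEquiv.one_apply]
  have hunder : (τ₁ • Q).under (AA L) = Q.under (AA L) := by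
    ext a
    rw [Ideal.mem_under, Ideal.mem_under, Ideal.mem_pointwise_smul_iff_inv_smul_mem]
    have h1 := hτ (τ₁⁻¹ • algebraMap (AA L) (integralClosure k[X] Ω) a)
      (algebraMap (AA L) (integralClosure k[X] Ω) a) (τ⁻¹ ⟨(a : integralClosure k[X] Ω), a.2⟩)
      (hinv ⟨(a : integralClosure k[X] Ω), a.2⟩) (by
        rw [← AlgEquiv.mul_apply, mul_inv_cancel, AlgEquiv.one_apply]; rfl)
    constructor
    · intro h
      have := Q.add_mem h1 h
      rwa [sub_add_cancel] at this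
    · intro h
      have := Q.sub_mem h h1
      rwa [sub_sub_cancel] at this
  obtain ⟨n, hn⟩ := Algebra.IsInvariant.exists_smul_of_under_eq_of_profinite (A := AA L)
    (G := L.fixingSubgroup) (τ₁ • Q) Q hunder
  obtain ⟨τ₂, hτ₂, hQ2⟩ : ∃ τ₂ : Ω ≃ₐ[RatFunc k] Ω, (∀ z : L, τ₂ (z : Ω) = τ z) ∧ τ₂ • Q = Q := by
    refine ⟨(n : Ω ≃ₐ[RatFunc k] Ω) * τ₁, fun z => ?_, ?_⟩
    · rw [AlgEquiv.mul_apply, hτ₁]
      exact (mem_fixingSubgroup_iff (Ω ≃ₐ[RatFunc k] Ω)).1 n.2 _ (τ z).2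
    · rw [mul_smul]
      exact hn.symm
  -- the automorphism of the residue field
  have hmap : Q = Q.map (MulSemiringAction.toRingEquiv (Ω ≃ₐ[RatFunc k] Ω)
      (integralClosure k[X] Ω) τ₂ : (integralClosure k[X] Ω) →+* (integralClosure k[X] Ω)) := hQ2.symm
  let e := Ideal.quotientEquiv Q Q (MulSemiringAction.toRingEquiv (Ω ≃ₐ[RatFunc k] Ω)
      (integralClosure k[X] Ω) τ₂) hmap
  have he : ∀ x : integralClosure k[X] Ω, e (Ideal.Quotient.mk Q x) = Ideal.Quotient.mk Q (τ₂ • x) :=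
    fun x => rfl
  let e' : ((integralClosure k[X] Ω) ⧸ Q) ≃ₐ[AA L ⧸ Q.under (AA L)] ((integralClosure k[X] Ω) ⧸ Q) :=
    AlgEquiv.ofRingEquiv (f := e) (by
      intro r
      obtain ⟨a, rfl⟩ := Ideal.Quotient.mk_surjective r
      change e (Ideal.Quotient.mk Q (a : integralClosure k[X] Ω)) =
        Ideal.Quotient.mk Q (a : integralClosure k[X] Ω)
      rw [he, Ideal.Quotient.eq]
      exact hτ a (τ₂ • (a : integralClosure k[X] Ω)) ⟨(a : integralClosure k[X] Ω), a.2⟩ rfl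
        (hτ₂ ⟨(a : integralClosure k[X] Ω), a.2⟩))
  obtain ⟨n₂, hn₂⟩ := Ideal.Quotient.stabilizerHom_surjective_of_profinite (G := L.fixingSubgroup)
    (Q.under (AA L)) Q e'
  have hn₂' : ∀ x : integralClosure k[X] Ω,
      ((n₂ : L.fixingSubgroup) : Ω ≃ₐ[RatFunc k] Ω) • x - τ₂ • x ∈ Q := by
    intro x
    have h1 := DFunLike.congr_fun hn₂ (Ideal.Quotient.mk Q x)
    rw [← Ideal.Quotient.eq]
    exact h1
  have hQn : ((n₂ : L.fixingSubgroup) : Ω ≃ₐ[RatFunc k] Ω) • Q = Q := n₂.2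
  refine ⟨((n₂ : L.fixingSubgroup) : Ω ≃ₐ[RatFunc k] Ω)⁻¹ * τ₂, ?_, ?_⟩
  · intro x y hxy
    have h1 : y = ((n₂ : L.fixingSubgroup) : Ω ≃ₐ[RatFunc k] Ω)⁻¹ • τ₂ • x := Subtype.ext hxy
    have h2 : y - x ∈ ((n₂ : L.fixingSubgroup) : Ω ≃ₐ[RatFunc k] Ω)⁻¹ • Q := by
      rw [Ideal.mem_pointwise_smul_iff_inv_smul_mem, inv_inv, smul_sub, h1, smul_inv_smul]
      have := Q.neg_mem (hn₂' x)
      rwa [neg_sub] at this
    have h3 : ((n₂ : L.fixingSubgroup) : Ω ≃ₐ[RatFunc k] Ω)⁻¹ • Q = Q := by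
      rw [inv_smul_eq_iff]
      exact hQn.symm
    rwa [h3] at h2
  · intro z
    rw [AlgEquiv.mul_apply, hτ₂]
    have h1 := (mem_fixingSubgroup_iff (Ω ≃ₐ[RatFunc k] Ω)).1
      (L.fixingSubgroup.inv_mem (n₂ : L.fixingSubgroup).2) _ (τ z).2
    exact h1

end Pool.Agent.H17Z
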