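import Pool.Agent.H17Z.Stm

/-!
# Piece TRA of project Z17: from an unramified extension to a homomorphism of the Galois group
-/

set_option autoImplicit false

namespace Pool.Agent.H17Z

open Polynomial

theorem t_TRA : St_TRA := by
  intro k Ω _ _ _ _ _ _ H _ hUA
  obtain ⟨L, fL, aL, bL, sL, dL, gL, ⟨e⟩, hL⟩ := hUA
  haveI : IsSepClosed Ω := IsSepClosure.sep_closed (RatFunc k)
  haveI : IsGalois (RatFunc k) Ω := inferInstance
  let i : L →ₐ[RatFunc k] Ω := IsSepClosed.lift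
  letI : Algebra L Ω := i.toRingHom.toAlgebra
  have hmap : ∀ x : L, algebraMap L Ω x = i x := fun _ => rfl
  haveI : IsScalarTower (RatFunc k) L Ω := IsScalarTower.of_algebraMap_eq fun x => by
    rw [hmap, i.commutes]
  haveI : IsScalarTower k[X] L Ω := IsScalarTower.of_algebraMap_eq fun x => by
    rw [IsScalarTower.algebraMap_apply k[X] (RatFunc k) Ω,
      IsScalarTower.algebraMap_apply k[X] (RatFunc k) L,
      ← IsScalarTower.algebraMap_apply (RatFunc k) L Ω]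
  let ρ : (Ω ≃ₐ[RatFunc k] Ω) →* (L ≃ₐ[RatFunc k] L) := AlgEquiv.restrictNormalHom L
  have hρ : ∀ (σ : Ω ≃ₐ[RatFunc k] Ω) (x : L), i (ρ σ x) = σ (i x) := fun σ x =>
    AlgEquiv.restrictNormal_commutes σ L x
  have hρs : Function.Surjective ρ := AlgEquiv.restrictNormalHom_surjective Ω
  let f : (⊤ : Subgroup (Ω ≃ₐ[RatFunc k] Ω)) →* H :=
    (e.toMonoidHom.comp ρ).comp (⊤ : Subgroup (Ω ≃ₐ[RatFunc k] Ω)).subtype
  have hf : ∀ σ, f σ = e (ρ (σ : Ω ≃ₐ[RatFunc k] Ω)) := fun _ => rfl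
  refine ⟨f, ?_, ?_, ?_⟩
  · intro h
    obtain ⟨σ, hσ⟩ := hρs (e.symm h)
    exact ⟨⟨σ, trivial⟩, by rw [hf]; show e (ρ σ) = h; rw [hσ, MulEquiv.apply_symm_apply]⟩
  · classical
    refine ⟨Finset.univ.image (fun j => i (Module.finBasis (RatFunc k) L j)), ?_⟩
    intro σ hσ
    have h1 : ρ (σ : Ω ≃ₐ[RatFunc k] Ω) = 1 := by
      have h2 : (ρ (σ : Ω ≃ₐ[RatFunc k] Ω)).toLinearMap = (1 : L ≃ₐ[RatFunc k] L).toLinearMap := by
        apply (Module.finBasis (RatFunc k) L).ext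
        intro j
        apply i.injective
        show i (ρ (σ : Ω ≃ₐ[RatFunc k] Ω) _) = i _
        rw [hρ]
        exact hσ _ (Finset.mem_image_of_mem _ (Finset.mem_univ j))
      ext x
      exact DFunLike.congr_fun h2 x
    rw [hf, h1, map_one]
  · intro Q hQ σ hσ
    by_contra hne
    have h1 : ρ (σ : Ω ≃ₐ[RatFunc k] Ω) ≠ 1 := by
      intro h2
      apply hne
      rw [hf, h2, map_one]
    obtain ⟨m, b, c, hb, hc, hsum⟩ := hL _ h1
    have hint : ∀ x : L, IsIntegral k[X] x → IsIntegral k[X] (i x) := fun x hx =>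
      hx.map (i.restrictScalars k[X])
    have hint2 : ∀ x : Ω, IsIntegral k[X] x → IsIntegral k[X] ((σ : Ω ≃ₐ[RatFunc k] Ω) x) :=
      fun x hx => hx.map ((σ : Ω ≃ₐ[RatFunc k] Ω).toAlgHom.restrictScalars k[X])
    have hmem : ∀ j, (⟨(σ : Ω ≃ₐ[RatFunc k] Ω) (i (b j)), hint2 _ (hint _ (hb j))⟩ :
        integralClosure k[X] Ω) - ⟨i (b j), hint _ (hb j)⟩ ∈ Q := fun j => hσ _ _ rfl
    have hmem2 : ∑ j, (⟨i (c j), hint _ (hc j)⟩ : integralClosure k[X] Ω) *
        ((⟨(σ : Ω ≃ₐ[RatFunc k] Ω) (i (b j)), hint2 _ (hint _ (hb j))⟩ :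
        integralClosure k[X] Ω) - ⟨i (b j), hint _ (hb j)⟩) ∈ Q :=
      Q.sum_mem fun j _ => Q.mul_mem_left _ (hmem j)
    have hone : ∑ j, (⟨i (c j), hint _ (hc j)⟩ : integralClosure k[X] Ω) *
        ((⟨(σ : Ω ≃ₐ[RatFunc k] Ω) (i (b j)), hint2 _ (hint _ (hb j))⟩ :
        integralClosure k[X] Ω) - ⟨i (b j), hint _ (hb j)⟩) = 1 := by
      apply Subtype.ext
      push_cast
      have h3 := congrArg i hsum
      rw [map_sum, map_one] at h3
      rw [← h3]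
      refine Finset.sum_congr rfl fun j _ => ?_
      rw [map_mul, map_sub, hρ]
    rw [hone] at hmem2
    exact hQ.ne_top ((Ideal.eq_top_iff_one Q).2 hmem2)

end Pool.Agent.H17Z
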