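import Pool.Agent.H17Z.Stm

/-!
# Piece TRB of project Z17: from a homomorphism of the Galois group to an unramified extension
-/

set_option autoImplicit false

namespace Pool.Agent.H17Z

open Polynomial

namespace TRB

/-- the unramified field from the homomorphism, a finite level -/
theorem core (hSURJ : St_SURJ) (k Ω : Type) [Field k] [Field Ω] [Algebra (RatFunc k) Ω]
    [Algebra k[X] Ω] [IsScalarTower k[X] (RatFunc k) Ω] [IsSepClosure (RatFunc k) Ω]
    (L : IntermediateField (RatFunc k) Ω) [FiniteDimensional (RatFunc k) L]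
    [IsGalois (RatFunc k) L]
    (hL : ∀ Q : Ideal (integralClosure k[X] Ω), Q.IsMaximal → ∀ σ : Ω ≃ₐ[RatFunc k] Ω,
      InI k Ω Q σ → ∀ z : L, σ (z : Ω) = z)
    (τ : L ≃ₐ[RatFunc k] L) (hτ : τ ≠ 1) :
    ∃ (m : ℕ) (b c : Fin m → L), (∀ i, IsIntegral k[X] (b i)) ∧
      (∀ i, IsIntegral k[X] (c i)) ∧ ∑ i, c i * (τ (b i) - b i) = 1 := by
  haveI : IsScalarTower k[X] L Ω := IsScalarTower.of_algebraMap_eq fun x => by
    rw [IsScalarTower.algebraMap_apply k[X] (RatFunc k) Ω,
      IsScalarTower.algebraMap_apply k[X] (RatFunc k) L,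
      ← IsScalarTower.algebraMap_apply (RatFunc k) L Ω]
  let i : L →ₐ[k[X]] Ω := IsScalarTower.toAlgHom k[X] L Ω
  have hi : ∀ x : L, i x = (x : Ω) := fun _ => rfl
  have hinj : Function.Injective i := fun x y h => Subtype.ext h
  have hint : ∀ x : L, IsIntegral k[X] x ↔ IsIntegral k[X] (x : Ω) := fun x => by
    rw [← hi]
    exact (isIntegral_algHom_iff i hinj).symm
  have hint2 : ∀ x : L, IsIntegral k[X] x → IsIntegral k[X] (τ x) := fun x hx =>
    hx.map (τ.toAlgHom.restrictScalars k[X])
  -- the map of the integral closures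
  let ι : integralClosure k[X] L →+* integralClosure k[X] Ω :=
    { toFun := fun x => ⟨((x : L) : Ω), (hint _).1 x.2⟩
      map_one' := rfl
      map_mul' := fun _ _ => rfl
      map_zero' := rfl
      map_add' := fun _ _ => rfl }
  letI : Algebra (integralClosure k[X] L) (integralClosure k[X] Ω) := ι.toAlgebra
  haveI : IsScalarTower k[X] (integralClosure k[X] L) (integralClosure k[X] Ω) :=
    IsScalarTower.of_algebraMap_eq fun x => by
      apply Subtype.ext
      show algebraMap k[X] Ω x = ((algebraMap k[X] L x : L) : Ω)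
      rw [IsScalarTower.algebraMap_apply k[X] L Ω]
      rfl
  haveI : Algebra.IsIntegral (integralClosure k[X] L) (integralClosure k[X] Ω) :=
    Algebra.IsIntegral.tower_top (R := k[X])
  let S : Set (integralClosure k[X] L) :=
    {t | ∃ x y : integralClosure k[X] L, (y : L) = τ (x : L) ∧ t = y - x}
  have htop : Ideal.span S = ⊤ := by
    by_contra hne
    obtain ⟨q, hq, hle⟩ := Ideal.exists_le_maximal _ hne
    have hker : RingHom.ker (algebraMap (integralClosure k[X] L) (integralClosure k[X] Ω)) ≤ q := by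
      intro x hx
      rw [RingHom.mem_ker] at hx
      have h1 : ((x : L) : Ω) = 0 := congrArg Subtype.val hx
      have h2 : x = 0 := by
        apply Subtype.ext
        apply Subtype.ext
        exact h1
      rw [h2]
      exact q.zero_mem
    obtain ⟨Q, hQ, hQq⟩ := Ideal.exists_ideal_over_maximal_of_isIntegral
      (S := integralClosure k[X] Ω) q hker
    obtain ⟨σ, hσ1, hσ2⟩ := hSURJ k Ω L Q hQ τ (by
      intro x y z hx hy
      have hz : IsIntegral k[X] z := by
        rw [hint, ← hx]
        exact x.2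
      have h1 : (⟨τ z, hint2 _ hz⟩ : integralClosure k[X] L) - ⟨z, hz⟩ ∈ q :=
        hle (Ideal.subset_span ⟨⟨z, hz⟩, ⟨τ z, hint2 _ hz⟩, rfl, rfl⟩)
      rw [← hQq, Ideal.mem_comap, map_sub] at h1
      have h2 : algebraMap (integralClosure k[X] L) (integralClosure k[X] Ω)
          ⟨τ z, hint2 _ hz⟩ = y := Subtype.ext hy.symm
      have h3 : algebraMap (integralClosure k[X] L) (integralClosure k[X] Ω)
          ⟨z, hz⟩ = x := Subtype.ext hx.symm
      rwa [h2, h3] at h1)
    apply hτ
    ext z
    show ((τ z : L) : Ω) = z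
    rw [← hσ2 z]
    exact hL Q hQ σ hσ1 z
  have hone : (1 : integralClosure k[X] L) ∈ Submodule.span (integralClosure k[X] L) S := by
    have : (1 : integralClosure k[X] L) ∈ Ideal.span S := by rw [htop]; trivial
    exact this
  rw [Submodule.mem_span_set'] at hone
  obtain ⟨m, f, g, hfg⟩ := hone
  choose x y hy hg using fun j => (g j).2
  refine ⟨m, fun j => (x j : L), fun j => (f j : L), fun j => (x j).2, fun j => (f j).2, ?_⟩
  have h1 : ((∑ j, f j • (g j : integralClosure k[X] L) : integralClosure k[X] L) : L) = 1 :=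
    congrArg Subtype.val hfg
  rw [← h1]
  push_cast
  refine Finset.sum_congr rfl fun j _ => ?_
  rw [hg j]
  rw [smul_eq_mul]
  push_cast
  rw [hy j]

end TRB

theorem t_TRB : St_SURJ → St_TRB := by
  intro hSURJ k Ω _ _ _ _ _ _ H _ _ f hfs hfc hfu
  classical
  -- the homomorphism of the whole group
  let F : (Ω ≃ₐ[RatFunc k] Ω) →* H := f.comp Subgroup.topEquiv.symm.toMonoidHom
  have hF : ∀ σ, F σ = f ⟨σ, trivial⟩ := fun _ => rfl
  have hFs : Function.Surjective F := hfs.comp Subgroup.topEquiv.symm.surjective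
  obtain ⟨S, hS⟩ := hfc
  haveI : IsGalois (RatFunc k) Ω := inferInstance
  haveI : FiniteDimensional (RatFunc k) (IntermediateField.adjoin (RatFunc k) (S : Set Ω)) :=
    IntermediateField.finiteDimensional_adjoin fun x _ =>
      (Algebra.IsAlgebraic.isAlgebraic (R := RatFunc k) x).isIntegral
  have hopen : IsOpen (F.ker : Set (Ω ≃ₐ[RatFunc k] Ω)) := by
    refine Subgroup.isOpen_mono ?_ (IntermediateField.fixingSubgroup_isOpen
      (IntermediateField.adjoin (RatFunc k) (S : Set Ω)))
    intro σ hσ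
    rw [MonoidHom.mem_ker, hF]
    apply hS
    intro x hx
    exact (IntermediateField.mem_fixingSubgroup_iff _ σ).1 hσ x
      (IntermediateField.subset_adjoin _ _ hx)
  let N : ClosedSubgroup (Ω ≃ₐ[RatFunc k] Ω) := ⟨F.ker, F.ker.isClosed_of_isOpen hopen⟩
  obtain ⟨L, hLdef⟩ : ∃ L : IntermediateField (RatFunc k) Ω,
      L = IntermediateField.fixedField F.ker := ⟨_, rfl⟩
  have hfix : L.fixingSubgroup = F.ker := by
    rw [hLdef]
    exact InfiniteGalois.fixingSubgroup_fixedField N
  haveI : FiniteDimensional (RatFunc k) L := by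
    rw [← InfiniteGalois.isOpen_iff_finite, hfix]
    exact hopen
  haveI : IsGalois (RatFunc k) L := by
    rw [← InfiniteGalois.normal_iff_isGalois, hfix]
    infer_instance
  let ρ : (Ω ≃ₐ[RatFunc k] Ω) →* (L ≃ₐ[RatFunc k] L) := AlgEquiv.restrictNormalHom L
  have hρs : Function.Surjective ρ := AlgEquiv.restrictNormalHom_surjective Ω
  have hρk : ρ.ker = F.ker := by
    rw [← hfix]
    exact IntermediateField.restrictNormalHom_ker L
  have e1 := QuotientGroup.quotientKerEquivOfSurjective ρ hρs
  have e2 := QuotientGroup.quotientKerEquivOfSurjective F hFs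
  have e3 : (Ω ≃ₐ[RatFunc k] Ω) ⧸ ρ.ker ≃* (Ω ≃ₐ[RatFunc k] Ω) ⧸ F.ker :=
    QuotientGroup.quotientMulEquivOfEq hρk
  refine ⟨L, inferInstance, inferInstance, inferInstance, inferInstance, inferInstance,
    inferInstance, ⟨(e1.symm.trans e3).trans e2⟩, ?_⟩
  intro τ hτ
  refine TRB.core hSURJ k Ω L ?_ τ hτ
  intro Q hQ σ hσ z
  have h1 : σ ∈ L.fixingSubgroup := by
    rw [hfix, MonoidHom.mem_ker, hF]
    exact hfu Q hQ ⟨σ, trivial⟩ hσ
  exact (IntermediateField.mem_fixingSubgroup_iff _ σ).1 h1 z z.2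

end Pool.Agent.H17Z
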