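import Pool.Agent.H17Z.MNZ

set_option autoImplicit false

/-! Piece TRC of project Z17, part 2 (helper55). -/

open Polynomial

namespace Pool.Agent.H17Z

open InBP

theorem t_TRC : St_SURJ → St_TRC := by
  classical
  intro hSURJ k Ω _ _ _ _ _ _ H _ _ φ hs hc hu
  obtain ⟨s, hs⟩ : ∃ s : H → (Ω ≃ₐ[RatFunc k] Ω), ∀ h, φ (s h) = h :=
    ⟨Function.surjInv hs, Function.surjInv_eq hs⟩
  let T : Ω → Ω := fun x => ∑ h, s h x
  have hTfix : ∀ x, InB φ x → ∀ σ : Ω ≃ₐ[RatFunc k] Ω, σ (T x) = T x := by
    intro x hx σ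
    show σ (∑ h, s h x) = ∑ h, s h x
    rw [map_sum]
    refine Fintype.sum_equiv (Equiv.mulLeft (φ σ)) _ _ fun h => ?_
    rw [← AlgEquiv.mul_apply]
    exact map_congr (by rw [map_mul, hs, Equiv.coe_mulLeft, hs]) hx
  have hTint : ∀ x, InB φ x → IsIntegral k[X] (T x) := fun x hx =>
    IsIntegral.sum _ fun h _ => int_map _ hx.1
  have hTpol : ∀ x, InB φ x → ∃ a : k[X], algebraMap k[X] Ω a = T x := by
    intro x hx
    have h1 : T x ∈ (⊥ : IntermediateField (RatFunc k) Ω) :=
      (InfiniteGalois.mem_bot_iff_fixed (T x)).2 (hTfix x hx)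
    rw [IntermediateField.mem_bot] at h1
    obtain ⟨c, hc⟩ := h1
    have h2 := hTint x hx
    rw [← hc] at h2
    have h3 : IsIntegral k[X] c :=
      (isIntegral_algHom_iff (IsScalarTower.toAlgHom k[X] (RatFunc k) Ω)
        (algebraMap (RatFunc k) Ω).injective).1 h2
    obtain ⟨a, ha⟩ := IsIntegrallyClosed.isIntegral_iff.1 h3
    exact ⟨a, by rw [IsScalarTower.algebraMap_apply k[X] (RatFunc k) Ω, ha, hc]⟩
  -- the ideal of the traces
  let I : Ideal k[X] :=
    { carrier := {a | ∃ x, InB φ x ∧ T x = algebraMap k[X] Ω a}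
      zero_mem' := ⟨0, ⟨isIntegral_zero, fun σ _ => map_zero σ⟩, by
        show ∑ h, s h (0 : Ω) = _
        simp⟩
      add_mem' := by
        rintro a b ⟨x, hx, hxa⟩ ⟨y, hy, hyb⟩
        refine ⟨x + y, ⟨hx.1.add hy.1, fun σ hσ => by rw [map_add, hx.2 σ hσ, hy.2 σ hσ]⟩, ?_⟩
        rw [map_add, ← hxa, ← hyb]
        show ∑ h, s h (x + y) = ∑ h, s h x + ∑ h, s h y
        rw [← Finset.sum_add_distrib]
        exact Finset.sum_congr rfl fun h _ => map_add _ _ _
      smul_mem' := by
        rintro a b ⟨x, hx, hxb⟩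
        have ha : ∀ σ : Ω ≃ₐ[RatFunc k] Ω, σ (algebraMap k[X] Ω a) = algebraMap k[X] Ω a := by
          intro σ
          rw [IsScalarTower.algebraMap_apply k[X] (RatFunc k) Ω, σ.commutes]
        refine ⟨algebraMap k[X] Ω a * x, ⟨isIntegral_algebraMap.mul hx.1, fun σ hσ => by
          rw [map_mul, ha, hx.2 σ hσ]⟩, ?_⟩
        rw [smul_eq_mul, map_mul, ← hxb]
        show ∑ h, s h (algebraMap k[X] Ω a * x) = algebraMap k[X] Ω a * ∑ h, s h x
        rw [Finset.mul_sum]
        exact Finset.sum_congr rfl fun h _ => by rw [map_mul, ha] }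
  have hI : I = ⊤ := by
    by_contra hne
    obtain ⟨m, hm, hIm⟩ := Ideal.exists_le_maximal I hne
    have hinj : Function.Injective (algebraMap k[X] (integralClosure k[X] Ω)) := by
      intro a b hab
      have h1 : algebraMap k[X] Ω a = algebraMap k[X] Ω b := congrArg Subtype.val hab
      rw [IsScalarTower.algebraMap_apply k[X] (RatFunc k) Ω,
        IsScalarTower.algebraMap_apply k[X] (RatFunc k) Ω] at h1
      exact IsFractionRing.injective k[X] (RatFunc k) ((algebraMap (RatFunc k) Ω).injective h1)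
    obtain ⟨Q, hQ, hQm⟩ := Ideal.exists_ideal_over_maximal_of_isIntegral
      (S := integralClosure k[X] Ω) m (by
        rw [(RingHom.injective_iff_ker_eq_bot _).1 hinj]
        exact bot_le)
    have hTQ : ∀ x (hx : InB φ x), (⟨T x, hTint x hx⟩ : integralClosure k[X] Ω) ∈ Q := by
      intro x hx
      obtain ⟨a, ha⟩ := hTpol x hx
      have h1 : a ∈ m := hIm ⟨x, hx, ha.symm⟩
      rw [← hQm, Ideal.mem_comap] at h1
      have h2 : algebraMap k[X] (integralClosure k[X] Ω) a = ⟨T x, hTint x hx⟩ :=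
        Subtype.ext ha
      rwa [h2] at h1
    have : Q.IsPrime := hQ.isPrime
    let F := integralClosure k[X] Ω ⧸ Q
    let e : H → BB φ → integralClosure k[X] Ω := fun h y => ⟨s h (y : Ω), int_map _ y.2.1⟩
    let χ : H → (BB φ →* F) := fun h =>
      { toFun := fun y => Ideal.Quotient.mk Q (e h y)
        map_one' := by
          rw [← map_one (Ideal.Quotient.mk Q)]
          exact congrArg _ (Subtype.ext (map_one (s h)))
        map_mul' := fun y z => by
          rw [← map_mul]
          exact congrArg _ (Subtype.ext (map_mul (s h) _ _)) }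
    have hχ : ∀ h (y : BB φ), χ h y = Ideal.Quotient.mk Q (e h y) := fun h y => rfl
    have hinjχ : Function.Injective χ := by
      intro h h' hh
      obtain ⟨L, i1, i2, hL, hL2⟩ := facts hc
      let τ : Ω ≃ₐ[RatFunc k] Ω := s h * (s h')⁻¹
      have hτ : φ τ = h * h'⁻¹ := by rw [map_mul, map_inv, hs, hs]
      let τL : L ≃ₐ[RatFunc k] L := AlgEquiv.restrictNormalHom L τ
      have hτL : ∀ z : L, ((τL z : L) : Ω) = τ z := fun z =>
        AlgEquiv.restrictNormal_commutes τ L z
      obtain ⟨σ, hσ1, hσ2⟩ := hSURJ k Ω L Q hQ τL (by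
        intro x y z hx hy
        have hz : InB φ (z : Ω) := by
          refine ⟨?_, fun σ hσ => ?_⟩
          · rw [← hx]
            exact x.2
          · have h2 : σ ∈ L.fixingSubgroup := by rw [hL, MonoidHom.mem_ker, hσ]
            exact (IntermediateField.mem_fixingSubgroup_iff _ σ).1 h2 z z.2
        have hw : InB φ ((s h')⁻¹ (z : Ω)) := inB_map _ hz
        let w : BB φ := ⟨(s h')⁻¹ (z : Ω), hw⟩
        have h3 : Ideal.Quotient.mk Q (e h w) = Ideal.Quotient.mk Q (e h' w) := by
          rw [← hχ, ← hχ, hh]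
        rw [Ideal.Quotient.eq] at h3
        have h4 : e h w = y := by
          apply Subtype.ext
          rw [hy, hτL]
          rfl
        have h5 : e h' w = x := by
          apply Subtype.ext
          rw [hx]
          show s h' ((s h')⁻¹ (z : Ω)) = z
          rw [← AlgEquiv.mul_apply, mul_inv_cancel, AlgEquiv.one_apply]
        rwa [h4, h5] at h3)
      have h6 : φ σ = φ τ := by
        apply eq_of_inB hc
        intro x hx
        have hxL : x ∈ L := by
          rw [hL2, IntermediateField.mem_fixedField_iff]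
          intro f hf
          exact hx.2 f hf
        rw [hσ2 ⟨x, hxL⟩, hτL]
      rw [hu Q hQ σ hσ1, hτ] at h6
      exact (mul_inv_eq_one.1 h6.symm)
    have hli := (linearIndependent_monoidHom (BB φ) F).comp χ hinjχ
    rw [Fintype.linearIndependent_iff] at hli
    have h1 := hli (fun _ => 1) (by
      funext y
      rw [Finset.sum_apply]
      have h2 : ∀ h, ((1 : F) • (((fun f => f : (BB φ →* F) → BB φ → F) ∘ χ) h)) y =
          Ideal.Quotient.mk Q (e h y) := by
        intro h
        rw [one_smul]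
        rfl
      rw [Finset.sum_congr rfl fun h _ => h2 h, ← map_sum]
      have h3 : ∑ h, e h y = ⟨T y, hTint y y.2⟩ := by
        apply Subtype.ext
        show ((∑ h, e h y : integralClosure k[X] Ω) : Ω) = ∑ h, s h (y : Ω)
        rw [AddSubmonoidClass.coe_finsetSum]
      rw [h3]
      exact Ideal.Quotient.eq_zero_iff_mem.2 (hTQ y y.2)) 1
    exact one_ne_zero h1
  have h1 : (1 : k[X]) ∈ I := by rw [hI]; trivial
  obtain ⟨x, hx, hx1⟩ := h1
  rw [map_one] at hx1
  refine ⟨x, hx, fun s' hs' => ?_⟩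
  rw [← hx1]
  exact Finset.sum_congr rfl fun h _ => map_congr (by rw [hs, hs']) hx

end Pool.Agent.H17Z
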