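import Mathlib
import Pool.Agent.H17Z.MainE
import Pool.Agent.H17Z.SURJ
import Pool.Agent.H17Z.FROB
import Pool.Agent.H17Z.FIN
import Pool.Agent.H17Z.EXT
import Pool.Agent.H17Z.BR
import Pool.Agent.H17Z.KUM
import Pool.Agent.H17Z.NRM
import Pool.Agent.H17Z.HL
import Pool.Agent.H17Z.HS
import Pool.Agent.H17Z.HH
import Pool.Agent.H17Z.LOC
import Pool.Agent.H17Z.LFA
import Pool.Agent.H17Z.LFT
import Pool.Agent.H17Z.GRP1
import Pool.Agent.H17Z.GRP2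
import Pool.Agent.H17Z.GRP3
import Pool.Agent.H17Z.TRA
import Pool.Agent.H17Z.TRB
import Pool.Agent.H17Z.TRC
import Pool.Agent.H17Z.PLF
import Pool.Agent.H17Z.MNZ
import Pool.Agent.H17Z.CNT
import Pool.Agent.H17Z.PAR
import Pool.Agent.H17Z.PSU
import Pool.Agent.H17Z.PIN

/-!
# Project Z17: the theorem, Mathlib notions only
-/

set_option autoImplicit false
set_option linter.unusedSectionVars false

namespace Pool.Agent.H17Z

open Polynomial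

theorem tLFT : St_LFT := t_LFT t_SURJ (t_LFA t_LOC)

theorem tHH : St_HH := t_HH t_NRM t_HL t_HS

section Om

variable {κ Ω : Type} [Field κ] [Finite κ] [Field Ω] [Algebra (RatFunc κ) Ω] [Algebra κ[X] Ω]
    [IsScalarTower κ[X] (RatFunc κ) Ω] [Algebra κ Ω] [IsScalarTower κ κ[X] Ω]
    [IsSepClosure (RatFunc κ) Ω] (p : ℕ) [Fact p.Prime] [CharP κ p]

/-- Kernels of order prime to `p` which commute with `p(E)`. -/
theorem lifts_prime (E H : Type) [Group E] [Finite E] [Group H] (π : E →* H)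
    (hπ : Function.Surjective π) (hcard : ¬ p ∣ Nat.card π.ker)
    (hcomm : ∀ n ∈ π.ker, ∀ g ∈ pE p E, n * g = g * n)
    (hcyc : ∃ y : E, ∀ g : E, ∃ k : ℤ, y ^ k * g ∈ pE p E) : Lifts κ Ω π := by
  intro φ hs hc hu
  letI : Fintype κ := Fintype.ofFinite κ
  exact stepA_core t_SURJ t_BR (t_KUM t_SURJ) tLFT tHH t_GRP1 t_GRP2 t_GRP3 t_FROB t_FIN' t_EXT
    κ Ω p E H π hπ hcard hcomm hcyc φ hs hc hu

/-- Kernels which are `p`-groups. -/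
theorem lifts_pgroup (E H : Type) [Group E] [Finite E] [Group H] (π : E →* H)
    (hπ : Function.Surjective π) (hP : IsPGroup p π.ker) : Lifts κ Ω π := by
  intro φ hs hc hu
  have hPSU : St_PSU := t_PSU (t_TRC t_SURJ) t_PLF (t_PAR t_CNT t_MNZ)
  obtain ⟨g, hg, hgs, hgc, hgu⟩ := t_PIN p (Ω ≃ₐ[RatFunc κ] Ω)
    (fun H _ f => Function.Surjective f ∧ ContT f ∧ UnrT f)
    (fun H H' _ _ f q hq hf => ⟨hq.comp hf.1, by
      obtain ⟨S, hS⟩ := hf.2.1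
      exact ⟨S, fun σ hσ => by rw [MonoidHom.comp_apply, hS σ hσ, map_one]⟩, fun Q hQ σ hσ => by
      rw [MonoidHom.comp_apply, hf.2.2 Q hQ σ hσ, map_one]⟩)
    (fun E H _ _ _ π hπ h1 h2 h3 h4 f hf => by
      obtain ⟨Φ, hΦ1, hΦ2, hΦ3, hΦ4⟩ := hPSU p κ Ω H E π hπ h1 h2 h3 h4 f hf.1 hf.2.1 hf.2.2
      exact ⟨Φ, hΦ2, hΦ1, hΦ3, hΦ4⟩)
    E H π hπ hP φ ⟨hs, hc, hu⟩
  exact ⟨g, hgs, hg, hgc, hgu⟩

/-- All kernels with a series. -/
theorem lifts_hyp (E H : Type) [Group E] [Finite E] [Group H] (π : E →* H)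
    (hπ : Function.Surjective π) (hcyc : ∃ y : E, ∀ g : E, ∃ k : ℤ, y ^ k * g ∈ pE p E)
    (hH : Hyp p E π.ker) : Lifts κ Ω π :=
  lifts_of_hyp κ Ω p (fun E H _ _ _ π h1 h2 h3 h4 => lifts_prime p E H π h1 h2 h3 h4)
    (fun E H _ _ _ π h1 h2 => lifts_pgroup p E H π h1 h2) E hcyc π.ker hH H π hπ rfl

end Om

/-- Embedding problems over the affine line. -/
theorem ep_main (p : ℕ) [Fact p.Prime] (κ : Type) [Field κ] [Finite κ] [CharP κ p]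
    (L₀ : Type) [Field L₀] [Algebra (RatFunc κ) L₀] [Algebra κ[X] L₀]
    [IsScalarTower κ[X] (RatFunc κ) L₀] [FiniteDimensional (RatFunc κ) L₀]
    [IsGalois (RatFunc κ) L₀]
    (hU : ∀ τ : L₀ ≃ₐ[RatFunc κ] L₀, τ ≠ 1 → ∃ (m : ℕ) (b c : Fin m → L₀),
      (∀ i, IsIntegral κ[X] (b i)) ∧ (∀ i, IsIntegral κ[X] (c i)) ∧
        ∑ i, c i * (τ (b i) - b i) = 1)
    (E : Type) [Group E] [Finite E] (π : E →* (L₀ ≃ₐ[RatFunc κ] L₀))
    (hπ : Function.Surjective π) (hcyc : ∃ y : E, ∀ g : E, ∃ k : ℤ, y ^ k * g ∈ pE p E)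
    (hH : Hyp p E π.ker) : EPs κ L₀ E π := by
  let Ω : Type := AlgebraicClosure (RatFunc κ)
  let Ω : Type := SeparableClosure (RatFunc κ)
  letI : Algebra κ[X] Ω := ((algebraMap (RatFunc κ) Ω).comp (algebraMap κ[X] (RatFunc κ))).toAlgebra
  haveI : IsScalarTower κ[X] (RatFunc κ) Ω := IsScalarTower.of_algebraMap_eq fun _ => rfl
  letI : Algebra κ Ω := ((algebraMap κ[X] Ω).comp Polynomial.C).toAlgebra
  haveI : IsScalarTower κ κ[X] Ω := IsScalarTower.of_algebraMap_eq fun _ => rfl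
  haveI : IsSepClosure (RatFunc κ) Ω := inferInstance
  haveI : IsSepClosed Ω := IsSepClosure.sep_closed (RatFunc κ)
  let j : L₀ →ₐ[RatFunc κ] Ω := IsSepClosed.lift
  obtain ⟨φ, hs, hc, hu, hj⟩ := hom_of_field (Ω := Ω) L₀ j hU
  obtain ⟨Ψ, hΨs, hΨ, hΨc, hΨu⟩ := lifts_hyp (Ω := Ω) p E (L₀ ≃ₐ[RatFunc κ] L₀) π hπ hcyc hH φ hs
    hc hu
  refine field_of_hom t_SURJ L₀ j E π Ψ hΨs hΨc hΨu fun σ x => ?_
  rw [hj, ← hΨ]
  rfl

end Pool.Agent.H17Z
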