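import Mathlib
import Pool.Agent.H17Z.MainF
import Pool.Agent.H17Z.COR
import Pool.Agent.Y140.AW.Fin5

/-!
# Project Z17: the final theorems
-/

set_option autoImplicit false
set_option linter.unusedSectionVars false

namespace Pool.Agent.H17Z

open Polynomial Pool.Agent.Y140.AW

instance pE_norm (p : ℕ) (E : Type) [Group E] : (pE p E).Normal := CORx.pE_normal p E

theorem cyc_of {p : ℕ} {E : Type} [Group E] (h : IsCyclic (E ⧸ pE p E)) :
    ∃ y : E, ∀ g : E, ∃ k : ℤ, y ^ k * g ∈ pE p E := by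
  obtain ⟨y, hy⟩ := h
  obtain ⟨y, rfl⟩ := QuotientGroup.mk_surjective y
  refine ⟨y, fun g => ?_⟩
  obtain ⟨k, hk⟩ := hy (g : E ⧸ pE p E)
  refine ⟨-k, ?_⟩
  have h1 : ((y : E ⧸ pE p E)) ^ k = (g : E ⧸ pE p E) := hk
  rw [← QuotientGroup.mk_zpow, QuotientGroup.eq] at h1
  rw [zpow_neg]
  exact h1

/-- Embedding problems over the affine line. -/
theorem ep (p : ℕ) [Fact p.Prime] (κ : Type) [Field κ] [Finite κ] [CharP κ p]
    (L : Type) [Field L] [Algebra (RatFunc κ) L] [Algebra κ[X] L]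
    [IsScalarTower κ[X] (RatFunc κ) L] [FiniteDimensional (RatFunc κ) L]
    [IsGalois (RatFunc κ) L]
    (hU : ∀ (q : Ideal (integralClosure κ[X] L)) (_ : q.IsPrime), Algebra.IsUnramifiedAt κ[X] q)
    (E : Type) [Group E] [Finite E] (π : E →* (L ≃ₐ[RatFunc κ] L))
    (hπ : Function.Surjective π) (hcyc : IsCyclic (E ⧸ pE p E)) (hH : Hyp p E π.ker) :
    UnrEP κ L E π := by
  obtain ⟨M, i1, i2, i3, i4, i5, i6, i7, i8, γ, h1, h2⟩ :=
    ep_main p κ L ((t_unr3 κ L).2 hU) E π hπ (cyc_of hcyc) hH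
  exact ⟨M, i1, i2, i3, i4, i5, i6, i7, i8, γ, h1, (t_unr3 κ M).1 h2⟩

theorem unrAff_quot (κ E : Type) [Field κ] [Finite κ] [Group E] [Finite E] (N : Subgroup E)
    [N.Normal] (h : UnrAff κ E) : UnrAff κ (E ⧸ N) := by
  obtain ⟨L, i1, i2, i3, i4, i5, i6, ⟨γ⟩, hU⟩ := h
  have hUA : UA κ E := ⟨L, i1, i2, i3, i4, i5, i6, ⟨γ⟩, (t_unr3 κ L).2 hU⟩
  let Ω : Type := SeparableClosure (RatFunc κ)
  letI : Algebra κ[X] Ω := ((algebraMap (RatFunc κ) Ω).comp (algebraMap κ[X] (RatFunc κ))).toAlgebra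
  haveI : IsScalarTower κ[X] (RatFunc κ) Ω := IsScalarTower.of_algebraMap_eq fun _ => rfl
  haveI : IsSepClosure (RatFunc κ) Ω := inferInstance
  obtain ⟨f, hf, hfc, hfu⟩ := t_TRA κ Ω E hUA
  obtain ⟨M, j1, j2, j3, j4, j5, j6, γ', hM⟩ := t_TRB t_SURJ κ Ω (E ⧸ N)
    ((QuotientGroup.mk' N).comp f) ((QuotientGroup.mk'_surjective N).comp hf) (hfc.comp' _)
    (hfu.comp' _)
  exact ⟨M, j1, j2, j3, j4, j5, j6, γ', (t_unr3 κ M).1 hM⟩

/-- The equivalence. -/
theorem occ_iff (p : ℕ) [Fact p.Prime] (κ : Type) [Field κ] [Finite κ] [CharP κ p]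
    (E : Type) [Group E] [Finite E] (N : Subgroup E) [N.Normal]
    (hcyc : IsCyclic (E ⧸ pE p E)) (hH : Hyp p E N) : UnrAff κ (E ⧸ N) ↔ UnrAff κ E := by
  refine ⟨fun h => ?_, unrAff_quot κ E N⟩
  obtain ⟨L, i1, i2, i3, i4, i5, i6, ⟨γ⟩, hU⟩ := h
  let π : E →* (L ≃ₐ[RatFunc κ] L) := γ.symm.toMonoidHom.comp (QuotientGroup.mk' N)
  have hπ : Function.Surjective π := γ.symm.surjective.comp (QuotientGroup.mk'_surjective N)
  have hk : π.ker = N := by
    ext x
    rw [MonoidHom.mem_ker]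
    change γ.symm (x : E ⧸ N) = 1 ↔ _
    rw [EmbeddingLike.map_eq_one_iff, QuotientGroup.eq_one_iff]
  exact (ep p κ L hU E π hπ hcyc (by rw [hk]; exact hH)).unrAff

/-! ### Perfect central extensions -/

theorem normal_of_central {E : Type} [Group E] {N : Subgroup E} (hN : N ≤ Subgroup.center E) :
    N.Normal := by
  constructor
  intro n hn g
  have h1 : g * n = n * g := (Subgroup.mem_center_iff.1 (hN hn)) g
  have h2 : g * n * g⁻¹ = n := by rw [h1]; group
  rw [h2]
  exact hn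

theorem hyp_central (p : ℕ) [Fact p.Prime] (E : Type) [Group E] [Finite E] (N : Subgroup E)
    (hN : N ≤ Subgroup.center E) : Hyp p E N := by
  have hcomm : ∀ a ∈ N, ∀ b : E, a * b = b * a := fun a ha b =>
    ((Subgroup.mem_center_iff.1 (hN ha)) b).symm
  let M : Subgroup E :=
    { carrier := {g | g ∈ N ∧ ∃ k : ℕ, g ^ p ^ k = 1}
      one_mem' := ⟨N.one_mem, 0, one_pow _⟩
      mul_mem' := by
        rintro a b ⟨ha, k, hk⟩ ⟨hb, l, hl⟩
        refine ⟨N.mul_mem ha hb, k + l, ?_⟩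
        have hc : Commute a b := hcomm a ha b
        rw [hc.mul_pow, pow_add, pow_mul, hk, one_pow, mul_comm (p ^ k), pow_mul, hl, one_pow,
          mul_one]
      inv_mem' := by
        rintro a ⟨ha, k, hk⟩
        exact ⟨N.inv_mem ha, k, by rw [inv_pow, hk, inv_one]⟩ }
  have hMN : M ≤ N := fun g hg => hg.1
  have hMn : M.Normal := normal_of_central (hMN.trans hN)
  have hNn : N.Normal := normal_of_central hN
  have h1 : Hyp p E M := Hyp.pgroup ⊥ M Hyp.bot bot_le hMn (by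
    rintro g ⟨-, k, hk⟩
    exact ⟨k, Subgroup.mem_bot.2 hk⟩)
  refine Hyp.prime M N h1 hMN hNn (fun g hg => ?_) (fun g hg h _ => ?_)
  · obtain ⟨a, m, hm, hn⟩ := Nat.exists_eq_pow_mul_and_not_dvd (orderOf_pos g).ne' p
      (Fact.out : p.Prime).ne_one
    refine ⟨m, hm, N.pow_mem hg m, a, ?_⟩
    rw [← pow_mul, mul_comm, ← hn, pow_orderOf_eq_one]
  · rw [hcomm g hg h]
    have : h * g * g⁻¹ * h⁻¹ = 1 := by group
    rw [this]
    exact M.one_mem

theorem cyclic_central (p : ℕ) [Fact p.Prime] (E H : Type) [Group E] [Finite E] [Group H]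
    (hE : commutator E = ⊤) (π : E →* H) (hπ : Function.Surjective π)
    (hN : π.ker ≤ Subgroup.center E) (hH : pE p H = ⊤) : IsCyclic (E ⧸ pE p E) := by
  have h1 : ∀ g : E, ∃ n ∈ π.ker, ∃ h ∈ pE p E, g = n * h := by
    intro g
    have h2 : π g ∈ pE p H := by rw [hH]; trivial
    obtain ⟨h, hh, heq⟩ := pE_le_map p π hπ h2
    refine ⟨g * h⁻¹, ?_, h, hh, by group⟩
    rw [MonoidHom.mem_ker, map_mul, map_inv, heq, mul_inv_cancel]
  have h3 : commutator E ≤ pE p E := by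
    rw [commutator_def, Subgroup.commutator_le]
    intro a _ b _
    obtain ⟨n, hn, h, hh, rfl⟩ := h1 a
    have h4 : n * h * b * (n * h)⁻¹ * b⁻¹ = h * (b * h⁻¹ * b⁻¹) := by
      have h5 : ∀ x : E, n * x = x * n := fun x =>
        ((Subgroup.mem_center_iff.1 (hN hn)) x).symm
      rw [mul_inv_rev]
      calc n * h * b * (h⁻¹ * n⁻¹) * b⁻¹ = n * (h * b * h⁻¹) * n⁻¹ * b⁻¹ := by group
        _ = (h * b * h⁻¹) * n * n⁻¹ * b⁻¹ := by rw [h5]
        _ = h * (b * h⁻¹ * b⁻¹) := by group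
    rw [commutatorElement_def, h4]
    exact (pE p E).mul_mem hh ((pE_norm p E).conj_mem _ ((pE p E).inv_mem hh) b)
  rw [hE, top_le_iff] at h3
  have h6 : Subsingleton (E ⧸ pE p E) := by
    rw [h3]
    exact QuotientGroup.subsingleton_quotient_top
  exact isCyclic_of_subsingleton

open Pool.Agent.Y793 Pool.Agent.H391R2 Pool.Agent.Y140.IG
open Pool.Agent.TH444.TW (RegularOver)

/-- Regular realizations from one realization of a perfect group over a finite field. -/
theorem regular_of_perfect (κ : Type) [Field κ] [Finite κ] (E : Type) [Group E] [Finite E]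
    (hE : commutator E = ⊤) (h : UnrAff κ E) (K : Type) [Field K] [Algebra κ K] :
    RegularOver K E := by
  have hocc : Occurs (RatFunc κ) E := by
    obtain ⟨L, i1, i2, i3, i4, i5, i6, γ, -⟩ := h
    exact ⟨L, i1, i2, i5, i6, γ⟩
  have hab : Nat.card (Abelianization E) = 1 := by
    have h1 : Subsingleton (Abelianization E) := by
      rw [show Abelianization E = (E ⧸ commutator E) from rfl, hE]
      exact QuotientGroup.subsingleton_quotient_top
    exact Nat.card_unique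
  have h0 : (Nat.card (Abelianization E)).primeFactors.card = 0 := by
    rw [hab]
    simp
  have hT := one_group κ E
  have h2 : Occurs (RatFunc κ)
      (Fin ((Nat.card (Abelianization E)).primeFactors.card + 1) → E) := by
    rw [h0]
    exact hocc.congr (MulEquiv.funUnique (Fin 1) E).symm
  have h3 : ∀ (K : Type) [Field K] [Algebra κ K], WreathRegular K E := (hT.out 1 2).1 h2
  exact regular_congr (MulEquiv.funUnique (Fin 1) E) (regular_of_wreath (h3 K) 1)

/-- Perfect central extensions of `G ≀ A_n`. -/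
theorem central_main (p : ℕ) [Fact p.Prime] (hp : p ≠ 2) (κ : Type) [Field κ] [Finite κ]
    [CharP κ p] (G : Type) [Group G] [Finite G] (hG : commutator G = ⊤) (n₀ : ℕ) :
    ∃ n ≥ n₀, UnrAff κ (AWr G n) ∧
      ∀ (E : Type) [Group E] [Finite E] (π : E →* AWr G n), commutator E = ⊤ →
        Function.Surjective π → π.ker ≤ Subgroup.center E →
        UnrAff κ E ∧ ∀ (K : Type) [Field K] [Algebra κ K], RegularOver K E := by
  obtain ⟨n, hn, h1, -⟩ := out5 p hp κ G hG (n₀ + 5 + p)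
  refine ⟨n, by omega, h1, fun E _ _ π hE hπ hN => ?_⟩
  have hcyc := cyclic_central p E (AWr G n) hE π hπ hN (t_COR p G hG n (by omega) (by omega))
  have h2 : UnrAff κ (E ⧸ π.ker) :=
    h1.congr (QuotientGroup.quotientKerEquivOfSurjective π hπ).symm
  have h3 : UnrAff κ E := (occ_iff p κ E π.ker hcyc (hyp_central p E π.ker hN)).1 h2
  exact ⟨h3, fun K _ _ => regular_of_perfect κ E hE h3 K⟩

end Pool.Agent.H17Z
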