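import Pool.Agent.H17Z.Stm

/-!
# Project Z17, piece GRP2
-/

set_option autoImplicit false
set_option linter.all false

namespace Pool.Agent.H17Z

namespace GRP2x

/-- a nontrivial finite commutative group has a quotient of prime order -/
theorem exists_char (R : Type) [CommGroup R] [Finite R] [Nontrivial R] :
    ∃ (ℓ : ℕ) (_ : Fact ℓ.Prime), ℓ ∣ Nat.card R ∧ ∃ q : R →* Multiplicative (ZMod ℓ),
      Function.Surjective q := by
  obtain ⟨ι, hι, n, hn, ⟨ε⟩⟩ := CommGroup.equiv_prod_multiplicative_zmod_of_finite R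
  have hne : Nonempty ι := by
    by_contra hno
    rw [not_nonempty_iff] at hno
    have : Subsingleton R := ε.toEquiv.subsingleton
    exact not_subsingleton R this
  obtain ⟨i⟩ := hne
  have hp : (n i).minFac.Prime := Nat.minFac_prime (by have := hn i; omega)
  have hdvd : (n i).minFac ∣ n i := Nat.minFac_dvd _
  haveI : Fact (n i).minFac.Prime := ⟨hp⟩
  let q : R →* Multiplicative (ZMod (n i).minFac) :=
    ((AddMonoidHom.toMultiplicative (ZMod.castHom hdvd (ZMod (n i).minFac)).toAddMonoidHom).comp
      (Pi.evalMonoidHom _ i)).comp ε.toMonoidHom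
  have hq : Function.Surjective q := by
    intro z
    obtain ⟨w, hw⟩ := ZMod.castHom_surjective hdvd z.toAdd
    obtain ⟨v, hv⟩ : ∃ v : (j : ι) → Multiplicative (ZMod (n j)), v i = Multiplicative.ofAdd w := by
      classical
      exact ⟨Function.update 1 i (Multiplicative.ofAdd w), Function.update_self _ _ _⟩
    obtain ⟨r, hr⟩ := ε.surjective v
    refine ⟨r, ?_⟩
    show Multiplicative.ofAdd ((ZMod.castHom hdvd (ZMod (n i).minFac)) ((ε r i).toAdd)) = z
    rw [hr, hv]
    show Multiplicative.ofAdd ((ZMod.castHom hdvd (ZMod (n i).minFac)) w) = z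
    rw [hw]
    rfl
  refine ⟨(n i).minFac, inferInstance, ?_, q, hq⟩
  have h1 : Nat.card (Multiplicative (ZMod (n i).minFac)) ∣ Nat.card R :=
    Subgroup.card_dvd_of_surjective q hq
  rwa [show Nat.card (Multiplicative (ZMod (n i).minFac)) = (n i).minFac from by
    rw [Nat.card_congr Multiplicative.toAdd, Nat.card_zmod]] at h1

end GRP2x

theorem t_GRP2 : St_GRP2 := by
  intro p A _ Good h1 h2 h3 D _ _ hp f hf
  by_contra hne
  have hR : Nontrivial f.range := by
    rw [Subgroup.nontrivial_iff_ne_bot]
    intro h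
    exact hne (MonoidHom.range_eq_bot_iff.1 h)
  obtain ⟨ℓ, hℓ, hdvd, q, hq⟩ := GRP2x.exists_char f.range
  have hℓp : ℓ ≠ p := by
    rintro rfl
    exact hp (hdvd.trans (Subgroup.card_subgroup_dvd_card f.range))
  have hg : Good f.range f.rangeRestrict :=
    h2 f.range D f.rangeRestrict f.range.subtype Subtype.val_injective (by
      have : f.range.subtype.comp f.rangeRestrict = f := f.subtype_comp_rangeRestrict
      rw [this]
      exact hf)
  have h4 := h3 ℓ hℓp (q.comp f.rangeRestrict) (h1 _ _ _ q hg)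
  have hsurj : Function.Surjective (q.comp f.rangeRestrict) :=
    hq.comp f.rangeRestrict_surjective
  obtain ⟨a, ha⟩ := hsurj (Multiplicative.ofAdd 1)
  rw [h4] at ha
  have h5 : (0 : ZMod ℓ) = 1 := congrArg Multiplicative.toAdd ha
  exact zero_ne_one h5

end Pool.Agent.H17Z
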