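import Pool.Agent.H17Z.LFTa

/-!
# Project Z17, piece LFT, part b: roots of unity, cocycles, Kummer data
-/

set_option autoImplicit false

namespace Pool.Agent.H17Z

open Polynomial

theorem lft_root (C : Type) [Field C] [IsAlgClosed C] (p : ℕ) [CharP C p] (ℓ : ℕ) [Fact ℓ.Prime]
    (hℓ : ℓ ≠ p) (Z : Type) [Group Z] (hZ : Nat.card Z = ℓ) :
    (ℓ : C) ≠ 0 ∧ ∃ ι : Z →* C, Function.Injective ι ∧ (∀ z, ι z ^ ℓ = 1) ∧
      ∀ (Ω : Type) [Field Ω] (j : C →+* Ω) (ζ : Ω), ζ ^ ℓ = 1 → ∃ z, j (ι z) = ζ := by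
  have hp : ℓ.Prime := Fact.out
  have h0 : (ℓ : C) ≠ 0 := by
    intro h
    rw [CharP.cast_eq_zero_iff C p ℓ] at h
    rcases (Nat.dvd_prime hp).1 h with h1 | h1
    · exact CharP.char_ne_one C p h1
    · exact hℓ h1.symm
  have _ : NeZero (ℓ : C) := ⟨h0⟩
  have _ : NeZero ℓ := ⟨hp.ne_zero⟩
  refine ⟨h0, ?_⟩
  obtain ⟨ζ₀, hζ₀⟩ := HasEnoughRootsOfUnity.exists_primitiveRoot C ℓ
  have hcard : Nat.card (rootsOfUnity ℓ C) = ℓ := hζ₀.card_rootsOfUnity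
  let e : Z ≃* rootsOfUnity ℓ C := mulEquivOfPrimeCardEq hZ hcard
  refine ⟨((Units.coeHom C).comp (rootsOfUnity ℓ C).subtype).comp e.toMonoidHom, ?_, ?_, ?_⟩
  · intro x y h
    apply e.injective
    apply Subtype.ext
    apply Units.ext
    exact h
  · intro z
    have h1 := (e z).2
    rw [mem_rootsOfUnity'] at h1
    exact h1
  · intro Ω _ j ζ hζ
    have h2 : IsPrimitiveRoot (j ζ₀) ℓ := hζ₀.map_of_injective j.injective
    obtain ⟨i, -, hi⟩ := h2.eq_pow_of_pow_eq_one hζ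
    have h3 : (ζ₀ ^ i) ^ ℓ = 1 := by
      rw [← pow_mul, mul_comm, pow_mul, hζ₀.pow_eq_one, one_pow]
    obtain ⟨z, hz⟩ := e.surjective (rootsOfUnity.mkOfPowEq (ζ₀ ^ i) h3)
    refine ⟨z, ?_⟩
    change j (((e z : rootsOfUnity ℓ C) : Cˣ) : C) = ζ
    rw [hz, rootsOfUnity.coe_mkOfPowEq, map_pow, hi]

theorem lft_section {E H : Type} [Group E] [Group H] (π : E →* H) (hπ : Function.Surjective π) :
    ∃ s : H → E, (∀ h, π (s h) = h) ∧ s 1 = 1 := by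
  classical
  refine ⟨fun h => if h = 1 then 1 else Function.surjInv hπ h, ?_, by simp⟩
  intro h
  by_cases hh : h = 1
  · simp [hh]
  · simp only [if_neg hh]
    exact Function.surjInv_eq hπ h

section main

/-- The map induced on the Galois group of the fixed field. -/
theorem lft_bar {C Ω : Type} [Field C] [Field Ω] [Algebra (RatFunc C) Ω]
    [IsSepClosure (RatFunc C) Ω] {H : Type} [Group H] (f : (Ω ≃ₐ[RatFunc C] Ω) →* H)
    (L : IntermediateField (RatFunc C) Ω) [FiniteDimensional (RatFunc C) L]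
    [IsGalois (RatFunc C) L] (hL : ∀ σ : Ω ≃ₐ[RatFunc C] Ω, f σ = 1 ↔ ∀ z : L, σ z = z) :
    ∃ (r : (Ω ≃ₐ[RatFunc C] Ω) →* (L ≃ₐ[RatFunc C] L)) (fb : (L ≃ₐ[RatFunc C] L) →* H),
      (∀ σ (z : L), ((r σ z : L) : Ω) = σ z) ∧ ∀ σ, fb (r σ) = f σ := by
  have hr : Function.Surjective (AlgEquiv.restrictNormalHom (F := RatFunc C) (K₁ := Ω) L) := by
    have _ : IsGalois (RatFunc C) Ω := IsSepClosure.isGalois
    exact AlgEquiv.restrictNormalHom_surjective Ω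
  have hc : ∀ (σ : Ω ≃ₐ[RatFunc C] Ω) (z : L),
      ((AlgEquiv.restrictNormalHom L σ z : L) : Ω) = σ z := fun σ z =>
    AlgEquiv.restrictNormal_commutes σ L z
  have hker : (AlgEquiv.restrictNormalHom (F := RatFunc C) (K₁ := Ω) L).ker ≤ f.ker := by
    intro σ hσ
    rw [MonoidHom.mem_ker] at hσ ⊢
    rw [hL]
    intro z
    rw [← hc σ z, hσ]
    rfl
  refine ⟨AlgEquiv.restrictNormalHom L, MonoidHom.liftOfSurjective _ hr ⟨f, hker⟩, hc, ?_⟩
  intro σ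
  exact MonoidHom.liftOfRightInverse_comp_apply _ _ _ ⟨f, hker⟩ σ

/-- The cocycle of a section. -/
theorem lft_coc {Γ E H : Type} [Group Γ] [Group E] [Group H] (π : E →* H)
    (hcen : π.ker ≤ Subgroup.center E) (s : H → E) (hs : ∀ h, π (s h) = h) (hs1 : s 1 = 1)
    (fb : Γ →* H) : ∃ zc : Γ → Γ → π.ker,
      (∀ g h, s (fb g) * s (fb h) = (zc g h : E) * s (fb (g * h))) ∧
      (∀ g h j, zc h j * zc g (h * j) = zc (g * h) j * zc g h) ∧ zc 1 1 = 1 := by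
  have hker : ∀ g h, s (fb g) * s (fb h) * (s (fb (g * h)))⁻¹ ∈ π.ker := by
    intro g h
    rw [MonoidHom.mem_ker, map_mul, map_mul, map_inv, hs, hs, hs, map_mul, mul_inv_cancel]
  have hcomm : ∀ (z : π.ker) (x : E), (z : E) * x = x * z := fun z x =>
    ((Subgroup.mem_center_iff.1 (hcen z.2)) x).symm
  refine ⟨fun g h => ⟨_, hker g h⟩, ?_, ?_, ?_⟩
  · intro g h
    simp
  · intro g h j
    apply Subtype.ext
    have h1 := hcomm ⟨_, hker h j⟩ (s (fb g))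
    have h2 := hcomm ⟨_, hker g h⟩ (s (fb (g * h)) * s (fb j) * (s (fb (g * h * j)))⁻¹)
    change s (fb h) * s (fb j) * (s (fb (h * j)))⁻¹ *
        (s (fb g) * s (fb (h * j)) * (s (fb (g * (h * j))))⁻¹) =
      s (fb (g * h)) * s (fb j) * (s (fb (g * h * j)))⁻¹ *
        (s (fb g) * s (fb h) * (s (fb (g * h)))⁻¹)
    change s (fb h) * s (fb j) * (s (fb (h * j)))⁻¹ * s (fb g) =
      s (fb g) * (s (fb h) * s (fb j) * (s (fb (h * j)))⁻¹) at h1
    change s (fb g) * s (fb h) * (s (fb (g * h)))⁻¹ *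
        (s (fb (g * h)) * s (fb j) * (s (fb (g * h * j)))⁻¹) =
      s (fb (g * h)) * s (fb j) * (s (fb (g * h * j)))⁻¹ *
        (s (fb g) * s (fb h) * (s (fb (g * h)))⁻¹) at h2
    rw [← h2]
    have h3 : s (fb h) * s (fb j) * (s (fb (h * j)))⁻¹ *
        (s (fb g) * s (fb (h * j)) * (s (fb (g * (h * j))))⁻¹) =
        (s (fb h) * s (fb j) * (s (fb (h * j)))⁻¹ * s (fb g)) * s (fb (h * j)) *
          (s (fb (g * (h * j))))⁻¹ := by group
    rw [h3, h1, mul_assoc g h j]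
    group
  · apply Subtype.ext
    change s (fb 1) * s (fb 1) * (s (fb (1 * 1)))⁻¹ = 1
    simp [hs1]

/-- The Kummer data: the functions `a`, `b`. -/
theorem lft_kum {C Ω : Type} [Field C] [Field Ω] [Algebra (RatFunc C) Ω] [Algebra C[X] Ω]
    [IsScalarTower C[X] (RatFunc C) Ω] (hLFA : St_LFA) [IsAlgClosed C] (ℓ : ℕ) (hℓ : 0 < ℓ)
    (hH : HHc C Ω ℓ)
    (L : IntermediateField (RatFunc C) Ω) [FiniteDimensional (RatFunc C) L]
    [IsGalois (RatFunc C) L]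
    (hunr : ∀ τ : L ≃ₐ[RatFunc C] L, τ ≠ 1 → ∃ (m : ℕ) (b c : Fin m → L),
      (∀ i, IsIntegral C[X] (b i)) ∧ (∀ i, IsIntegral C[X] (c i)) ∧
      ∑ i, c i * (τ (b i) - b i) = 1)
    {Z : Type} [Group Z] (ι : Z →* C) (hι : ∀ z, ι z ^ ℓ = 1)
    (zc : (L ≃ₐ[RatFunc C] L) → (L ≃ₐ[RatFunc C] L) → Z)
    (hzc : ∀ g h j, zc h j * zc g (h * j) = zc (g * h) j * zc g h) :
    ∃ (a : (L ≃ₐ[RatFunc C] L) → L) (b : L), (∀ g, a g ≠ 0) ∧ b ≠ 0 ∧
      (∀ g h, algebraMap (RatFunc C) L (algebraMap C (RatFunc C) (ι (zc g h))) * a (g * h) =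
        g (a h) * a g) ∧ (∀ g, g b = a g ^ ℓ * b) ∧
      ∀ w : Ideal (integralClosure C[X] L), w.IsMaximal →
        ∃ (d : L) (y y' : integralClosure C[X] L), d ≠ 0 ∧ y ∉ w ∧ y' ∉ w ∧
          b * y' = d ^ ℓ * y := by
  let c : (L ≃ₐ[RatFunc C] L) → (L ≃ₐ[RatFunc C] L) → L := fun g h =>
    algebraMap (RatFunc C) L (algebraMap C (RatFunc C) (ι (zc g h)))
  have hι0 : ∀ z, ι z ≠ 0 := by
    intro z h
    have h1 := hι z
    rw [h, zero_pow hℓ.ne'] at h1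
    exact zero_ne_one h1
  have hc0 : ∀ g h, c g h ≠ 0 := fun g h =>
    (_root_.map_ne_zero _).2 ((_root_.map_ne_zero _).2 (hι0 _))
  have hcℓ : ∀ g h, c g h ^ ℓ = 1 := by
    intro g h
    change (algebraMap (RatFunc C) L (algebraMap C (RatFunc C) (ι (zc g h)))) ^ ℓ = 1
    rw [← map_pow, ← map_pow, hι, map_one, map_one]
  have hcfix : ∀ (t : L ≃ₐ[RatFunc C] L) g h, t (c g h) = c g h := fun t g h =>
    AlgEquiv.commutes t _
  have hcoc : Coc c := by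
    refine ⟨hc0, fun g h j => ?_⟩
    rw [AlgEquiv.smul_def, hcfix]
    change algebraMap (RatFunc C) L (algebraMap C (RatFunc C) (ι (zc h j))) *
      algebraMap (RatFunc C) L (algebraMap C (RatFunc C) (ι (zc g (h * j)))) =
      algebraMap (RatFunc C) L (algebraMap C (RatFunc C) (ι (zc (g * h) j))) *
      algebraMap (RatFunc C) L (algebraMap C (RatFunc C) (ι (zc g h)))
    rw [← map_mul, ← map_mul, ← map_mul, ← map_mul, ← map_mul, ← map_mul, hzc]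
  obtain ⟨a, ha0, ha⟩ := hH L c hcoc hcℓ
  have ha' : ∀ g h, c g h * a (g * h) = g (a h) * a g := by
    intro g h
    rw [ha g h, AlgEquiv.smul_def, div_mul_cancel₀ _ (ha0 _)]
  let F : (L ≃ₐ[RatFunc C] L) → Lˣ := fun g => Units.mk0 (a g ^ ℓ) (pow_ne_zero _ (ha0 g))
  have hF : groupCohomology.IsMulCocycle₁ F := by
    intro g h
    apply Units.ext
    change a (g * h) ^ ℓ = (g • Units.mk0 (a h ^ ℓ) (pow_ne_zero _ (ha0 h)) : Lˣ) * a g ^ ℓ
    have h1 : ((g • Units.mk0 (a h ^ ℓ) (pow_ne_zero _ (ha0 h)) : Lˣ) : L) = g (a h ^ ℓ) := rfl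
    rw [h1, map_pow, ← mul_pow, ← ha' g h, mul_pow, hcℓ, one_mul]
  obtain ⟨bu, hbu⟩ := groupCohomology.isMulCoboundary₁_of_isMulCocycle₁_of_aut_to_units F hF
  have hb : ∀ g : L ≃ₐ[RatFunc C] L, g (bu : L) = a g ^ ℓ * (bu : L) := by
    intro g
    have h1 := hbu g
    rw [div_eq_iff_eq_mul] at h1
    have h2 := congrArg (fun t : Lˣ => (t : L)) h1
    exact h2
  obtain ⟨u, hu0, hu⟩ := hLFA C L hunr ℓ hℓ (bu : L) bu.ne_zero fun g => ⟨a g, hb g⟩
  refine ⟨a, bu * algebraMap (RatFunc C) L u, ha0,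
    mul_ne_zero bu.ne_zero ((_root_.map_ne_zero _).2 hu0), ha', ?_, hu⟩
  intro g
  rw [map_mul, AlgEquiv.commutes, hb g]
  ring

end main

end Pool.Agent.H17Z
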