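import Mathlib
import Pool.Agent.H17Z.Fin

/-!
# Reduction of the arithmetical conjecture to centreless groups: group theory
-/

set_option autoImplicit false
set_option linter.unusedSectionVars false

namespace Pool.Agent.H17Z

open Polynomial Pool.Agent.Y140.AW

section

variable (p : ℕ) [Fact p.Prime] {A : Type} [Group A] [Finite A]

/-- If `A` has no normal `p`-subgroup, the centraliser of `p(A)` has no element of order `p`. -/
theorem cent_prime (hO : ∀ T : Subgroup A, T.Normal → (∀ g ∈ T, ∃ k : ℕ, g ^ p ^ k = 1) → T = ⊥)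
    (g : A) (hg : g ∈ Subgroup.centralizer (pE p A : Set A)) :
    ∃ m : ℕ, ¬ p ∣ m ∧ g ^ m = 1 := by
  haveI := pE_norm p A
  let C : Subgroup A := Subgroup.centralizer (pE p A : Set A)
  have hCn : C.Normal := inferInstance
  have hcomm : ∀ a ∈ pE p A, ∀ b ∈ C, a * b = b * a := fun a ha b hb =>
    Subgroup.mem_centralizer_iff.1 hb a ha
  let T : Subgroup A :=
    { carrier := {g | g ∈ pE p A ∧ g ∈ C ∧ ∃ k : ℕ, g ^ p ^ k = 1}
      one_mem' := ⟨one_mem _, one_mem _, 0, one_pow _⟩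
      mul_mem' := by
        rintro a b ⟨ha, ha', k, hk⟩ ⟨hb, hb', l, hl⟩
        refine ⟨mul_mem ha hb, mul_mem ha' hb', k + l, ?_⟩
        have hc : Commute a b := hcomm a ha b hb'
        rw [hc.mul_pow, pow_add, pow_mul, hk, one_pow, mul_comm (p ^ k), pow_mul, hl, one_pow,
          mul_one]
      inv_mem' := by
        rintro a ⟨ha, ha', k, hk⟩
        exact ⟨inv_mem ha, inv_mem ha', k, by rw [inv_pow, hk, inv_one]⟩ }
  have hT : T.Normal := by
    constructor
    rintro a ⟨ha, ha', k, hk⟩ b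
    refine ⟨(pE_norm p A).conj_mem _ ha b, hCn.conj_mem _ ha' b, k, ?_⟩
    rw [conj_pow, hk, mul_one, mul_inv_cancel]
  have hT0 := hO T hT fun g hg => hg.2.2
  obtain ⟨a, m, hm, hn⟩ := Nat.exists_eq_pow_mul_and_not_dvd (orderOf_pos g).ne' p
    (Fact.out : p.Prime).ne_one
  refine ⟨m, hm, ?_⟩
  have h1 : (g ^ m) ^ p ^ a = 1 := by
    rw [← pow_mul, mul_comm, ← hn, pow_orderOf_eq_one]
  have h2 : g ^ m ∈ T := ⟨Subgroup.subset_closure ⟨a, h1⟩, C.pow_mem hg m, a, h1⟩
  rw [hT0, Subgroup.mem_bot] at h2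
  exact h2

end

/-- No normal `p`-subgroups, and the centraliser of `p(A)` is trivial. -/
def Red (p : ℕ) (A : Type) [Group A] : Prop :=
  (∀ T : Subgroup A, T.Normal → (∀ g ∈ T, ∃ k : ℕ, g ^ p ^ k = 1) → T = ⊥) ∧
    Subgroup.centralizer (pE p A : Set A) = ⊥

theorem exists_red (p : ℕ) [Fact p.Prime] (A : Type) [Group A] [Finite A] :
    ∃ (N : Subgroup A) (_ : N.Normal), Hyp p A N ∧ Red p (A ⧸ N) := by
  classical
  have hfin : {N : Subgroup A | Hyp p A N}.Finite := Set.toFinite _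
  obtain ⟨N, hN, hmax⟩ := hfin.exists_maximal ⟨⊥, Hyp.bot⟩
  have hNn : N.Normal := Hyp.normal hN
  have key : ∀ M : Subgroup A, N ≤ M → Hyp p A M → M ≤ N := fun M h1 h2 => hmax h2 h1
  let π := QuotientGroup.mk' N
  have hπ : Function.Surjective π := QuotientGroup.mk'_surjective N
  have hbot : ∀ T : Subgroup (A ⧸ N), T.comap π ≤ N → T = ⊥ := by
    intro T hT
    rw [eq_bot_iff]
    intro x hx
    obtain ⟨a, rfl⟩ := hπ x
    have h1 : a ∈ N := hT hx
    rw [Subgroup.mem_bot]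
    exact (QuotientGroup.eq_one_iff a).2 h1
  have hle : ∀ T : Subgroup (A ⧸ N), N ≤ T.comap π := by
    intro T a ha
    rw [Subgroup.mem_comap]
    have : π a = 1 := (QuotientGroup.eq_one_iff a).2 ha
    rw [this]
    exact T.one_mem
  have hO : ∀ T : Subgroup (A ⧸ N), T.Normal → (∀ g ∈ T, ∃ k : ℕ, g ^ p ^ k = 1) → T = ⊥ := by
    intro T hT hp
    refine hbot T (key _ (hle T) (Hyp.pgroup N _ hN (hle T) (hT.comap π) fun g hg => ?_))
    obtain ⟨k, hk⟩ := hp (π g) hg
    refine ⟨k, ?_⟩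
    rw [← map_pow] at hk
    exact (QuotientGroup.eq_one_iff _).1 hk
  refine ⟨N, hNn, hN, hO, ?_⟩
  haveI := pE_norm p (A ⧸ N)
  refine hbot _ (key _ (hle _) (Hyp.prime N _ hN (hle _) (Subgroup.Normal.comap inferInstance π)
    (fun g hg => ?_) fun g hg h hh => ?_))
  · obtain ⟨m, hm, hgm⟩ := cent_prime p hO (π g) hg
    refine ⟨m, hm, ?_⟩
    rw [← map_pow] at hgm
    exact (QuotientGroup.eq_one_iff _).1 hgm
  · have h1 : π h ∈ pE p (A ⧸ N) := map_pE_le p π ⟨h, hh, rfl⟩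
    have h2 : π h * π g = π g * π h := Subgroup.mem_centralizer_iff.1 hg _ h1
    rw [← QuotientGroup.eq_one_iff]
    change π (g * h * g⁻¹ * h⁻¹) = 1
    rw [map_mul, map_mul, map_mul, map_inv, map_inv, ← h2]
    group

theorem cyc_to {p : ℕ} {E : Type} [Group E]
    (h : ∃ y : E, ∀ g : E, ∃ k : ℤ, y ^ k * g ∈ pE p E) : IsCyclic (E ⧸ pE p E) := by
  obtain ⟨y, hy⟩ := h
  refine ⟨(y : E ⧸ pE p E), fun x => ?_⟩
  obtain ⟨g, rfl⟩ := QuotientGroup.mk_surjective x
  obtain ⟨k, hk⟩ := hy g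
  refine ⟨-k, ?_⟩
  change ((y : E ⧸ pE p E)) ^ (-k) = (g : E ⧸ pE p E)
  rw [← QuotientGroup.mk_zpow, QuotientGroup.eq, zpow_neg, inv_inv]
  exact hk

theorem cyc_surj {p : ℕ} {E H : Type} [Group E] [Group H] (π : E →* H)
    (hπ : Function.Surjective π) (h : IsCyclic (E ⧸ pE p E)) : IsCyclic (H ⧸ pE p H) :=
  cyc_to (cyc_quot π hπ (cyc_of h))

theorem UnrAff.congr {κ E H : Type} [Field κ] [Group E] [Group H] (e : E ≃* H)
    (h : UnrAff κ E) : UnrAff κ H := by
  obtain ⟨L, i1, i2, i3, i4, i5, i6, ⟨γ⟩, hU⟩ := h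
  exact ⟨L, i1, i2, i3, i4, i5, i6, ⟨γ.trans e⟩, hU⟩

theorem UnrAff.of_surj {κ E H : Type} [Field κ] [Finite κ] [Group E] [Finite E] [Group H]
    (f : E →* H) (hf : Function.Surjective f) (h : UnrAff κ E) : UnrAff κ H :=
  UnrAff.congr (QuotientGroup.quotientKerEquivOfSurjective f hf) (unrAff_quot κ E f.ker h)

theorem occ_surj (p : ℕ) [Fact p.Prime] (κ : Type) [Field κ] [Finite κ] [CharP κ p]
    (E H : Type) [Group E] [Finite E] [Group H] (f : E →* H) (hf : Function.Surjective f)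
    (hcyc : IsCyclic (E ⧸ pE p E)) (hH : Hyp p E f.ker) (h : UnrAff κ H) : UnrAff κ E :=
  (occ_iff p κ E f.ker hcyc hH).1
    (UnrAff.congr (QuotientGroup.quotientKerEquivOfSurjective f hf).symm h)

/-- The local reduction. -/
theorem local_red (p : ℕ) [Fact p.Prime] (A : Type) [Group A] [Finite A]
    (hA : IsCyclic (A ⧸ pE p A)) :
    ∃ (N : Subgroup A) (_ : N.Normal), IsCyclic ((A ⧸ N) ⧸ pE p (A ⧸ N)) ∧ Red p (A ⧸ N) ∧
      ∀ (κ : Type) [Field κ] [Finite κ] [CharP κ p], UnrAff κ (A ⧸ N) ↔ UnrAff κ A := by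
  obtain ⟨N, hN, hH, hR⟩ := exists_red p A
  exact ⟨N, hN, cyc_surj (QuotientGroup.mk' N) (QuotientGroup.mk'_surjective N) hA, hR,
    fun κ _ _ _ => occ_iff p κ A N hA hH⟩

/-! ### Semidirect products -/

section

variable (p : ℕ) [Fact p.Prime] {B : Type} [Group B]

theorem quasi_self : pE p (pE p B) = ⊤ := by
  rw [eq_top_iff]
  rintro ⟨x, hx⟩ -
  induction hx using Subgroup.closure_induction with
  | mem x hx =>
    obtain ⟨k, hk⟩ := hx
    exact Subgroup.subset_closure ⟨k, Subtype.ext hk⟩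
  | one => exact one_mem _
  | mul x y hx hy h1 h2 => exact mul_mem (h1) (h2)
  | inv x hx h => exact inv_mem h

theorem sylow_le_pE (Q : Sylow p B) : (Q : Subgroup B) ≤ pE p B := by
  intro g hg
  obtain ⟨k, hk⟩ := Q.2 ⟨g, hg⟩
  exact Subgroup.subset_closure ⟨k, by simpa using congrArg Subtype.val hk⟩

variable [Finite B]

open scoped Pointwise in
/-- A normal `p`-subgroup of `p(B)` is trivial if `B` has no normal `p`-subgroups. -/
theorem op_sub (hO : ∀ T : Subgroup B, T.Normal → (∀ g ∈ T, ∃ k : ℕ, g ^ p ^ k = 1) → T = ⊥)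
    (T : Subgroup (pE p B)) (hT : T.Normal) (hp : ∀ g ∈ T, ∃ k : ℕ, g ^ p ^ k = 1) : T = ⊥ := by
  let T' : Subgroup B := T.map (pE p B).subtype
  have hT'p : IsPGroup p T' := by
    rintro ⟨g, hg⟩
    obtain ⟨x, hx, rfl⟩ := hg
    obtain ⟨k, hk⟩ := hp x hx
    refine ⟨k, Subtype.ext ?_⟩
    have := congrArg (Subtype.val) hk
    simpa using this
  have hnorm : ∀ b ∈ pE p B, ∀ t ∈ T', b * t * b⁻¹ ∈ T' := by
    rintro b hb _ ⟨x, hx, rfl⟩
    exact ⟨⟨b, hb⟩ * x * ⟨b, hb⟩⁻¹, hT.conj_mem x hx _, rfl⟩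
  have hle : ∀ Q : Sylow p B, T' ≤ Q := by
    intro Q
    have h1 : (Q : Subgroup B) ≤ Subgroup.normalizer T' := by
      intro b hb
      rw [Subgroup.mem_normalizer_iff]
      intro t
      refine ⟨fun ht => hnorm b (sylow_le_pE p Q hb) t ht, fun ht => ?_⟩
      have := hnorm b⁻¹ (inv_mem (sylow_le_pE p Q hb)) _ ht
      have h2 : b⁻¹ * (b * t * b⁻¹) * b⁻¹⁻¹ = t := by group
      rwa [h2] at this
    have h2 : IsPGroup p (T' ⊔ Q : Subgroup B) := IsPGroup.to_sup_of_normal_left' hT'p Q.2 h1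
    have h3 := Q.3 h2 le_sup_right
    rw [← h3]
    exact le_sup_left
  obtain ⟨Q⟩ : Nonempty (Sylow p B) := inferInstance
  have hcore : T' ≤ (Q : Subgroup B).normalCore := by
    intro t ht b
    have h1 : t ∈ ((b⁻¹ • Q : Sylow p B) : Subgroup B) := hle (b⁻¹ • Q) ht
    have h2 : t ∈ MulAut.conj b⁻¹ • (Q : Subgroup B) := h1
    rw [Subgroup.mem_pointwise_smul_iff_inv_smul_mem] at h2
    have h3 : (MulAut.conj b⁻¹)⁻¹ • t = b * t * b⁻¹ := by
      rw [← map_inv, inv_inv, MulAut.smul_def, MulAut.conj_apply]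
    rw [h3] at h2
    exact h2
  have h0 := hO (Q : Subgroup B).normalCore inferInstance (by
    intro g hg
    obtain ⟨k, hk⟩ := Q.2 ⟨g, (Subgroup.normalCore_le _) hg⟩
    exact ⟨k, by simpa using congrArg Subtype.val hk⟩)
  rw [h0, le_bot_iff, Subgroup.map_eq_bot_iff_of_injective _ (Subgroup.subtype_injective _)]
    at hcore
  exact hcore

omit [Finite B] in
theorem center_sub (hC : Subgroup.centralizer (pE p B : Set B) = ⊥) :
    Subgroup.center (pE p B) = ⊥ := by
  rw [eq_bot_iff]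
  intro z hz
  have h1 : (z : B) ∈ Subgroup.centralizer (pE p B : Set B) := by
    rw [Subgroup.mem_centralizer_iff]
    intro h hh
    exact congrArg Subtype.val (Subgroup.mem_center_iff.1 hz ⟨h, hh⟩)
  rw [hC, Subgroup.mem_bot] at h1
  rw [Subgroup.mem_bot]
  exact Subtype.ext h1

/-- A reduced cyclic-by-quasi-`p` group is a quotient of a semidirect product. -/
theorem exists_semi (hcyc : IsCyclic (B ⧸ pE p B))
    (hC : Subgroup.centralizer (pE p B : Set B) = ⊥) :
    ∃ (a : MulAut (pE p B)), ¬ p ∣ orderOf a ∧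
      ∃ f : (pE p B) ⋊[(Subgroup.zpowers a).subtype] (Subgroup.zpowers a) →* B,
        Function.Surjective f := by
  haveI hPn : (pE p B).Normal := pE_norm p B
  obtain ⟨b, hb⟩ := cyc_of hcyc
  obtain ⟨s, m, hm, hn⟩ := Nat.exists_eq_pow_mul_and_not_dvd (orderOf_pos b).ne' p
    (Fact.out : p.Prime).ne_one
  let y : B := b ^ p ^ s
  have hyo : y ^ m = 1 := by
    change (b ^ p ^ s) ^ m = 1
    rw [← pow_mul, ← hn, pow_orderOf_eq_one]
  let c : B →* MulAut (pE p B) := MulAut.conjNormal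
  have hcv : ∀ (g : B) (x : pE p B), ((c g x : pE p B) : B) = g * x * g⁻¹ := fun g x =>
    MulAut.conjNormal_apply g x
  have hc : Function.Injective c := by
    rw [injective_iff_map_eq_one]
    intro g hg
    have h1 : g ∈ Subgroup.centralizer (pE p B : Set B) := by
      rw [Subgroup.mem_centralizer_iff]
      intro h hh
      have h2 := hcv g ⟨h, hh⟩
      rw [hg] at h2
      have h3 : h = g * h * g⁻¹ := h2
      calc h * g = (g * h * g⁻¹) * g := by rw [← h3]
        _ = g * h := by group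
    rw [hC, Subgroup.mem_bot] at h1
    exact h1
  -- `y` generates modulo `p(B)`
  have hy : ∀ g : B, ∃ k : ℤ, y ^ k * g ∈ pE p B := by
    intro g
    -- `b` is a power of `y` modulo `p(B)`
    let M := Nat.card (B ⧸ pE p B)
    have hM : ¬ p ∣ M := card_quot_pE p
    have hcop : Nat.Coprime (p ^ s) M :=
      Nat.Coprime.pow_left s ((Nat.Prime.coprime_iff_not_dvd Fact.out).2 hM)
    have hbez := Nat.gcd_eq_gcd_ab (p ^ s) M
    rw [Nat.Coprime.gcd_eq_one hcop] at hbez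
    obtain ⟨k, hk⟩ := hb g
    refine ⟨Nat.gcdA (p ^ s) M * k, ?_⟩
    have h1 : ((y ^ (Nat.gcdA (p ^ s) M * k) * g : B) : B ⧸ pE p B) = 1 := by
      have h2 : ((b ^ k * g : B) : B ⧸ pE p B) = 1 := (QuotientGroup.eq_one_iff _).2 hk
      have h3 : ((b : B ⧸ pE p B)) ^ (M : ℤ) = 1 := by
        rw [zpow_natCast]
        exact pow_card_eq_one'
      rw [QuotientGroup.mk_mul, QuotientGroup.mk_zpow] at h2 ⊢
      have h4 : ((y : B) : B ⧸ pE p B) ^ (Nat.gcdA (p ^ s) M * k) = (b : B ⧸ pE p B) ^ k := by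
        change (((b ^ p ^ s : B)) : B ⧸ pE p B) ^ (Nat.gcdA (p ^ s) M * k) = _
        rw [QuotientGroup.mk_pow, ← zpow_natCast, ← zpow_mul]
        have h5 : ((p ^ s : ℕ) : ℤ) * (Nat.gcdA (p ^ s) M * k) =
            k - (M : ℤ) * (Nat.gcdB (p ^ s) M * k) := by
          have : ((p ^ s : ℕ) : ℤ) * Nat.gcdA (p ^ s) M = 1 - (M : ℤ) * Nat.gcdB (p ^ s) M := by
            push_cast at hbez ⊢
            linarith
          rw [← mul_assoc, this]
          ring
        rw [h5, zpow_sub, zpow_mul (b : B ⧸ pE p B) (M : ℤ), h3, one_zpow, inv_one, mul_one]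
      rw [h4]
      exact h2
    exact (QuotientGroup.eq_one_iff _).1 h1
  refine ⟨c y, ?_, ?_⟩
  · intro hd
    have h1 : (c y) ^ m = 1 := by rw [← map_pow, hyo, map_one]
    exact hm (hd.trans (orderOf_dvd_of_pow_eq_one h1))
  · have hex : ∀ u : Subgroup.zpowers (c y), ∃ g : B, c g = u := by
      rintro ⟨u, j, hj⟩
      refine ⟨y ^ j, ?_⟩
      rw [map_zpow]
      exact hj
    choose r hr using hex
    let r' : Subgroup.zpowers (c y) →* B := MonoidHom.mk' r (fun u v => hc (by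
      rw [map_mul, hr, hr, hr]
      rfl))
    have hr' : ∀ u, c (r' u) = u := hr
    refine ⟨SemidirectProduct.lift (pE p B).subtype r' (fun u => ?_), ?_⟩
    · ext x
      change (((u : MulAut (pE p B)) x : pE p B) : B) = r' u * x * (r' u)⁻¹
      rw [← hcv, hr']
    · intro g
      obtain ⟨k, hk⟩ := hy g
      have h1 : r' ⟨(c y) ^ (-k), Subgroup.zpow_mem _ (Subgroup.mem_zpowers _) _⟩ = y ^ (-k) := by
        apply hc
        rw [hr', map_zpow]
      refine ⟨SemidirectProduct.inr ⟨(c y) ^ (-k), Subgroup.zpow_mem _ (Subgroup.mem_zpowers _) _⟩ *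
        SemidirectProduct.inl ⟨y ^ k * g, hk⟩, ?_⟩
      rw [map_mul, SemidirectProduct.lift_inr, SemidirectProduct.lift_inl, h1]
      change y ^ (-k) * (y ^ k * g) = g
      group

/-- Semidirect products of quasi-`p` groups and cyclic groups are cyclic-by-quasi-`p`. -/
theorem semi_cyc (P : Type) [Group P] (hP : pE p P = ⊤) (a : MulAut P) :
    IsCyclic ((P ⋊[(Subgroup.zpowers a).subtype] (Subgroup.zpowers a)) ⧸
      pE p (P ⋊[(Subgroup.zpowers a).subtype] (Subgroup.zpowers a))) := by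
  apply cyc_to
  refine ⟨SemidirectProduct.inr ⟨a, Subgroup.mem_zpowers a⟩, fun g => ?_⟩
  obtain ⟨k, hk⟩ := g.right.2
  refine ⟨-k, ?_⟩
  have hk' : (⟨a, Subgroup.mem_zpowers a⟩ : Subgroup.zpowers a) ^ k = g.right := Subtype.ext hk
  have h1 : ((SemidirectProduct.inr (⟨a, Subgroup.mem_zpowers a⟩ : Subgroup.zpowers a) :
      P ⋊[(Subgroup.zpowers a).subtype] (Subgroup.zpowers a)) ^ (-k) * g).right = 1 := by
    rw [← map_zpow, SemidirectProduct.mul_right, SemidirectProduct.right_inr, ← hk', zpow_neg,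
      inv_mul_cancel]
  have h2 : (SemidirectProduct.inr (⟨a, Subgroup.mem_zpowers a⟩ : Subgroup.zpowers a) :
      P ⋊[(Subgroup.zpowers a).subtype] (Subgroup.zpowers a)) ^ (-k) * g =
      SemidirectProduct.inl ((SemidirectProduct.inr (⟨a, Subgroup.mem_zpowers a⟩ :
        Subgroup.zpowers a) :
      P ⋊[(Subgroup.zpowers a).subtype] (Subgroup.zpowers a)) ^ (-k) * g).left := by
    apply SemidirectProduct.ext
    · simp
    · rw [h1]; simp
  rw [h2]
  apply map_pE_le p (SemidirectProduct.inl)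
  refine ⟨_, ?_, rfl⟩
  rw [hP]
  trivial

end

end Pool.Agent.H17Z
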